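import Pool.Agent.K1H17.TP.Cv
import Pool.Agent.K1H17.IS.Lg
import Pool.Agent.TH122.AB.Gal
import Pool.Agent.W619.TW.Rot

/-! Ramification indices of Kummer extensions. -/

set_option autoImplicit false
set_option linter.overlappingInstances false
set_option linter.unusedSectionVars false
set_option linter.unusedVariables false

open FF IntermediateField Pool.Agent.W619.PQ Pool.Agent.W619.PL Pool.Agent.W619.TW
  Pool.Agent.W603.LV Pool.Agent.W619.Y Pool.Agent.W672.PG Pool.Agent.W824.PG Pool.Agent.Y174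
  Pool.Agent.K1H17.IS

namespace Pool.Agent.K1H17.TP

section

variable {k : Type} [Field k] [CharZero k] [IsAlgClosed k] {K : Type} [Field K] [Algebra k K]

theorem rot_fixK (w : Place k K) (g : K ≃ₐ[k] K) {ζ : k} {e : ℕ} (hζ : IsPrimitiveRoot ζ e)
    {z : K} (hz : z ≠ 0)
    (h : Ge w (w.ord z + 1) (g z - algebraMap k K (ζ ^ w.ord z) * z)) {M : ℕ} (hM : 0 < M)
    (hgM : g (z ^ M) = z ^ M) {N : ℕ} (hN : (e : ℤ) ∣ N * w.ord z) : (g ^ N) z = z := by
  have hMC : NeZero (M : k) := ⟨by exact_mod_cast hM.ne'⟩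
  obtain ⟨ξ0, hξ0⟩ := HasEnoughRootsOfUnity.exists_primitiveRoot k M
  have hξK : IsPrimitiveRoot (algebraMap k K ξ0) M :=
    hξ0.map_of_injective (algebraMap k K).injective
  have h1 : (g z / z) ^ M = 1 := by
    rw [div_pow, ← map_pow, hgM, div_self (pow_ne_zero _ hz)]
  have hMne : NeZero M := ⟨hM.ne'⟩
  obtain ⟨i, -, hi⟩ := hξK.eq_pow_of_pow_eq_one h1
  obtain ⟨ξ, hξ⟩ : ∃ ξ : k, ξ = ξ0 ^ i := ⟨_, rfl⟩
  have hgz : g z = algebraMap k K ξ * z := by
    rw [hξ, map_pow, hi, div_mul_cancel₀ _ hz]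
  have hξζ : ξ = ζ ^ w.ord z := by
    by_contra hne
    rw [hgz, ← sub_mul, ← map_sub] at h
    have hc : ξ - ζ ^ w.ord z ≠ 0 := sub_ne_zero.2 hne
    have hcK : algebraMap k K (ξ - ζ ^ w.ord z) ≠ 0 := by
      rw [Ne, map_eq_zero]
      exact hc
    rcases h with h | h
    · exact mul_ne_zero hcK hz h
    · rw [w.ord_mul hcK hz, w.ord_const hc] at h
      omega
  have hpow : ∀ j : ℕ, (g ^ j) z = algebraMap k K (ξ ^ j) * z := by
    intro j
    induction j with
    | zero => simp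
    | succ j ih =>
      rw [pow_succ', AlgEquiv.mul_apply, ih, map_mul, AlgEquiv.commutes, hgz, pow_succ, map_mul]
      ring
  rw [hpow, hξζ]
  obtain ⟨c, hc⟩ := hN
  have h2 : (ζ ^ w.ord z) ^ N = 1 := by
    rw [← zpow_natCast, ← zpow_mul, mul_comm, hc, zpow_mul, zpow_natCast, hζ.pow_eq_one, one_zpow]
  rw [h2, map_one, one_mul]

/-- The ramification indices of a Kummer extension. -/
theorem ram {G : Subgroup (K ≃ₐ[k] K)} [Finite G] {v : Place k (fixedField G)} {w : Place k K}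
    {e : ℕ} (hwv : LiesOn w v e) {s : ℕ} {z : Fin s → K} {m : Fin s → ℕ} (hm : ∀ j, 0 < m j)
    (hz : ∀ j, z j ≠ 0) {b : Fin s → fixedField G} (hzb : ∀ j, z j ^ m j = b j)
    (hgen : ∀ σ ∈ G, (∀ j, σ (z j) = z j) → σ = 1) {N : ℕ}
    (hN : ∀ j, (m j : ℤ) ∣ N * v.ord (b j)) : e ∣ N := by
  obtain ⟨w0, e0, I, hwv0, hcard, hI⟩ := exists_inertia G v
  have he : e = e0 := index_unique hwv hwv0
  obtain ⟨σ, hσI, hord, ζ, hζ, hrot⟩ := Pool.Agent.W619.TW.exists_rot_generator w0 I hI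
  rw [hcard] at hord hζ
  have hfix : (σ : K ≃ₐ[k] K) ^ N = 1 := by
    refine hgen _ (G.pow_mem σ.2 N) fun j => ?_
    refine rot_fixK w0 σ hζ (hz j) (hrot _ (hz j)) (hm j) ?_ ?_
    · rw [hzb]
      exact (b j).2 σ
    · obtain ⟨c, hc⟩ := hN j
      refine ⟨c, ?_⟩
      have h2 : w0.ord (z j ^ m j) = e0 * v.ord (b j) := by
        rw [hzb]
        exact hwv0.2 (b j)
      rw [w0.ord_pow] at h2
      have hM0 : (m j : ℤ) ≠ 0 := by
        have := hm j
        omega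
      apply mul_left_cancel₀ hM0
      calc (m j : ℤ) * (N * w0.ord (z j)) = N * (m j * w0.ord (z j)) := by ring
        _ = e0 * (N * v.ord (b j)) := by rw [h2]; ring
        _ = m j * (e0 * c) := by rw [hc]; ring
  rw [he, ← hord]
  exact orderOf_dvd_of_pow_eq_one hfix

end

end Pool.Agent.K1H17.TP
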