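import Pool.Agent.K1H17.TP.Defs

/-! The weights of the monomial places of a cover of a product. -/

set_option autoImplicit false

namespace Pool.Agent.K1H17.TP

section

variable {s r : ℕ}

variable {A : Fin s → Fin r → ℤ} {m : Fin s → ℕ} {α : Fin r → ℚ}

theorem adm_single (hm : ∀ j, 0 < m j) (i : Fin r) : Adm A m (Pi.single i (∏ j, m j)) := by
  have hM : 0 < ∏ j, m j := Finset.prod_pos fun j _ => hm j
  refine ⟨fun h => ?_, fun j => ?_⟩
  · have h1 := congrFun h i
    rw [Pi.single_eq_same, Pi.zero_apply] at h1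
    omega
  · refine Finset.dvd_sum fun i' _ => ?_
    by_cases h : i' = i
    · subst h
      rw [Pi.single_eq_same]
      refine Dvd.dvd.mul_left ?_ _
      exact_mod_cast Finset.dvd_prod_of_mem m (Finset.mem_univ j)
    · rw [Pi.single_eq_of_ne h]
      simp

theorem pos_of_adm (hm : ∀ j, 0 < m j) (h1 : ∀ v, Adm A m v → 1 ≤ wt α v) (i : Fin r) :
    0 < α i := by
  have hM : 0 < ∏ j, m j := Finset.prod_pos fun j _ => hm j
  have h2 := h1 _ (adm_single hm i)
  rw [wt, Finset.sum_eq_single i] at h2
  · rw [Pi.single_eq_same] at h2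
    by_contra hcon
    push Not at hcon
    have h3 : α i * ((∏ j, m j : ℕ) : ℚ) ≤ 0 := mul_nonpos_of_nonpos_of_nonneg hcon (by positivity)
    linarith
  · intro i' _ h
    rw [Pi.single_eq_of_ne h]
    simp
  · intro h
    exact absurd (Finset.mem_univ _) h

theorem exists_den (α : Fin r → ℚ) : ∃ Q : ℕ, 0 < Q ∧ ∀ v : Fin r → ℕ, ∃ z : ℤ, wt α v * Q = z := by
  refine ⟨∏ i, (α i).den, Finset.prod_pos fun i _ => (α i).den_pos, fun v => ?_⟩
  have h1 : ∀ i, ∃ z : ℤ, α i * v i * ((∏ i, (α i).den : ℕ) : ℚ) = z := by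
    intro i
    obtain ⟨c, hc⟩ := Finset.dvd_prod_of_mem (fun i => (α i).den) (Finset.mem_univ i)
    refine ⟨(α i).num * v i * c, ?_⟩
    rw [hc]
    push_cast
    have h2 := Rat.mul_den_eq_num (α i)
    calc α i * v i * ((α i).den * c) = (α i * (α i).den) * v i * c := by ring
      _ = _ := by rw [h2]
  choose z hz using h1
  refine ⟨∑ i, z i, ?_⟩
  rw [wt, Finset.sum_mul, Int.cast_sum]
  exact Finset.sum_congr rfl fun i _ => hz i

theorem arith (hm : ∀ j, 0 < m j) (h1 : ∀ v, Adm A m v → 1 ≤ wt α v) :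
    ∃ x : Fin r → ℚ, (∀ i, Crit A m α i → x i = α i) ∧ (∀ i, ¬ Crit A m α i → x i < α i) ∧
      (∀ i, 0 ≤ x i) ∧ ∀ v, Adm A m v → 1 ≤ ∑ i, x i * v i := by
  classical
  have hpos := pos_of_adm hm h1
  obtain ⟨Q, hQ, hQz⟩ := exists_den α
  have hQ' : (0 : ℚ) < Q := by exact_mod_cast hQ
  have hlt : ∀ i, α i * (Q / (Q + 1)) < α i := by
    intro i
    have h2 : (Q : ℚ) / (Q + 1) < 1 := by
      rw [div_lt_one (by positivity)]
      linarith
    have := mul_lt_mul_of_pos_left h2 (hpos i)
    linarith
  refine ⟨fun i => if Crit A m α i then α i else α i * (Q / (Q + 1)), fun i hi => if_pos hi,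
    fun i hi => ?_, fun i => ?_, fun v hv => ?_⟩
  · show (if Crit A m α i then α i else α i * (Q / (Q + 1))) < α i
    rw [if_neg hi]
    exact hlt i
  · show 0 ≤ (if Crit A m α i then α i else α i * (Q / (Q + 1)))
    have h3 := hpos i
    split_ifs
    · exact h3.le
    · positivity
  · have hw := h1 v hv
    rcases hw.eq_or_lt with heq | hgt
    · have h2 : ∑ i, (if Crit A m α i then α i else α i * (Q / (Q + 1))) * (v i : ℚ) = wt α v := by
        refine Finset.sum_congr rfl fun i _ => ?_
        by_cases hi : Crit A m α i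
        · rw [if_pos hi]
        · have h3 : v i = 0 := by
            by_contra h0
            exact hi ⟨v, hv, heq.symm, h0⟩
          rw [h3]
          simp
      rw [h2]
      exact hw
    · obtain ⟨z, hz⟩ := hQz v
      have h2 : (Q : ℤ) + 1 ≤ z := by
        have h3 : (Q : ℚ) < z := by
          rw [← hz]
          have := mul_lt_mul_of_pos_right hgt hQ'
          linarith
        have h4 : (Q : ℤ) < z := by exact_mod_cast h3
        omega
      have h3 : ((Q : ℚ) + 1) ≤ wt α v * Q := by
        rw [hz]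
        exact_mod_cast h2
      have h4 : wt α v * (Q / (Q + 1)) ≤
          ∑ i, (if Crit A m α i then α i else α i * (Q / (Q + 1))) * (v i : ℚ) := by
        rw [wt, Finset.sum_mul]
        refine Finset.sum_le_sum fun i _ => ?_
        have h5 : (0 : ℚ) ≤ v i := by positivity
        have h6 : α i * (Q / (Q + 1)) ≤ if Crit A m α i then α i else α i * (Q / (Q + 1)) := by
          split_ifs
          · exact (hlt i).le
          · exact le_rfl
        calc α i * v i * (Q / (Q + 1)) = α i * (Q / (Q + 1)) * v i := by ring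
          _ ≤ _ := mul_le_mul_of_nonneg_right h6 h5
      refine le_trans ?_ h4
      rw [← mul_div_assoc, le_div_iff₀ (by positivity)]
      linarith

end

end Pool.Agent.K1H17.TP
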