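import Pool.Agent.K1H17.TP.Lb
import Pool.Agent.K1H17.TP.Ar
import Pool.Agent.K1H17.IS.Fw

/-! Divisors which are members of linear systems without base points, and their orders. -/

set_option autoImplicit false
set_option linter.overlappingInstances false
set_option linter.unusedSectionVars false
set_option linter.unusedVariables false

open FF IntermediateField Pool.Agent.W619.PQ Pool.Agent.W619.PL Pool.Agent.W619.TW
  Pool.Agent.W603.LV Pool.Agent.W619.Y Pool.Agent.W672.PG Pool.Agent.W824.PG Pool.Agent.Y174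
  Pool.Agent.K1H17.IS

namespace Pool.Agent.K1H17.TP

theorem DivData.ev_scale {K : Type} [Field K] (D : DivData K) {o o' : K → ℤ} {c : ℤ} (hc : 0 ≤ c)
    (h : ∀ x, o x = c * o' x) : D.ev o = c * D.ev o' := by
  have h1 : D.S.inf' D.ne o = c * D.S.inf' D.ne o' := by
    apply le_antisymm
    · obtain ⟨b, hb, hb'⟩ := Finset.exists_mem_eq_inf' D.ne o'
      rw [hb', ← h]
      exact Finset.inf'_le _ hb
    · refine Finset.le_inf' _ _ fun s hs => ?_
      rw [h]
      exact mul_le_mul_of_nonneg_left (Finset.inf'_le _ hs) hc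
  rw [DivData.ev, DivData.ev, h1, h]
  ring

section

variable {k : Type} {L : Type} [Field k] [Field L] [Algebra k L]

theorem ord_prod_zpow (P : Place k L) {J : Type} (s : Finset J) (g : J → L) (hg : ∀ j, g j ≠ 0)
    (e : J → ℤ) : P.ord (∏ j ∈ s, g j ^ e j) = ∑ j ∈ s, e j * P.ord (g j) := by
  classical
  induction s using Finset.induction_on with
  | empty => simp [P.ord_one]
  | insert a s ha ih =>
    rw [Finset.prod_insert ha, Finset.sum_insert ha, P.ord_mul (zpow_ne_zero _ (hg a))
      (Finset.prod_ne_zero_iff.2 fun j _ => zpow_ne_zero _ (hg j)), ih, P.ord_zpow]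

/-- The multiplicities of the divisors at a place of the cover are admissible. -/
theorem dvd_of_place {s r : ℕ} {K : Fin r → Type} [∀ i, Field (K i)] [∀ i, Algebra k (K i)]
    (φ : ∀ i, K i →ₐ[k] L) (D : ∀ i, DivData (K i)) {A : Fin s → Fin r → ℤ} {m : Fin s → ℕ}
    {z : Fin s → L} (hz0 : ∀ j, z j ≠ 0) (hz : ∀ j, z j ^ m j = ∏ i, φ i (D i).τ ^ A j i)
    (hN : ∀ j i, (m j : ℤ) ∣ A j i * (D i).N) (w : Place k L) (j : Fin s) :
    (m j : ℤ) ∣ ∑ i, A j i * (D i).ev (fun x => w.ord (φ i x)) := by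
  have h0 : ∀ i, φ i (D i).τ ≠ 0 := fun i => by simpa using (D i).ne0
  have h1 := congrArg w.ord (hz j)
  rw [w.ord_pow, ord_prod_zpow w _ _ h0] at h1
  have h2 : ∑ i, A j i * (D i).ev (fun x => w.ord (φ i x)) = m j * w.ord (z j) -
      ∑ i, A j i * (D i).N * (D i).S.inf' (D i).ne (fun x => w.ord (φ i x)) := by
    rw [h1, ← Finset.sum_sub_distrib]
    refine Finset.sum_congr rfl fun i _ => ?_
    rw [DivData.ev]
    ring
  rw [h2]
  refine dvd_sub (dvd_mul_right _ _) (Finset.dvd_sum fun i _ => ?_)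
  exact Dvd.dvd.mul_right (hN j i) _

end

section

variable {k : Type} {L : Type} [Field k] [CharZero k] [Field L] [Algebra k L]

/-- **The lower bound for the Kodaira dimension.** -/
theorem low {s r : ℕ} {a A' : Fin r → ℕ} (M : Fin r → IntermediateField k L)
    (D : ∀ i, DivData (M i)) (halg : Algebra.IsAlgebraic ↥(⨆ i, M i) L)
    (hn : Algebra.trdeg k L = (∑ i, a i : ℕ))
    (hM : ∀ i, Algebra.trdeg k (M i) = a i) (hessL : Algebra.EssFiniteType k L)
    (hessM : ∀ i, Algebra.EssFiniteType k (M i))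
    (hD : ∀ i (q : Place k (M i)), IsDivisorial q (a i) → 0 ≤ (D i).ev q.ord)
    {A : Fin s → Fin r → ℤ} {m : Fin s → ℕ}
    {z : Fin s → L} (hz0 : ∀ j, z j ≠ 0)
    (hz : ∀ j, z j ^ m j = ∏ i, (((D i).τ : M i) : L) ^ A j i)
    (hN : ∀ j i, (m j : ℤ) ∣ A j i * (D i).N) {x : Fin r → ℚ} (hx0 : ∀ i, 0 ≤ x i)
    (hx : ∀ v, Adm A m v → 1 ≤ ∑ i, x i * v i)
    (hk : ∀ i, PairKod k (M i) (a i) (fun q => 1 - lam (x i) ((D i).ev q.ord)) (A' i)) :
    KodTr k L (∑ i, a i) (∑ i, A' i) := by
  classical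
  choose y hy using fun i => Pool.Agent.W636.PG.exists_basis k (M i) (a i) (hM i)
  choose E hE using fun i => Pool.Agent.W636.PG.exists_duals k (M i) (a i) (y i) (hy i)
  choose m' hm' ω hω1 hω2 hω3 hω4 using fun i => pairKod_form (hk i) (y i) (hy i) (E i) (hE i)
  obtain ⟨μ, hμ⟩ : ∃ μ : ℕ, μ = ∏ i, m' i := ⟨_, rfl⟩
  have hμ1 : 1 ≤ μ := by rw [hμ]; exact Nat.one_le_iff_ne_zero.2 (Finset.prod_ne_zero_iff.2 fun i _ => (by have := hm' i; omega))
  choose e he using fun i => Finset.dvd_prod_of_mem m' (Finset.mem_univ i)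
  have he1 : ∀ i, μ = e i * m' i := fun i => by rw [hμ, he i, mul_comm]
  have he0 : ∀ i, 1 ≤ e i := fun i => by
    by_contra h
    have h1 : e i = 0 := by omega
    have h2 := he1 i
    rw [h1, zero_mul] at h2
    omega
  have hlam0 : ∀ i (q : Place k (M i)), IsDivisorial q (a i) →
      0 ≤ lam (x i) ((D i).ev q.ord) := by
    intro i q hq
    rw [lam]
    split_ifs
    · exact zero_le_one
    · have h1 : (0 : ℝ) ≤ x i := by exact_mod_cast hx0 i
      have h2 : (0 : ℝ) ≤ ((D i).ev q.ord : ℤ) := by exact_mod_cast hD i q hq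
      exact mul_nonneg h1 h2
  have hF : ∀ i l, IsPluriForm k (M i) (a i) μ (fun D => ω i l D ^ e i) := by
    intro i l
    have := pluri_pow (hω1 i l) (e i)
    rwa [← he1] at this
  have hlog : ∀ i l (u : Place k (M i)), IsDivisorial u (a i) →
      LogGe (a i) u (fun D => ω i l D ^ e i) (μ * lam (x i) ((D i).ev u.ord)) := by
    intro i l u hu
    have h1 := (logGe_of_reg (hM i) (hessM i) hu (ω i l) (hω1 i l) (hω2 i l u hu)).pow (e i)
    refine h1.mono (le_of_eq ?_)
    rw [he1 i]
    push_cast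
    ring
  refine kod_lb hμ1 M halg hn hM hessL y hy E (fun i l D => ω i l D ^ e i)
    (fun i l => pow_ne_zero _ (hω3 i l)) (fun i => ?_) fun w hw => ?_
  · have h1 : (fun l : Fin (A' i) => ω i l.succ (E i) ^ e i / ω i 0 (E i) ^ e i) =
        fun l : Fin (A' i) => (ω i l.succ (E i) / ω i 0 (E i)) ^ e i := by
      funext l
      rw [div_pow]
    rw [h1]
    exact indep_pow _ (hω4 i) (e i) (he0 i)
  · by_cases htr : ∀ i (f : M i), w.ord (f : L) = 0
    · exact Or.inl htr
    right
    push Not at htr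
    obtain ⟨i0, f0, hf0⟩ := htr
    have hfac : ∀ i, ∃ (γ : ℝ) (d : ℕ), (D i).ev (fun x => w.ord (x : L)) = d ∧ 0 ≤ γ ∧
        (∀ l, LG w μ (fun p => (y i p : L)) (((ω i l (E i)) ^ e i : M i) : L) γ) ∧
        ((∃ f : M i, w.ord (algebraMap (M i) L f) ≠ 0) → d = 0 → (μ : ℝ) ≤ γ) ∧
        (μ * (x i * d) ≤ γ) := by
      intro i
      by_cases hcon : ∃ f : M i, w.ord (algebraMap (M i) L f) ≠ 0
      · obtain ⟨c, u, hu⟩ := exists_over (K := M i) w hcon
        have hdiv : IsDivisorial u (a i) := pDIVR k (M i) L (a i) _ u w c (hM i) hn hu hw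
        have hev : (D i).ev (fun x => w.ord (x : L)) = c * (D i).ev u.ord :=
          (D i).ev_scale (Int.natCast_nonneg c) hu.2
        obtain ⟨d', hd'⟩ := Int.eq_ofNat_of_zero_le (hD i u hdiv)
        have hc : (1 : ℝ) ≤ c := by exact_mod_cast hu.1
        have hc0 : 0 < c := hu.1
        have hμ0 : (0 : ℝ) ≤ μ := Nat.cast_nonneg μ
        have hl0 := hlam0 i u hdiv
        refine ⟨c * (μ * lam (x i) ((D i).ev u.ord)), c * d', ?_, by positivity, fun l => ?_,
          fun _ h0 => ?_, ?_⟩
        · rw [hev, hd']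
          push_cast
          rfl
        · exact lg_of_log (hM i) hn (hessM i) hw hu _ (hF i l) (hlog i l u hdiv) (y i) (hy i)
            (E i) (hE i)
        · have h1 : d' = 0 := by
            rcases Nat.mul_eq_zero.1 h0 with h | h
            · omega
            · exact h
          rw [hd', h1]
          have h2 : lam (x i) ((0 : ℕ) : ℤ) = 1 := by rw [lam]; exact if_pos rfl
          rw [h2, mul_one]
          nlinarith
        · by_cases h0 : d' = 0
          · rw [h0, mul_zero, Nat.cast_zero, mul_zero, mul_zero]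
            positivity
          · have h2 : lam (x i) ((D i).ev u.ord) = x i * d' := by
              rw [hd', lam, if_neg]
              · rfl
              · intro h3
                exact h0 (Int.ofNat_eq_zero.1 h3)
            rw [h2]
            apply le_of_eq
            push_cast
            ring
      · push Not at hcon
        have hev : (D i).ev (fun x => w.ord (x : L)) = 0 := by
          have := (D i).ev_scale (o := fun x => w.ord (x : L)) (o' := fun _ => 0) le_rfl
            (fun x => by rw [mul_zero]; exact hcon x)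
          rwa [zero_mul] at this
        refine ⟨0, 0, by rw [hev]; rfl, le_rfl, fun l => lg_triv (fun f => hcon f) (y i) _,
          fun h => ?_, by simp⟩
        obtain ⟨f, hf⟩ := h
        exact absurd (hcon f) hf
    choose γ d hd hγ0 hLG hγ1 hγ2 using hfac
    refine ⟨γ, ?_, hLG⟩
    by_cases hall : d = 0
    · -- some factor with multiplicity zero
      have h1 := hγ1 i0 ⟨f0, hf0⟩ (congrFun hall i0)
      exact h1.trans (Finset.single_le_sum (fun i _ => hγ0 i) (Finset.mem_univ i0))
    · have hadm : Adm A m d := by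
        refine ⟨hall, fun j => ?_⟩
        have h1 := dvd_of_place (fun i => (M i).val) D hz0 hz hN w j
        have h2 : ∑ i, A j i * (D i).ev (fun x => w.ord ((M i).val x)) =
            ∑ i, A j i * (d i : ℤ) := Finset.sum_congr rfl fun i _ => by
          rw [← hd i]
          rfl
        rw [h2] at h1
        exact h1
      have h1 := hx d hadm
      have h2 : (1 : ℝ) ≤ ∑ i, (x i : ℝ) * d i := by
        have h3 : ((1 : ℚ) : ℝ) ≤ ((∑ i, x i * d i : ℚ) : ℝ) := by exact_mod_cast h1
        push_cast at h3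
        exact h3
      have hμ0 : (0 : ℝ) ≤ μ := Nat.cast_nonneg μ
      calc (μ : ℝ) = μ * 1 := (mul_one _).symm
        _ ≤ μ * ∑ i, (x i : ℝ) * d i := mul_le_mul_of_nonneg_left h2 hμ0
        _ = ∑ i, μ * ((x i : ℝ) * d i) := by rw [Finset.mul_sum]
        _ ≤ ∑ i, γ i := Finset.sum_le_sum fun i _ => hγ2 i

end

end Pool.Agent.K1H17.TP
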