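import Pool.Agent.Y174.B7
import Pool.Agent.Y174.H3
import Pool.Agent.W140.PG.REG2
import Pool.Agent.W619.PQ.Approx

/-! Finite Galois covers of pairs: traces of sections, the numerical dimension of a cover, and the
uniqueness of the ramification index.

This file is a copy of parts of the starting files R885/W1, W1b, W1c, P11 (`cov_num`, `cov_neg`,
`index_unique`), made in order to shorten the chain of imports. -/

set_option autoImplicit false
set_option linter.overlappingInstances false
set_option linter.unusedSectionVars false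
set_option linter.unusedVariables false

open FF IntermediateField Pool.Agent.W619.PQ Pool.Agent.W619.PL Pool.Agent.W619.TW
  Pool.Agent.W603.LV Pool.Agent.W619.Y Pool.Agent.W672.PG Pool.Agent.W824.PG Pool.Agent.Y174

namespace Pool.Agent.K1H17.TP

/-- High multiples have no sections. -/
def NegB (k K : Type) [Field k] [Field K] [Algebra k K] (n : ℕ) (β : Place k K → ℝ) : Prop :=
  ∀ T : Finset K, ∃ M0 : ℕ, ∀ M : ℕ, M0 ≤ M → ∀ ω : (Fin n → Derivation k K K) → K,
    PairSec k K n β T M 1 ω → ω = 0

section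

variable {k : Type} [Field k] [CharZero k] {K L : Type} [Field K] [Field L] [Algebra k K]
  [Algebra k L] [Algebra K L] [IsScalarTower k K L]

/-- The order of a root of a monic polynomial. -/
theorem ge_root {w : Place k L} {v : Place k K} {e : ℕ} (hwv : LiesOn w v e) {p : Polynomial K}
    (hp : p.Monic) {μ : ℝ} (hμ : μ ≤ 0) (hc : ∀ j, GeR v μ (p.coeff j)) {z : L}
    (hz : Polynomial.aeval z p = 0) : GeR w (e * μ) z := by
  classical
  by_cases hz0 : z = 0
  · exact Or.inl hz0
  by_contra hcon
  have hlt : (w.ord z : ℝ) < e * μ := by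
    by_contra h
    exact hcon (Or.inr (not_lt.1 h))
  have he : (0 : ℝ) < e := by exact_mod_cast hwv.1
  have ha0 : (w.ord z : ℝ) < 0 := by nlinarith
  have hN : 0 < p.natDegree := by
    rcases Nat.eq_zero_or_pos p.natDegree with h | h
    · exfalso
      have h1 := Polynomial.eq_one_of_monic_natDegree_zero hp h
      rw [h1, map_one] at hz
      exact one_ne_zero hz
    · exact h
  rw [Polynomial.aeval_eq_sum_range, Finset.sum_range_succ, hp.coeff_natDegree, one_smul] at hz
  have h1 : GeR w (e * μ + (p.natDegree - 1 : ℕ) * w.ord z)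
      (∑ i ∈ Finset.range p.natDegree, p.coeff i • z ^ i) := by
    refine GeR.sum _ _ _ fun i hi => ?_
    rw [Algebra.smul_def]
    have hi' : i ≤ p.natDegree - 1 := by
      have := Finset.mem_range.1 hi
      omega
    have h2 : GeR w (e * μ) (algebraMap K L (p.coeff i)) := (hc i).up hwv
    have h3 : GeR w (i * w.ord z) (z ^ i) := by
      right
      rw [w.ord_pow]
      push_cast
      exact le_rfl
    refine (h2.mul h3).mono ?_
    have h4 : (i : ℝ) ≤ (p.natDegree - 1 : ℕ) := by exact_mod_cast hi'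
    nlinarith
  have h5 : z ^ p.natDegree = -(∑ i ∈ Finset.range p.natDegree, p.coeff i • z ^ i) := by
    linear_combination hz
  have h6 : GeR w (e * μ + (p.natDegree - 1 : ℕ) * w.ord z) (z ^ p.natDegree) := by
    rw [h5]
    rcases h1 with h1 | h1
    · left; rw [h1, neg_zero]
    · right; rwa [w.ord_neg]
  rcases h6 with h6 | h6
  · exact hz0 (pow_eq_zero_iff hN.ne' |>.1 h6)
  · rw [w.ord_pow] at h6
    push_cast [Nat.cast_sub hN] at h6
    linarith

end

section

variable {k : Type} {L : Type} [Field k] [CharZero k] [Field L] [Algebra k L]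

/-- the trace -/
noncomputable def gtr (G : Subgroup (L ≃ₐ[k] L)) [Fintype G] (z : L) : fixedField G :=
  ⟨∑ g : G, (g : L ≃ₐ[k] L) z, fun h => by
    change (h : L ≃ₐ[k] L) (∑ g : G, (g : L ≃ₐ[k] L) z) = ∑ g : G, (g : L ≃ₐ[k] L) z
    rw [map_sum]
    exact Fintype.sum_equiv (Equiv.mulLeft h) _ _ fun g => rfl⟩

variable (G : Subgroup (L ≃ₐ[k] L)) [Fintype G]

theorem gtr_coe (z : L) : algebraMap (fixedField G) L (gtr G z) = ∑ g : G, (g : L ≃ₐ[k] L) z := rfl

theorem gtr_add (z z' : L) : gtr G (z + z') = gtr G z + gtr G z' := by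
  apply (algebraMap (fixedField G) L).injective
  rw [map_add, gtr_coe, gtr_coe, gtr_coe, ← Finset.sum_add_distrib]
  exact Finset.sum_congr rfl fun g _ => map_add _ _ _

theorem gtr_mul (c : fixedField G) (z : L) :
    gtr G (algebraMap (fixedField G) L c * z) = c * gtr G z := by
  apply (algebraMap (fixedField G) L).injective
  rw [map_mul, gtr_coe, gtr_coe, Finset.mul_sum]
  refine Finset.sum_congr rfl fun g _ => ?_
  rw [map_mul]
  congr 1
  exact c.2 g

theorem gtr_smul (c : k) (z : L) : gtr G (c • z) = c • gtr G z := by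
  have h1 : c • z = algebraMap (fixedField G) L (algebraMap k (fixedField G) c) * z := by
    rw [← IsScalarTower.algebraMap_apply, Algebra.smul_def]
  rw [h1, gtr_mul, Algebra.smul_def]

/-- the trace as a linear map -/
noncomputable def gtrL (b : L) : L →ₗ[k] fixedField G where
  toFun z := gtr G (b * z)
  map_add' z z' := by rw [mul_add, gtr_add]
  map_smul' c z := by rw [mul_smul_comm, gtr_smul]; rfl

/-- the trace form is nondegenerate -/
theorem gtr_nondeg {ι : Type} [Fintype ι] (b : Module.Basis ι (fixedField G) L) {z : L}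
    (h : ∀ i, gtrL G (b i) z = 0) : z = 0 := by
  by_contra hz
  have h1 : ∀ u : L, gtr G (u * z) = 0 := by
    intro u
    rw [← b.sum_repr u, Finset.sum_mul]
    have h2 : ∀ s : Finset ι, gtr G (∑ i ∈ s, (b.repr u i • b i) * z) = 0 := by
      classical
      intro s
      induction s using Finset.induction_on with
      | empty =>
        rw [Finset.sum_empty]
        have h3 := gtr_smul G (0 : k) (0 : L)
        rwa [zero_smul, zero_smul] at h3
      | insert a s ha ih =>
        rw [Finset.sum_insert ha, gtr_add, ih, add_zero, Algebra.smul_def, mul_assoc, gtr_mul]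
        have h3 : gtr G (b a * z) = 0 := h a
        rw [h3, mul_zero]
    exact h2 _
  have h2 := h1 (z⁻¹)
  rw [inv_mul_cancel₀ hz] at h2
  have h3 := congrArg (algebraMap (fixedField G) L) h2
  rw [gtr_coe, map_zero] at h3
  simp only [map_one, Finset.sum_const, nsmul_eq_mul, mul_one] at h3
  have hchar : CharZero L := charZero_of_injective_algebraMap (algebraMap k L).injective
  have h4 : (Finset.univ : Finset G).card = 0 := by exact_mod_cast h3
  rw [Finset.card_eq_zero] at h4
  exact Finset.notMem_empty (1 : G) (h4 ▸ Finset.mem_univ _)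

end

section

variable {k : Type} {L : Type} [Field k] [CharZero k] [Field L] [Algebra k L]

/-- Traces of sections are sections. -/
theorem tr_sec {n m : ℕ} (hn : Algebra.trdeg k L = n) (hessL : Algebra.EssFiniteType k L)
    (G : Subgroup (L ≃ₐ[k] L)) [Fintype G] (hnK : Algebra.trdeg k (fixedField G) = n)
    (hessK : Algebra.EssFiniteType k (fixedField G)) (δ : Place k (fixedField G) → ℝ)
    (β : Place k L → ℝ)
    (hβ : ∀ v, IsDivisorial v n → ∀ w e, LiesOn w v e → β w ≤ 1 - e * (1 - δ v))
    (ext : Derivation k (fixedField G) (fixedField G) → Derivation k L L)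
    (hext : ∀ D (f : fixedField G), ext D (algebraMap (fixedField G) L f) =
      algebraMap (fixedField G) L (D f))
    (hext2 : ∀ D (D'' : Derivation k L L), (∀ f : fixedField G,
      D'' (algebraMap (fixedField G) L f) = algebraMap (fixedField G) L (D f)) → D'' = ext D)
    {S : Finset L} {T : Finset (fixedField G)} (hT1 : 1 ∈ T) (b : L)
    (hT : ∀ s ∈ S, ∀ j, (minpoly (fixedField G) (b * s)).coeff j ∈ T)
    {ω : (Fin n → Derivation k L L) → L} (hω : PairSec k L n β S m 1 ω) :
    PairSec k (fixedField G) n δ T m 1 (fun D => gtrL G b (ω fun j => ext (D j))) := by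
  classical
  have hfin := fixed_finite G
  have hVlin : ∀ (X : Matrix (Fin n) (Fin n) (fixedField G))
      (D : Fin n → Derivation k (fixedField G) (fixedField G)),
      ω (fun i => ext (∑ j, X i j • D j)) =
        algebraMap (fixedField G) L (X.det ^ m) * ω (fun j => ext (D j)) := by
    intro X D
    have e1 : (fun j => ext (∑ l, X j l • D l)) = fun j => ∑ l,
        (X.map (algebraMap (fixedField G) L)) j l • ext (D l) := by
      funext j
      symm
      apply hext2
      intro f
      rw [Pool.Agent.W721.PG.EFF2.der_sum, Pool.Agent.W721.PG.EFF2.der_sum, map_sum]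
      refine Finset.sum_congr rfl fun l _ => ?_
      rw [hext, map_mul]
      rfl
    have e3 : (X.map (algebraMap (fixedField G) L)).det = algebraMap (fixedField G) L X.det := by
      rw [RingHom.map_det]
      rfl
    rw [e1, hω.1, e3, map_pow]
  refine ⟨?_, ?_⟩
  · intro X D
    change gtr G (b * ω (fun i => ext (∑ j, X i j • D j))) =
      X.det ^ m * gtr G (b * ω fun j => ext (D j))
    rw [hVlin, ← gtr_mul]
    congr 1
    ring
  · intro v hv D hD
    obtain ⟨w, e, I, hwv, hcard, hI⟩ := exists_inertia G v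
    have he0 : 0 < e := hwv.1
    -- the minimum
    have hTne : (T.filter (· ≠ 0)).Nonempty := ⟨1, Finset.mem_filter.2 ⟨hT1, one_ne_zero⟩⟩
    obtain ⟨t, ht, htmin⟩ := Finset.exists_min_image (T.filter (· ≠ 0)) (fun t => v.ord t) hTne
    rw [Finset.mem_filter] at ht
    have hmin : ∀ t' ∈ T, t' ≠ 0 → v.ord t ≤ v.ord t' := fun t' h1 h2 =>
      htmin t' (Finset.mem_filter.2 ⟨h1, h2⟩)
    have hμ : ((v.ord t : ℤ) : ℝ) ≤ 0 := by
      have h1 := hmin 1 hT1 one_ne_zero
      rw [v.ord_one] at h1
      exact_mod_cast h1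
    -- the poles of the translates
    have hpole : ∀ (g : G) (s : L), s ∈ S →
        GeR w (e * v.ord t) ((g : L ≃ₐ[k] L) (b * s)) := by
      intro g s hs
      have hint : IsIntegral (fixedField G) (b * s) := Algebra.IsIntegral.isIntegral _
      refine ge_root hwv (minpoly.monic hint) hμ (fun j => ?_) ?_
      · by_cases h0 : (minpoly (fixedField G) (b * s)).coeff j = 0
        · exact Or.inl h0
        · right
          exact_mod_cast hmin _ (hT s hs j) h0
      · have h1 := minpoly.aeval (fixedField G) (b * s)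
        let g' : L ≃ₐ[fixedField G] L := AlgEquiv.ofRingEquiv (f := ((g : L ≃ₐ[k] L) : L ≃+* L))
          (fun c => c.2 g)
        have h2 : Polynomial.aeval (g' (b * s)) (minpoly (fixedField G) (b * s)) =
            g' (Polynomial.aeval (b * s) (minpoly (fixedField G) (b * s))) :=
          Polynomial.aeval_algHom_apply (g' : L →ₐ[fixedField G] L) _ _
        rw [h1, map_zero] at h2
        exact h2
    have hVreg : ∀ (g : G), GeR w (e * (v.ord t - m * δ v))
        ((g : L ≃ₐ[k] L) (b * ω fun j => ext (D j))) := by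
      intro g
      rw [← GeR.comp]
      have hov := over_comp hwv (g : L ≃ₐ[k] L) (fun z => z.2 g)
      have hdv := divisorial_up hov hv
      have hdel := hβ v hv (w.comp (g : L ≃ₐ[k] L)) e hov
      by_cases hb : b = 0
      · left; rw [hb, zero_mul]
      have hreg : ∀ D' : Fin n → Derivation k L L, (∀ j, Pres (w.comp (g : L ≃ₐ[k] L)) (D' j)) →
          GeR (w.comp (g : L ≃ₐ[k] L)) (e * v.ord t - (w.comp (g : L ≃ₐ[k] L)).ord b -
            m * β (w.comp (g : L ≃ₐ[k] L))) (ω D') := by
        intro D' hD'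
        rcases hω.2 _ hdv D' hD' with h | ⟨s', hs', hs0', hle⟩
        · exact Or.inl h
        · refine Or.inr ?_
          have h1 := hpole g s' hs'
          rw [← GeR.comp] at h1
          have h2 := h1.resolve_left (mul_ne_zero hb hs0')
          rw [Place.ord_mul _ hb hs0'] at h2
          push_cast at h2
          rw [Nat.cast_one, one_mul] at hle
          linarith
      have h1 := ge_formR hn hessL hnK hessK hov hv ω hω.1 hreg ext hext hext2 D hD
      have h2 : GeR (w.comp (g : L ≃ₐ[k] L)) ((w.comp (g : L ≃ₐ[k] L)).ord b) b := Or.inr le_rfl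
      refine (h2.mul h1).mono ?_
      have h8 : (0 : ℝ) ≤ m := Nat.cast_nonneg m
      have h9 := mul_le_mul_of_nonneg_left hdel h8
      linarith
    have h2 : GeR v ((v.ord t : ℝ) - m * δ v) (gtrL G b (ω fun j => ext (D j))) := by
      apply GeR.down hwv
      change GeR w _ (∑ g : G, (g : L ≃ₐ[k] L) (b * ω fun j => ext (D j)))
      exact GeR.sum _ _ _ fun g _ => hVreg g
    rcases h2 with h2 | h2
    · exact Or.inl h2
    · right
      refine ⟨t, ht.1, ht.2, ?_⟩
      simpa using h2

end

section

/-- Counting with a family of maps. -/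
theorem count_le {k L K : Type} [Field k] [AddCommGroup L] [Module k L] [AddCommGroup K]
    [Module k K] {ι : Type} [Fintype ι] (T : ι → L →ₗ[k] K) (hT : ∀ z, (∀ i, T i z = 0) → z = 0)
    {N : ℕ} {f : Fin N → L} (hf : LinearIndependent k f) {B : ℕ}
    (hB : ∀ i (M : ℕ) (φ : Fin M → Fin N), (LinearIndependent k fun j => T i (f (φ j))) → M ≤ B) :
    N ≤ Fintype.card ι * B := by
  classical
  set W : Submodule k L := Submodule.span k (Set.range f) with hW
  have hWN : Module.finrank k W = N := by
    rw [finrank_span_eq_card hf, Fintype.card_fin]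
  have hWf : Module.Finite k W := FiniteDimensional.span_of_finite k (Set.finite_range f)
  have hle : ∀ i, Module.finrank k (W.map (T i)) ≤ B := by
    intro i
    have h1 : W.map (T i) = Submodule.span k (Set.range fun l => T i (f l)) := by
      rw [hW, Submodule.map_span, ← Set.range_comp]
      rfl
    have hfinS : Module.Finite k (Submodule.span k (Set.range fun l => T i (f l))) :=
      FiniteDimensional.span_of_finite k (Set.finite_range _)
    obtain ⟨φ, hφ, -, hφi⟩ := Submodule.exists_fun_fin_finrank_span_eq k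
      (Set.range fun l => T i (f l))
    choose l hl using hφ
    have h2 := hB i _ l (by
      have h3 : (fun j => T i (f (l j))) = φ := funext hl
      rw [h3]
      exact hφi)
    rw [h1]
    exact h2
  let Ψ : W →ₗ[k] ∀ i, W.map (T i) := LinearMap.pi fun i =>
    ((T i).comp W.subtype).codRestrict (W.map (T i)) fun z => ⟨z, z.2, rfl⟩
  have hΨ : Function.Injective Ψ := by
    rw [← LinearMap.ker_eq_bot, LinearMap.ker_eq_bot']
    intro z hz
    apply Subtype.ext
    apply hT
    intro i
    exact congrArg Subtype.val (congrFun hz i)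
  have h1 := LinearMap.finrank_le_finrank_of_injective hΨ
  rw [hWN, Module.finrank_pi_fintype] at h1
  refine h1.trans ?_
  calc ∑ i, Module.finrank k (W.map (T i)) ≤ ∑ _i : ι, B := Finset.sum_le_sum fun i _ => hle i
    _ = Fintype.card ι * B := by rw [Finset.sum_const, Finset.card_univ, smul_eq_mul]

end

section

variable {k : Type} {L : Type} [Field k] [CharZero k] [Field L] [Algebra k L]

/-- the finite sets of functions -/
theorem exists_T (G : Subgroup (L ≃ₐ[k] L)) {ι : Type} [Fintype ι] (b : ι → L) (S : Finset L) :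
    ∃ T : Finset (fixedField G), 1 ∈ T ∧ ∀ i, ∀ s ∈ S, ∀ j,
      (minpoly (fixedField G) (b i * s)).coeff j ∈ T := by
  classical
  refine ⟨insert 1 (insert 0 (Finset.univ.biUnion fun i : ι => S.biUnion fun s =>
    (Finset.range ((minpoly (fixedField G) (b i * s)).natDegree + 1)).image
      (minpoly (fixedField G) (b i * s)).coeff)), Finset.mem_insert_self _ _, ?_⟩
  intro i s hs j
  by_cases hj : j ∈ Finset.range ((minpoly (fixedField G) (b i * s)).natDegree + 1)
  · refine Finset.mem_insert_of_mem (Finset.mem_insert_of_mem ?_)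
    rw [Finset.mem_biUnion]
    refine ⟨i, Finset.mem_univ _, ?_⟩
    rw [Finset.mem_biUnion]
    exact ⟨s, hs, Finset.mem_image_of_mem _ hj⟩
  · have h1 : (minpoly (fixedField G) (b i * s)).coeff j = 0 := by
      apply Polynomial.coeff_eq_zero_of_natDegree_lt
      rw [Finset.mem_range] at hj
      omega
    rw [h1]
    exact Finset.mem_insert_of_mem (Finset.mem_insert_self _ _)

/-- The numerical dimension of a cover. -/
theorem cov_num {n d : ℕ} (hn : Algebra.trdeg k L = n) (hessL : Algebra.EssFiniteType k L)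
    (G : Subgroup (L ≃ₐ[k] L)) [Finite G] (δ : Place k (fixedField G) → ℝ) (β : Place k L → ℝ)
    (hβ : ∀ v, IsDivisorial v n → ∀ w e, LiesOn w v e → β w ≤ 1 - e * (1 - δ v))
    (h : PairNum k (fixedField G) n δ d) : PairNum k L n β d := by
  classical
  have hfin := fixed_finite G
  have := Fintype.ofFinite G
  obtain ⟨hnK, z, hz⟩ := Pool.Agent.W721.PG.EFF2.exists_basis (fixedField G) n hn
  have hessK : Algebra.EssFiniteType k (fixedField G) := ess_down hessL z hz
  choose ext hext hext2 hext3 using Pool.Agent.Y174.pEXT k (fixedField G) L n hnK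
  obtain ⟨E, hE⟩ := Pool.Agent.W636.PG.exists_duals k (fixedField G) n z hz
  have hzL : IsTranscendenceBasis k (algebraMap (fixedField G) L ∘ z) := hz.algebraMap_comp
  have hE' : ∀ i j, ext (E i) ((algebraMap (fixedField G) L ∘ z) j) = if i = j then 1 else 0 := by
    intro i j
    rw [Function.comp_apply, hext, hE]
    split_ifs <;> simp
  let b := Module.finBasis (fixedField G) L
  intro S
  obtain ⟨T, hT1, hT⟩ := exists_T G (fun i => b i) S
  obtain ⟨C, hC⟩ := h T
  refine ⟨Module.finrank (fixedField G) L * C, fun m N hm hI => ?_⟩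
  obtain ⟨ω, hli, hω⟩ := hI
  have hf : LinearIndependent k fun l => ω l (fun j => ext (E j)) := by
    rw [Fintype.linearIndependent_iff] at hli ⊢
    intro c hc
    apply hli
    funext D
    rw [Finset.sum_apply]
    simp only [Pi.smul_apply, Pi.zero_apply]
    have h4 : ∀ l, c l • ω l D = (Matrix.of fun i j => D i ((algebraMap (fixedField G) L ∘ z) j)).det ^ m *
        (c l • ω l (fun j => ext (E j))) := by
      intro l
      rw [Pool.Agent.W636.PG.form_eq k L n m _ hzL _ hE' (ω l) (hω l).1 D, mul_smul_comm]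
    rw [Finset.sum_congr rfl fun l _ => h4 l, ← Finset.mul_sum, hc, mul_zero]
  have h1 := count_le (fun i => gtrL G (b i)) (fun z hz => gtr_nondeg G b hz) hf
    (B := C * m ^ d) (fun i M φ hφ => by
      refine hC m M hm ⟨fun j D => gtrL G (b i) (ω (φ j) fun a => ext (D a)), ?_, fun j =>
        tr_sec hn hessL G hnK hessK δ β hβ ext hext hext2 hT1 (b i) (hT i) (hω (φ j))⟩
      rw [Fintype.linearIndependent_iff] at hφ ⊢
      intro c hc
      apply hφ
      have h2 := congrFun hc E
      rw [Finset.sum_apply] at h2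
      exact h2)
  rw [Fintype.card_fin] at h1
  calc N ≤ _ := h1
    _ = _ := by ring

/-- High multiples without sections on a cover. -/
theorem cov_neg {n : ℕ} (hn : Algebra.trdeg k L = n) (hessL : Algebra.EssFiniteType k L)
    (G : Subgroup (L ≃ₐ[k] L)) [Finite G] (δ : Place k (fixedField G) → ℝ) (β : Place k L → ℝ)
    (hβ : ∀ v, IsDivisorial v n → ∀ w e, LiesOn w v e → β w ≤ 1 - e * (1 - δ v))
    (h : NegB k (fixedField G) n δ) : NegB k L n β := by
  classical
  have hfin := fixed_finite G
  have := Fintype.ofFinite G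
  obtain ⟨hnK, z, hz⟩ := Pool.Agent.W721.PG.EFF2.exists_basis (fixedField G) n hn
  have hessK : Algebra.EssFiniteType k (fixedField G) := ess_down hessL z hz
  choose ext hext hext2 hext3 using Pool.Agent.Y174.pEXT k (fixedField G) L n hnK
  obtain ⟨E, hE⟩ := Pool.Agent.W636.PG.exists_duals k (fixedField G) n z hz
  have hzL : IsTranscendenceBasis k (algebraMap (fixedField G) L ∘ z) := hz.algebraMap_comp
  have hE' : ∀ i j, ext (E i) ((algebraMap (fixedField G) L ∘ z) j) = if i = j then 1 else 0 := by
    intro i j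
    rw [Function.comp_apply, hext, hE]
    split_ifs <;> simp
  let b := Module.finBasis (fixedField G) L
  intro S
  obtain ⟨T, hT1, hT⟩ := exists_T G (fun i => b i) S
  obtain ⟨M0, hM0⟩ := h T
  refine ⟨M0, fun M hM ω hω => ?_⟩
  have h1 : ω (fun j => ext (E j)) = 0 := by
    refine gtr_nondeg G b fun i => ?_
    have h2 := hM0 M hM _ (tr_sec hn hessL G hnK hessK δ β hβ ext hext hext2 hT1 (b i) (hT i) hω)
    exact congrFun h2 E
  funext D
  rw [Pool.Agent.W636.PG.form_eq k L n M _ hzL _ hE' ω hω.1 D, h1, mul_zero]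
  rfl

end

section

variable {k L : Type} [Field k] [CharZero k] [Field L] [Algebra k L]

theorem ord_prod_ne {ι : Type*} (P : Place k L) (s : Finset ι) (g : ι → L)
    (hg : ∀ i ∈ s, g i ≠ 0) : (∏ i ∈ s, g i) ≠ 0 ∧ P.ord (∏ i ∈ s, g i) = ∑ i ∈ s, P.ord (g i) := by
  classical
  induction s using Finset.induction_on with
  | empty => exact ⟨by simp, by simp [P.ord_one]⟩
  | insert a s ha ih =>
    obtain ⟨h1, h2⟩ := ih fun i hi => hg i (Finset.mem_insert_of_mem hi)
    have h3 := hg a (Finset.mem_insert_self _ _)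
    rw [Finset.prod_insert ha, Finset.sum_insert ha]
    exact ⟨mul_ne_zero h3 h1, by rw [P.ord_mul h3 h1, h2]⟩

/-- an element which is close to `a` at the places of `S` and close to `0` at those of `T` -/
theorem approx_set (S T : Finset (Place k L)) (hST : Disjoint S T) (a : L) :
    ∃ b : L, (∀ P ∈ S, Ge P 1 (b - a)) ∧ ∀ Q ∈ T, Ge Q 1 b := by
  classical
  have h1 : ∀ P : Place k L, ∃ b : L, P ∈ S → Ge P 1 (b - a) ∧ ∀ Q ∈ (S ∪ T).erase P, Ge Q 1 b := by
    intro P
    obtain ⟨b, hb⟩ := approx_one ((S ∪ T).erase P) P (Finset.notMem_erase _ _) a 1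
    exact ⟨b, fun _ => hb⟩
  choose b hb using h1
  refine ⟨∑ P ∈ S, b P, fun P hP => ?_, fun Q hQ => ?_⟩
  · rw [← Finset.add_sum_erase _ _ hP]
    have e : b P + ∑ x ∈ S.erase P, b x - a = (b P - a) + ∑ x ∈ S.erase P, b x := by ring
    rw [e]
    refine (hb P hP).1.add (Ge.sum _ _ fun x hx => ?_)
    obtain ⟨hx1, hx2⟩ := Finset.mem_erase.1 hx
    exact (hb x hx2).2 P (Finset.mem_erase.2 ⟨hx1.symm, Finset.mem_union_left _ hP⟩)
  · refine Ge.sum _ _ fun x hx => ?_
    refine (hb x hx).2 Q (Finset.mem_erase.2 ⟨?_, Finset.mem_union_right _ hQ⟩)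
    rintro rfl
    exact Finset.disjoint_left.1 hST hx hQ

/-- **The ramification index depends only on the place of the fixed field.** -/
theorem index_unique {G : Subgroup (L ≃ₐ[k] L)} [Finite G] {v : Place k (fixedField G)}
    {w w' : Place k L} {e e' : ℕ} (h : LiesOn w v e) (h' : LiesOn w' v e') : e = e' := by
  classical
  have := Fintype.ofFinite G
  by_cases hc : ∃ g : G, w' = w.comp (g : L ≃ₐ[k] L)
  · obtain ⟨g, rfl⟩ := hc
    obtain ⟨t, ht0, ht⟩ := v.surj
    have h1 := h.2 t
    have h2 := h'.2 t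
    rw [Place.comp_ord] at h2
    have h3 : (g : L ≃ₐ[k] L) (algebraMap (fixedField G) L t) = algebraMap (fixedField G) L t :=
      t.2 g
    rw [h3, h1, ht] at h2
    have h4 : (e : ℤ) = e' := by linarith
    exact_mod_cast h4
  exfalso
  push Not at hc
  obtain ⟨t, ht0, ht⟩ := v.surj
  obtain ⟨a, ha⟩ : ∃ a, a = (algebraMap (fixedField G) L t)⁻¹ := ⟨_, rfl⟩
  have htL : algebraMap (fixedField G) L t ≠ 0 := (map_ne_zero _).2 ht0
  have ha0 : a ≠ 0 := by rw [ha]; exact inv_ne_zero htL
  have hga : ∀ g : G, (g : L ≃ₐ[k] L) a = a := by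
    intro g
    rw [ha, map_inv₀]
    congr 1
    exact t.2 g
  have hw'a : ∀ g : G, (w'.comp (g : L ≃ₐ[k] L)).ord a = - (e' : ℤ) := by
    intro g
    rw [Place.comp_ord, hga, ha, w'.ord_inv, h'.2 t, ht, mul_one]
  obtain ⟨S, hS⟩ : ∃ S : Finset (Place k L),
      S = Finset.univ.image fun g : G => w'.comp (g : L ≃ₐ[k] L) := ⟨_, rfl⟩
  obtain ⟨T, hT⟩ : ∃ T : Finset (Place k L),
      T = Finset.univ.image fun g : G => w.comp (g : L ≃ₐ[k] L) := ⟨_, rfl⟩
  have hdis : Disjoint S T := by
    rw [Finset.disjoint_left]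
    intro P hP hP'
    rw [hS, Finset.mem_image] at hP
    rw [hT, Finset.mem_image] at hP'
    obtain ⟨g1, -, h1⟩ := hP
    obtain ⟨g2, -, h2⟩ := hP'
    refine hc (g2 * g1⁻¹) ?_
    ext z
    have h3 := congrArg (fun P : Place k L => P.ord ((g1⁻¹ : G) • z)) (h1.trans h2.symm)
    simp only [Place.comp_ord] at h3
    rw [Place.comp_ord]
    have h4 : (g1 : L ≃ₐ[k] L) ((g1⁻¹ : G) • z) = z := by
      change ((g1 : L ≃ₐ[k] L) * ((g1⁻¹ : G) : L ≃ₐ[k] L)) z = z
      rw [← Subgroup.coe_mul, mul_inv_cancel]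
      rfl
    rw [h4] at h3
    exact h3
  obtain ⟨b, hb1, hb2⟩ := approx_set S T hdis a
  have he'0 : (0 : ℤ) < e' := by exact_mod_cast h'.1
  have he0 : (0 : ℤ) < e := by exact_mod_cast h.1
  have hbneg : ∀ g : G, b ≠ 0 ∧ w'.ord ((g : L ≃ₐ[k] L) b) < 0 := by
    intro g
    have h1 := hb1 (w'.comp (g : L ≃ₐ[k] L)) (by rw [hS]; exact Finset.mem_image_of_mem _ (Finset.mem_univ _))
    have h2 := hw'a g
    have hb0 : b ≠ 0 := by
      rintro rfl
      rw [zero_sub] at h1
      rcases h1 with h1 | h1
      · exact ha0 (neg_eq_zero.1 h1)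
      · rw [Place.ord_neg, h2] at h1
        linarith
    refine ⟨hb0, ?_⟩
    by_contra hcon
    push Not at hcon
    have h3 : Ge (w'.comp (g : L ≃ₐ[k] L)) 0 b := Or.inr (by rw [Place.comp_ord]; exact hcon)
    have h4 := h3.sub (h1.mono (by norm_num : (0 : ℤ) ≤ 1))
    rw [sub_sub_cancel] at h4
    have h5 := h4.resolve_left ha0
    rw [h2] at h5
    linarith
  have hb0 : b ≠ 0 := (hbneg 1).1
  have hbpos : ∀ g : G, 1 ≤ w.ord ((g : L ≃ₐ[k] L) b) := by
    intro g
    have h1 := hb2 (w.comp (g : L ≃ₐ[k] L)) (by rw [hT]; exact Finset.mem_image_of_mem _ (Finset.mem_univ _))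
    have h2 := h1.resolve_left hb0
    rwa [Place.comp_ord] at h2
  -- the norm
  have hprod : ∀ g : G, (g : L ≃ₐ[k] L) (∏ g' : G, (g' : L ≃ₐ[k] L) b) =
      ∏ g' : G, (g' : L ≃ₐ[k] L) b := by
    intro g
    rw [map_prod]
    exact Fintype.prod_equiv (Equiv.mulLeft g) _ _ fun g' => rfl
  obtain ⟨z, hz⟩ : ∃ z : fixedField G, algebraMap (fixedField G) L z =
      ∏ g' : G, (g' : L ≃ₐ[k] L) b := ⟨⟨_, fun g => hprod g⟩, rfl⟩
  have hne : ∀ g : G, (g : L ≃ₐ[k] L) b ≠ 0 := fun g => by simpa using hb0
  have h1 := h.2 z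
  have h2 := h'.2 z
  rw [hz, (ord_prod_ne w _ _ fun g _ => hne g).2] at h1
  rw [hz, (ord_prod_ne w' _ _ fun g _ => hne g).2] at h2
  have h3 : 0 < ∑ g : G, w.ord ((g : L ≃ₐ[k] L) b) :=
    Finset.sum_pos (fun g _ => by have := hbpos g; omega) ⟨1, Finset.mem_univ _⟩
  have h4 : ∑ g : G, w'.ord ((g : L ≃ₐ[k] L) b) < 0 :=
    Finset.sum_neg (fun g _ => (hbneg g).2) ⟨1, Finset.mem_univ _⟩
  rw [h1] at h3
  rw [h2] at h4
  have h5 : 0 < v.ord z := by
    by_contra hcon
    push Not at hcon
    have := mul_nonpos_of_nonneg_of_nonpos he0.le hcon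
    linarith
  have := mul_pos he'0 h5
  linarith

end

end Pool.Agent.K1H17.TP
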