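import Pool.Agent.K1H17.IS.Ga2

/-! Families of functions which are adapted to a place: the order of a linear combination is the
minimum of the orders of its terms. -/

set_option autoImplicit false
set_option linter.overlappingInstances false
set_option linter.unusedSectionVars false

open FF IntermediateField Pool.Agent.W603.LV Pool.Agent.K1H17.IS

namespace Pool.Agent.K1H17.TP

section

variable {k F : Type*} [Field k] [Field F] [Algebra k F] {v : Place k F}

/-- The order of a linear combination is the minimum of the orders of its terms. -/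
def Adp (v : Place k F) {ι : Type*} [Fintype ι] (b : ι → F) : Prop :=
  (∀ i, b i ≠ 0) ∧ ∀ (c : ι → k) (n : ℤ), Ge v n (∑ i, c i • b i) → ∀ i, c i ≠ 0 → Ge v n (b i)

theorem ge_smul {n : ℤ} {x : F} (c : k) (h : Ge v n x) : Ge v n (c • x) := by
  rw [Algebra.smul_def]
  have := (Ge.const (P := v) c).mul h
  rwa [zero_add] at this

theorem ge_lincomb {ι : Type*} [Fintype ι] {b : ι → F} {n : ℤ} {c : ι → k}
    (h : ∀ i, c i ≠ 0 → Ge v n (b i)) : Ge v n (∑ i, c i • b i) := by
  refine Ge.sum _ _ fun i _ => ?_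
  by_cases hi : c i = 0
  · rw [hi, zero_smul]; exact Ge.zero
  · exact ge_smul _ (h i hi)

theorem Adp.ord {ι : Type*} [Fintype ι] {b : ι → F} (h : Adp v b) {c : ι → k} {i : ι}
    (hi : c i ≠ 0) : ∑ i, c i • b i ≠ 0 ∧ v.ord (∑ i, c i • b i) ≤ v.ord (b i) := by
  have h0 : ∑ i, c i • b i ≠ 0 := by
    intro h0
    have h1 := (h.2 c (v.ord (b i) + 1) (Or.inl h0) i hi).resolve_left (h.1 i)
    omega
  exact ⟨h0, (h.2 c _ (Or.inr le_rfl) i hi).resolve_left (h.1 i)⟩

theorem Adp.lin {ι : Type*} [Fintype ι] {b : ι → F} (h : Adp v b) : LinearIndependent k b := by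
  rw [Fintype.linearIndependent_iff]
  intro c hc i
  by_contra hi
  exact (h.ord hi).1 hc

theorem Adp.comp {ι κ : Type*} [Fintype ι] [Fintype κ] {b : ι → F} (h : Adp v b) {j : κ → ι}
    (hj : Function.Injective j) : Adp v (b ∘ j) := by
  classical
  refine ⟨fun i => h.1 _, fun c n hn i hi => ?_⟩
  let c' : ι → k := fun l => if hl : ∃ i, j i = l then c hl.choose else 0
  have hc' : ∀ i, c' (j i) = c i := by
    intro i
    have hl : ∃ i', j i' = j i := ⟨i, rfl⟩
    show (if hl : ∃ i', j i' = j i then c hl.choose else 0) = c i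
    rw [dif_pos hl]
    exact congrArg c (hj hl.choose_spec)
  have hs : ∑ l, c' l • b l = ∑ i, c i • (b ∘ j) i := by
    rw [← Finset.sum_subset (Finset.subset_univ (Finset.univ.image j))]
    · rw [Finset.sum_image fun a _ b _ hab => hj hab]
      exact Finset.sum_congr rfl fun i _ => by rw [hc']; rfl
    · intro l _ hl
      have h1 : ¬ ∃ i, j i = l := fun ⟨i, hi⟩ => hl (Finset.mem_image.2 ⟨i, Finset.mem_univ _, hi⟩)
      show (if hl : ∃ i', j i' = l then c hl.choose else 0) • b l = 0
      rw [dif_neg h1, zero_smul]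
  exact h.2 c' n (hs ▸ hn) (j i) (by rw [hc']; exact hi)

/-- The orders of the elements of a finite-dimensional space are bounded. -/
theorem bdd_ord (V : Submodule k F) [hV : FiniteDimensional k V] :
    ∃ N : ℤ, ∀ y ∈ V, y ≠ 0 → v.ord y < N := by
  classical
  let W : ℤ → Submodule k F := fun n =>
    { carrier := {y | y ∈ V ∧ Ge v n y}
      add_mem' := fun {a b} ha hb => ⟨V.add_mem ha.1 hb.1, ha.2.add hb.2⟩
      zero_mem' := ⟨V.zero_mem, Ge.zero⟩
      smul_mem' := fun c x hx => ⟨V.smul_mem c hx.1, ge_smul c hx.2⟩ }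
  have hWV : ∀ n, W n ≤ V := fun n y hy => hy.1
  have hWm : ∀ n m, n ≤ m → W m ≤ W n := fun n m h y hy => ⟨hy.1, hy.2.mono h⟩
  have hfin : ∀ n, FiniteDimensional k (W n) := fun n =>
    Submodule.finiteDimensional_of_le (hWV n)
  obtain ⟨N, hN⟩ : ∃ N, ∀ m, Module.finrank k (W N) ≤ Module.finrank k (W m) := by
    have := (Set.range (fun n => Module.finrank k (W n))).exists_min_image id
    obtain ⟨d, hd, hmin⟩ : ∃ d ∈ Set.range (fun n => Module.finrank k (W n)),
        ∀ d' ∈ Set.range (fun n => Module.finrank k (W n)), d ≤ d' :=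
      ⟨sInf (Set.range (fun n => Module.finrank k (W n))),
        Nat.sInf_mem ⟨_, ⟨0, rfl⟩⟩, fun d' hd' => Nat.sInf_le hd'⟩
    obtain ⟨N, rfl⟩ := hd
    exact ⟨N, fun m => hmin _ ⟨m, rfl⟩⟩
  refine ⟨N, fun y hy h0 => ?_⟩
  by_contra hcon
  push Not at hcon
  have h1 : W (v.ord y + 1) ≤ W N := hWm _ _ (by omega)
  have h2 : W (v.ord y + 1) = W N := Submodule.eq_of_le_of_finrank_le h1 (hN _)
  have h3 : y ∈ W N := ⟨hy, Or.inr hcon⟩
  rw [← h2] at h3
  have h4 := h3.2.resolve_left h0
  omega

/-- An adapted family can be extended by one element. -/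
theorem Adp.extend_one {ι : Type} [Fintype ι] {b : ι → F} (h : Adp v b) {x : F}
    (hx : x ∉ Submodule.span k (Set.range b)) :
    ∃ b' : Option ι → F, Adp v b' ∧ (∀ i, b' (some i) = b i) ∧
      x ∈ Submodule.span k (Set.range b') := by
  classical
  set V := Submodule.span k (Set.range b) with hV
  let V' := Submodule.span k (Set.insert x (Set.range b))
  have hfin : FiniteDimensional k V' :=
    FiniteDimensional.span_of_finite k ((Set.finite_range b).insert x)
  obtain ⟨N, hN⟩ := bdd_ord (v := v) V'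
  have hVV' : V ≤ V' := Submodule.span_mono (Set.subset_insert _ _)
  have hxV' : x ∈ V' := Submodule.subset_span (Set.mem_insert _ _)
  have hne : ∀ y ∈ V, x - y ≠ 0 := fun y hy h0 => hx (by rwa [sub_eq_zero.1 h0])
  obtain ⟨n, ⟨y, hy, hn⟩, hmax⟩ := Int.exists_greatest_of_bdd
    (P := fun n => ∃ y ∈ V, v.ord (x - y) = n)
    ⟨N, fun m ⟨y, hy, hm⟩ => by
      rw [← hm]
      exact (hN _ (V'.sub_mem hxV' (hVV' hy)) (hne y hy)).le⟩ ⟨_, 0, V.zero_mem, rfl⟩
  set x' := x - y with hx'
  have hx'0 : x' ≠ 0 := hne y hy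
  let b' : Option ι → F := fun o => o.elim x' b
  refine ⟨b', ⟨?_, ?_⟩, fun i => rfl, ?_⟩
  · intro o
    cases o with
    | none => exact hx'0
    | some i => exact h.1 i
  · intro c m hm
    rw [Fintype.sum_option] at hm
    change Ge v m (c none • x' + ∑ i, c (some i) • b i) at hm
    have hyV : ∑ i, c (some i) • b i ∈ V :=
      V.sum_mem fun i _ => V.smul_mem _ (Submodule.subset_span ⟨i, rfl⟩)
    have key : c none ≠ 0 → Ge v m x' := by
      intro hc
      right
      rw [← hn] at hmax
      have h1 : (c none)⁻¹ • (c none • x' + ∑ i, c (some i) • b i) =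
          x - (y - (c none)⁻¹ • ∑ i, c (some i) • b i) := by
        rw [smul_add, smul_smul, inv_mul_cancel₀ hc, one_smul, hx']
        ring
      have h2 := ge_smul (v := v) (c none)⁻¹ hm
      rw [h1] at h2
      have h3 : y - (c none)⁻¹ • ∑ i, c (some i) • b i ∈ V := V.sub_mem hy (V.smul_mem _ hyV)
      exact (h2.resolve_left (hne _ h3)).trans (hmax _ ⟨_, h3, rfl⟩)
    have h2 : Ge v m (∑ i, c (some i) • b i) := by
      by_cases hc : c none = 0
      · rwa [hc, zero_smul, zero_add] at hm
      · have h3 := hm.sub (ge_smul (c none) (key hc))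
        rwa [add_sub_cancel_left] at h3
    intro o ho
    cases o with
    | none => exact key ho
    | some i => exact h.2 (fun i => c (some i)) m h2 i ho
  · have h1 : x' ∈ Submodule.span k (Set.range b') := Submodule.subset_span ⟨none, rfl⟩
    have h2 : V ≤ Submodule.span k (Set.range b') := by
      rw [hV, Submodule.span_le]
      rintro _ ⟨i, rfl⟩
      exact Submodule.subset_span ⟨some i, rfl⟩
    have h3 : x = x' + y := by rw [hx']; ring
    rw [h3]
    exact Submodule.add_mem _ h1 (h2 hy)

/-- An adapted family can be extended so that it spans a given finite set. -/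
theorem Adp.extend {ι : Type} [Fintype ι] {b : ι → F} (h : Adp v b) (T : Finset F) :
    ∃ (κ : Type) (_ : Fintype κ) (b' : κ → F) (j : ι → κ), Function.Injective j ∧ Adp v b' ∧
      (∀ i, b' (j i) = b i) ∧ ∀ x ∈ T, x ∈ Submodule.span k (Set.range b') := by
  classical
  induction T using Finset.induction_on with
  | empty => exact ⟨ι, inferInstance, b, id, Function.injective_id, h, fun i => rfl, by simp⟩
  | insert x T hx ih =>
    obtain ⟨κ, hκ, b', j, hj, hb', hbj, hT⟩ := ih
    by_cases hx' : x ∈ Submodule.span k (Set.range b')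
    · refine ⟨κ, hκ, b', j, hj, hb', hbj, fun y hy => ?_⟩
      rcases Finset.mem_insert.1 hy with rfl | hy
      · exact hx'
      · exact hT y hy
    · obtain ⟨b'', h1, h2, h3⟩ := hb'.extend_one hx'
      refine ⟨Option κ, inferInstance, b'', fun i => some (j i), fun a b hab =>
        hj (Option.some.inj hab), h1, fun i => by rw [h2, hbj], fun y hy => ?_⟩
      rcases Finset.mem_insert.1 hy with rfl | hy
      · exact h3
      · have h4 : Submodule.span k (Set.range b') ≤ Submodule.span k (Set.range b'') := by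
          rw [Submodule.span_le]
          rintro _ ⟨i, rfl⟩
          rw [← h2]
          exact Submodule.subset_span ⟨some i, rfl⟩
        exact h4 (hT y hy)

theorem Adp.empty : Adp v (fun i : Empty => (i.elim : F)) :=
  ⟨fun i => i.elim, fun _ _ _ i => i.elim⟩

/-- An adapted basis of a finite-dimensional space. -/
theorem exists_adp (v : Place k F) (T : Finset F) :
    ∃ (κ : Type) (_ : Fintype κ) (b : κ → F), Adp v b ∧
      ∀ x ∈ T, x ∈ Submodule.span k (Set.range b) := by
  obtain ⟨κ, hκ, b', j, -, hb', -, hT⟩ := (Adp.empty (v := v)).extend T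
  exact ⟨κ, hκ, b', hb', hT⟩

/-- coordinates -/
theorem span_coord {ι : Type} [Fintype ι] {b : ι → F} {x : F}
    (h : x ∈ Submodule.span k (Set.range b)) : ∃ c : ι → k, x = ∑ i, c i • b i := by
  obtain ⟨c, hc⟩ := (Submodule.mem_span_range_iff_exists_fun k).1 h
  exact ⟨c, hc.symm⟩

end

end Pool.Agent.K1H17.TP
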