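import Pool.Agent.K1H17.TP.Ad

/-! Adapted bases of finite-dimensional spaces of functions. -/

set_option autoImplicit false
set_option linter.overlappingInstances false
set_option linter.unusedSectionVars false

open FF IntermediateField Pool.Agent.W603.LV Pool.Agent.K1H17.IS

namespace Pool.Agent.K1H17.TP

section

variable {k F : Type*} [Field k] [Field F] [Algebra k F] {v : Place k F}

/-- An adapted family can be extended by one element. -/
theorem Adp.extend_oneV {ι : Type} [Fintype ι] {b : ι → F} (h : Adp v b) {x : F}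
    (hx : x ∉ Submodule.span k (Set.range b)) :
    ∃ b' : Option ι → F, Adp v b' ∧ (∀ i, b' (some i) = b i) ∧
      x ∈ Submodule.span k (Set.range b') ∧
      ∀ V : Submodule k F, (∀ i, b i ∈ V) → x ∈ V → ∀ o, b' o ∈ V := by
  classical
  set V := Submodule.span k (Set.range b) with hV
  let V' := Submodule.span k (Set.insert x (Set.range b))
  have hfin : FiniteDimensional k V' :=
    FiniteDimensional.span_of_finite k ((Set.finite_range b).insert x)
  obtain ⟨N, hN⟩ := bdd_ord (v := v) V'
  have hVV' : V ≤ V' := Submodule.span_mono (Set.subset_insert _ _)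
  have hxV' : x ∈ V' := Submodule.subset_span (Set.mem_insert _ _)
  have hne : ∀ y ∈ V, x - y ≠ 0 := fun y hy h0 => hx (by rwa [sub_eq_zero.1 h0])
  obtain ⟨n, ⟨y, hy, hn⟩, hmax⟩ := Int.exists_greatest_of_bdd
    (P := fun n => ∃ y ∈ V, v.ord (x - y) = n)
    ⟨N, fun m ⟨y, hy, hm⟩ => by
      rw [← hm]
      exact (hN _ (V'.sub_mem hxV' (hVV' hy)) (hne y hy)).le⟩ ⟨_, 0, V.zero_mem, rfl⟩
  set x' := x - y with hx'
  have hx'0 : x' ≠ 0 := hne y hy
  let b' : Option ι → F := fun o => o.elim x' b
  refine ⟨b', ⟨?_, ?_⟩, fun i => rfl, ?_, ?_⟩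
  · intro o
    cases o with
    | none => exact hx'0
    | some i => exact h.1 i
  · intro c m hm
    rw [Fintype.sum_option] at hm
    change Ge v m (c none • x' + ∑ i, c (some i) • b i) at hm
    have hyV : ∑ i, c (some i) • b i ∈ V :=
      V.sum_mem fun i _ => V.smul_mem _ (Submodule.subset_span ⟨i, rfl⟩)
    have key : c none ≠ 0 → Ge v m x' := by
      intro hc
      right
      rw [← hn] at hmax
      have h1 : (c none)⁻¹ • (c none • x' + ∑ i, c (some i) • b i) =
          x - (y - (c none)⁻¹ • ∑ i, c (some i) • b i) := by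
        rw [smul_add, smul_smul, inv_mul_cancel₀ hc, one_smul, hx']
        ring
      have h2 := ge_smul (v := v) (c none)⁻¹ hm
      rw [h1] at h2
      have h3 : y - (c none)⁻¹ • ∑ i, c (some i) • b i ∈ V := V.sub_mem hy (V.smul_mem _ hyV)
      exact (h2.resolve_left (hne _ h3)).trans (hmax _ ⟨_, h3, rfl⟩)
    have h2 : Ge v m (∑ i, c (some i) • b i) := by
      by_cases hc : c none = 0
      · rwa [hc, zero_smul, zero_add] at hm
      · have h3 := hm.sub (ge_smul (c none) (key hc))
        rwa [add_sub_cancel_left] at h3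
    intro o ho
    cases o with
    | none => exact key ho
    | some i => exact h.2 (fun i => c (some i)) m h2 i ho
  · have h1 : x' ∈ Submodule.span k (Set.range b') := Submodule.subset_span ⟨none, rfl⟩
    have h2 : V ≤ Submodule.span k (Set.range b') := by
      rw [hV, Submodule.span_le]
      rintro _ ⟨i, rfl⟩
      exact Submodule.subset_span ⟨some i, rfl⟩
    have h3 : x = x' + y := by rw [hx']; ring
    rw [h3]
    exact Submodule.add_mem _ h1 (h2 hy)
  · intro U hbU hxU o
    cases o with
    | none =>
      refine U.sub_mem hxU ?_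
      have h1 : V ≤ U := by
        rw [hV, Submodule.span_le]
        rintro _ ⟨i, rfl⟩
        exact hbU i
      exact h1 hy
    | some i => exact hbU i

/-- An adapted family in a space `V` which spans a given finite subset of `V`. -/
theorem exists_adpV (v : Place k F) (V : Submodule k F) (T : Finset F) (hT : ∀ x ∈ T, x ∈ V) :
    ∃ (κ : Type) (_ : Fintype κ) (b : κ → F), Adp v b ∧ (∀ j, b j ∈ V) ∧
      ∀ x ∈ T, x ∈ Submodule.span k (Set.range b) := by
  classical
  induction T using Finset.induction_on with
  | empty => exact ⟨Empty, inferInstance, fun i => i.elim, Adp.empty, fun i => i.elim, by simp⟩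
  | insert x T hx ih =>
    obtain ⟨κ, hκ, b, hb, hbV, hbT⟩ := ih fun x hx => hT x (Finset.mem_insert_of_mem hx)
    by_cases hx' : x ∈ Submodule.span k (Set.range b)
    · refine ⟨κ, hκ, b, hb, hbV, fun y hy => ?_⟩
      rcases Finset.mem_insert.1 hy with rfl | hy
      · exact hx'
      · exact hbT y hy
    · obtain ⟨b', h1, h2, h3, h4⟩ := hb.extend_oneV hx'
      refine ⟨Option κ, inferInstance, b', h1,
        h4 V hbV (hT x (Finset.mem_insert_self _ _)), fun y hy => ?_⟩
      rcases Finset.mem_insert.1 hy with rfl | hy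
      · exact h3
      · have h5 : Submodule.span k (Set.range b) ≤ Submodule.span k (Set.range b') := by
          rw [Submodule.span_le]
          rintro _ ⟨i, rfl⟩
          rw [← h2]
          exact Submodule.subset_span ⟨some i, rfl⟩
        exact h5 (hbT y hy)

/-- An adapted basis of a finite-dimensional space. -/
theorem exists_adp_basis (v : Place k F) (V : Submodule k F) [FiniteDimensional k V] :
    ∃ (κ : Type) (_ : Fintype κ) (b : κ → F), Adp v b ∧ (∀ j, b j ∈ V) ∧
      Submodule.span k (Set.range b) = V := by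
  classical
  obtain ⟨T, hT⟩ : ∃ T : Finset F, Submodule.span k (T : Set F) = V := by
    have h1 : V.FG := Module.Finite.iff_fg.1 inferInstance
    exact h1
  obtain ⟨κ, hκ, b, hb, hbV, hbT⟩ := exists_adpV v V T fun x hx => by
    rw [← hT]
    exact Submodule.subset_span hx
  refine ⟨κ, hκ, b, hb, hbV, le_antisymm ?_ ?_⟩
  · rw [Submodule.span_le]
    rintro _ ⟨i, rfl⟩
    exact hbV i
  · rw [← hT, Submodule.span_le]
    exact fun x hx => hbT x hx

end

end Pool.Agent.K1H17.TP
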