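import Pool.Agent.K1H17.TP.Ad2

/-! Families of functions which are adapted to several places. -/

set_option autoImplicit false
set_option linter.overlappingInstances false
set_option linter.unusedSectionVars false

open FF IntermediateField Pool.Agent.W603.LV Pool.Agent.K1H17.IS

namespace Pool.Agent.K1H17.TP

section

variable {k F T : Type*} [Field k] [Field F] [Algebra k F] {v : T → Place k F} {s : T → ℤ}

/-- The minimum over `t` of the orders at the places `v t`, with the shifts `s t`, of a linear
combination is the minimum of the corresponding numbers `o i` of its terms. -/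
structure AdpT (v : T → Place k F) (s : T → ℤ) {ι : Type*} [Fintype ι] (b : ι → F) (o : ι → ℤ) :
    Prop where
  ne : ∀ i, b i ≠ 0
  le : ∀ i t, o i ≤ (v t).ord (b i) + s t
  adp : ∀ (c : ι → k) (n : ℤ), (∀ t, Ge (v t) (n - s t) (∑ i, c i • b i)) → ∀ i, c i ≠ 0 → n ≤ o i

theorem AdpT.lin {ι : Type*} [Fintype ι] {b : ι → F} {o : ι → ℤ} (h : AdpT v s b o) :
    LinearIndependent k b := by
  rw [Fintype.linearIndependent_iff]
  intro c hc i
  by_contra hi
  have h1 := h.adp c (o i + 1) (fun t => Or.inl hc) i hi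
  omega

/-- An adapted family can be extended by one element. -/
theorem AdpT.extend_one [Finite T] [Nonempty T] {ι : Type} [Fintype ι] {b : ι → F} {o : ι → ℤ}
    (h : AdpT v s b o) {x : F} (hx : x ∉ Submodule.span k (Set.range b)) :
    ∃ (b' : Option ι → F) (o' : Option ι → ℤ), AdpT v s b' o' ∧ (∀ i, b' (some i) = b i) ∧
      x ∈ Submodule.span k (Set.range b') ∧
      ∀ V : Submodule k F, (∀ i, b i ∈ V) → x ∈ V → ∀ j, b' j ∈ V := by
  classical
  have := Fintype.ofFinite T
  set V := Submodule.span k (Set.range b) with hV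
  let V' := Submodule.span k (Set.insert x (Set.range b))
  have hfin : FiniteDimensional k V' :=
    FiniteDimensional.span_of_finite k ((Set.finite_range b).insert x)
  obtain ⟨t0⟩ := ‹Nonempty T›
  obtain ⟨N, hN⟩ := bdd_ord (v := v t0) V'
  have hVV' : V ≤ V' := Submodule.span_mono (Set.subset_insert _ _)
  have hxV' : x ∈ V' := Submodule.subset_span (Set.mem_insert _ _)
  have hne : ∀ y ∈ V, x - y ≠ 0 := fun y hy h0 => hx (by rwa [sub_eq_zero.1 h0])
  obtain ⟨n, ⟨y, hy, hn⟩, hmax⟩ := Int.exists_greatest_of_bdd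
    (P := fun n => ∃ y ∈ V, ∀ t, Ge (v t) (n - s t) (x - y))
    ⟨N + s t0, fun m ⟨y, hy, hm⟩ => by
      have h1 := (hm t0).resolve_left (hne y hy)
      have h2 := hN _ (V'.sub_mem hxV' (hVV' hy)) (hne y hy)
      omega⟩
    ⟨Finset.univ.inf' ⟨t0, Finset.mem_univ _⟩ fun t => (v t).ord x + s t, 0, V.zero_mem,
      fun t => by
        rw [sub_zero]
        right
        have := Finset.inf'_le (fun t => (v t).ord x + s t) (Finset.mem_univ t)
        omega⟩
  set x' := x - y with hx'
  have hx'0 : x' ≠ 0 := hne y hy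
  let b' : Option ι → F := fun j => j.elim x' b
  let o' : Option ι → ℤ := fun j => j.elim n o
  refine ⟨b', o', ⟨?_, ?_, ?_⟩, fun i => rfl, ?_, ?_⟩
  · intro j
    cases j with
    | none => exact hx'0
    | some i => exact h.ne i
  · intro j t
    cases j with
    | none =>
      have h1 := (hn t).resolve_left hx'0
      change n ≤ (v t).ord x' + s t
      omega
    | some i => exact h.le i t
  · intro c m hm
    have hm' : ∀ t, Ge (v t) (m - s t) (c none • x' + ∑ i, c (some i) • b i) := by
      intro t
      have := hm t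
      rwa [Fintype.sum_option] at this
    have hyV : ∑ i, c (some i) • b i ∈ V :=
      V.sum_mem fun i _ => V.smul_mem _ (Submodule.subset_span ⟨i, rfl⟩)
    have key : c none ≠ 0 → m ≤ n := by
      intro hc
      refine hmax m ⟨y - (c none)⁻¹ • ∑ i, c (some i) • b i, V.sub_mem hy (V.smul_mem _ hyV),
        fun t => ?_⟩
      have h1 : (c none)⁻¹ • (c none • x' + ∑ i, c (some i) • b i) =
          x - (y - (c none)⁻¹ • ∑ i, c (some i) • b i) := by
        rw [smul_add, smul_smul, inv_mul_cancel₀ hc, one_smul, hx']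
        ring
      rw [← h1]
      exact ge_smul _ (hm' t)
    have h2 : ∀ t, Ge (v t) (m - s t) (∑ i, c (some i) • b i) := by
      intro t
      by_cases hc : c none = 0
      · have := hm' t
        rwa [hc, zero_smul, zero_add] at this
      · have h4 : Ge (v t) (m - s t) x' := (hn t).mono (by have := key hc; omega)
        have h3 := (hm' t).sub (ge_smul (c none) h4)
        rwa [add_sub_cancel_left] at h3
    intro j hj
    cases j with
    | none => exact key hj
    | some i => exact h.adp (fun i => c (some i)) m h2 i hj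
  · have h1 : x' ∈ Submodule.span k (Set.range b') := Submodule.subset_span ⟨none, rfl⟩
    have h2 : V ≤ Submodule.span k (Set.range b') := by
      rw [hV, Submodule.span_le]
      rintro _ ⟨i, rfl⟩
      exact Submodule.subset_span ⟨some i, rfl⟩
    have h3 : x = x' + y := by rw [hx']; ring
    rw [h3]
    exact Submodule.add_mem _ h1 (h2 hy)
  · intro U hbU hxU j
    cases j with
    | none =>
      refine U.sub_mem hxU ?_
      have h1 : V ≤ U := by
        rw [hV, Submodule.span_le]
        rintro _ ⟨i, rfl⟩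
        exact hbU i
      exact h1 hy
    | some i => exact hbU i

/-- An adapted family in a space `V` which spans a given finite subset of `V`. -/
theorem exists_adpTV [Finite T] [Nonempty T] (v : T → Place k F) (s : T → ℤ) (V : Submodule k F)
    (X : Finset F) (hX : ∀ x ∈ X, x ∈ V) :
    ∃ (κ : Type) (_ : Fintype κ) (b : κ → F) (o : κ → ℤ), AdpT v s b o ∧ (∀ j, b j ∈ V) ∧
      ∀ x ∈ X, x ∈ Submodule.span k (Set.range b) := by
  classical
  induction X using Finset.induction_on with
  | empty => exact ⟨Empty, inferInstance, fun i => i.elim, fun i => i.elim,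
      ⟨fun i => i.elim, fun i => i.elim, fun _ _ _ i => i.elim⟩, fun i => i.elim, by simp⟩
  | insert x X hx ih =>
    obtain ⟨κ, hκ, b, o, hb, hbV, hbT⟩ := ih fun x hx => hX x (Finset.mem_insert_of_mem hx)
    by_cases hx' : x ∈ Submodule.span k (Set.range b)
    · refine ⟨κ, hκ, b, o, hb, hbV, fun y hy => ?_⟩
      rcases Finset.mem_insert.1 hy with rfl | hy
      · exact hx'
      · exact hbT y hy
    · obtain ⟨b', o', h1, h2, h3, h4⟩ := hb.extend_one hx'
      refine ⟨Option κ, inferInstance, b', o', h1,
        h4 V hbV (hX x (Finset.mem_insert_self _ _)), fun y hy => ?_⟩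
      rcases Finset.mem_insert.1 hy with rfl | hy
      · exact h3
      · have h5 : Submodule.span k (Set.range b) ≤ Submodule.span k (Set.range b') := by
          rw [Submodule.span_le]
          rintro _ ⟨i, rfl⟩
          rw [← h2]
          exact Submodule.subset_span ⟨some i, rfl⟩
        exact h5 (hbT y hy)

/-- An adapted basis of a finite-dimensional space. -/
theorem exists_adpT_basis [Finite T] [Nonempty T] (v : T → Place k F) (s : T → ℤ)
    (V : Submodule k F) [FiniteDimensional k V] :
    ∃ (κ : Type) (_ : Fintype κ) (b : κ → F) (o : κ → ℤ), AdpT v s b o ∧ (∀ j, b j ∈ V) ∧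
      Submodule.span k (Set.range b) = V := by
  classical
  obtain ⟨X, hX⟩ : ∃ X : Finset F, Submodule.span k (X : Set F) = V := by
    have h1 : V.FG := Module.Finite.iff_fg.1 inferInstance
    exact h1
  obtain ⟨κ, hκ, b, o, hb, hbV, hbT⟩ := exists_adpTV v s V X fun x hx => by
    rw [← hX]
    exact Submodule.subset_span hx
  refine ⟨κ, hκ, b, o, hb, hbV, le_antisymm ?_ ?_⟩
  · rw [Submodule.span_le]
    rintro _ ⟨i, rfl⟩
    exact hbV i
  · rw [← hX, Submodule.span_le]
    exact fun x hx => hbT x hx

end

section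

variable {k : Type*} [Field k]

/-- The base change of a tensor, one factor at a time. -/
theorem multi (r : ℕ) : ∀ (ι : Fin r → Type) [∀ i, Fintype (ι i)] (T : Fin r → Type)
    (κ : ∀ i, T i → Type) (q : ∀ i t, κ i t → ℤ)
    (B : ∀ i t, ι i → κ i t → k) (o : ∀ i, ι i → ℤ)
    (_ : ∀ i (c : ι i → k) (n : ℤ), (∀ t m, ∑ l, c l * B i t l m ≠ 0 → n ≤ q i t m) →
      ∀ l, c l ≠ 0 → n ≤ o i l)
    (lam : Fin r → ℕ) (c : (∀ i, ι i) → k) (n : ℤ)
    (_ : ∀ (τ : ∀ i, T i) (J' : ∀ i, κ i (τ i)),
      ∑ J, c J * ∏ i, B i (τ i) (J i) (J' i) ≠ 0 → n ≤ ∑ i, (lam i : ℤ) * q i (τ i) (J' i))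
    (J : ∀ i, ι i), c J ≠ 0 → n ≤ ∑ i, (lam i : ℤ) * o i (J i) := by
  classical
  induction r with
  | zero =>
    intro ι _ T κ q B o hB lam c n h J hJ
    have h1 := h (fun i => i.elim0) (fun i => i.elim0) (by
      rw [Fintype.sum_eq_single J fun J' hJ' => absurd (Subsingleton.elim J' J) hJ']
      simpa using hJ)
    simpa using h1
  | succ r ih =>
    intro ι _ T κ q B o hB lam c n h J hJ
    have key : ∀ (t : T 0) (m : κ 0 t) (J' : ∀ i : Fin r, ι i.succ),
        ∑ l, c (Fin.cons l J') * B 0 t l m ≠ 0 →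
          n - lam 0 * q 0 t m ≤ ∑ i : Fin r, (lam i.succ : ℤ) * o i.succ (J' i) := by
      intro t m
      refine ih (fun i => ι i.succ) (fun i => T i.succ) (fun i t => κ i.succ t)
        (fun i t => q i.succ t) (fun i t => B i.succ t) (fun i => o i.succ)
        (fun i => hB i.succ) (fun i => lam i.succ)
        (fun J' => ∑ l, c (Fin.cons l J') * B 0 t l m) (n - lam 0 * q 0 t m) ?_
      intro τ J'' hne
      have h1 := h (Fin.cons t τ) (Fin.cons m J'') (by
        rw [← (Fin.consEquiv ι).sum_comp, Fintype.sum_prod_type, Finset.sum_comm]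
        intro h0
        apply hne
        rw [← h0]
        refine Finset.sum_congr rfl fun J' _ => ?_
        rw [Finset.sum_mul]
        refine Finset.sum_congr rfl fun l _ => ?_
        rw [Fin.prod_univ_succ, mul_assoc]
        rfl)
      rw [Fin.sum_univ_succ] at h1
      have h2 : n ≤ (lam 0 : ℤ) * q 0 t m +
          ∑ i : Fin r, (lam i.succ : ℤ) * q i.succ (τ i) (J'' i) := h1
      linarith
    obtain ⟨l0, J', rfl⟩ : ∃ (l0 : ι 0) (J' : ∀ i : Fin r, ι i.succ), J = Fin.cons l0 J' :=
      ⟨J 0, fun i => J i.succ, (Fin.cons_self_tail J).symm⟩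
    rw [Fin.sum_univ_succ]
    change n ≤ (lam 0 : ℤ) * o 0 l0 + ∑ i : Fin r, (lam i.succ : ℤ) * o i.succ (J' i)
    set R := ∑ i : Fin r, (lam i.succ : ℤ) * o i.succ (J' i) with hR
    have hkey := fun t m => key t m J'
    rw [← hR] at hkey
    rcases Nat.eq_zero_or_pos (lam 0) with h0 | h0
    · -- the weight is zero
      rw [h0, Nat.cast_zero, zero_mul, zero_add]
      by_contra hcon
      have h1 := hB 0 (fun l => c (Fin.cons l J')) (o 0 l0 + 1) (fun t m hne => by
        exfalso
        have h2 := hkey t m hne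
        rw [h0, Nat.cast_zero, zero_mul, sub_zero] at h2
        exact hcon h2) l0 hJ
      omega
    · have h0' : (0 : ℤ) < lam 0 := by exact_mod_cast h0
      have h1 := hB 0 (fun l => c (Fin.cons l J')) (-((R - n) / lam 0)) (fun t m hne => by
        have h2 := hkey t m hne
        have h3 : -(lam 0 * q 0 t m) ≤ R - n := by linarith
        have h4 : -(q 0 t m) ≤ (R - n) / lam 0 := by
          rw [Int.le_ediv_iff_mul_le h0']
          linarith
        linarith) l0 hJ
      have h2 : (R - n) / lam 0 * lam 0 ≤ R - n := Int.ediv_mul_le _ h0'.ne'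
      have h3 : -((R - n) / lam 0) * lam 0 ≤ o 0 l0 * lam 0 :=
        mul_le_mul_of_nonneg_right h1 h0'.le
      linarith

end

end Pool.Agent.K1H17.TP
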