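import Pool.Agent.K1H17.TP.Es

/-! Expansions in products of adapted bases. -/

set_option autoImplicit false
set_option linter.overlappingInstances false
set_option linter.unusedSectionVars false
set_option linter.unusedVariables false

open FF IntermediateField Pool.Agent.W619.PQ Pool.Agent.W619.PL Pool.Agent.W619.TW
  Pool.Agent.W603.LV Pool.Agent.W619.Y Pool.Agent.W672.PG Pool.Agent.W824.PG Pool.Agent.Y174
  Pool.Agent.K1H17.IS Pool.Agent.W460.PG.ONE

namespace Pool.Agent.K1H17.TP

section

variable {k : Type} [Field k] [CharZero k] [IsAlgClosed k] {r n : ℕ} {a : Fin r → ℕ}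
  {L : Type} [Field L] [Algebra k L] {K : Fin r → Type} [∀ i, Field (K i)]
  [∀ i, Algebra k (K i)] {φ : ∀ i, K i →ₐ[k] L}

/-- Expansion in the products of basis elements. -/
theorem expand_prod {Bd : ∀ i, Place k (K i) → Prop} {S : ∀ i, Finset (K i)} {m : ℕ}
    {y : ∀ i, Fin (a i) → K i} {ι : Fin r → Type} [∀ i, Fintype (ι i)] (b : ∀ i, ι i → K i)
    (hb : ∀ i, Submodule.span k (Set.range (b i)) = VV k (Bd i) (S i) m 1 (y i)) {z : L}
    (hz : z ∈ Submodule.span k (PrS φ Bd S m y)) :
    ∃ c : (∀ i, ι i) → k, z = ∑ J, c J • ∏ i, φ i (b i (J i)) := by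
  classical
  have h1 : Submodule.span k (PrS φ Bd S m y) ≤
      Submodule.span k (Set.range fun J : (∀ i, ι i) => ∏ i, φ i (b i (J i))) := by
    rw [Submodule.span_le]
    rintro _ ⟨q, hq, rfl⟩
    have h2 : ∀ i, ∃ c : ι i → k, ∑ l, c l • b i l = q i := by
      intro i
      have h3 := hq i
      rw [← hb i] at h3
      exact (Submodule.mem_span_range_iff_exists_fun k).1 h3
    choose c hc using h2
    have h4 : ∏ i, φ i (q i) = ∑ J : (∀ i, ι i), (∏ i, c i (J i)) • ∏ i, φ i (b i (J i)) := by
      have h5 : ∀ i, φ i (q i) = ∑ l, c i l • φ i (b i l) := by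
        intro i
        rw [← hc i, map_sum]
        exact Finset.sum_congr rfl fun l _ => map_smul _ _ _
      rw [Finset.prod_congr rfl fun i _ => h5 i, Finset.prod_univ_sum]
      rw [Fintype.piFinset_univ]
      refine Finset.sum_congr rfl fun J _ => ?_
      simp only [Algebra.smul_def]
      rw [Finset.prod_mul_distrib, map_prod]
    rw [SetLike.mem_coe, h4]
    exact Submodule.sum_mem _ fun J _ => Submodule.smul_mem _ _ (Submodule.subset_span ⟨J, rfl⟩)
  obtain ⟨c, hc⟩ := (Submodule.mem_span_range_iff_exists_fun k).1 (h1 hz)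
  exact ⟨c, hc.symm⟩

end

section

variable {k : Type} [Field k] [CharZero k] {n : ℕ} {L : Type} [Field L] [Algebra k L]

/-- The coefficients of independent forms are independent. -/
theorem indep_coef {Y : Fin n → L} (hY : IsTranscendenceBasis k Y) {E : Fin n → Derivation k L L}
    (hE : ∀ i j, E i (Y j) = if i = j then 1 else 0) {b0 : L} (hb0 : b0 ≠ 0) {N m : ℕ}
    {ω : Fin N → (Fin n → Derivation k L L) → L} (hω : LinearIndependent k ω)
    (hf : ∀ l, IsPluriForm k L n m (ω l)) : LinearIndependent k fun l => b0 * ω l E := by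
  rw [Fintype.linearIndependent_iff] at hω ⊢
  intro g hg
  refine hω g ?_
  have h4 : b0 * ∑ l, g l • ω l E = 0 := by
    rw [Finset.mul_sum, ← hg]
    exact Finset.sum_congr rfl fun l _ => by rw [mul_smul_comm]
  have h6 : ∑ l, g l • ω l E = 0 := (mul_eq_zero.1 h4).resolve_left hb0
  funext D
  rw [Finset.sum_apply]
  simp only [Pi.smul_apply, Pi.zero_apply]
  calc ∑ l, g l • ω l D = (Matrix.of fun i j => D i (Y j)).det ^ m * ∑ l, g l • ω l E := by
        rw [Finset.mul_sum]
        refine Finset.sum_congr rfl fun l _ => ?_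
        rw [Pool.Agent.W636.PG.form_eq k L n m Y hY E hE (ω l) (hf l) D, mul_smul_comm]
    _ = 0 := by rw [h6, mul_zero]

theorem card_of_span {ι : Type} [Fintype ι] {f : ι → L} {N : ℕ} {v : Fin N → L}
    (hv : LinearIndependent k v) (h : ∀ l, v l ∈ Submodule.span k (Set.range f)) :
    N ≤ Fintype.card ι := by
  have hfin : Module.Finite k (Submodule.span k (Set.range f)) :=
    FiniteDimensional.span_of_finite k (Set.finite_range f)
  let Z : Fin N → Submodule.span k (Set.range f) := fun l => ⟨v l, h l⟩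
  have hZ : LinearIndependent k Z := by
    refine LinearIndependent.of_comp (Submodule.span k (Set.range f)).subtype ?_
    exact hv
  have h1 := hZ.fintype_card_le_finrank
  rw [Fintype.card_fin] at h1
  exact h1.trans (finrank_range_le_card f)

/-- Members of an adapted basis with a given property. -/
theorem card_good {a : ℕ} {Bd : Place k L → Prop} {S : Finset L} {m : ℕ} {y : Fin a → L}
    (hy : IsTranscendenceBasis k y)
    {ι : Type} [Fintype ι] {b : ι → L} (hb : LinearIndependent k b)
    (hbV : ∀ l, b l ∈ VV k Bd S m 1 y) (P : ((Fin a → Derivation k L L) → L) → Prop)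
    (T : Finset ι) (hT : ∀ l ∈ T, P (fun D => b l * (Matrix.of fun i j => D i (y j)).det ^ m))
    {C : ℕ} (hC : ∀ N, HasIndep k L a N (fun ω => IsSec k L a Bd S m 1 ω ∧ P ω) → N ≤ C) :
    T.card ≤ C := by
  classical
  refine hC _ ?_
  let e : Fin T.card ≃ T := T.equivFin.symm
  refine ⟨fun l D => b (e l) * (Matrix.of fun i j => D i (y j)).det ^ m, ?_,
    fun l => ⟨hbV (e l), hT (e l) (e l).2⟩⟩
  have h2 : LinearIndependent k (fun l => b (e l)) :=
    hb.comp (fun l => (e l : ι)) fun l l' h => e.injective (Subtype.ext h)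
  obtain ⟨E, hE⟩ := Pool.Agent.W636.PG.exists_duals k L a y hy
  have hdet : (Matrix.of fun i j => E i (y j)).det = 1 := by
    have h1 : (Matrix.of fun i j => E i (y j)) = 1 := by
      ext i j
      rw [Matrix.of_apply, Matrix.one_apply]
      exact hE i j
    rw [h1, Matrix.det_one]
  rw [Fintype.linearIndependent_iff] at h2 ⊢
  intro g hg
  refine h2 g ?_
  have h3 := congrFun hg E
  rw [Finset.sum_apply] at h3
  simp only [Pi.smul_apply, Pi.zero_apply, hdet, one_pow, mul_one] at h3
  exact h3

end

end Pool.Agent.K1H17.TP
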