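import Pool.Agent.K1H17.IS.Lg
import Pool.Agent.TH122.AB.Plc
import Pool.Agent.W619.Y.Stm6

/-! Abelian covers of products: the definitions. -/

set_option autoImplicit false
set_option linter.overlappingInstances false
set_option linter.unusedSectionVars false
set_option linter.unusedVariables false

open FF IntermediateField Pool.Agent.W619.PQ Pool.Agent.W619.TW Pool.Agent.W619.Y
  Pool.Agent.Y174 Pool.Agent.K1H17.IS Pool.Agent.TH122.AB

namespace Pool.Agent.K1H17.TP

/-! ### Divisors -/

/-- A nonzero function `τ`, a natural number `N` and a nonempty finite set `S` of functions on a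
variety with function field `K`: they describe the divisor `D` with
`D = div τ - N * min_{s ∈ S} div s`. -/
structure DivData (K : Type) [Field K] where
  /-- the equation -/
  τ : K
  /-- the degree -/
  N : ℕ
  /-- the linear system -/
  S : Finset K
  ne0 : τ ≠ 0
  ne : S.Nonempty

/-- The multiplicity of `D` along a place with the orders `o`. -/
def DivData.ev {K : Type} [Field K] (D : DivData K) (o : K → ℤ) : ℤ :=
  o D.τ - D.N * D.S.inf' D.ne o

/-- The logarithmic order which the sections must have, if the multiplicity of `D` is `d`: in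
`PairKod k K n (fun q => 1 - lam x (D.ev q.ord))` the sections are forms of weight `m` whose
logarithmic order is at least `m` along all prime divisors outside `D` and at least `m x d` along
all prime divisors (over the variety) over `D`, with the multiplicity `d > 0`: they are the sections of
`m (K + D - x D)`, where `K + D` stands for the canonical divisor plus the reduced preimage of `D`,
on all models. -/
noncomputable def lam (x : ℚ) (d : ℤ) : ℝ := if d = 0 then 1 else x * d

/-! ### Abelian covers and admissible vectors -/

/-- `L` is generated over the compositum of the function fields `M i` of varieties `B i` of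
dimensions `a i` by the roots `z j` of the functions `∏ i, (D i).τ ^ A j i`: the function field of an
abelian cover of the product of the varieties `B i`, which is branched only over the preimages of
the divisors `D i`. -/
structure IsAbelianCover {k : Type} {L : Type} [Field k] [Field L] [Algebra k L] {r s : ℕ}
    (M : Fin r → IntermediateField k L) (a : Fin r → ℕ)
    (D : ∀ i, DivData (M i)) (A : Fin s → Fin r → ℤ) (m : Fin s → ℕ) (z : Fin s → L) : Prop where
  ess : ∀ i, Algebra.EssFiniteType k (M i)
  trdeg : ∀ i, Algebra.trdeg k (M i) = a i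
  total : Algebra.trdeg k L = (∑ i, a i : ℕ)
  pos : ∀ j, 0 < m j
  root : ∀ j, z j ^ m j = ∏ i, (((D i).τ : M i) : L) ^ A j i
  deg : ∀ j i, (m j : ℤ) ∣ A j i * (D i).N
  gen : (⨆ i, M i) ⊔ IntermediateField.adjoin k (Set.range z) = ⊤

section

variable {s r : ℕ}

/-- The nonzero vectors `v` of natural numbers such that `m j` divides `∑ i, A j i * v i` for all
`j`. -/
def Adm (A : Fin s → Fin r → ℤ) (m : Fin s → ℕ) (v : Fin r → ℕ) : Prop :=
  v ≠ 0 ∧ ∀ j, (m j : ℤ) ∣ ∑ i, A j i * v i

/-- The weight of a vector. -/
def wt (α : Fin r → ℚ) (v : Fin r → ℕ) : ℚ := ∑ i, α i * v i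

/-- The index `i` occurs in an admissible vector of weight `1`. -/
def Crit (A : Fin s → Fin r → ℤ) (m : Fin s → ℕ) (α : Fin r → ℚ) (i : Fin r) : Prop :=
  ∃ v, Adm A m v ∧ wt α v = 1 ∧ v i ≠ 0

end

/-! ### The factors -/

section

variable (k : Type) (K : Type) [Field k] [CharZero k] [Field K] [Algebra k K]

/-- The numerical conditions on a factor. The `p t` are the components of the divisor `D`. -/
structure Thr (n : ℕ) (D : DivData K) {T : Type} (p : T → Place k K) (α : ℚ) (h e : ℕ) :
    Prop where
  /-- the `p t` are prime divisors -/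
  div : ∀ t, IsDivisorial (p t) n
  /-- the numerical dimension of `K + D` is at most `e` -/
  num : PairNum k K n (fun q => 1 - lam 0 (D.ev q.ord)) e
  /-- the dimension of the space of sections of `m (K + D) + A` which vanish to the order
  `m α - c` along all `p t` is at most `C m ^ h` -/
  num_at : ∀ (S : Finset K) (c : ℝ), ∃ C : ℕ, ∀ m N : ℕ, 1 ≤ m →
    HasIndep k K n N (fun ω => PairSec k K n (fun q => 1 - lam 0 (D.ev q.ord)) S m 1 ω ∧
      ∀ t, LogGe n (p t) ω (m * α - c)) → N ≤ C * m ^ h
  /-- there are no nonzero sections which vanish to the order `m α + c` along all `p t` -/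
  neg : ∀ S : Finset K, ∃ c : ℝ, ∀ (m : ℕ) (ω : (Fin n → Derivation k K K) → K), 1 ≤ m →
    PairSec k K n (fun q => 1 - lam 0 (D.ev q.ord)) S m 1 ω →
    (∀ t, LogGe n (p t) ω (m * α + c)) → ω = 0

/-- `PD` is the set of the prime divisors of a projective model `B` of dimension `n`, and `D`
describes a reduced divisor on `B` with the components `p t` such that `(B, D)` is log canonical,
`B` is canonical outside `D`, `D` is big, and `K_B + D ~ α D`. -/
structure IsProp (n : ℕ) (D : DivData K) {T : Type} (p : T → Place k K) (α : ℚ)
    (PD : Set (Place k K)) : Prop where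
  /-- the elements of `PD` are prime divisors -/
  divp : ∀ q ∈ PD, IsDivisorial q n
  /-- the spaces of sections on `B` are finite-dimensional -/
  fin : ∀ S : Finset K, ∃ T : Finset K, ∀ g, (∀ q ∈ PD, Dom q S 1 g) →
    g ∈ Submodule.span k (T : Set K)
  mem : ∀ t, p t ∈ PD
  one : ∀ t, D.ev (p t).ord = 1
  other : ∀ q ∈ PD, (∀ t, q ≠ p t) → D.ev q.ord = 0
  nonneg : ∀ q : Place k K, IsDivisorial q n → 0 ≤ D.ev q.ord
  /-- there is a pluricanonical form which is a generator of `m0 (K_B + D - α D)` on `B`, and
  `(B, D)` is log canonical, and canonical outside `D` -/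
  form : ∃ (m0 : ℕ) (ω0 : (Fin n → Derivation k K K) → K), 1 ≤ m0 ∧ ω0 ≠ 0 ∧
    IsPluriForm k K n m0 ω0 ∧
    (∀ q : Place k K, IsDivisorial q n → LogGe n q ω0 (m0 * lam α (D.ev q.ord))) ∧
    (∀ q ∈ PD, ∀ γ : ℝ, LogGe n q ω0 γ → γ ≤ m0 * lam α (D.ev q.ord))
  /-- `D` is big -/
  big : ∃ (e0 : ℕ) (g : Fin (n + 1) → K), (∀ l, g l ≠ 0) ∧
    (∀ l (q : Place k K), IsDivisorial q n → -(e0 : ℤ) * D.ev q.ord ≤ q.ord (g l)) ∧
    AlgebraicIndependent k (fun l : Fin n => g l.succ / g 0)

end

/-! ### Hypersurfaces in projective spaces -/

section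

variable {k : Type} {K : Type} [Field k] [Field K] [Algebra k K] {n : ℕ}

/-- The finite set `1, X 1, ..., X n`: it describes the hyperplanes. -/
noncomputable def lin (X : Fin n → K) : Finset K := by
  classical exact insert 1 (Finset.univ.image X)

theorem one_mem_lin (X : Fin n → K) : (1 : K) ∈ lin X := by
  classical exact Finset.mem_insert_self _ _

theorem lin_ne (X : Fin n → K) : (lin X).Nonempty := ⟨1, one_mem_lin X⟩

/-- The closure in the projective space of the hypersurface with the equation `f = 0` in the affine
space with the coordinates `X`. -/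
noncomputable def hyp (X : Fin n → K) (f : MvPolynomial (Fin n) k)
    (hf : MvPolynomial.aeval X f ≠ 0) : DivData K where
  τ := MvPolynomial.aeval X f
  N := f.totalDegree
  S := lin X
  ne0 := hf
  ne := lin_ne X

/-- The multiplicity of the hyperplane at infinity, with the minus sign. -/
noncomputable def mu (X : Fin n → K) (q : Place k K) : ℤ := (lin X).inf' (lin_ne X) q.ord

/-- Log canonical hypersurfaces: the log discrepancies of the pair `(ℙ ^ n, D)`, where `D` is the
closure of the hypersurface `f = 0`, are nonnegative: along each prime divisor `q` over `ℙ ^ n` the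
order of the form `dX 1 ∧ ... ∧ dX n` on logarithmic vector fields is at least
`(n + 1) mu q + q (D)`. -/
def LC (k : Type) {K : Type} [Field k] [CharZero k] [Field K] [Algebra k K] (n : ℕ)
    (X : Fin n → K) (D : DivData K) : Prop :=
  ∀ q : Place k K, IsDivisorial q n →
    LogGe n q (fun D' => (Matrix.of fun i j => D' i (X j)).det)
      (((n + 1 : ℕ) : ℝ) * mu X q + D.ev q.ord)

end

/-! ### The three types of factors and the conclusion -/

section

variable (k K : Type) [Field k] [CharZero k] [Field K] [Algebra k K]

/-- Factors of the first type: there are finitely many prime divisors `p t`, the components of the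
reduced divisor `D`, such that the sections of `m (K + D) + A` vanish along `D` at most to the order
`m α + c`, those which vanish to the order `m α - c` form spaces of dimension at most `C m ^ h`, and
`ν (K + D) ≤ e` (`Thr`); moreover `κ (K + D - α D) ≥ h`, if `crit` holds, and otherwise
`κ (K + D - x D) ≥ e` for all rational numbers `0 ≤ x < α`. -/
def FactorAbundant (n : ℕ) (D : DivData K) (α : ℚ) (h e : ℕ) (crit : Prop) : Prop :=
  ∃ (T : Type) (_ : Finite T) (_ : Nonempty T) (p : T → Place k K),
    (∀ t, D.ev (p t).ord = 1) ∧ (∀ q : Place k K, IsDivisorial q n → 0 ≤ D.ev q.ord) ∧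
    Thr k K n D p α h e ∧
    (crit → PairKod k K n (fun q => 1 - lam α (D.ev q.ord)) h) ∧
    (¬ crit → ∀ x : ℚ, 0 ≤ x → x < α → PairKod k K n (fun q => 1 - lam x (D.ev q.ord)) e)

/-- Factors of the second type: the pair `(B, D)` is log canonical, `D` is reduced and big,
`K_B + D` is `ℚ`-linearly equivalent to `α D`, and `B` is canonical outside `D` (`IsProp`). -/
def FactorProportional (n : ℕ) (D : DivData K) (α : ℚ) (h e : ℕ) : Prop :=
  (∃ (T : Type) (_ : Finite T) (_ : Nonempty T) (p : T → Place k K) (PD : Set (Place k K)),
    IsProp k K n D p α PD) ∧ h = 0 ∧ e = n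

/-- Factors of the third type: `B` is the projective space of dimension `n`, and `D` is the closure
of the hypersurface `f = 0`, where `f` is a squarefree polynomial of degree `d ≥ 1`, the pair
`(B, D)` is log canonical, and `α = 1 - (n + 1) / d`. -/
def FactorProjective (n : ℕ) (D : DivData K) (α : ℚ) (h e : ℕ) : Prop :=
  (∃ (X : Fin n → K) (f : MvPolynomial (Fin n) k) (hf : MvPolynomial.aeval X f ≠ 0),
    Gens (k := k) X ∧ Squarefree f ∧ 1 ≤ f.totalDegree ∧ LC k n X (hyp X f hf) ∧
    D = hyp X f hf ∧ α = 1 - (n + 1) / f.totalDegree) ∧ h = 0 ∧ e = n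

end

section

/-- The Kodaira dimension is at least `h` and the numerical dimension is at most `h`, for the
projective manifolds of dimension `n` with the function field `K`. -/
def KodNum (k K : Type) [Field k] [Field K] [Algebra k K] (n h : ℕ) : Prop :=
  KodTr k K n h ∧ KodGe k K n (fun _ => False) h ∧ NumLe k K n (fun _ => False) h

/-- Either there is an admissible vector of weight less than `1`, and `m K + A` has no sections for
large `m`, for every divisor `A`; or there is no such vector, and the Kodaira dimension and the
numerical dimension are equal to `κ`. -/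
def Dichotomy (k K : Type) [Field k] [Field K] [Algebra k K] (n : ℕ) {r s : ℕ}
    (A : Fin s → Fin r → ℤ) (m : Fin s → ℕ) (α : Fin r → ℚ) (κ : ℕ) : Prop :=
  ((∃ v, Adm A m v ∧ wt α v < 1) ∧ NumNeg k K n (fun _ => False)) ∨
    ((∀ v, Adm A m v → 1 ≤ wt α v) ∧ KodNum k K n κ)

end

end Pool.Agent.K1H17.TP
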