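import Pool.Agent.W619.PQ.Defs
import Pool.Agent.K1H17.IS.LD


/-! Transcendence degrees of compositums. -/

set_option autoImplicit false
set_option linter.overlappingInstances false
set_option linter.unusedSectionVars false

open FF IntermediateField Pool.Agent.W619.PQ Pool.Agent.K1H17.IS

namespace Pool.Agent.K1H17.TP

section

variable {k : Type} [Field k]

theorem alg_iSupT {L : Type} [Field L] [Algebra k L] {r : ℕ} {ι : Fin r → Type}
    (M : Fin r → IntermediateField k L) (hsup : (⨆ i, M i) = ⊤) (y : ∀ i, ι i → M i)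
    (hy : ∀ i, IsTranscendenceBasis k (y i)) :
    Algebra.IsAlgebraic (Algebra.adjoin k (Set.range (fun p : Σ i, ι i => (y p.1 p.2 : L)))) L := by
  refine alg_adjoin fun z => ?_
  let S : IntermediateField k L := adjoin k (Set.range (fun p : Σ i, ι i => (y p.1 p.2 : L)))
  have hA : (⨆ i, M i) ≤ (algebraicClosure S L).restrictScalars k := by
    refine iSup_le fun i z hz => ?_
    rw [mem_restrictScalars, mem_algebraicClosure_iff]
    exact alg_over (M i) (y i) (hy i) S (fun j => subset_adjoin k _ ⟨⟨i, j⟩, rfl⟩) z hz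
  rw [hsup] at hA
  have h2 := hA (show z ∈ (⊤ : IntermediateField k L) from trivial)
  rwa [mem_restrictScalars, mem_algebraicClosure_iff] at h2

theorem trdeg_le_iSupT {L : Type} [Field L] [Algebra k L] {r : ℕ} {a : Fin r → ℕ}
    (M : Fin r → IntermediateField k L) (hM : ∀ i, Algebra.trdeg k (M i) = a i)
    (hsup : (⨆ i, M i) = ⊤) : Algebra.trdeg k L ≤ (∑ i, a i : ℕ) := by
  choose y hy using fun i => Pool.Agent.W636.PG.exists_basis k (M i) (a i) (hM i)
  have h4 := alg_iSupT (ι := fun i => Fin (a i)) M hsup y hy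
  have h5 := Algebra.IsAlgebraic.trdeg_le_cardinalMk k
    (Set.range (fun p : Σ i, Fin (a i) => (y p.1 p.2 : L)))
  refine h5.trans (Cardinal.mk_range_le.trans (le_of_eq ?_))
  rw [Cardinal.mk_fintype, Fintype.card_sigma]
  simp only [Fintype.card_fin]

theorem trdeg_sup_leT {Ω : Type} [Field Ω] [Algebra k Ω] {C N : IntermediateField k Ω} {c b : ℕ}
    (hC : Algebra.trdeg k C = c) (hN : Algebra.trdeg k N = b) :
    Algebra.trdeg k ↥(C ⊔ N) ≤ (c + b : ℕ) := by
  let C1 : IntermediateField k ↥(C ⊔ N) := restrict le_sup_left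
  let N1 : IntermediateField k ↥(C ⊔ N) := restrict le_sup_right
  have hC1 : Algebra.trdeg k C1 = c := by
    rw [← hC]; exact (restrictAlgEquiv (le_sup_left : C ≤ C ⊔ N)).symm.trdeg_eq
  have hN1 : Algebra.trdeg k N1 = b := by
    rw [← hN]; exact (restrictAlgEquiv (le_sup_right : N ≤ C ⊔ N)).symm.trdeg_eq
  have hsup : C1 ⊔ N1 = ⊤ := by
    apply lift_injective (C ⊔ N)
    rw [lift_top, lift, IntermediateField.map_sup]
    exact congrArg₂ (· ⊔ ·) (lift_restrict (le_sup_left : C ≤ C ⊔ N))
      (lift_restrict (le_sup_right : N ≤ C ⊔ N))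
  have h1 := trdeg_le_iSupT (a := ![c, b]) ![C1, N1] (fun i => by
    fin_cases i
    · exact hC1
    · exact hN1) (by
    rw [← hsup]
    apply le_antisymm
    · refine iSup_le fun i => ?_
      fin_cases i
      · exact le_sup_left
      · exact le_sup_right
    · exact sup_le (le_iSup (fun i => ![C1, N1] i) 0) (le_iSup (fun i => ![C1, N1] i) 1))
  simpa using h1

end

end Pool.Agent.K1H17.TP
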