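import Pool.Agent.K1H17.TP.Ul
import Pool.Agent.K1H17.TP.Td

/-! Families of function fields embedded into the function field of their product. -/

set_option autoImplicit false
set_option linter.overlappingInstances false
set_option linter.unusedSectionVars false
set_option linter.unusedVariables false

open FF IntermediateField Pool.Agent.W619.PQ Pool.Agent.W619.PL Pool.Agent.W619.TW
  Pool.Agent.W603.LV Pool.Agent.K1H17.IS

namespace Pool.Agent.K1H17.TP

section

variable {k K K' : Type*} [Field k] [Field K] [Field K'] [Algebra k K] [Algebra k K']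

/-- Transport of a place. -/
def pushP (e : K ≃ₐ[k] K') (p : Place k K) : Place k K' where
  ord := fun x => p.ord (e.symm x)
  ord_zero := by rw [map_zero, p.ord_zero]
  ord_mul := fun {f g} hf hg => by
    rw [map_mul, p.ord_mul (by simpa using hf) (by simpa using hg)]
  ord_add := fun {f g} hf hg hfg => by
    rw [map_add]
    refine p.ord_add (by simpa using hf) (by simpa using hg) ?_
    rw [← map_add]
    exact fun h => hfg ((map_eq_zero_iff e.symm e.symm.injective).1 h)
  ord_const := fun {c} hc => by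
    rw [AlgEquiv.commutes, p.ord_const hc]
  surj := by
    obtain ⟨t, ht0, ht⟩ := p.surj
    exact ⟨e t, by simpa using ht0, by simpa using ht⟩

theorem pushP_ord (e : K ≃ₐ[k] K') (p : Place k K) (x : K') :
    (pushP e p).ord x = p.ord (e.symm x) := rfl

theorem pushP_apply (e : K ≃ₐ[k] K') (p : Place k K) (x : K) :
    (pushP e p).ord (e x) = p.ord x := by rw [pushP_ord, AlgEquiv.symm_apply_apply]

theorem pushP_div (e : K ≃ₐ[k] K') {p : Place k K} {n : ℕ} (h : IsDivisorial p n) :
    IsDivisorial (pushP e p) n := by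
  obtain ⟨y, hy⟩ := h
  refine ⟨fun i => e (y i), fun q hq => ?_⟩
  have h1 : MvPolynomial.aeval (fun i => e (y i)) q = e (MvPolynomial.aeval y q) := by
    have h2 := (MvPolynomial.comp_aeval_apply (R := k) y (e : K →ₐ[k] K') q)
    exact h2.symm
  rw [h1, pushP_apply]
  exact ⟨by simpa using (hy q hq).1, (hy q hq).2⟩

theorem pushP_adp (e : K ≃ₐ[k] K') {p : Place k K} {ι : Type*} [Fintype ι] {b : ι → K}
    (h : Adp p b) : Adp (pushP e p) (fun i => e (b i)) := by
  refine ⟨fun i => by simpa using h.1 i, fun c n hn i hi => ?_⟩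
  have h1 : ∑ i, c i • e (b i) = e (∑ i, c i • b i) := by
    rw [map_sum]
    exact Finset.sum_congr rfl fun i _ => (map_smul e _ _).symm
  rw [h1] at hn
  have h2 : Ge p n (∑ i, c i • b i) := by
    rcases hn with hn | hn
    · left; exact (map_eq_zero_iff e e.injective).1 hn
    · right; rwa [pushP_apply] at hn
  rcases h.2 c n h2 i hi with h3 | h3
  · left; change e (b i) = 0; rw [h3, map_zero]
  · right; rwa [pushP_apply]

end

section

variable {k L : Type*} [Field k] [Field L] [Algebra k L]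

/-- Restriction of the codomain. -/
def codR {K : Type*} [Field K] [Algebra k K] (φ : K →ₐ[k] L) (N : IntermediateField k L)
    (h : ∀ x, φ x ∈ N) : K →ₐ[k] N where
  toFun := fun x => ⟨φ x, h x⟩
  map_one' := Subtype.ext (map_one φ)
  map_mul' := fun x y => Subtype.ext (map_mul φ x y)
  map_zero' := Subtype.ext (map_zero φ)
  map_add' := fun x y => Subtype.ext (map_add φ x y)
  commutes' := fun c => Subtype.ext (φ.commutes c)

theorem codR_coe {K : Type*} [Field K] [Algebra k K] (φ : K →ₐ[k] L) (N : IntermediateField k L)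
    (h : ∀ x, φ x ∈ N) (x : K) : ((codR φ N h x : N) : L) = φ x := rfl

theorem iSup_codR {r : ℕ} {K : Fin r → Type*} [∀ i, Field (K i)] [∀ i, Algebra k (K i)]
    (φ : ∀ i, K i →ₐ[k] L) (N : IntermediateField k L) (hN : N = ⨆ i, (φ i).fieldRange)
    (h : ∀ i x, φ i x ∈ N) : (⨆ i, (codR (φ i) N (h i)).fieldRange) = ⊤ := by
  apply lift_injective N
  rw [lift_top, IntermediateField.lift, IntermediateField.map_iSup]
  conv_rhs => rw [hN]
  refine iSup_congr fun i => ?_
  ext z
  constructor
  · rintro ⟨y, ⟨x, rfl⟩, rfl⟩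
    exact ⟨x, rfl⟩
  · rintro ⟨x, rfl⟩
    exact ⟨codR (φ i) N (h i) x, ⟨x, rfl⟩, rfl⟩

/-- A vector field which preserves the generators of a subfield preserves the subfield. -/
theorem der_iSup {ι : Type*} (M : ι → IntermediateField k L) (D : Derivation k L L)
    (hD : ∀ i, ∀ z ∈ M i, D z ∈ ⨆ i, M i) : ∀ z ∈ ⨆ i, M i, D z ∈ ⨆ i, M i := by
  let S : IntermediateField k L :=
    { carrier := {z | z ∈ ⨆ i, M i ∧ D z ∈ ⨆ i, M i}
      mul_mem' := fun {a b} ha hb => ⟨mul_mem ha.1 hb.1, by
        rw [D.leibniz, smul_eq_mul, smul_eq_mul]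
        exact add_mem (mul_mem ha.1 hb.2) (mul_mem hb.1 ha.2)⟩
      one_mem' := ⟨one_mem _, by rw [D.map_one_eq_zero]; exact zero_mem _⟩
      add_mem' := fun {a b} ha hb => ⟨add_mem ha.1 hb.1, by
        rw [map_add]; exact add_mem ha.2 hb.2⟩
      zero_mem' := ⟨zero_mem _, by rw [map_zero]; exact zero_mem _⟩
      algebraMap_mem' := fun c => ⟨IntermediateField.algebraMap_mem _ c, by
        rw [D.map_algebraMap]; exact zero_mem _⟩
      inv_mem' := fun a ha => ⟨inv_mem ha.1, by
        rw [D.leibniz_inv, smul_eq_mul]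
        exact mul_mem (neg_mem (pow_mem (inv_mem ha.1) 2)) ha.2⟩ }
  have h1 : (⨆ i, M i) ≤ S := iSup_le fun i z hz => ⟨le_iSup M i hz, hD i z hz⟩
  intro z hz
  exact (h1 hz).2

/-- Restriction of a vector field. -/
def resD (D : Derivation k L L) (N : IntermediateField k L) (hN : ∀ z ∈ N, D z ∈ N) :
    Derivation k N N where
  toFun := fun z => ⟨D z, hN z z.2⟩
  map_add' := fun x y => Subtype.ext (D.map_add x y)
  map_smul' := fun c x => Subtype.ext (D.map_smul c (x : L))
  map_one_eq_zero' := Subtype.ext D.map_one_eq_zero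
  leibniz' := fun x y => Subtype.ext (D.leibniz (x : L) (y : L))

theorem resD_coe (D : Derivation k L L) (N : IntermediateField k L) (hN : ∀ z ∈ N, D z ∈ N)
    (z : N) : ((resD D N hN z : N) : L) = D z := rfl

end

section

variable {k : Type} [Field k] [CharZero k] [IsAlgClosed k]

/-- The transcendence degrees of a product of `r + 1` factors. -/
theorem trdeg_split {r : ℕ} {L : Type} [Field L] [Algebra k L] {K : Fin (r + 1) → Type}
    [∀ i, Field (K i)] [∀ i, Algebra k (K i)] (φ : ∀ i, K i →ₐ[k] L) {a : Fin (r + 1) → ℕ}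
    (hK : ∀ i, Algebra.trdeg k (K i) = a i) (hL : Algebra.trdeg k L = (∑ i, a i : ℕ))
    (hsup : (⨆ i, (φ i).fieldRange) = ⊤) (N : IntermediateField k L)
    (hN : N = ⨆ i : Fin r, (φ i.succ).fieldRange) :
    Algebra.trdeg k N = (∑ i : Fin r, a i.succ : ℕ) ∧
      Algebra.trdeg k (φ 0).fieldRange = a 0 ∧ N ⊔ (φ 0).fieldRange = ⊤ := by
  have hr : ∀ i, Algebra.trdeg k (φ i).fieldRange = a i := fun i => by
    rw [← hK]; exact (AlgEquiv.ofInjectiveField (φ i)).symm.trdeg_eq
  have hmem : ∀ (i : Fin r) x, φ i.succ x ∈ N := fun i x => by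
    rw [hN]
    exact (le_iSup (fun i : Fin r => (φ i.succ).fieldRange) i) ⟨x, rfl⟩
  have hsup0 := iSup_codR (fun i : Fin r => φ i.succ) N hN hmem
  have hM0 : ∀ i : Fin r, Algebra.trdeg k (codR (φ i.succ) N (hmem i)).fieldRange = a i.succ :=
    fun i => by
      rw [← hK]; exact (AlgEquiv.ofInjectiveField (codR (φ i.succ) N (hmem i))).symm.trdeg_eq
  have hN1 : Algebra.trdeg k N ≤ (∑ i : Fin r, a i.succ : ℕ) :=
    trdeg_le_iSupT (a := fun i : Fin r => a i.succ) _ hM0 hsup0
  have hsupN : N ⊔ (φ 0).fieldRange = ⊤ := by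
    rw [eq_top_iff, ← hsup]
    refine iSup_le fun i => ?_
    refine Fin.cases ?_ (fun j => ?_) i
    · exact le_sup_right
    · refine le_trans ?_ le_sup_left
      rw [hN]
      exact le_iSup (fun i : Fin r => (φ i.succ).fieldRange) j
  obtain ⟨c, hc⟩ : ∃ c : ℕ, Algebra.trdeg k N = c :=
    Cardinal.lt_aleph0.1 (hN1.trans_lt (Cardinal.natCast_lt_aleph0))
  have hL1 : Algebra.trdeg k L ≤ (c + a 0 : ℕ) := by
    have h1 := trdeg_sup_leT hc (hr 0)
    rw [hsupN] at h1
    rw [← (IntermediateField.topEquiv (F := k) (E := L)).trdeg_eq]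
    exact h1
  rw [hL, Fin.sum_univ_succ] at hL1
  rw [hc] at hN1
  have h5 : a 0 + ∑ i : Fin r, a i.succ ≤ c + a 0 := by exact_mod_cast hL1
  have h6 : c ≤ ∑ i : Fin r, a i.succ := by exact_mod_cast hN1
  refine ⟨?_, hr 0, hsupN⟩
  rw [hc]
  congr 1
  omega

end

section

variable {k : Type} [Field k] [CharZero k] [IsAlgClosed k] {L : Type} [Field L] [Algebra k L]
  {M N : IntermediateField k L} {a b : ℕ}

theorem dj_ofT (hsup : M ⊔ N = ⊤) (hn : Algebra.trdeg k L = (a + b : ℕ))
    (hM : Algebra.trdeg k M = a) (hN : Algebra.trdeg k N = b) : Dj M N := by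
  have halg : Algebra.IsAlgebraic ↥(M ⊔ N) L := by
    rw [hsup]
    exact ⟨fun z => isAlgebraic_algebraMap (⟨z, trivial⟩ : (⊤ : IntermediateField k L))⟩
  refine ⟨?_, hsup⟩
  let β := Module.Basis.ofVectorSpace k N
  exact IntermediateField.LinearDisjoint.of_basis_right β
    (linDisj M N halg hn hM hN β β.linearIndependent)

end

end Pool.Agent.K1H17.TP
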