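import Pool.Agent.K1H17.TP.Mo
import Pool.Agent.K1H17.TP.Ad3

/-! Products of functions which are adapted to several places. -/

set_option autoImplicit false
set_option linter.overlappingInstances false
set_option linter.unusedSectionVars false
set_option linter.unusedVariables false

open FF IntermediateField Pool.Agent.W619.PQ Pool.Agent.W619.PL Pool.Agent.W619.TW
  Pool.Agent.W603.LV Pool.Agent.K1H17.IS

namespace Pool.Agent.K1H17.TP

section

variable {k : Type} [Field k] [CharZero k] [IsAlgClosed k] {r n : ℕ}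
  {L : Type} [Field L] [Algebra k L] {K : Fin r → Type} [∀ i, Field (K i)]
  [∀ i, Algebra k (K i)] {φ : ∀ i, K i →ₐ[k] L}

/-- Products of functions which are adapted to several places. -/
theorem multi_mono {T : Fin r → Type} {p : ∀ i, T i → Place k (K i)} {lam : Fin r → ℕ}
    {w : (∀ i, T i) → Place k L} (hw : ∀ τ, IsMono φ n (fun i => p i (τ i)) lam (w τ))
    (s : ∀ i, T i → ℤ) {ι : Fin r → Type} [∀ i, Fintype (ι i)] {b : ∀ i, ι i → K i}
    {o : ∀ i, ι i → ℤ} (hb : ∀ i, AdpT (p i) (s i) (b i) (o i)) (c : (∀ i, ι i) → k) (N : ℤ)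
    (h : ∀ τ, Ge (w τ) (N - ∑ i, (lam i : ℤ) * s i (τ i)) (∑ J, c J • ∏ i, φ i (b i (J i))))
    (J : ∀ i, ι i) (hJ : c J ≠ 0) : N ≤ ∑ i, (lam i : ℤ) * o i (J i) := by
  classical
  have hfin : ∀ i, FiniteDimensional k (Submodule.span k (Set.range (b i))) := fun i =>
    FiniteDimensional.span_of_finite k (Set.finite_range (b i))
  choose κ hκ e he heV hespan using fun i (t : T i) =>
    exists_adp_basis (p i t) (Submodule.span k (Set.range (b i)))
  have hB : ∀ i (t : T i) (l : ι i), ∃ g : κ i t → k, ∑ m, g m • e i t m = b i l := by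
    intro i t l
    have h1 : b i l ∈ Submodule.span k (Set.range (e i t)) := by
      rw [hespan]
      exact Submodule.subset_span ⟨l, rfl⟩
    exact (Submodule.mem_span_range_iff_exists_fun k).1 h1
  choose B hB using hB
  refine multi r ι T κ (fun i t m => (p i t).ord (e i t m) + s i t) B o ?_ lam c N ?_ J hJ
  · intro i c n hc l hl
    refine (hb i).adp c n (fun t => ?_) l hl
    have h1 : ∑ l, c l • b i l = ∑ m, (∑ l, c l * B i t l m) • e i t m := by
      simp only [Finset.sum_smul]
      rw [Finset.sum_comm]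
      refine Finset.sum_congr rfl fun l _ => ?_
      rw [← hB i t l, Finset.smul_sum]
      exact Finset.sum_congr rfl fun m _ => by rw [smul_smul]
    rw [h1]
    refine ge_lincomb fun m hm => Or.inr ?_
    have := hc t m hm
    omega
  · intro τ J' hne
    have h1 : ∑ J, c J • ∏ i, φ i (b i (J i)) =
        ∑ J' : (∀ i, κ i (τ i)), (∑ J, c J * ∏ i, B i (τ i) (J i) (J' i)) •
          ∏ i, φ i (e i (τ i) (J' i)) := by
      simp only [Finset.sum_smul]
      rw [Finset.sum_comm]
      refine Finset.sum_congr rfl fun J _ => ?_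
      have h2 : ∀ i, φ i (b i (J i)) = ∑ m, B i (τ i) (J i) m • φ i (e i (τ i) m) := by
        intro i
        rw [← hB i (τ i) (J i), map_sum]
        exact Finset.sum_congr rfl fun m _ => map_smul _ _ _
      have h3 : ∏ i, φ i (b i (J i)) = ∑ J' : (∀ i, κ i (τ i)),
          (∏ i, B i (τ i) (J i) (J' i)) • ∏ i, φ i (e i (τ i) (J' i)) := by
        rw [Finset.prod_congr rfl fun i _ => h2 i, Finset.prod_univ_sum, Fintype.piFinset_univ]
        refine Finset.sum_congr rfl fun J' _ => ?_
        simp only [Algebra.smul_def]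
        rw [Finset.prod_mul_distrib, map_prod]
      rw [h3, Finset.smul_sum]
      exact Finset.sum_congr rfl fun J' _ => by rw [smul_smul]
    have h2 := h τ
    rw [h1] at h2
    have hadp := (hw τ).adp (fun i => κ i (τ i)) (fun i => e i (τ i)) fun i => he i (τ i)
    have h3 := (hadp.2 _ _ h2 J' hne).resolve_left (hadp.1 J')
    have h4 : (w τ).ord (∏ i, φ i (e i (τ i) (J' i))) =
        ∑ i, (lam i : ℤ) * (p i (τ i)).ord (e i (τ i) (J' i)) := by
      rw [ord_prod _ _ _ fun i _ => by simpa using (he i (τ i)).1 (J' i)]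
      exact Finset.sum_congr rfl fun i _ => (hw τ).ord i _
    rw [h4] at h3
    have h5 : ∑ i, (lam i : ℤ) * ((p i (τ i)).ord (e i (τ i) (J' i)) + s i (τ i)) =
        ∑ i, (lam i : ℤ) * (p i (τ i)).ord (e i (τ i) (J' i)) + ∑ i, (lam i : ℤ) * s i (τ i) := by
      rw [← Finset.sum_add_distrib]
      exact Finset.sum_congr rfl fun i _ => by ring
    rw [h5]
    linarith

end

end Pool.Agent.K1H17.TP
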