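import Pool.Agent.K1H17.TP.Ps
import Pool.Agent.K1H17.TP.Mu

/-! The estimate for the products which occur in a section, at the monomial places. -/

set_option autoImplicit false
set_option linter.overlappingInstances false
set_option linter.unusedSectionVars false
set_option linter.unusedVariables false

open FF IntermediateField Pool.Agent.W619.PQ Pool.Agent.W619.PL Pool.Agent.W619.TW
  Pool.Agent.W603.LV Pool.Agent.W619.Y Pool.Agent.W672.PG Pool.Agent.W824.PG Pool.Agent.Y174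
  Pool.Agent.K1H17.IS

namespace Pool.Agent.K1H17.TP

section

variable {k : Type} [Field k] [CharZero k] [IsAlgClosed k] {r n : ℕ} {a : Fin r → ℕ}
  {L : Type} [Field L] [Algebra k L] {K : Fin r → Type} [∀ i, Field (K i)]
  [∀ i, Algebra k (K i)] {φ : ∀ i, K i →ₐ[k] L}

/-- The estimate at one place. -/
theorem est_one (hn : Algebra.trdeg k L = n) (hess : Algebra.EssFiniteType k L) {Y : Fin n → L}
    {y : ∀ i, Fin (a i) → K i}
    (hfrm : Frm φ Y y) {p : ∀ i, Place k (K i)} (Dl : ∀ i, Fin (a i) → Derivation k (K i) (K i))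
    (hDl : ∀ i l z, (p i).Reg (Dl i l z / z))
    (hΔ : ∀ i, (Matrix.of fun l c => Dl i l (y i c)).det ≠ 0)
    {lam : Fin r → ℕ} {w : Place k L} (hw : IsMono φ n p lam w) {δ : Place k L → ℝ} {g : ℕ}
    (hg : 0 < g) (hδ : δ w ≤ 1 - 1 / (g : ℝ)) (S : Finset L) {b0 : L} (hb0 : b0 ≠ 0)
    (m : ℕ) (G : L)
    (hsec : PairSec k L n δ S m 1 (fun D => G * (Matrix.of fun i j => D i (Y j)).det ^ m)) :
    b0 * G = 0 ∨ (m : ℝ) / g - (∑ s ∈ S, |(w.ord s : ℝ)| + |(w.ord b0 : ℝ)|) ≤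
      (w.ord (b0 * G) +
        ∑ i, (lam i : ℤ) * (m * (p i).ord (Matrix.of fun l c => Dl i l (y i c)).det) : ℤ) := by
  classical
  by_cases hG0 : G = 0
  · left; rw [hG0, mul_zero]
  right
  obtain ⟨DD, hDD1, hDD2⟩ := hfrm Dl
  have hlogD : ∀ l z, w.Reg (DD l z / z) := by
    intro l
    refine hw.log (DD l) fun i x => ?_
    rcases hDD1 l i x with h1 | ⟨l', h1⟩
    · exact ⟨0, by rw [h1, map_zero, mul_zero], (p i).reg_zero⟩
    · refine ⟨Dl i l' x / x, ?_, hDl i l' x⟩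
      rw [h1]
      by_cases hx : x = 0
      · rw [hx]; simp
      · rw [← map_mul, mul_div_cancel₀ _ hx]
  have hordΔ : w.ord (Matrix.of fun i j => DD i (Y j)).det =
      ∑ i, (lam i : ℤ) * (p i).ord (Matrix.of fun l c => Dl i l (y i c)).det := by
    rw [hDD2, ord_prod _ _ _ fun i _ => by simpa using hΔ i]
    exact Finset.sum_congr rfl fun i _ => hw.ord i _
  have hdet0 : (Matrix.of fun i j => DD i (Y j)).det ≠ 0 := by
    rw [hDD2]
    exact Finset.prod_ne_zero_iff.2 fun i _ => by simpa using hΔ i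
  have hlow : (m : ℝ) * (1 / g) - ∑ s ∈ S, |(w.ord s : ℝ)| ≤
      w.ord G + m * w.ord (Matrix.of fun i j => DD i (Y j)).det := by
    have hne : G * (Matrix.of fun i j => DD i (Y j)).det ^ m ≠ 0 :=
      mul_ne_zero hG0 (pow_ne_zero _ hdet0)
    have hord : w.ord (G * (Matrix.of fun i j => DD i (Y j)).det ^ m) =
        w.ord G + m * w.ord (Matrix.of fun i j => DD i (Y j)).det := by
      rw [w.ord_mul hG0 (pow_ne_zero _ hdet0), w.ord_pow]
    rcases pair_log hn hess hsec hw.div with h1 | ⟨t, ht, ht0, -, h1⟩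
    · have h2 := (h1 (w.ord (G * (Matrix.of fun i j => DD i (Y j)).det ^ m) + 1) DD
        (fun l => pres_of_log (hlogD l)) hlogD).resolve_left hne
      linarith
    · have h2 := (h1 DD (fun l => pres_of_log (hlogD l)) hlogD).resolve_left hne
      change m * (1 - δ w) + w.ord t ≤
        (w.ord (G * (Matrix.of fun i j => DD i (Y j)).det ^ m) : ℝ) at h2
      rw [hord] at h2
      push_cast at h2
      have h3 : -|(w.ord t : ℝ)| ≤ w.ord t := neg_abs_le _
      have h4 : |(w.ord t : ℝ)| ≤ ∑ s ∈ S, |(w.ord s : ℝ)| :=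
        Finset.single_le_sum (f := fun s => |(w.ord s : ℝ)|) (fun s _ => abs_nonneg _) ht
      have h5 : (m : ℝ) * (1 / g) ≤ m * (1 - δ w) :=
        mul_le_mul_of_nonneg_left (by linarith) (Nat.cast_nonneg m)
      linarith
  rw [w.ord_mul hb0 hG0]
  rw [hordΔ] at hlow
  have h10 : -|(w.ord b0 : ℝ)| ≤ w.ord b0 := neg_abs_le _
  have h11 : ∑ i, (lam i : ℤ) * ((m : ℤ) * (p i).ord (Matrix.of fun l c => Dl i l (y i c)).det) =
      m * ∑ i, (lam i : ℤ) * (p i).ord (Matrix.of fun l c => Dl i l (y i c)).det := by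
    rw [Finset.mul_sum]
    exact Finset.sum_congr rfl fun i _ => by ring
  rw [h11]
  have h12 : (m : ℝ) / g = m * (1 / g) := by ring
  rw [h12]
  push_cast at hlow ⊢
  linarith

/-- The estimate. -/
theorem est (hn : Algebra.trdeg k L = n) (hess : Algebra.EssFiniteType k L) {Y : Fin n → L}
    {y : ∀ i, Fin (a i) → K i}
    (hfrm : Frm φ Y y) {T : Fin r → Type} [∀ i, Finite (T i)] {p : ∀ i, T i → Place k (K i)}
    (Dl : ∀ i, T i → Fin (a i) → Derivation k (K i) (K i))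
    (hDl : ∀ i t l z, (p i t).Reg (Dl i t l z / z))
    (hΔ : ∀ i t, (Matrix.of fun l c => Dl i t l (y i c)).det ≠ 0)
    {lam : Fin r → ℕ} {w : (∀ i, T i) → Place k L}
    (hw : ∀ τ, IsMono φ n (fun i => p i (τ i)) lam (w τ)) {δ : Place k L → ℝ} {g : ℕ}
    (hg : 0 < g) (hδ : ∀ τ, δ (w τ) ≤ 1 - 1 / (g : ℝ)) (S : Finset L) {b0 : L} (hb0 : b0 ≠ 0) :
    ∃ C : ℝ, ∀ (m : ℕ) (G : L),
      PairSec k L n δ S m 1 (fun D => G * (Matrix.of fun i j => D i (Y j)).det ^ m) →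
      ∀ (ι : Fin r → Type) [∀ i, Fintype (ι i)] (b : ∀ i, ι i → K i) (o : ∀ i, ι i → ℤ),
      (∀ i, AdpT (p i) (fun t => m * (p i t).ord (Matrix.of fun l c => Dl i t l (y i c)).det)
        (b i) (o i)) →
      ∀ c : (∀ i, ι i) → k, b0 * G = ∑ J, c J • ∏ i, φ i (b i (J i)) → ∀ J, c J ≠ 0 →
        m - C ≤ ∑ i, ((g * lam i : ℕ) : ℝ) * o i (J i) := by
  classical
  have hfT : ∀ i, Fintype (T i) := fun i => Fintype.ofFinite _
  obtain ⟨CT, hCT⟩ : ∃ CT : (∀ i, T i) → ℝ, CT = fun τ =>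
    ∑ s ∈ S, |((w τ).ord s : ℝ)| + |((w τ).ord b0 : ℝ)| := ⟨_, rfl⟩
  have hCT0 : ∀ τ, 0 ≤ CT τ := fun τ => by rw [hCT]; positivity
  refine ⟨g * ∑ τ, CT τ, ?_⟩
  intro m G hsec ι _ b o hb c hc J hJ
  have hg' : (0 : ℝ) < g := by exact_mod_cast hg
  have h1 := multi_mono hw (fun i t => m * (p i t).ord (Matrix.of fun l c => Dl i t l (y i c)).det)
    hb c ⌈(m : ℝ) / g - ∑ τ, CT τ⌉ (fun τ => by
      rw [← hc]
      rcases est_one hn hess hfrm (fun i => Dl i (τ i)) (fun i => hDl i (τ i))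
        (fun i => hΔ i (τ i)) (hw τ) hg (hδ τ) S hb0 m G hsec with h1 | h1
      · exact Or.inl h1
      · right
        have h2 : (m : ℝ) / g - ∑ τ, CT τ ≤ (m : ℝ) / g - (∑ s ∈ S, |((w τ).ord s : ℝ)| +
            |((w τ).ord b0 : ℝ)|) := by
          have h3 : CT τ ≤ ∑ τ, CT τ := Finset.single_le_sum (fun τ _ => hCT0 τ)
            (Finset.mem_univ τ)
          rw [hCT] at h3 ⊢
          linarith
        have h3 := Int.ceil_le.2 (h2.trans h1)
        linarith) J hJ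
  have h2 := Int.ceil_le.1 h1
  have h3 := mul_le_mul_of_nonneg_left h2 hg'.le
  have h4 : (g : ℝ) * ((m : ℝ) / g - ∑ τ, CT τ) = m - g * ∑ τ, CT τ := by
    field_simp
  rw [h4] at h3
  refine h3.trans (le_of_eq ?_)
  push_cast
  rw [Finset.mul_sum]
  exact Finset.sum_congr rfl fun i _ => by ring

end

end Pool.Agent.K1H17.TP
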