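import Pool.Agent.K1H17.TP.Ub
import Pool.Agent.K1H17.TP.Rm
import Pool.Agent.K1H17.IS.Fm

/-! Abelian covers of products: the Kodaira dimension and the numerical dimension. -/

set_option autoImplicit false
set_option linter.overlappingInstances false
set_option linter.unusedSectionVars false
set_option linter.unusedVariables false

open FF IntermediateField Pool.Agent.W619.PQ Pool.Agent.W619.PL Pool.Agent.W619.TW
  Pool.Agent.W603.LV Pool.Agent.W619.Y Pool.Agent.W672.PG Pool.Agent.W824.PG Pool.Agent.Y174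
  Pool.Agent.K1H17.IS

namespace Pool.Agent.K1H17.TP

section

variable {k : Type} [Field k] [CharZero k] [IsAlgClosed k] {L : Type} [Field L] [Algebra k L]
  {r s : ℕ} {M : Fin r → IntermediateField k L} {a : Fin r → ℕ} {D : ∀ i, DivData (M i)}
  {A : Fin s → Fin r → ℤ} {m : Fin s → ℕ} {z : Fin s → L}

theorem IsAbelianCover.z_ne (h : IsAbelianCover M a D A m z) (j : Fin s) : z j ≠ 0 := by
  intro h0
  have h1 := h.root j
  rw [h0, zero_pow (h.pos j).ne'] at h1
  have h2 : ∏ i, (((D i).τ : M i) : L) ^ A j i ≠ 0 :=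
    Finset.prod_ne_zero_iff.2 fun i _ => zpow_ne_zero _ fun h3 => (D i).ne0 (Subtype.ext h3)
  exact h2 h1.symm

theorem IsAbelianCover.root_mem (h : IsAbelianCover M a D A m z) (j : Fin s) :
    z j ^ m j ∈ (⨆ i, M i) := by
  rw [h.root]
  exact prod_mem fun i _ => zpow_mem (le_iSup M i (D i).τ.2) _

theorem IsAbelianCover.galois (h : IsAbelianCover M a D A m z) :
    FiniteDimensional ↥(⨆ i, M i) L ∧ IsGalois ↥(⨆ i, M i) L := by
  refine Pool.Agent.TH122.AB.galois_of_roots (⨆ i, M i) (S := Set.range z) (Set.finite_range z)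
    (fun L' h1 h2 => ?_) (M := ∏ j, m j) (Finset.prod_pos fun j _ => h.pos j) ?_
  · rw [eq_top_iff, ← h.gen]
    exact sup_le h1 (IntermediateField.adjoin_le_iff.2 h2)
  · rintro _ ⟨j, rfl⟩
    obtain ⟨c, hc⟩ := Finset.dvd_prod_of_mem m (Finset.mem_univ j)
    rw [hc, pow_mul]
    exact pow_mem (h.root_mem j) _

theorem IsAbelianCover.alg (h : IsAbelianCover M a D A m z) :
    Algebra.IsAlgebraic ↥(⨆ i, M i) L := by
  have := h.galois.1
  infer_instance

theorem IsAbelianCover.essL (h : IsAbelianCover M a D A m z) : Algebra.EssFiniteType k L := by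
  have h1 : Algebra.EssFiniteType k ↥(⨆ i, M i) :=
    essFiniteType_iff.2 (fg_iSup fun j => essFiniteType_iff.1 (h.ess j))
  have := h.galois.1
  exact Algebra.EssFiniteType.comp k ↥(⨆ i, M i) L

/-- The numerical part. -/
theorem IsAbelianCover.num (hc : IsAbelianCover M a D A m z) {T : Fin r → Type}
    [∀ i, Finite (T i)] [∀ i, Nonempty (T i)] {p : ∀ i, T i → Place k (M i)}
    (hp : ∀ i t, (D i).ev (p i t).ord = 1) {α : Fin r → ℚ} {h e : Fin r → ℕ}
    (H : ∀ i, Thr k (M i) (a i) (D i) (p i) (α i) (h i) (e i)) :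
    ((∃ v, Adm A m v ∧ wt α v < 1) → NumNeg k L (∑ i, a i) (fun _ => False)) ∧
    (∀ κ : Fin r → ℕ, (∀ i, Crit A m α i → h i ≤ κ i) → (∀ i, ¬ Crit A m α i → e i ≤ κ i) →
      NumLe k L (∑ i, a i) (fun _ => False) (∑ i, κ i)) := by
  classical
  obtain ⟨n, hn⟩ : ∃ n, n = ∑ i, a i := ⟨_, rfl⟩
  rw [← hn]
  have hL : Algebra.trdeg k L = n := by rw [hc.total, hn]
  have hessL := hc.essL
  have hfd := hc.galois.1
  have hgal := hc.galois.2
  obtain ⟨G, hG⟩ : ∃ G : Subgroup (L ≃ₐ[k] L), G = (⨆ i, M i).fixingSubgroup := ⟨_, rfl⟩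
  obtain ⟨hGfin, hGfix⟩ := Pool.Agent.TH122.AB.fixing_props (⨆ i, M i)
  rw [← hG] at hGfin hGfix
  -- the factors
  have hmem : ∀ i x, (M i).val x ∈ fixedField G := by
    intro i x
    rw [hGfix]
    exact le_iSup M i x.2
  let φ : ∀ i, M i →ₐ[k] fixedField G := fun i => codR (M i).val (fixedField G) (hmem i)
  have hφ : ∀ i x, ((φ i x : fixedField G) : L) = (x : L) := fun i x => rfl
  have hsup : (⨆ i, (φ i).fieldRange) = ⊤ := by
    refine iSup_codR (fun i => (M i).val) (fixedField G) ?_ hmem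
    rw [hGfix]
    exact iSup_congr fun i => (IntermediateField.fieldRange_val (M i)).symm
  have hBn : Algebra.trdeg k (fixedField G) = n := by
    have halg' := Pool.Agent.W721.PG.EFF2.alg_fixed G
    have h1 := (Pool.Agent.W721.PG.EFF2.exists_basis (fixedField G) n hL).1
    exact h1
  obtain ⟨b, hb⟩ : ∃ b : Fin s → fixedField G, ∀ j, z j ^ m j = (b j : L) :=
    ⟨fun j => ⟨z j ^ m j, by rw [hGfix]; exact hc.root_mem j⟩, fun j => rfl⟩
  have hb' : ∀ j, b j = ∏ i, φ i (D i).τ ^ A j i := by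
    intro j
    apply Subtype.ext
    rw [← hb, hc.root]
    have h1 : ((∏ i, φ i (D i).τ ^ A j i : fixedField G) : L) =
        ∏ i, ((φ i (D i).τ ^ A j i : fixedField G) : L) := map_prod (algebraMap (fixedField G) L) _ _
    rw [h1]
    exact Finset.prod_congr rfl fun i _ => rfl
  -- ramification
  have hgen : ∀ σ ∈ G, (∀ j, σ (z j) = z j) → σ = 1 := by
    intro σ hσ hσz
    ext x
    have hx : x ∈ (⨆ i, M i) ⊔ IntermediateField.adjoin k (Set.range z) := by
      rw [hc.gen]; trivial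
    let S : IntermediateField k L := fixedField (Subgroup.zpowers σ)
    have hS : ∀ y, σ y = y → y ∈ S := by
      intro y hy g
      obtain ⟨t, ht⟩ := Subgroup.mem_zpowers_iff.1 g.2
      change (g : L ≃ₐ[k] L) y = y
      rw [← ht]
      have h1 : ∀ t : ℕ, (σ ^ t) y = y := by
        intro t
        induction t with
        | zero => rfl
        | succ t ih => rw [pow_succ', AlgEquiv.mul_apply, ih, hy]
      have h2 : ∀ t : ℕ, (σ ^ t)⁻¹ y = y := by
        intro t
        have h3 := congrArg (fun y => (σ ^ t)⁻¹ y) (h1 t)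
        change ((σ ^ t)⁻¹ * σ ^ t) y = _ at h3
        rw [inv_mul_cancel] at h3
        exact h3.symm
      obtain ⟨t', rfl | rfl⟩ := t.eq_nat_or_neg
      · rw [zpow_natCast]; exact h1 t'
      · rw [zpow_neg, zpow_natCast]; exact h2 t'
    have h1 : (⨆ i, M i) ⊔ IntermediateField.adjoin k (Set.range z) ≤ S := by
      refine sup_le (fun y hy => hS y ?_) (IntermediateField.adjoin_le_iff.2 ?_)
      · rw [hG] at hσ
        exact hσ ⟨y, hy⟩
      · rintro _ ⟨j, rfl⟩
        exact hS _ (hσz j)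
    exact h1 hx ⟨σ, Subgroup.mem_zpowers σ⟩
  have hramv : ∀ (v : Place k (fixedField G)) (w : Place k L) (e' N : ℕ), LiesOn w v e' →
      (∀ j, (m j : ℤ) ∣ N * ∑ i, A j i * (D i).ev (fun x => v.ord (φ i x))) → e' ∣ N := by
    intro v w e' N hwv hN
    refine ram hwv hc.pos hc.z_ne hb hgen fun j => ?_
    have h0 : ∀ i, φ i (D i).τ ≠ 0 := fun i => by simpa using (D i).ne0
    have h2 : (N : ℤ) * v.ord (b j) = N * ∑ i, A j i * (D i).ev (fun x => v.ord (φ i x)) +
        N * ∑ i, A j i * (D i).N * (D i).S.inf' (D i).ne (fun x => v.ord (φ i x)) := by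
      rw [hb', ord_prod_zpow v _ _ h0, ← mul_add, ← Finset.sum_add_distrib]
      congr 1
      refine Finset.sum_congr rfl fun i _ => ?_
      rw [DivData.ev]
      ring
    rw [h2]
    refine dvd_add (hN j) (Dvd.dvd.mul_left (Finset.dvd_sum fun i _ => ?_) _)
    exact Dvd.dvd.mul_right (hc.deg j i) _
  -- the multiplicities
  let X : Place k (fixedField G) → Set ℝ := fun v =>
    {x | ∃ (w : Place k L) (e' : ℕ), LiesOn w v e' ∧ x = 1 - 1 / (e' : ℝ)}
  let δ : Place k (fixedField G) → ℝ := fun v => sSup (X v)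
  have hXbdd : ∀ v, BddAbove (X v) := by
    intro v
    refine ⟨1, ?_⟩
    rintro _ ⟨w, e', h1, rfl⟩
    have h2 : (0 : ℝ) ≤ 1 / (e' : ℝ) := by positivity
    linarith
  have hXne : ∀ v, (X v).Nonempty := by
    intro v
    obtain ⟨w0, e0, I, hwv0, -, -⟩ := exists_inertia G v
    exact ⟨_, w0, e0, hwv0, rfl⟩
  have hδle : ∀ v (g : ℕ), 0 < g → (∀ (w : Place k L) (e' : ℕ), LiesOn w v e' → e' ∣ g) →
      δ v ≤ 1 - 1 / (g : ℝ) := by
    intro v g hg hv
    refine csSup_le (hXne v) ?_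
    rintro _ ⟨w, e', h1, rfl⟩
    have h2 : (e' : ℝ) ≤ g := by exact_mod_cast Nat.le_of_dvd hg (hv w e' h1)
    have h3 : (0 : ℝ) < e' := by exact_mod_cast h1.1
    have h4 := one_div_le_one_div_of_le h3 h2
    linarith
  have hδge : ∀ v (w : Place k L) (e' : ℕ), LiesOn w v e' →
      (0 : ℝ) ≤ 1 - e' * (1 - δ v) := by
    intro v w e' h1
    have h2 : 1 - 1 / (e' : ℝ) ≤ δ v := le_csSup (hXbdd v) ⟨w, e', h1, rfl⟩
    have h3 : (0 : ℝ) < e' := by exact_mod_cast h1.1
    have h4 : (e' : ℝ) * (1 - δ v) ≤ e' * (1 / e') :=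
      mul_le_mul_of_nonneg_left (by linarith) h3.le
    rw [mul_one_div_cancel h3.ne'] at h4
    linarith
  have hub := ub (φ := φ) (δ := δ) hn hc.ess hc.trdeg hBn hsup H (A := A) (m := m)
    (fun v => csSup_le (hXne v) (by
      rintro _ ⟨w, e', h1, rfl⟩
      have h2 : (0 : ℝ) ≤ 1 / (e' : ℝ) := by positivity
      linarith))
    (fun v hv => by
      have h1 := hδle v 1 one_pos fun w e' hwv => hramv v w e' 1 hwv fun j => by
        have h2 : ∑ i, A j i * (D i).ev (fun x => v.ord (φ i x)) = 0 :=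
          Finset.sum_eq_zero fun i _ => by rw [hv i, mul_zero]
        rw [h2, mul_zero]
        exact dvd_zero _
      simpa using h1)
    (fun τ g lam w hg hadm hmono => by
      refine hδle w g hg fun w' e' hwv => hramv w w' e' g hwv fun j => ?_
      have h1 := hadm.2 j
      have h2 : (g : ℤ) * ∑ i, A j i * (D i).ev (fun x => w.ord (φ i x)) =
          ∑ i, A j i * ((g * lam i : ℕ) : ℤ) := by
        rw [Finset.mul_sum]
        refine Finset.sum_congr rfl fun i _ => ?_
        rw [(D i).ev_scale (Int.natCast_nonneg (lam i)) (hmono.ord i), hp i (τ i)]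
        push_cast
        ring
      rw [h2]
      exact h1)
  refine ⟨fun hv S => ?_, fun κ h1 h2 S => ?_⟩
  · have h1 := cov_neg hL hessL G δ (fun _ => 0)
      (fun v _ w e' hwv => hδge v w e' hwv) (hub.1 hv)
    obtain ⟨M0, hM0⟩ := h1 S
    refine ⟨M0, fun M' hM' hI => ?_⟩
    obtain ⟨ω, hω, hsec⟩ := hI
    have h2 := hM0 M' hM' (ω 0) (pair_of_sec hL hessL (Bd := fun _ => False)
      (fun v hv => hv.elim) (fun v _ => rfl) (hsec 0))
    exact hω.ne_zero 0 h2
  · have h3 := cov_num hL hessL G δ (fun _ => 0)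
      (fun v _ w e' hwv => hδge v w e' hwv) (hub.2 κ h1 h2)
    obtain ⟨C, hC⟩ := h3 S
    refine ⟨C, fun M' N hM' hI => hC M' N hM' ?_⟩
    obtain ⟨ω, hω, hsec⟩ := hI
    exact ⟨ω, hω, fun l => pair_of_sec hL hessL (Bd := fun _ => False)
      (fun v hv => hv.elim) (fun v _ => rfl) (hsec l)⟩

/-- The Kodaira dimension. -/
theorem IsAbelianCover.kod (hc : IsAbelianCover M a D A m z)
    (hD : ∀ i (q : Place k (M i)), IsDivisorial q (a i) → 0 ≤ (D i).ev q.ord)
    {α : Fin r → ℚ} (h1 : ∀ v, Adm A m v → 1 ≤ wt α v) {κ : Fin r → ℕ}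
    (hk1 : ∀ i, Crit A m α i →
      PairKod k (M i) (a i) (fun q => 1 - lam (α i) ((D i).ev q.ord)) (κ i))
    (hk2 : ∀ i, ¬ Crit A m α i → ∀ x : ℚ, 0 ≤ x → x < α i →
      PairKod k (M i) (a i) (fun q => 1 - lam x ((D i).ev q.ord)) (κ i)) :
    KodTr k L (∑ i, a i) (∑ i, κ i) := by
  obtain ⟨x, hx1, hx2, hx3, hx4⟩ := arith hc.pos h1
  refine low M D hc.alg hc.total hc.trdeg hc.essL hc.ess hD hc.z_ne hc.root hc.deg hx3 hx4
    fun i => ?_
  by_cases hi : Crit A m α i
  · rw [hx1 i hi]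
    exact hk1 i hi
  · exact hk2 i hi (x i) (hx3 i) (hx2 i hi)

end

end Pool.Agent.K1H17.TP
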