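import Pool.Agent.K1H17.TP.Pm

/-! Abelian covers of products: the final statements. -/

set_option autoImplicit false
set_option linter.overlappingInstances false
set_option linter.unusedSectionVars false
set_option linter.unusedVariables false

open FF IntermediateField Pool.Agent.W619.PQ Pool.Agent.W619.PL Pool.Agent.W619.TW
  Pool.Agent.W603.LV Pool.Agent.W619.Y Pool.Agent.W672.PG Pool.Agent.W824.PG Pool.Agent.Y174
  Pool.Agent.K1H17.IS Pool.Agent.TH122.AB

namespace Pool.Agent.K1H17.TP

section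

variable {k : Type} [Field k] [CharZero k] [IsAlgClosed k] {L : Type} [Field L] [Algebra k L]
  {r s : ℕ} {M : Fin r → IntermediateField k L} {a : Fin r → ℕ} {D : ∀ i, DivData (M i)}
  {A : Fin s → Fin r → ℤ} {m : Fin s → ℕ} {z : Fin s → L}

open Classical in
/-- The general statement. -/
theorem IsAbelianCover.dichotomy (hc : IsAbelianCover M a D A m z) {T : Fin r → Type}
    [∀ i, Finite (T i)] [∀ i, Nonempty (T i)] {p : ∀ i, T i → Place k (M i)}
    (hp : ∀ i t, (D i).ev (p i t).ord = 1)
    (hD : ∀ i (q : Place k (M i)), IsDivisorial q (a i) → 0 ≤ (D i).ev q.ord)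
    {α : Fin r → ℚ} {h e : Fin r → ℕ}
    (H : ∀ i, Thr k (M i) (a i) (D i) (p i) (α i) (h i) (e i))
    (hk1 : ∀ i, Crit A m α i →
      PairKod k (M i) (a i) (fun q => 1 - lam (α i) ((D i).ev q.ord)) (h i))
    (hk2 : ∀ i, ¬ Crit A m α i → ∀ x : ℚ, 0 ≤ x → x < α i →
      PairKod k (M i) (a i) (fun q => 1 - lam x ((D i).ev q.ord)) (e i)) :
    Dichotomy k L (∑ i, a i) A m α (∑ i, if Crit A m α i then h i else e i) := by
  obtain ⟨h1, h2⟩ := hc.num hp H
  by_cases hv : ∃ v, Adm A m v ∧ wt α v < 1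
  · exact Or.inl ⟨hv, h1 hv⟩
  · right
    have hv' : ∀ v, Adm A m v → 1 ≤ wt α v := by
      intro v h3
      by_contra h4
      exact hv ⟨v, h3, not_le.1 h4⟩
    have h3 : KodTr k L (∑ i, a i) (∑ i, if Crit A m α i then h i else e i) := by
      refine hc.kod hD hv' (fun i hi => ?_) (fun i hi => ?_)
      · rw [if_pos hi]; exact hk1 i hi
      · rw [if_neg hi]; exact hk2 i hi
    exact ⟨hv', h3, Pool.Agent.W300.PG.TRGE.main k L _ _ hc.total h3,
      h2 (fun i => if Crit A m α i then h i else e i) (fun i hi => by rw [if_pos hi])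
        (fun i hi => by rw [if_neg hi])⟩

open Classical in
/-- The proportional case. -/
theorem IsAbelianCover.dichotomy_prop (hc : IsAbelianCover M a D A m z) {T : Fin r → Type}
    [∀ i, Finite (T i)] [∀ i, Nonempty (T i)] {p : ∀ i, T i → Place k (M i)}
    {α : Fin r → ℚ} {PD : ∀ i, Set (Place k (M i))}
    (H : ∀ i, IsProp k (M i) (a i) (D i) (p i) (α i) (PD i)) :
    Dichotomy k L (∑ i, a i) A m α (∑ i, if Crit A m α i then 0 else a i) :=
  hc.dichotomy (fun i => (H i).one) (fun i q hq => (H i).nonneg q hq)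
    (fun i => (H i).thr (hc.trdeg i) (hc.ess i))
    (fun i _ => (H i).kod0 (hc.trdeg i) (hc.ess i))
    (fun i _ x _ hx => (H i).kod (hc.trdeg i) (hc.ess i) hx)

end

section

variable {k K : Type} [Field k] [CharZero k] [IsAlgClosed k] [Field K] [Algebra k K]

theorem FactorProportional.abundant {n : ℕ} {D : DivData K} {α : ℚ} {h e : ℕ}
    (hF : FactorProportional k K n D α h e) (hn : Algebra.trdeg k K = n)
    (hess : Algebra.EssFiniteType k K) (crit : Prop) : FactorAbundant k K n D α h e crit := by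
  obtain ⟨⟨T, hT1, hT2, p, PD, H⟩, rfl, rfl⟩ := hF
  exact ⟨T, hT1, hT2, p, H.one, H.nonneg, H.thr hn hess, fun _ => H.kod0 hn hess,
    fun _ x _ hx => H.kod hn hess hx⟩

theorem FactorProjective.proportional {n : ℕ} {D : DivData K} {α : ℚ} {h e : ℕ}
    (hF : FactorProjective k K n D α h e) : FactorProportional k K n D α h e := by
  obtain ⟨⟨X, f, hf, hX, hsq, hd, hlc, rfl, rfl⟩, rfl, rfl⟩ := hF
  have hne : f ≠ 0 := by
    rintro rfl
    rw [map_zero] at hf
    exact hf rfl
  cases e with
  | zero =>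
    exfalso
    have h1 : f = MvPolynomial.C (MvPolynomial.isEmptyAlgEquiv k (Fin 0) f) := by
      apply (MvPolynomial.isEmptyAlgEquiv k (Fin 0)).injective
      rw [← MvPolynomial.algebraMap_eq, AlgEquiv.commutes]
      rfl
    rw [h1, MvPolynomial.totalDegree_C] at hd
    omega
  | succ e =>
    refine ⟨⟨Comp k X f, comp_finite hX hne, comp_nonempty hX hne hd, fun t => t.1, PDn X, ?_⟩,
      rfl, rfl⟩
    exact pn_prop hX hsq hd hf hlc

end

section

variable {k : Type} [Field k] [CharZero k] [IsAlgClosed k] {L : Type} [Field L] [Algebra k L]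
  {r s : ℕ} {M : Fin r → IntermediateField k L} {a : Fin r → ℕ} {D : ∀ i, DivData (M i)}
  {A : Fin s → Fin r → ℤ} {m : Fin s → ℕ} {z : Fin s → L}

open Classical in
/-- **The main theorem.** -/
theorem IsAbelianCover.main (hc : IsAbelianCover M a D A m z) {α : Fin r → ℚ} {h e : Fin r → ℕ}
    (hF : ∀ i, FactorAbundant k (M i) (a i) (D i) (α i) (h i) (e i) (Crit A m α i) ∨
      FactorProportional k (M i) (a i) (D i) (α i) (h i) (e i) ∨
      FactorProjective k (M i) (a i) (D i) (α i) (h i) (e i)) :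
    Dichotomy k L (∑ i, a i) A m α (∑ i, if Crit A m α i then h i else e i) := by
  have hF' : ∀ i, FactorAbundant k (M i) (a i) (D i) (α i) (h i) (e i) (Crit A m α i) := by
    intro i
    rcases hF i with h1 | h1 | h1
    · exact h1
    · exact h1.abundant (hc.trdeg i) (hc.ess i) _
    · exact h1.proportional.abundant (hc.trdeg i) (hc.ess i) _
  choose T hT1 hT2 p hp hD H hk1 hk2 using hF'
  exact hc.dichotomy hp hD H hk1 hk2

end

end Pool.Agent.K1H17.TP
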