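import Pool.Agent.K1H17.TP.Ad

/-! The weighted product of two places: the filtration. -/

set_option autoImplicit false
set_option linter.overlappingInstances false
set_option linter.unusedSectionVars false

open FF IntermediateField Pool.Agent.W619.PQ Pool.Agent.W619.PL Pool.Agent.W619.TW
  Pool.Agent.W603.LV Pool.Agent.K1H17.IS

namespace Pool.Agent.K1H17.TP

section

variable {k L : Type*} [Field k] [Field L] [Algebra k L] {M F : IntermediateField k L}

/-- The weighted order of the product `a b` is at least `n`. -/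
def Tm (u : Place k M) (v : Place k F) (α β n : ℤ) (a : M) (b : F) : Prop :=
  a = 0 ∨ n ≤ α * u.ord a + β * v.ord b

/-- The sums of products of weighted order at least `n`. -/
def HH (u : Place k M) (v : Place k F) (α β n : ℤ) : Submodule k L :=
  Submodule.span k {z | ∃ (a : M) (b : F), b ≠ 0 ∧ Tm u v α β n a b ∧ z = (a : L) * (b : L)}

variable {u : Place k M} {v : Place k F} {α β n m : ℤ} {z w : L}

theorem Tm.add (hα : 0 ≤ α) {a a' : M} {b : F} (h : Tm u v α β n a b) (h' : Tm u v α β n a' b) :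
    Tm u v α β n (a + a') b := by
  by_cases h1 : a = 0
  · rwa [h1, zero_add]
  by_cases h2 : a' = 0
  · rwa [h2, add_zero]
  by_cases h3 : a + a' = 0
  · exact Or.inl h3
  right
  have h4 := h.resolve_left h1
  have h5 := h'.resolve_left h2
  have h6 := u.ord_add h1 h2 h3
  rcases min_le_iff.1 h6 with h7 | h7
  · have := mul_le_mul_of_nonneg_left h7 hα
    linarith
  · have := mul_le_mul_of_nonneg_left h7 hα
    linarith

theorem Tm.smul (hα : 0 ≤ α) {a : M} {b : F} (c : k) (h : Tm u v α β n a b) :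
    Tm u v α β n (c • a) b := by
  by_cases hc : c = 0
  · left; rw [hc, zero_smul]
  rcases h with h | h
  · left; rw [h, smul_zero]
  · by_cases ha : a = 0
    · left; rw [ha, smul_zero]
    right
    rw [Algebra.smul_def, u.ord_mul (by simpa using hc) ha, u.ord_const hc, zero_add]
    exact h

theorem Tm.sum (hα : 0 ≤ α) {ι : Type*} (s : Finset ι) (a : ι → M) {b : F}
    (h : ∀ i ∈ s, Tm u v α β n (a i) b) : Tm u v α β n (∑ i ∈ s, a i) b := by
  classical
  induction s using Finset.induction_on with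
  | empty => left; rw [Finset.sum_empty]
  | insert i s hi ih =>
    rw [Finset.sum_insert hi]
    exact (h i (Finset.mem_insert_self _ _)).add hα (ih fun j hj => h j (Finset.mem_insert_of_mem hj))

theorem Tm.mono (h : m ≤ n) {a : M} {b : F} (ht : Tm u v α β n a b) : Tm u v α β m a b :=
  ht.imp id fun h' => h.trans h'

theorem HH_mem {a : M} {b : F} (hb : b ≠ 0) (h : Tm u v α β n a b) :
    (a : L) * (b : L) ∈ HH u v α β n := Submodule.subset_span ⟨a, b, hb, h, rfl⟩

theorem HH_mono (h : m ≤ n) (hz : z ∈ HH u v α β n) : z ∈ HH u v α β m := by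
  refine Submodule.span_mono ?_ hz
  rintro _ ⟨a, b, hb, ht, rfl⟩
  exact ⟨a, b, hb, ht.mono h, rfl⟩

theorem Tm.mul {a a' : M} {b b' : F} (hb : b ≠ 0) (hb' : b' ≠ 0) (h : Tm u v α β n a b)
    (h' : Tm u v α β m a' b') : Tm u v α β (n + m) (a * a') (b * b') := by
  rcases h with h | h
  · left; rw [h, zero_mul]
  rcases h' with h' | h'
  · left; rw [h', mul_zero]
  by_cases ha : a = 0
  · left; rw [ha, zero_mul]
  by_cases ha' : a' = 0
  · left; rw [ha', mul_zero]
  right
  rw [u.ord_mul ha ha', v.ord_mul hb hb']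
  linarith

theorem HH_mul (hz : z ∈ HH u v α β n) (hw : w ∈ HH u v α β m) : z * w ∈ HH u v α β (n + m) := by
  unfold HH at hz
  induction hz using Submodule.span_induction with
  | zero => rw [zero_mul]; exact zero_mem _
  | add x y _ _ hx hy => rw [add_mul]; exact add_mem hx hy
  | smul c x _ hx => rw [smul_mul_assoc]; exact Submodule.smul_mem _ _ hx
  | mem x hx =>
    obtain ⟨a, b, hb, ht, rfl⟩ := hx
    unfold HH at hw
    induction hw using Submodule.span_induction with
    | zero => rw [mul_zero]; exact zero_mem _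
    | add x y _ _ hx hy => rw [mul_add]; exact add_mem hx hy
    | smul c x _ hx => rw [mul_smul_comm]; exact Submodule.smul_mem _ _ hx
    | mem x hx =>
      obtain ⟨a', b', hb', ht', rfl⟩ := hx
      have h1 := HH_mem (mul_ne_zero hb hb') (ht.mul hb hb' ht')
      have h2 : (a : L) * (b : L) * ((a' : L) * (b' : L)) =
          ((a * a' : M) : L) * ((b * b' : F) : L) := by push_cast; ring
      rw [h2]
      exact h1

theorem HH_RR (hz : z ∈ HH u v α β n) : z ∈ RR M F := by
  unfold HH at hz
  induction hz using Submodule.span_induction with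
  | zero => exact zero_mem _
  | add x y _ _ hx hy => exact add_mem hx hy
  | smul c x _ hx =>
    rw [Algebra.smul_def]
    have h1 : algebraMap k L c = ((algebraMap k M c : M) : L) := rfl
    rw [h1]
    exact mul_mem (RR.left (algebraMap k M c).2) hx
  | mem x hx =>
    obtain ⟨a, b, hb, ht, rfl⟩ := hx
    exact mul_mem (RR.left a.2) (RR.right b.2)

theorem RR_HH (hz : z ∈ RR M F) : ∃ n, z ∈ HH u v α β n := by
  have h := RR.mem_span hz
  clear hz
  induction h using Submodule.closure_induction with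
  | zero => exact ⟨0, zero_mem _⟩
  | add x y _ _ hx hy =>
    obtain ⟨n, hn⟩ := hx
    obtain ⟨m, hm⟩ := hy
    exact ⟨min n m, add_mem (HH_mono (min_le_left _ _) hn) (HH_mono (min_le_right _ _) hm)⟩
  | smul_mem r x h =>
    by_cases hr : r = 0
    · exact ⟨0, by rw [hr, zero_smul]; exact zero_mem _⟩
    obtain ⟨a, ha⟩ : ∃ a : M, (a : L) = x := ⟨⟨x, h⟩, rfl⟩
    have h1 : Tm u v α β (α * u.ord a + β * v.ord r) a r := Or.inr le_rfl
    refine ⟨α * u.ord a + β * v.ord r, ?_⟩
    have h2 : r • x = (a : L) * (r : L) := by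
      rw [Algebra.smul_def, mul_comm, ha]
      rfl
    rw [h2]
    exact HH_mem hr h1

theorem sum_extend {ι κ : Type*} [Fintype ι] [Fintype κ] {j : ι → κ} (hj : Function.Injective j)
    (a : ι → M) (f : κ → M → L) (h0 : ∀ l, f l 0 = 0) :
    ∑ l, f l (Function.extend j a 0 l) = ∑ i, f (j i) (a i) := by
  classical
  rw [← Finset.sum_subset (Finset.subset_univ (Finset.univ.image j))]
  · rw [Finset.sum_image fun a _ b _ hab => hj hab]
    exact Finset.sum_congr rfl fun i _ => by rw [hj.extend_apply]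
  · intro l _ hl
    have h1 : ¬ ∃ i, j i = l := fun ⟨i, hi⟩ => hl (Finset.mem_image.2 ⟨i, Finset.mem_univ _, hi⟩)
    rw [Function.extend_apply' _ _ _ h1, Pi.zero_apply, h0]

/-- Expansion in an adapted family. -/
theorem HH_rep (hα : 0 ≤ α) (hβ : 0 ≤ β) (hz : z ∈ HH u v α β n) :
    ∀ (ι : Type) [Fintype ι] (b : ι → F), Adp v b → ∃ (κ : Type) (_ : Fintype κ) (b' : κ → F)
      (j : ι → κ), Function.Injective j ∧ Adp v b' ∧ (∀ i, b' (j i) = b i) ∧ ∃ a : κ → M,
        (∀ l, Tm u v α β n (a l) (b' l)) ∧ z = ∑ l, (a l : L) * (b' l : L) := by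
  unfold HH at hz
  induction hz using Submodule.span_induction with
  | zero =>
    intro ι _ b hb
    exact ⟨ι, inferInstance, b, id, Function.injective_id, hb, fun _ => rfl, 0,
      fun _ => Or.inl rfl, by simp⟩
  | add x y _ _ hx hy =>
    intro ι _ b hb
    obtain ⟨κ, hκ, b1, j1, hj1, hb1, e1, a1, ha1, rfl⟩ := hx ι b hb
    obtain ⟨κ2, hκ2, b2, j2, hj2, hb2, e2, a2, ha2, rfl⟩ := hy κ b1 hb1
    refine ⟨κ2, hκ2, b2, j2 ∘ j1, hj2.comp hj1, hb2, fun i => by rw [Function.comp, e2, e1],
      fun l => Function.extend j2 a1 0 l + a2 l, fun l => ?_, ?_⟩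
    · refine Tm.add hα ?_ (ha2 l)
      by_cases hl : ∃ i, j2 i = l
      · obtain ⟨i, rfl⟩ := hl
        rw [hj2.extend_apply, e2]
        exact ha1 i
      · rw [Function.extend_apply' _ _ _ hl]
        exact Or.inl rfl
    · have h1 := sum_extend hj2 a1 (fun l a => (a : L) * (b2 l : L)) (fun l => by simp)
      simp only [e2] at h1
      rw [← h1, ← Finset.sum_add_distrib]
      exact Finset.sum_congr rfl fun l _ => by push_cast; ring
  | smul c x _ hx =>
    intro ι _ b hb
    obtain ⟨κ, hκ, b1, j1, hj1, hb1, e1, a1, ha1, rfl⟩ := hx ι b hb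
    refine ⟨κ, hκ, b1, j1, hj1, hb1, e1, fun l => c • a1 l, fun l => (ha1 l).smul hα c, ?_⟩
    rw [Finset.smul_sum]
    refine Finset.sum_congr rfl fun l _ => ?_
    rw [← smul_mul_assoc]
    rfl
  | mem x hx =>
    obtain ⟨a, b0, hb0, ht, rfl⟩ := hx
    intro ι _ b hb
    obtain ⟨κ, hκ, b', j, hj, hb', e, hT⟩ := hb.extend {b0}
    obtain ⟨c, hc⟩ := span_coord (hT b0 (Finset.mem_singleton_self _))
    refine ⟨κ, hκ, b', j, hj, hb', e, fun l => c l • a, fun l => ?_, ?_⟩
    · by_cases hl : c l = 0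
      · left; change c l • a = 0; rw [hl, zero_smul]
      have h1 : v.ord b0 ≤ v.ord (b' l) := by
        have := (hb'.ord hl).2
        rwa [← hc] at this
      refine Tm.smul hα _ (ht.imp id fun h2 => h2.trans ?_)
      have := mul_le_mul_of_nonneg_left h1 hβ
      linarith
    · have h1 : (b0 : L) = ∑ l, c l • (b' l : L) := by
        conv_lhs => rw [hc]
        rw [AddSubmonoidClass.coe_finsetSum]
        rfl
      rw [h1, Finset.mul_sum]
      refine Finset.sum_congr rfl fun l _ => ?_
      rw [mul_smul_comm, ← smul_mul_assoc]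
      rfl

/-- The weighted order of a sum, in an adapted family. -/
theorem HH_fam (h : Dj M F) (hα : 0 ≤ α) (hβ : 0 ≤ β) {ι : Type} [Fintype ι] {b : ι → F}
    (hb : Adp v b) (a : ι → M) (hz : ∑ i, (a i : L) * (b i : L) ∈ HH u v α β n) (i : ι) :
    Tm u v α β n (a i) (b i) := by
  obtain ⟨κ, hκ, b', j, hj, hb', e, a', ha', hs⟩ := HH_rep hα hβ hz ι b hb
  have h1 := sum_extend hj a (fun l x => (x : L) * (b' l : L)) (fun l => by simp)
  simp only [e] at h1
  rw [← h1] at hs
  have hlin := h.lin b' hb'.lin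
  rw [Fintype.linearIndependent_iff] at hlin
  obtain ⟨A, hA⟩ : ∃ A : κ → M, A = Function.extend j a 0 := ⟨_, rfl⟩
  rw [← hA] at hs
  have h2 := hlin (fun l => A l - a' l) (by
    have h3 : ∀ l, (A l - a' l) • (b' l : L) =
        (A l : L) * (b' l : L) - (a' l : L) * (b' l : L) := by
      intro l
      rw [Algebra.smul_def, ← sub_mul]
      rfl
    simp only [h3]
    rw [Finset.sum_sub_distrib, hs, sub_self]) (j i)
  rw [hA] at h2
  rw [hj.extend_apply, sub_eq_zero] at h2
  have h3 := ha' (j i)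
  rw [← h2, e] at h3
  exact h3

theorem HH_sum {ι : Type} [Fintype ι] {b : ι → F} (hb : ∀ i, b i ≠ 0) (a : ι → M)
    (h : ∀ i, Tm u v α β n (a i) (b i)) : ∑ i, (a i : L) * (b i : L) ∈ HH u v α β n :=
  Submodule.sum_mem _ fun i _ => HH_mem (hb i) (h i)

end

end Pool.Agent.K1H17.TP
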