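import Pool.Agent.K1H17.TP.Hh

/-! The weighted product of two places: multiplicativity. -/

set_option autoImplicit false
set_option linter.overlappingInstances false
set_option linter.unusedSectionVars false
set_option linter.unusedVariables false

open FF IntermediateField Pool.Agent.W619.PQ Pool.Agent.W619.PL Pool.Agent.W619.TW
  Pool.Agent.W603.LV Pool.Agent.K1H17.IS Pool.Agent.W381.PG

namespace Pool.Agent.K1H17.TP

section

variable {k L : Type*} [Field k] [Field L] [Algebra k L] [CharZero k] [IsAlgClosed k]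
  {M F : IntermediateField k L} {u : Place k M} {v : Place k F} {α β n m : ℤ} {z w : L}

/-- All terms have the weighted order `n`. -/
def Ex (u : Place k M) (v : Place k F) (α β n : ℤ) (a : M) (b : F) : Prop :=
  a = 0 ∨ α * u.ord a + β * v.ord b = n

theorem Ex.tm {a : M} {b : F} (h : Ex u v α β n a b) : Tm u v α β n a b :=
  h.imp id fun h' => h'.ge

theorem coreA (h : Dj M F) (hα : 0 < α) (hβ : 0 < β) {ι κ : Type} [Fintype ι] [Fintype κ]
    {b : ι → F} {b' : κ → F} (hb : Adp v b) (hb' : Adp v b') {a : ι → M} {a' : κ → M}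
    (ha : ∀ i, Ex u v α β n (a i) (b i)) (ha' : ∀ j, Ex u v α β m (a' j) (b' j))
    {i0 : ι} (hi0 : a i0 ≠ 0) {j0 : κ} (hj0 : a' j0 ≠ 0)
    (hi0m : ∀ i, a i ≠ 0 → v.ord (b i0) ≤ v.ord (b i))
    (hj0m : ∀ j, a' j ≠ 0 → v.ord (b' j0) ≤ v.ord (b' j))
    (hzw : (∑ i, (a i : L) * (b i : L)) * (∑ j, (a' j : L) * (b' j : L)) ∈
      HH u v α β (n + m + 1)) : False := by
  classical
  obtain ⟨s, hs0, hs⟩ := u.surj
  -- the units
  obtain ⟨A, hA⟩ : ∃ A : ι → M, ∀ i, A i = if a i = 0 then 0 else a i * s ^ (-u.ord (a i)) :=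
    ⟨_, fun i => rfl⟩
  obtain ⟨A', hA'⟩ : ∃ A' : κ → M, ∀ j, A' j = if a' j = 0 then 0 else
      a' j * s ^ (-u.ord (a' j)) := ⟨_, fun i => rfl⟩
  have hA0 : ∀ i, Ge u 0 (A i) := by
    intro i
    rw [hA]
    split_ifs with h0
    · exact Ge.zero
    · right
      rw [u.ord_mul h0 (zpow_ne_zero _ hs0), u.ord_zpow, hs]
      omega
  have hA0' : ∀ i, Ge u 0 (A' i) := by
    intro i
    rw [hA']
    split_ifs with h0
    · exact Ge.zero
    · right
      rw [u.ord_mul h0 (zpow_ne_zero _ hs0), u.ord_zpow, hs]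
      omega
  have hAi0 : A i0 ≠ 0 ∧ u.ord (A i0) = 0 := by
    rw [hA, if_neg hi0, u.ord_mul hi0 (zpow_ne_zero _ hs0), u.ord_zpow, hs]
    exact ⟨mul_ne_zero hi0 (zpow_ne_zero _ hs0), by omega⟩
  have hAj0 : A' j0 ≠ 0 ∧ u.ord (A' j0) = 0 := by
    rw [hA', if_neg hj0, u.ord_mul hj0 (zpow_ne_zero _ hs0), u.ord_zpow, hs]
    exact ⟨mul_ne_zero hj0 (zpow_ne_zero _ hs0), by omega⟩
  obtain ⟨T, hTdef⟩ : ∃ T : Finset M, T = Finset.univ.image A ∪ Finset.univ.image A' := ⟨_, rfl⟩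
  have hTA : ∀ i, A i ∈ Algebra.adjoin k (T : Set M) := fun i => Algebra.subset_adjoin (by
    rw [hTdef]
    exact Finset.mem_coe.2 (Finset.mem_union_left _ (Finset.mem_image_of_mem _ (Finset.mem_univ _))))
  have hTA' : ∀ i, A' i ∈ Algebra.adjoin k (T : Set M) := fun i => Algebra.subset_adjoin (by
    rw [hTdef]
    exact Finset.mem_coe.2 (Finset.mem_union_right _ (Finset.mem_image_of_mem _ (Finset.mem_univ _))))
  have hT : ∀ x ∈ Algebra.adjoin k (T : Set M), Ge u 0 x := by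
    intro x hx
    induction hx using Algebra.adjoin_induction with
    | mem x hx =>
      rw [hTdef] at hx
      rcases Finset.mem_union.1 (Finset.mem_coe.1 hx) with h1 | h1
      · obtain ⟨i, -, rfl⟩ := Finset.mem_image.1 h1
        exact hA0 i
      · obtain ⟨i, -, rfl⟩ := Finset.mem_image.1 h1
        exact hA0' i
    | algebraMap c => exact Ge.const c
    | add x y _ _ hx hy => exact hx.add hy
    | mul x y _ _ hx hy =>
      have h1 := hx.mul hy
      rwa [zero_add] at h1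
  obtain ⟨B, hB⟩ : ∃ B : ι → Algebra.adjoin k (T : Set M), ∀ i, (B i : M) = A i :=
    ⟨fun i => ⟨A i, hTA i⟩, fun i => rfl⟩
  obtain ⟨B', hB'⟩ : ∃ B' : κ → Algebra.adjoin k (T : Set M), ∀ i, (B' i : M) = A' i :=
    ⟨fun i => ⟨A' i, hTA' i⟩, fun i => rfl⟩
  obtain ⟨φ, hφ1, hφ2⟩ := Pool.Agent.W381.PG.spec u T hT (B i0 * B' j0) (by
    have e : ((B i0 * B' j0 : Algebra.adjoin k (T : Set M)) : M) = A i0 * A' j0 := by
      rw [← hB, ← hB']; rfl
    rw [e]
    rintro (h1 | h1)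
    · exact mul_ne_zero hAi0.1 hAj0.1 h1
    · rw [u.ord_mul hAi0.1 hAj0.1, hAi0.2, hAj0.2] at h1
      omega)
  rw [map_mul] at hφ2
  have hφi : φ (B i0) ≠ 0 := left_ne_zero_of_mul hφ2
  have hφj : φ (B' j0) ≠ 0 := right_ne_zero_of_mul hφ2
  -- the product family
  obtain ⟨lam, hlam, c, hc, hcT⟩ := exists_adp v
    ((Finset.univ : Finset (ι × κ)).image fun p => b p.1 * b' p.2)
  have hγ : ∀ p : ι × κ, ∃ g : lam → k, b p.1 * b' p.2 = ∑ l, g l • c l := fun p =>
    span_coord (hcT _ (Finset.mem_image_of_mem _ (Finset.mem_univ p)))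
  choose γ hγ using hγ
  have hγv : ∀ p l, γ p l ≠ 0 → v.ord (b p.1) + v.ord (b' p.2) ≤ v.ord (c l) := by
    intro p l hl
    have h1 := (hc.ord hl).2
    rwa [← hγ, v.ord_mul (hb.1 _) (hb'.1 _)] at h1
  -- the coefficients of the product
  have hprod : (∑ i, (a i : L) * (b i : L)) * (∑ j, (a' j : L) * (b' j : L)) =
      ∑ l, ((∑ p : ι × κ, γ p l • (a p.1 * a' p.2) : M) : L) * (c l : L) := by
    rw [Finset.sum_mul_sum]
    rw [← Finset.sum_product' (f := fun i j => (a i : L) * (b i : L) * ((a' j : L) * (b' j : L)))]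
    have h1 : ∀ l, ((∑ p : ι × κ, γ p l • (a p.1 * a' p.2) : M) : L) * (c l : L) =
        ∑ p : ι × κ, γ p l • (((a p.1 : L) * (a' p.2 : L)) * (c l : L)) := by
      intro l
      rw [AddSubmonoidClass.coe_finsetSum, Finset.sum_mul]
      refine Finset.sum_congr rfl fun p _ => ?_
      have h2 : ((γ p l • (a p.1 * a' p.2) : M) : L) = γ p l • ((a p.1 : L) * (a' p.2 : L)) := rfl
      rw [h2, smul_mul_assoc]
    simp only [h1]
    rw [Finset.sum_comm]
    refine Finset.sum_congr rfl fun p _ => ?_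
    have h2 : (b p.1 : L) * (b' p.2 : L) = ∑ l, γ p l • (c l : L) := by
      have h3 := congrArg (fun x : F => (x : L)) (hγ p)
      simp only [MulMemClass.coe_mul] at h3
      rw [h3, AddSubmonoidClass.coe_finsetSum]
      rfl
    calc (a p.1 : L) * (b p.1 : L) * ((a' p.2 : L) * (b' p.2 : L)) =
        ((a p.1 : L) * (a' p.2 : L)) * ((b p.1 : L) * (b' p.2 : L)) := by ring
      _ = _ := by
        rw [h2, Finset.mul_sum]
        exact Finset.sum_congr rfl fun l _ => by rw [mul_smul_comm]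
  rw [hprod] at hzw
  have hAl := HH_fam h hα.le hβ.le hc _ hzw
  -- the leading terms
  obtain ⟨d, hd⟩ : ∃ d, d = v.ord (b i0) := ⟨_, rfl⟩
  obtain ⟨d', hd'⟩ : ∃ d', d' = v.ord (b' j0) := ⟨_, rfl⟩
  have hx0 := (ha i0).resolve_left hi0
  have hy0 := (ha' j0).resolve_left hj0
  rw [← hd] at hx0
  rw [← hd'] at hy0
  obtain ⟨e, he⟩ : ∃ e, e = u.ord (a i0) + u.ord (a' j0) := ⟨_, rfl⟩
  obtain ⟨cc, hcc⟩ : ∃ cc : ι → k, ∀ i, cc i = if v.ord (b i) = d then φ (B i) else 0 :=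
    ⟨_, fun i => rfl⟩
  obtain ⟨cc', hcc'⟩ : ∃ cc' : κ → k, ∀ i, cc' i = if v.ord (b' i) = d' then φ (B' i) else 0 :=
    ⟨_, fun i => rfl⟩
  have hzero : ∀ l, v.ord (c l) = d + d' → ∑ p : ι × κ, γ p l * (cc p.1 * cc' p.2) = 0 := by
    intro l hl
    have h1 : Ge u (e + 1) (∑ p : ι × κ, γ p l • (a p.1 * a' p.2)) := by
      refine (hAl l).imp id fun h2 => ?_
      rw [hl] at h2
      have h3 : α * e + 1 ≤ α * u.ord (∑ p : ι × κ, γ p l • (a p.1 * a' p.2)) := by
        rw [he]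
        linarith
      by_contra hcon
      push Not at hcon
      have h4 : u.ord (∑ p : ι × κ, γ p l • (a p.1 * a' p.2)) ≤ e := by omega
      have h5 := mul_le_mul_of_nonneg_left h4 hα.le
      linarith
    have h2 : Ge u 1 ((∑ p : ι × κ, γ p l • (a p.1 * a' p.2)) * s ^ (-e)) := by
      have h3 : Ge u (-e) (s ^ (-e)) := Or.inr (by rw [u.ord_zpow, hs]; omega)
      have h4 := h1.mul h3
      rwa [show e + 1 + -e = 1 by ring] at h4
    obtain ⟨Y, hY⟩ : ∃ Y : Algebra.adjoin k (T : Set M), Y = ∑ p : ι × κ,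
        (if v.ord (b p.1) = d ∧ v.ord (b' p.2) = d' then γ p l • (B p.1 * B' p.2) else 0) := ⟨_, rfl⟩
    have hYe : (Y : M) = (∑ p : ι × κ, γ p l • (a p.1 * a' p.2)) * s ^ (-e) := by
      rw [hY, AddSubmonoidClass.coe_finsetSum, Finset.sum_mul]
      refine Finset.sum_congr rfl fun p _ => ?_
      split_ifs with hp
      · change γ p l • ((B p.1 : M) * (B' p.2 : M)) = _
        rw [hB, hB', hA, hA', smul_mul_assoc]
        congr 1
        by_cases h3 : a p.1 = 0
        · rw [if_pos h3, h3, zero_mul, zero_mul, zero_mul]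
        by_cases h4 : a' p.2 = 0
        · rw [if_pos h4, h4, mul_zero, mul_zero, zero_mul]
        rw [if_neg h3, if_neg h4]
        have h5 := (ha p.1).resolve_left h3
        have h6 := (ha' p.2).resolve_left h4
        rw [hp.1] at h5
        rw [hp.2] at h6
        have h7 : u.ord (a p.1) = u.ord (a i0) := by
          have : α * (u.ord (a p.1) - u.ord (a i0)) = 0 := by linarith
          rcases mul_eq_zero.1 this with h | h
          · omega
          · omega
        have h8 : u.ord (a' p.2) = u.ord (a' j0) := by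
          have : α * (u.ord (a' p.2) - u.ord (a' j0)) = 0 := by linarith
          rcases mul_eq_zero.1 this with h | h
          · omega
          · omega
        rw [h7, h8, he, neg_add, zpow_add₀ hs0]
        ring
      · by_cases hg : γ p l = 0
        · rw [hg, zero_smul, zero_mul]; rfl
        by_cases h3 : a p.1 = 0
        · rw [h3, zero_mul, smul_zero, zero_mul]; rfl
        by_cases h4 : a' p.2 = 0
        · rw [h4, mul_zero, smul_zero, zero_mul]; rfl
        exfalso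
        have h5 := hγv p l hg
        have h6 := hi0m _ h3
        have h7 := hj0m _ h4
        exact hp ⟨by omega, by omega⟩
    have h3 := hφ1 Y (by rw [hYe]; exact h2)
    rw [hY, map_sum] at h3
    rw [← h3]
    refine Finset.sum_congr rfl fun p _ => ?_
    rw [hcc, hcc']
    by_cases h4 : v.ord (b p.1) = d
    · by_cases h5 : v.ord (b' p.2) = d'
      · rw [if_pos h4, if_pos h5, if_pos ⟨h4, h5⟩, map_smul, map_mul, smul_eq_mul]
      · have h6 : ¬ (v.ord (b p.1) = d ∧ v.ord (b' p.2) = d') := fun h' => h5 h'.2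
        rw [if_neg h5, if_neg h6, mul_zero, mul_zero, map_zero]
    · have h6 : ¬ (v.ord (b p.1) = d ∧ v.ord (b' p.2) = d') := fun h' => h4 h'.1
      rw [if_neg h4, if_neg h6, zero_mul, mul_zero, map_zero]
  -- the product of the leading forms
  obtain ⟨P, hP⟩ : ∃ P, P = ∑ i, cc i • b i := ⟨_, rfl⟩
  obtain ⟨Q, hQ⟩ : ∃ Q, Q = ∑ j, cc' j • b' j := ⟨_, rfl⟩
  have hcci : cc i0 ≠ 0 := by rw [hcc, if_pos hd.symm]; exact hφi
  have hccj : cc' j0 ≠ 0 := by rw [hcc', if_pos hd'.symm]; exact hφj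
  have hPo := hb.ord hcci
  have hQo := hb'.ord hccj
  rw [← hP, ← hd] at hPo
  rw [← hQ, ← hd'] at hQo
  have hPQ : P * Q = ∑ l, (∑ p : ι × κ, γ p l * (cc p.1 * cc' p.2)) • c l := by
    rw [hP, hQ, Finset.sum_mul_sum]
    rw [← Finset.sum_product' (f := fun i j => cc i • b i * (cc' j • b' j))]
    simp only [Finset.sum_smul]
    rw [Finset.sum_comm]
    refine Finset.sum_congr rfl fun p _ => ?_
    rw [smul_mul_smul_comm, hγ, Finset.smul_sum]
    refine Finset.sum_congr rfl fun l _ => ?_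
    rw [smul_smul, mul_comm]
  have hge : Ge v (d + d' + 1) (P * Q) := by
    rw [hPQ]
    refine ge_lincomb fun l hl => ?_
    right
    obtain ⟨p, -, hp⟩ := Finset.exists_ne_zero_of_sum_ne_zero hl
    have h1 : γ p l ≠ 0 := left_ne_zero_of_mul hp
    have h2 : cc p.1 ≠ 0 := left_ne_zero_of_mul (right_ne_zero_of_mul hp)
    have h3 : cc' p.2 ≠ 0 := right_ne_zero_of_mul (right_ne_zero_of_mul hp)
    have h4 : v.ord (b p.1) = d := by
      by_contra h; exact h2 (by rw [hcc, if_neg h])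
    have h5 : v.ord (b' p.2) = d' := by
      by_contra h; exact h3 (by rw [hcc', if_neg h])
    have h6 := hγv p l h1
    have h7 : v.ord (c l) ≠ d + d' := fun h => hl (hzero l h)
    omega
  rcases hge with h1 | h1
  · exact mul_ne_zero hPo.1 hQo.1 h1
  · rw [v.ord_mul hPo.1 hQo.1] at h1
    omega

/-- The element `z` has the weighted order `n`. -/
def Nx (u : Place k M) (v : Place k F) (α β : ℤ) (z : L) (n : ℤ) : Prop :=
  z ∈ HH u v α β n ∧ z ∉ HH u v α β (n + 1)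

theorem Nx.le (hz : Nx u v α β z n) (hm : z ∈ HH u v α β m) : m ≤ n := by
  by_contra hc
  exact hz.2 (HH_mono (by omega) hm)

theorem Nx.unique (hz : Nx u v α β z n) (hz' : Nx u v α β z m) : n = m :=
  le_antisymm (hz'.le hz.1) (hz.le hz'.1)

theorem Nx.ne (hz : Nx u v α β z n) : z ≠ 0 := by
  rintro rfl
  exact hz.2 (zero_mem _)

theorem Nx.mem (hz : Nx u v α β z n) : z ∈ RR M F := HH_RR hz.1

/-- The leading part. -/
theorem Nx.lead (hα : 0 ≤ α) (hβ : 0 ≤ β) (hz : Nx u v α β z n) :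
    ∃ (ι : Type) (_ : Fintype ι) (b : ι → F) (a : ι → M), Adp v b ∧
      (∀ i, Ex u v α β n (a i) (b i)) ∧ (∃ i0, a i0 ≠ 0 ∧
        ∀ i, a i ≠ 0 → v.ord (b i0) ≤ v.ord (b i)) ∧
      z - ∑ i, (a i : L) * (b i : L) ∈ HH u v α β (n + 1) := by
  classical
  obtain ⟨ι, hι, b, -, -, hb, -, a, ha, hz'⟩ := HH_rep hα hβ hz.1 Empty _ (Adp.empty (v := v))
  obtain ⟨a0, ha0⟩ : ∃ a0 : ι → M, ∀ i, a0 i =
      if α * u.ord (a i) + β * v.ord (b i) = n then a i else 0 := ⟨_, fun i => rfl⟩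
  have hex : ∀ i, Ex u v α β n (a0 i) (b i) := by
    intro i
    rw [ha0]
    split_ifs with h
    · exact Or.inr h
    · exact Or.inl rfl
  have hdiff : z - ∑ i, (a0 i : L) * (b i : L) ∈ HH u v α β (n + 1) := by
    have h1 : z - ∑ i, (a0 i : L) * (b i : L) = ∑ i, ((a i - a0 i : M) : L) * (b i : L) := by
      rw [hz', ← Finset.sum_sub_distrib]
      refine Finset.sum_congr rfl fun i _ => ?_
      push_cast
      ring
    rw [h1]
    refine HH_sum hb.1 _ fun i => ?_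
    rw [ha0]
    split_ifs with h
    · left; rw [sub_self]
    · rw [sub_zero]
      refine (ha i).imp id fun h2 => ?_
      omega
  have hex0 : ∃ i, a0 i ≠ 0 := by
    by_contra hcon
    push Not at hcon
    apply hz.2
    have h1 : ∑ i, (a0 i : L) * (b i : L) = 0 := Finset.sum_eq_zero fun i _ => by
      rw [hcon i]; simp
    rwa [h1, sub_zero] at hdiff
  obtain ⟨i1, hi1⟩ := hex0
  obtain ⟨i0, hi0, hmin⟩ := Finset.exists_min_image (Finset.univ.filter fun i => a0 i ≠ 0)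
    (fun i => v.ord (b i)) ⟨i1, Finset.mem_filter.2 ⟨Finset.mem_univ _, hi1⟩⟩
  exact ⟨ι, hι, b, a0, hb, hex, ⟨i0, (Finset.mem_filter.1 hi0).2, fun i hi =>
    hmin i (Finset.mem_filter.2 ⟨Finset.mem_univ _, hi⟩)⟩, hdiff⟩

theorem Nx.mul (h : Dj M F) (hα : 0 < α) (hβ : 0 < β) (hz : Nx u v α β z n)
    (hw : Nx u v α β w m) : Nx u v α β (z * w) (n + m) := by
  refine ⟨HH_mul hz.1 hw.1, fun hc => ?_⟩
  obtain ⟨ι, hι, b, a, hb, ha, ⟨i0, hi0, hi0m⟩, hza⟩ := hz.lead hα.le hβ.le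
  obtain ⟨κ, hκ, b', a', hb', ha', ⟨j0, hj0, hj0m⟩, hwa⟩ := hw.lead hα.le hβ.le
  refine coreA h hα hβ hb hb' ha ha' hi0 hj0 hi0m hj0m ?_
  obtain ⟨Z, hZ⟩ : ∃ Z, Z = ∑ i, (a i : L) * (b i : L) := ⟨_, rfl⟩
  obtain ⟨W, hW⟩ : ∃ W, W = ∑ i, (a' i : L) * (b' i : L) := ⟨_, rfl⟩
  rw [← hZ, ← hW]
  rw [← hZ] at hza
  rw [← hW] at hwa
  have hZn : Z ∈ HH u v α β n := by
    have h1 := sub_mem hz.1 (HH_mono (by omega : n ≤ n + 1) hza)
    rwa [sub_sub_cancel] at h1
  have h2 : Z * W = z * w - (z - Z) * w - Z * (w - W) := by ring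
  rw [h2]
  refine sub_mem (sub_mem hc ?_) ?_
  · exact HH_mono (by omega) (HH_mul hza hw.1)
  · exact HH_mono (by omega) (HH_mul hZn hwa)

theorem Nx.exists (h : Dj M F) (hα : 0 < α) (hβ : 0 < β) (u : Place k M) (v : Place k F)
    (hz : z ∈ RR M F) (h0 : z ≠ 0) : ∃ n, Nx u v α β z n := by
  classical
  obtain ⟨n0, hn0⟩ := RR_HH (u := u) (v := v) (α := α) (β := β) hz
  obtain ⟨ι, hι, b, -, -, hb, -, a, ha, hz'⟩ := HH_rep hα.le hβ.le hn0 Empty _ (Adp.empty (v := v))
  obtain ⟨i, hi⟩ : ∃ i, a i ≠ 0 := by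
    by_contra hcon
    push Not at hcon
    exact h0 (hz'.trans (Finset.sum_eq_zero fun i _ => by rw [hcon i]; simp))
  obtain ⟨n, hn, hmax⟩ := Int.exists_greatest_of_bdd (P := fun n => z ∈ HH u v α β n)
    ⟨α * u.ord (a i) + β * v.ord (b i), fun m hm => by
      rw [hz'] at hm
      exact (HH_fam h hα.le hβ.le hb a hm i).resolve_left hi⟩ ⟨n0, hn0⟩
  exact ⟨n, hn, fun hc => by have := hmax _ hc; omega⟩

theorem Nx.of_mul (h : Dj M F) (hα : 0 < α) (hβ : 0 < β) {a : M} {b : F} (ha : a ≠ 0)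
    (hb : b ≠ 0) : Nx u v α β ((a : L) * (b : L)) (α * u.ord a + β * v.ord b) := by
  refine ⟨HH_mem hb (Or.inr le_rfl), fun hc => ?_⟩
  have h1 : Adp v (fun _ : Unit => b) := by
    refine ⟨fun _ => hb, fun c n hn i hi => ?_⟩
    rw [Fintype.sum_unique] at hn
    have h2 := ge_smul (v := v) (c default)⁻¹ hn
    rwa [smul_smul, inv_mul_cancel₀ hi, one_smul] at h2
  have h2 := HH_fam h hα.le hβ.le h1 (fun _ => a) (n := α * u.ord a + β * v.ord b + 1) (by
    rw [Fintype.sum_unique]; exact hc) ()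
  have h3 := h2.resolve_left ha
  omega

end

end Pool.Agent.K1H17.TP
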