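import Pool.Agent.K1H17.TP.Ul
import Pool.Agent.K1H17.IS.Kn2

/-! The Kuenneth formula for the sections of `m (K + D) + j A` on a product of two varieties with
boundaries. -/

set_option autoImplicit false
set_option linter.overlappingInstances false
set_option linter.unusedSectionVars false
set_option linter.unusedVariables false

open FF IntermediateField Pool.Agent.W619.PQ Pool.Agent.W619.PL Pool.Agent.W619.TW
  Pool.Agent.W603.LV Pool.Agent.W619.Y Pool.Agent.W735.PG.DESCJ Pool.Agent.K1H17.IS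
  Pool.Agent.W460.PG.ONE

namespace Pool.Agent.K1H17.TP

section

variable {k : Type} {L : Type} [Field k] [CharZero k] [Field L] [Algebra k L]
  {M F : IntermediateField k L}

variable {a b : ℕ} {y : Fin a → M} {x : Fin b → F} {E : Fin (a + b) → Derivation k L L}

/-- The coefficients of a section with respect to independent functions of the second factor are
sections on the first factor. -/
theorem descB [IsAlgClosed k] (h : Dj M F) (hM : Algebra.trdeg k M = a)
    (hy : IsTranscendenceBasis k y) (hx : IsTranscendenceBasis k x)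
    (hE : ∀ i j, E i (app y x j) = if i = j then 1 else 0) (S : Finset L) (b0 : L)
    (hb0 : b0 ≠ 0) (Bd : Place k L → Prop) (Bd1 : Place k M → Prop)
    (hBd : ∀ u : Place k M, Bd (Pool.Agent.K1H17.IS.UU h u) ↔ Bd1 u) :
    ∃ S' : Finset M, ∀ (m j : ℕ)
      (ω : (Fin (a + b) → Derivation k L L) → L), IsSec k L (a + b) Bd S m j ω →
      ∀ (r : ℕ) (β : Fin r → F) (μ : Fin r → M), LinearIndependent k β →
        b0 ^ j * ω E = ∑ i, (β i : L) * (μ i : L) →
        ∀ i, IsSec k M a Bd1 S' m j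
          (fun D => μ i * (Matrix.of fun a b => D a (y b)).det ^ m) := by
  classical
  have hT : ∀ s : L, s ≠ 0 → ∃ T : Finset M, ∀ (u : Place k M) (U : Place k L),
      (∀ μ : M, U.ord (μ : L) = u.ord μ) → (∀ β : F, U.ord (β : L) = 0) →
      (∀ (r : ℕ) (β : Fin r → F) (μ : Fin r → M) (c : ℤ), LinearIndependent k β →
        Ge U c (∑ i, (β i : L) * (μ i : L)) → ∀ i, Ge u c (μ i)) →
      ∃ s' ∈ T, s' ≠ 0 ∧ u.ord s' ≤ U.ord (b0 * s) :=
    fun s hs => exists_low h.sup (mul_ne_zero hb0 hs)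
  choose! T hT using hT
  refine ⟨S.biUnion T, ?_⟩
  intro m j ω hω r β μ hβ hsum i
  -- the derivations of `L`
  let DD : (Fin a → Derivation k M M) → Fin (a + b) → Derivation k L L := fun D i =>
      Fin.addCases (motive := fun _ => Derivation k L L)
        (fun l : Fin a => ∑ c, ((D l (y c) : M) : L) • E (Fin.castAdd b c))
        (fun l : Fin b => E (Fin.natAdd a l)) i
  have hωD : ∀ D : Fin a → Derivation k M M,
      ω (DD D) = (((Matrix.of fun a b => D a (y b)).det : M) : L) ^ m * ω E := by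
    intro D
    let P : Matrix (Fin a) (Fin a) L := Matrix.of fun l c => ((D l (y c) : M) : L)
    let A : Matrix (Fin (a + b)) (Fin (a + b)) L :=
      Matrix.reindex finSumFinEquiv finSumFinEquiv (Matrix.fromBlocks P 0 0 1)
    have hA11 : ∀ i j, A (Fin.castAdd b i) (Fin.castAdd b j) = ((D i (y j) : M) : L) := by
      intro i j
      simp [A, P]
    have hA12 : ∀ i j, A (Fin.castAdd b i) (Fin.natAdd a j) = 0 := by
      intro i j
      simp [A]
    have hA21 : ∀ i j, A (Fin.natAdd a i) (Fin.castAdd b j) = 0 := by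
      intro i j
      simp [A]
    have hA22 : ∀ i j, A (Fin.natAdd a i) (Fin.natAdd a j) = if i = j then 1 else 0 := by
      intro i j
      simp [A, Matrix.one_apply]
    have hA : (fun a => ∑ c, A a c • E c) = DD D := by
      funext i
      refine Fin.addCases (fun l => ?_) (fun l => ?_) i
      · rw [Fin.sum_univ_add]
        simp only [hA11, hA12, zero_smul, Finset.sum_const_zero, add_zero]
        simp [DD]
      · rw [Fin.sum_univ_add]
        simp only [hA21, hA22, zero_smul, Finset.sum_const_zero, zero_add, ite_smul, one_smul]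
        simp [DD]
    have hdet : A.det = (((Matrix.of fun a b => D a (y b)).det : M) : L) := by
      have h5 : A.det = P.det * (1 : Matrix (Fin b) (Fin b) L).det := det_blk P 1
      rw [h5, Matrix.det_one, mul_one]
      have h6 := (algebraMap M L).map_det (Matrix.of fun a b => D a (y b))
      have h7 : P = (algebraMap M L).mapMatrix (Matrix.of fun a b => D a (y b)) := by
        ext a b
        rfl
      rw [h7, ← h6]
      rfl
    rw [← hdet, ← hω.1 A E, hA]
  have hD'1 : ∀ D l, DD D (Fin.castAdd b l) =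
      ∑ c, ((D l (y c) : M) : L) • E (Fin.castAdd b c) := by
    intro D l
    simp [DD]
  have hD'2 : ∀ D l, DD D (Fin.natAdd a l) = E (Fin.natAdd a l) := by
    intro D l
    simp [DD]
  have hyM : ∀ D (l : Fin a) (z : M), DD D (Fin.castAdd b l) (z : L) = ((D l z : M) : L) := by
    intro D l z
    refine der_comp (K := M) (L := L) (D l) (DD D (Fin.castAdd b l)) y hy (fun c => ?_) z
    rw [hD'1]
    show (∑ b', ((D l (y b') : M) : L) • E (Fin.castAdd b b')) ((y c : M) : L) =
      ((D l (y c) : M) : L)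
    rw [Pool.Agent.W460.PG.ONE.der_sum]
    simp only [dual_left_M hE]
    simp
  have hyF : ∀ D (l : Fin a) (z : F), DD D (Fin.castAdd b l) (z : L) = 0 := by
    intro D l z
    rw [hD'1, Pool.Agent.W460.PG.ONE.der_sum]
    simp [dual_left_F hE hx]
  obtain ⟨E2, hE2⟩ := Pool.Agent.W636.PG.exists_duals k F b x hx
  have hxF : ∀ D (l : Fin b) (z : F), DD D (Fin.natAdd a l) (z : L) = ((E2 l z : F) : L) := by
    intro D l z
    rw [hD'2]
    refine der_comp (K := F) (L := L) (E2 l) (E (Fin.natAdd a l)) x hx (fun c => ?_) z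
    change E (Fin.natAdd a l) (x c : L) = ((E2 l (x c) : F) : L)
    rw [dual_right_F hE, hE2]
    split_ifs <;> rfl
  have hxM : ∀ D (l : Fin b) (z : M), DD D (Fin.natAdd a l) (z : L) = 0 := by
    intro D l z
    rw [hD'2]
    exact dual_right_M hE hy l z
  -- the estimate
  have key : ∀ u : Place k M, IsDivisorial u a → ∀ D : Fin a → Derivation k M M,
      Dom (Pool.Agent.K1H17.IS.UU h u) S j (ω (DD D)) →
      Dom u (S.biUnion T) j (μ i * (Matrix.of fun a b => D a (y b)).det ^ m) := by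
    intro u hu D hdom
    have hU1 := Pool.Agent.K1H17.IS.UU_M h u
    have hU2 := Pool.Agent.K1H17.IS.UU_F h u
    have hU3 := fun r β μ c => Pool.Agent.K1H17.IS.UU_fam h u r β μ c
    set U := Pool.Agent.K1H17.IS.UU h u with hU
    set δ : M := (Matrix.of fun a b => D a (y b)).det with hδ
    have hexp : b0 ^ j * ω (DD D) = ∑ i, (β i : L) * ((μ i * δ ^ m : M) : L) := by
      rw [hωD]
      calc b0 ^ j * ((δ : L) ^ m * ω E) = (δ : L) ^ m * (b0 ^ j * ω E) := by ring
        _ = _ := by
          rw [hsum, Finset.mul_sum]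
          refine Finset.sum_congr rfl fun i _ => ?_
          push_cast; ring
    rcases hdom with h0 | ⟨s, hs, hs0, hsU⟩
    · left
      by_contra hne
      have h9 := hU3 r β (fun i => μ i * δ ^ m) (u.ord (μ i * δ ^ m) + 1) hβ
        (by rw [← hexp, h0, mul_zero]; exact Ge.zero) i
      have := h9.resolve_left hne
      omega
    · obtain ⟨s', hs', hs'0, hle⟩ := hT s hs0 u U hU1 hU2 hU3
      have h9 : Ge U ((j : ℤ) * u.ord s') (b0 ^ j * ω (DD D)) := by
        have h10 : Ge U ((j : ℤ) * U.ord s) (ω (DD D)) := Or.inr hsU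
        have h11 : Ge U ((j : ℤ) * U.ord b0) (b0 ^ j) := Or.inr (by rw [U.ord_pow])
        refine (h11.mul h10).mono ?_
        rw [U.ord_mul hb0 hs0] at hle
        rw [← mul_add]
        exact mul_le_mul_of_nonneg_left hle (by positivity)
      rw [hexp] at h9
      rcases hU3 r β (fun i => μ i * δ ^ m) _ hβ h9 i with h12 | h12
      · left; exact h12
      · right
        exact ⟨s', Finset.mem_biUnion.2 ⟨s, hs, hs'⟩, hs'0, h12⟩
  refine ⟨?_, ?_, ?_⟩
  · intro A D
    have h2 : (Matrix.of fun a b => (∑ c, A a c • D c) (y b)) =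
        A * Matrix.of fun a b => D a (y b) := by
      ext a b
      rw [Matrix.of_apply, Matrix.mul_apply]
      simp only [Matrix.of_apply]
      congr 1
      exact Pool.Agent.W460.PG.ONE.der_sum (L := M) _ _ _ _
    show μ i * (Matrix.of fun a b => (∑ c, A a c • D c) (y b)).det ^ m = _
    rw [h2, Matrix.det_mul]
    ring
  · intro u hu hb D hD
    have hU4 := UU_div' h u a b hM x hx.1 hu
    refine key u hu D (hω.2.1 _ hU4 (fun hB => hb ((hBd u).1 hB)) (DD D) ?_)
    intro i
    have hU5 := UU_pres h u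
    refine Fin.addCases (fun l => ?_) (fun l => ?_) i
    · exact hU5 _ (fun z hz => ⟨D l z, hyM D l z, hD l z hz⟩) (fun β => ⟨0, by
        rw [hyF]; rfl⟩)
    · exact hU5 _ (fun z _ => ⟨0, by rw [hxM]; rfl, u.reg_zero⟩) (fun β => ⟨E2 l β, hxF D l β⟩)
  · intro u hu hb D hD
    have hU4 := UU_div' h u a b hM x hx.1 hu
    refine key u hu D (hω.2.2 _ hU4 ((hBd u).2 hb) (DD D) ?_)
    intro i
    refine Fin.addCases (fun l => ?_) (fun l => ?_) i
    · refine UU_log h u _ (fun μ => ⟨D l μ / μ, ?_, hD l μ⟩) (fun β => ⟨0, by rw [hyF]; rfl⟩)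
      rw [hyM]
      by_cases hμ : μ = 0
      · rw [hμ]; simp
      · have h1 : D l μ = μ * (D l μ / μ) := by rw [mul_div_cancel₀ _ hμ]
        conv_lhs => rw [h1]
        rfl
    · exact UU_log h u _ (fun μ => ⟨0, by rw [hxM]; simp, u.reg_zero⟩) (fun β => ⟨E2 l β, hxF D l β⟩)

/-- The coefficients of the sections belong, up to a denominator, to the ring generated by `M` and
`F`. -/
theorem sec_RRB (h : Dj M F) (halg : Algebra.trdeg k L = (a + b : ℕ))
    (hM : Algebra.trdeg k M = a) (hF : Algebra.trdeg k F = b)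
    (hess : Algebra.EssFiniteType k L) (hy : IsTranscendenceBasis k y)
    (hx : IsTranscendenceBasis k x) (hE : ∀ i j, E i (app y x j) = if i = j then 1 else 0)
    (Bd : Place k L → Prop) (hBd : ∀ w : Place k L, (∀ m : M, w.ord (m : L) = 0) →
      (∀ f : F, w.ord (f : L) = 0) → ¬ Bd w)
    (S : Finset L) : ∃ b0 : L, b0 ≠ 0 ∧ ∀ (m j : ℕ) (ω : (Fin (a + b) → Derivation k L L) → L),
      IsSec k L (a + b) Bd S m j ω → b0 ^ j * ω E ∈ RR M F := by
  obtain ⟨b0, hb0, hbS⟩ := exists_den h S
  refine ⟨b0, hb0, fun m j ω hω => ?_⟩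
  refine mem_RR_of_reg h halg hM hF hess _ fun w hwM hwF hwd hwP => ?_
  have h1 := hω.2.1 w hwd (hBd w hwM hwF) E fun l f hf =>
    hwP (E l) (frame_M hE hy l) (frame_F hE hx l) f hf
  rcases h1 with h0 | ⟨s, hs, hs0, hsw⟩
  · left
    rw [h0, mul_zero]
  · by_cases hω0 : ω E = 0
    · left
      rw [hω0, mul_zero]
    right
    rw [w.ord_mul (pow_ne_zero _ hb0) hω0, w.ord_pow]
    have h2 := (reg_RR w hwM hwF (hbS s hs)).resolve_left (mul_ne_zero hb0 hs0)
    rw [w.ord_mul hb0 hs0] at h2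
    have h3 : (0 : ℤ) ≤ (j : ℤ) * (w.ord b0 + w.ord s) :=
      mul_nonneg (Int.natCast_nonneg _) h2
    rw [mul_add] at h3
    omega

/-- **The Kuenneth formula with boundaries.** -/
theorem exists_dataB [IsAlgClosed k] (h : Dj M F) (halg : Algebra.trdeg k L = (a + b : ℕ))
    (hM : Algebra.trdeg k M = a) (hF : Algebra.trdeg k F = b)
    (hess : Algebra.EssFiniteType k L) (hy : IsTranscendenceBasis k y)
    (hx : IsTranscendenceBasis k x)
    (Bd : Place k L → Prop) (Bd1 : Place k M → Prop) (Bd2 : Place k F → Prop)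
    (hBd : ∀ w : Place k L, (∀ m : M, w.ord (m : L) = 0) →
      (∀ f : F, w.ord (f : L) = 0) → ¬ Bd w)
    (hBd1 : ∀ u : Place k M, Bd (Pool.Agent.K1H17.IS.UU h u) ↔ Bd1 u)
    (hBd2 : ∀ u : Place k F, Bd (Pool.Agent.K1H17.IS.UU h.symm u) ↔ Bd2 u) (S : Finset L) :
    IsTranscendenceBasis k (app y x) ∧ ∃ (b0 : L) (S1 : Finset M) (S2 : Finset F), b0 ≠ 0 ∧
      ∀ (m : ℕ) (g : L), g ∈ VV k Bd S m 1 (app y x) →
        b0 * g ∈ Submodule.span k {z : L | ∃ (p : M) (q : F), p ∈ VV k Bd1 S1 m 1 y ∧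
          q ∈ VV k Bd2 S2 m 1 x ∧ z = (p : L) * (q : L)} := by
  classical
  have htop : Algebra.IsAlgebraic ↥(M ⊔ F) L := by
    rw [h.sup]
    exact ⟨fun z => isAlgebraic_algebraMap (⟨z, trivial⟩ : (⊤ : IntermediateField k L))⟩
  have hyx : IsTranscendenceBasis k (app y x) := basis_append M F htop halg y hy x hx
  refine ⟨hyx, ?_⟩
  obtain ⟨E, hE⟩ := Pool.Agent.W636.PG.exists_duals k L (a + b) (app y x) hyx
  obtain ⟨b0, hb0, hRR⟩ := sec_RRB h halg hM hF hess hy hx hE Bd hBd S
  obtain ⟨S1, hS1⟩ := descB h hM hy hx hE S b0 hb0 Bd Bd1 hBd1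
  obtain ⟨S2, hS2⟩ := descB h.symm hF hx hy (dual_flip hE) S b0 hb0 Bd Bd2 hBd2
  refine ⟨b0, S1, S2, hb0, fun m g hg => ?_⟩
  set ω : (Fin (a + b) → Derivation k L L) → L :=
    fun D => g * (Matrix.of fun i j => D i (app y x j)).det ^ m with hω
  have hsec : IsSec k L (a + b) Bd S m 1 ω := hg
  have hωE : ω E = g := by
    rw [hω]
    show g * (Matrix.of fun i j => E i (app y x j)).det ^ m = g
    have h1 : (Matrix.of fun i j => E i (app y x j)) = 1 := by
      ext i j
      rw [Matrix.of_apply, hE, Matrix.one_apply]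
    rw [h1, Matrix.det_one, one_pow, mul_one]
  have hR : b0 * g ∈ RR M F := by
    have := hRR m 1 ω hsec
    rwa [pow_one, hωE] at this
  obtain ⟨r, β, p, hβ, hz⟩ := Pool.Agent.W735.PG.DESCJ.expandFin (RR_comm hR)
  have hp : ∀ i, p i ∈ VV k Bd1 S1 m 1 y := hS1 m 1 ω hsec r β p hβ (by
    rw [pow_one, hωE]; exact hz)
  -- an independent family which spans the same space
  let V := Submodule.span k (Set.range p)
  have hVV : V ≤ VV k Bd1 S1 m 1 y := by
    rw [Submodule.span_le]
    rintro _ ⟨i, rfl⟩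
    exact hp i
  have hfin : FiniteDimensional k V := FiniteDimensional.span_of_finite k (Set.finite_range p)
  have hpV : ∀ i, p i ∈ V := fun i => Submodule.subset_span ⟨i, rfl⟩
  let e := Module.finBasis k V
  let β' : Fin (Module.finrank k V) → F := fun l =>
    ∑ i, (e.repr ⟨p i, hpV i⟩ l) • β i
  have hpi : ∀ i, ((p i : M) : L) = ∑ l, (e.repr ⟨p i, hpV i⟩ l) • (((e l : V) : M) : L) := by
    intro i
    have h3 := congrArg (fun z : V => ((z : M) : L)) (e.sum_repr ⟨p i, hpV i⟩)
    change (((∑ l, e.repr ⟨p i, hpV i⟩ l • e l : V) : M) : L) = ((p i : M) : L) at h3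
    rw [← h3, AddSubmonoidClass.coe_finsetSum, AddSubmonoidClass.coe_finsetSum]
    rfl
  have hz' : b0 * g = ∑ l, (((e l : V) : M) : L) * ((β' l : F) : L) := by
    rw [hz]
    have h4 : ∀ l, ((β' l : F) : L) = ∑ i, (e.repr ⟨p i, hpV i⟩ l) • ((β i : F) : L) := by
      intro l
      rw [AddSubmonoidClass.coe_finsetSum]
      rfl
    simp only [h4, hpi, Finset.mul_sum]
    rw [Finset.sum_comm]
    refine Finset.sum_congr rfl fun l _ => Finset.sum_congr rfl fun i _ => ?_
    rw [mul_smul_comm, mul_smul_comm, mul_comm]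
  have hq : ∀ l, β' l ∈ VV k Bd2 S2 m 1 x := by
    refine hS2 m 1 _ (sec_flip hsec) _ (fun l => ((e l : V) : M)) β'
      (e.linearIndependent.map' V.subtype (Submodule.ker_subtype V)) ?_
    rw [pow_one, ← hz', ← hωE]
    simp only [Pool.Agent.K1H17.IS.flip_flip]
  rw [hz']
  refine Submodule.sum_mem _ fun l _ => Submodule.subset_span ?_
  exact ⟨(e l : V), β' l, hVV (e l).2, hq l, rfl⟩

end

end Pool.Agent.K1H17.TP
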