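import Pool.Agent.K1H17.TP.Em

/-! The monomial places of a product of several varieties. -/

set_option autoImplicit false
set_option linter.overlappingInstances false
set_option linter.unusedSectionVars false
set_option linter.unusedVariables false

open FF IntermediateField Pool.Agent.W619.PQ Pool.Agent.W619.PL Pool.Agent.W619.TW
  Pool.Agent.W603.LV Pool.Agent.K1H17.IS

namespace Pool.Agent.K1H17.TP

section

variable {k : Type} [Field k] [CharZero k] [IsAlgClosed k]

/-- `w` is the monomial place of the product of the `K i` with the weights `lam i` at the places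
`p i`. -/
structure IsMono {r : ℕ} {L : Type} [Field L] [Algebra k L] {K : Fin r → Type}
    [∀ i, Field (K i)] [∀ i, Algebra k (K i)] (φ : ∀ i, K i →ₐ[k] L) (n : ℕ)
    (p : ∀ i, Place k (K i)) (lam : Fin r → ℕ) (w : Place k L) : Prop where
  div : IsDivisorial w n
  ord : ∀ i x, w.ord (φ i x) = lam i * (p i).ord x
  adp : ∀ (ι : Fin r → Type) [∀ i, Fintype (ι i)] (b : ∀ i, ι i → K i),
    (∀ i, Adp (p i) (b i)) → Adp w (fun J : (∀ i, ι i) => ∏ i, φ i (b i (J i)))
  log : ∀ D : Derivation k L L,
    (∀ i x, ∃ x', D (φ i x) = φ i x * φ i x' ∧ (p i).Reg x') → LogD w D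

theorem Adp.equiv {K ι κ : Type*} [Field K] [Algebra k K] [Fintype ι] [Fintype κ] {v : Place k K}
    {b : ι → K} (h : Adp v b) (e : κ ≃ ι) : Adp v (b ∘ e) := h.comp e.injective

/-- Existence of the monomial places. -/
theorem mono (r : ℕ) : ∀ (L : Type) [Field L] [Algebra k L] (K : Fin r → Type)
    [∀ i, Field (K i)] [∀ i, Algebra k (K i)] (φ : ∀ i, K i →ₐ[k] L) (a : Fin r → ℕ),
    (∀ i, Algebra.trdeg k (K i) = a i) → Algebra.trdeg k L = (∑ i, a i : ℕ) →
    (⨆ i, (φ i).fieldRange) = ⊤ → ∀ (p : ∀ i, Place k (K i)), (∀ i, IsDivisorial (p i) (a i)) →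
    ∀ lam : Fin r → ℕ, (∀ d : ℕ, (∀ i, d ∣ lam i) → d = 1) →
    ∃ w : Place k L, IsMono φ (∑ i, a i) p lam w := by
  classical
  induction r with
  | zero =>
    intro L _ _ K _ _ φ a hK hL hsup p hp lam hlam
    exact absurd (hlam 2 fun i => i.elim0) (by norm_num)
  | succ r ih =>
    intro L _ _ K _ _ φ a hK hL hsup p hp lam hlam
    obtain ⟨N, hN⟩ : ∃ N : IntermediateField k L, N = ⨆ i : Fin r, (φ i.succ).fieldRange :=
      ⟨_, rfl⟩
    obtain ⟨hNt, h0t, hsupN⟩ := trdeg_split φ hK hL hsup N hN
    have hmem : ∀ (i : Fin r) x, φ i.succ x ∈ N := fun i x => by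
      rw [hN]
      exact (le_iSup (fun i : Fin r => (φ i.succ).fieldRange) i) ⟨x, rfl⟩
    have hLs : Algebra.trdeg k L = (∑ i : Fin r, a i.succ + a 0 : ℕ) := by
      rw [hL, Fin.sum_univ_succ, add_comm]
    have h : Dj N (φ 0).fieldRange := dj_ofT hsupN hLs hNt h0t
    let ψ : ∀ i : Fin r, K i.succ →ₐ[k] N := fun i => codR (φ i.succ) N (hmem i)
    have hψ : ∀ (i : Fin r) x, ((ψ i x : N) : L) = φ i.succ x := fun i x => rfl
    have hsup0 : (⨆ i, (ψ i).fieldRange) = ⊤ := iSup_codR (fun i : Fin r => φ i.succ) N hN hmem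
    let e0 : K 0 ≃ₐ[k] (φ 0).fieldRange := AlgEquiv.ofInjectiveField (φ 0)
    have he0 : ∀ x, ((e0 x : (φ 0).fieldRange) : L) = φ 0 x := fun x => rfl
    have he0s : ∀ y : (φ 0).fieldRange, φ 0 (e0.symm y) = (y : L) := fun y => by
      rw [← he0, AlgEquiv.apply_symm_apply]
    obtain ⟨v, hv⟩ : ∃ v, v = pushP e0 (p 0) := ⟨_, rfl⟩
    have hvo : ∀ x, v.ord (e0 x) = (p 0).ord x := fun x => by rw [hv, pushP_apply]
    have hvd : IsDivisorial v (a 0) := by rw [hv]; exact pushP_div e0 (hp 0)
    have hva : ∀ {ι : Type} [Fintype ι] (b : ι → K 0), Adp (p 0) b → Adp v (fun i => e0 (b i)) :=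
      fun b hb => by rw [hv]; exact pushP_adp e0 hb
    have hsum : ∑ i : Fin (r + 1), a i = ∑ i : Fin r, a i.succ + a 0 := by
      rw [Fin.sum_univ_succ, add_comm]
    -- vector fields
    have hDN : ∀ D : Derivation k L L,
        (∀ i x, ∃ x', D (φ i x) = φ i x * φ i x' ∧ (p i).Reg x') → ∀ z ∈ N, D z ∈ N := by
      intro D hD
      rw [hN]
      refine der_iSup _ D fun i z hz => ?_
      obtain ⟨x, rfl⟩ := hz
      obtain ⟨x', hx', -⟩ := hD i.succ x
      have h1 : D ((φ i.succ).toRingHom x) = φ i.succ x * φ i.succ x' := hx'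
      rw [h1, ← hN]
      exact mul_mem (hmem i x) (hmem i x')
    have hD0 : ∀ D : Derivation k L L,
        (∀ i x, ∃ x', D (φ i x) = φ i x * φ i x' ∧ (p i).Reg x') →
        ∀ y : (φ 0).fieldRange, ∃ y' : (φ 0).fieldRange, D (y : L) = (y : L) * (y' : L) ∧
          v.Reg y' := by
      intro D hD y
      obtain ⟨x', h1, h2⟩ := hD 0 (e0.symm y)
      rw [he0s] at h1
      refine ⟨e0 x', h1, ?_⟩
      rcases h2 with h2 | h2
      · left; rw [h2, map_zero]
      · right; rwa [hvo]
    have hDψ : ∀ (D : Derivation k L L)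
        (hD : ∀ i x, ∃ x', D (φ i x) = φ i x * φ i x' ∧ (p i).Reg x') (i : Fin r) (x : K i.succ),
        ∃ x', resD D N (hDN D hD) (ψ i x) = ψ i x * ψ i x' ∧ (p i.succ).Reg x' := by
      intro D hD i x
      obtain ⟨x', h1, h2⟩ := hD i.succ x
      exact ⟨x', Subtype.ext h1, h2⟩
    -- the reduction to a place `W` of the product of `N` and the first factor
    have key : ∀ (W : Place k L), IsDivisorial W (∑ i : Fin r, a i.succ + a 0) →
        (∀ i x, W.ord (φ i x) = lam i * (p i).ord x) →
        (∀ (ι : Type) [Fintype ι] (b : ι → (φ 0).fieldRange), Adp v b → ∀ (c : ι → N) (n : ℤ),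
          Ge W n (∑ i, (c i : L) * (b i : L)) → ∀ i, Ge W n ((c i : L) * (b i : L))) →
        (∀ (ι : Fin r → Type) [∀ i, Fintype (ι i)] (b : ∀ i, ι i → K i.succ),
          (∀ i, Adp (p i.succ) (b i)) →
            Adp W (fun J : (∀ i, ι i) => ((∏ i, ψ i (b i (J i)) : N) : L))) →
        (∀ D : Derivation k L L,
          (∀ i x, ∃ x', D (φ i x) = φ i x * φ i x' ∧ (p i).Reg x') → LogD W D) →
        IsMono φ (∑ i, a i) p lam W := by
      intro W hWd hWo hWf hWa hWl
      refine ⟨by rw [hsum]; exact hWd, hWo, ?_, hWl⟩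
      intro ι _ b hb
      have hB := hWa (fun i => ι i.succ) (fun i => b i.succ) fun i => hb i.succ
      have h1 := adp_prod W hWf (hva (b 0) (hb 0)) hB
      have h2 := h1.equiv (Fin.consEquiv ι).symm
      have h3 : (fun J : (∀ i, ι i) => ∏ i, φ i (b i (J i))) =
          (fun p : ι 0 × (∀ i : Fin r, ι i.succ) => ((e0 (b 0 p.1) : (φ 0).fieldRange) : L) *
            ((∏ i, ψ i (b i.succ (p.2 i)) : N) : L)) ∘ (Fin.consEquiv ι).symm := by
        funext J
        rw [Fin.prod_univ_succ]
        change _ = ((e0 (b 0 (J 0)) : (φ 0).fieldRange) : L) *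
            ((∏ i, ψ i (b i.succ (J i.succ)) : N) : L)
        rw [he0]
        congr 1
        have h4 : ((∏ i, ψ i (b i.succ (J i.succ)) : N) : L) =
            ∏ i, ((ψ i (b i.succ (J i.succ)) : N) : L) := map_prod (algebraMap N L) _ _
        rw [h4]
        rfl
      rw [h3]
      exact h2
    by_cases hl : ∀ i : Fin r, lam i.succ = 0
    · -- the first factor only
      have hl0 : lam 0 = 1 := hlam (lam 0) fun i => by
        refine Fin.cases ?_ (fun j => ?_) i
        · exact dvd_rfl
        · rw [hl j]; exact dvd_zero _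
      have hWM := Pool.Agent.K1H17.IS.UU_M h.symm v
      have hWF := Pool.Agent.K1H17.IS.UU_F h.symm v
      refine ⟨Pool.Agent.K1H17.IS.UU h.symm v, key _ ?_ ?_ ?_ ?_ ?_⟩
      · obtain ⟨x, hx⟩ := Pool.Agent.W636.PG.exists_basis k N _ hNt
        have h1 := UU_div' h.symm v (a 0) (∑ i : Fin r, a i.succ) h0t x hx.1 hvd
        rwa [add_comm (a 0) (∑ i : Fin r, a i.succ)] at h1
      · intro i x
        refine Fin.cases (fun x => ?_) (fun j x => ?_) i x
        · rw [hl0, ← he0, hWM, hvo, Nat.cast_one, one_mul]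
        · rw [hl, Nat.cast_zero, zero_mul, ← hψ, hWF]
      · intro ι _ b hb c n hn i
        rcases fam_A h v hb c hn i with h1 | h1
        · left; rw [h1]; simp
        · by_cases hc : c i = 0
          · left; rw [hc]; simp
          right
          have h2 : (c i : L) ≠ 0 := fun h => hc (Subtype.ext h)
          have h3 : (b i : L) ≠ 0 := fun h => hb.1 i (Subtype.ext h)
          rw [Place.ord_mul _ h2 h3, hWM, hWF, zero_add]
          exact h1.resolve_left (hb.1 i)
      · intro ι _ b hb
        by_cases hr : ∃ i : Fin r, True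
        · obtain ⟨i1, -⟩ := hr
          obtain ⟨w', hw'⟩ := ih N (fun i => K i.succ) ψ (fun i => a i.succ) (fun i => hK _) hNt
            hsup0 (fun i => p i.succ) (fun i => hp _) (fun _ => 1) (fun d hd => Nat.dvd_one.1 (hd i1))
          exact adp_up _ (α := 0) le_rfl (fun z => by rw [hWF, zero_mul]) (hw'.adp ι b hb)
        · have hr0 : IsEmpty (Fin r) := ⟨fun i => hr ⟨i, trivial⟩⟩
          refine Adp.unique ?_
          rw [Finset.univ_eq_empty, Finset.prod_empty, OneMemClass.coe_one]
          exact one_ne_zero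
      · intro D hD
        refine UU_log h.symm v D (hD0 D hD) fun z => ⟨⟨D z, hDN D hD z z.2⟩, rfl⟩
    · obtain ⟨g, hg⟩ : ∃ g : ℕ, g = Finset.univ.gcd (fun i : Fin r => lam i.succ) := ⟨_, rfl⟩
      have hgd : ∀ i : Fin r, g ∣ lam i.succ := fun i => by
        rw [hg]; exact Finset.gcd_dvd (Finset.mem_univ i)
      choose lam' hlam' using hgd
      have hg0 : g ≠ 0 := by
        rintro rfl
        exact hl fun i => by rw [hlam', zero_mul]
      have hlam1 : ∀ d : ℕ, (∀ i, d ∣ lam' i) → d = 1 := by
        intro d hd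
        have h1 : g * d ∣ g := by
          conv_rhs => rw [hg]
          refine Finset.dvd_gcd fun i _ => ?_
          rw [hlam' i]
          exact mul_dvd_mul_left g (hd i)
        have h2 : g * d ∣ g * 1 := by rwa [mul_one]
        exact Nat.dvd_one.1 (Nat.dvd_of_mul_dvd_mul_left (Nat.pos_of_ne_zero hg0) h2)
      obtain ⟨w', hw'⟩ := ih N (fun i => K i.succ) ψ (fun i => a i.succ) (fun i => hK _) hNt
        hsup0 (fun i => p i.succ) (fun i => hp _) lam' hlam1
      have hw'D : ∀ D : Derivation k L L,
          (∀ i x, ∃ x', D (φ i x) = φ i x * φ i x' ∧ (p i).Reg x') →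
          ∀ z : N, ∃ z' : N, D (z : L) = (z : L) * (z' : L) ∧ w'.Reg z' := by
        intro D hD z
        have h1 := hw'.log (resD D N (hDN D hD)) (hDψ D hD) z
        refine ⟨resD D N (hDN D hD) z / z, ?_, h1⟩
        by_cases hz : z = 0
        · rw [hz]; simp
        · have hz' : (z : L) ≠ 0 := fun h => hz (Subtype.ext h)
          have h2 : ((resD D N (hDN D hD) z / z : N) : L) = D (z : L) / (z : L) := rfl
          rw [h2, mul_div_cancel₀ _ hz']
      by_cases hl0 : lam 0 = 0
      · -- the further factors only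
        have hg1 : g = 1 := hlam g fun i => by
          refine Fin.cases ?_ (fun j => ?_) i
          · rw [hl0]; exact dvd_zero _
          · rw [hlam' j]; exact dvd_mul_right _ _
        have hWM := Pool.Agent.K1H17.IS.UU_M h w'
        have hWF := Pool.Agent.K1H17.IS.UU_F h w'
        refine ⟨Pool.Agent.K1H17.IS.UU h w', key _ ?_ ?_ ?_ ?_ ?_⟩
        · obtain ⟨x, hx⟩ := Pool.Agent.W636.PG.exists_basis k (φ 0).fieldRange _ h0t
          exact UU_div' h w' (∑ i : Fin r, a i.succ) (a 0) hNt x hx.1 hw'.div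
        · intro i x
          refine Fin.cases (fun x => ?_) (fun j x => ?_) i x
          · rw [hl0, ← he0, hWF, Nat.cast_zero, zero_mul]
          · rw [hlam', hg1, ← hψ, hWM, hw'.ord, one_mul]
        · intro ι _ b hb c n hn i
          rcases fam_B h w' hb c hn i with h1 | h1
          · left; rw [h1]; simp
          · by_cases hc : c i = 0
            · left; rw [hc]; simp
            right
            have h2 : (c i : L) ≠ 0 := fun h => hc (Subtype.ext h)
            have h3 : (b i : L) ≠ 0 := fun h => hb.1 i (Subtype.ext h)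
            rw [Place.ord_mul _ h2 h3, hWM, hWF, add_zero]
            exact h1
        · intro ι _ b hb
          exact adp_up _ (α := 1) zero_le_one (fun z => by rw [hWM, one_mul]) (hw'.adp ι b hb)
        · intro D hD
          exact UU_log h w' D (hw'D D hD) fun y => by
            obtain ⟨y', h1, -⟩ := hD0 D hD y
            exact ⟨y * y', h1⟩
      · have hw : Wt (g : ℤ) (lam 0 : ℤ) := by
          refine ⟨by exact_mod_cast Nat.pos_of_ne_zero hg0,
            by exact_mod_cast Nat.pos_of_ne_zero hl0, ?_⟩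
          rw [Nat.isCoprime_iff_coprime]
          refine hlam _ fun i => ?_
          refine Fin.cases ?_ (fun j => ?_) i
          · exact Nat.gcd_dvd_right _ _
          · rw [hlam' j]
            exact (Nat.gcd_dvd_left _ _).mul_right _
        have hWM := WW_M h hw w' v
        have hWF := WW_F h hw w' v
        refine ⟨WW h hw w' v, key _ ?_ ?_ ?_ ?_ ?_⟩
        · exact WW_div h hw w' v hNt h0t hw'.div hvd
        · intro i x
          refine Fin.cases (fun x => ?_) (fun j x => ?_) i x
          · rw [← he0, hWF, hvo]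
          · rw [hlam', ← hψ, hWM, hw'.ord]
            push_cast
            ring
        · intro ι _ b hb c n hn i
          rcases WW_fam h hw w' v hb c hn i with h1 | h1
          · left; rw [h1]; simp
          · by_cases hc : c i = 0
            · left; rw [hc]; simp
            right
            have h2 : (c i : L) ≠ 0 := fun h => hc (Subtype.ext h)
            have h3 : (b i : L) ≠ 0 := fun h => hb.1 i (Subtype.ext h)
            rw [Place.ord_mul _ h2 h3, hWM, hWF]
            exact h1
        · intro ι _ b hb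
          exact adp_up _ (α := g) (by positivity) hWM (hw'.adp ι b hb)
        · intro D hD
          exact WW_log h hw w' v D (hw'D D hD) (hD0 D hD)

end

end Pool.Agent.K1H17.TP
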