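import Pool.Agent.K1H17.TP.Vt
import Pool.Agent.K1H17.TP.Mo

/-! The Kuenneth formula with boundaries for a product of several varieties. -/

set_option autoImplicit false
set_option linter.overlappingInstances false
set_option linter.unusedSectionVars false
set_option linter.unusedVariables false

open FF IntermediateField Pool.Agent.W619.PQ Pool.Agent.W619.PL Pool.Agent.W619.TW
  Pool.Agent.W603.LV Pool.Agent.W619.Y Pool.Agent.K1H17.IS
  Pool.Agent.W460.PG.ONE

namespace Pool.Agent.K1H17.TP

section

variable {k : Type} {L : Type} [Field k] [CharZero k] [Field L] [Algebra k L]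
  {M F : IntermediateField k L}

/-- Products of frames. -/
theorem frame2 {a b : ℕ} {y : Fin a → M} {x : Fin b → F} (hy : IsTranscendenceBasis k y)
    (hx : IsTranscendenceBasis k x) (hyx : IsTranscendenceBasis k (app y x))
    (DM : Fin a → Derivation k M M) (DF : Fin b → Derivation k F F) :
    ∃ DD : Fin (a + b) → Derivation k L L,
      (∀ l (z : M), DD (Fin.castAdd b l) (z : L) = ((DM l z : M) : L)) ∧
      (∀ l (z : F), DD (Fin.castAdd b l) (z : L) = 0) ∧
      (∀ l (z : M), DD (Fin.natAdd a l) (z : L) = 0) ∧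
      (∀ l (z : F), DD (Fin.natAdd a l) (z : L) = ((DF l z : F) : L)) ∧
      (Matrix.of fun i j => DD i (app y x j)).det =
        (((Matrix.of fun i j => DM i (y j)).det : M) : L) *
        (((Matrix.of fun i j => DF i (x j)).det : F) : L) := by
  obtain ⟨E, hE⟩ := Pool.Agent.W636.PG.exists_duals k L (a + b) (app y x) hyx
  let DD : Fin (a + b) → Derivation k L L := fun i =>
      Fin.addCases (motive := fun _ => Derivation k L L)
        (fun l : Fin a => ∑ c, ((DM l (y c) : M) : L) • E (Fin.castAdd b c))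
        (fun l : Fin b => ∑ c, ((DF l (x c) : F) : L) • E (Fin.natAdd a c)) i
  have hD1 : ∀ l, DD (Fin.castAdd b l) =
      ∑ c, ((DM l (y c) : M) : L) • E (Fin.castAdd b c) := by
    intro l
    simp [DD]
  have hD2 : ∀ l, DD (Fin.natAdd a l) =
      ∑ c, ((DF l (x c) : F) : L) • E (Fin.natAdd a c) := by
    intro l
    simp [DD]
  have h1 : ∀ (l : Fin a) (z : M), DD (Fin.castAdd b l) (z : L) = ((DM l z : M) : L) := by
    intro l z
    refine der_comp (K := M) (L := L) (DM l) (DD (Fin.castAdd b l)) y hy (fun c => ?_) z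
    rw [hD1]
    show (∑ b', ((DM l (y b') : M) : L) • E (Fin.castAdd b b')) ((y c : M) : L) =
      ((DM l (y c) : M) : L)
    rw [Pool.Agent.W460.PG.ONE.der_sum]
    simp only [dual_left_M hE]
    simp
  have h2 : ∀ (l : Fin a) (z : F), DD (Fin.castAdd b l) (z : L) = 0 := by
    intro l z
    rw [hD1, Pool.Agent.W460.PG.ONE.der_sum]
    simp [dual_left_F hE hx]
  have h3 : ∀ (l : Fin b) (z : M), DD (Fin.natAdd a l) (z : L) = 0 := by
    intro l z
    rw [hD2, Pool.Agent.W460.PG.ONE.der_sum]
    simp [dual_right_M hE hy]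
  have h4 : ∀ (l : Fin b) (z : F), DD (Fin.natAdd a l) (z : L) = ((DF l z : F) : L) := by
    intro l z
    refine der_comp (K := F) (L := L) (DF l) (DD (Fin.natAdd a l)) x hx (fun c => ?_) z
    rw [hD2]
    show (∑ b', ((DF l (x b') : F) : L) • E (Fin.natAdd a b')) ((x c : F) : L) =
      ((DF l (x c) : F) : L)
    rw [Pool.Agent.W460.PG.ONE.der_sum]
    simp only [dual_right_F hE]
    simp
  refine ⟨DD, h1, h2, h3, h4, ?_⟩
  have h5 : (Matrix.of fun i j => DD i (app y x j)) =
      Matrix.reindex finSumFinEquiv finSumFinEquiv (Matrix.fromBlocks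
        ((algebraMap M L).mapMatrix (Matrix.of fun i j => DM i (y j))) 0 0
        ((algebraMap F L).mapMatrix (Matrix.of fun i j => DF i (x j)))) := by
    ext i j
    rw [Matrix.of_apply]
    refine Fin.addCases (fun l => ?_) (fun l => ?_) i
    · refine Fin.addCases (fun c => ?_) (fun c => ?_) j
      · rw [app_left, h1]
        simp
      · rw [app_right, h2]
        simp
    · refine Fin.addCases (fun c => ?_) (fun c => ?_) j
      · rw [app_left, h3]
        simp
      · rw [app_right, h4]
        simp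
  rw [h5, det_blk, ← RingHom.map_det, ← RingHom.map_det]
  rfl

end

section

variable {k : Type} [Field k] [CharZero k] [IsAlgClosed k]

/-- Vector fields on the product. -/
def Frm {r n : ℕ} {a : Fin r → ℕ} {L : Type} [Field L] [Algebra k L] {K : Fin r → Type}
    [∀ i, Field (K i)] [∀ i, Algebra k (K i)] (φ : ∀ i, K i →ₐ[k] L) (Y : Fin n → L)
    (y : ∀ i, Fin (a i) → K i) : Prop :=
  ∀ D : ∀ i, Fin (a i) → Derivation k (K i) (K i), ∃ DD : Fin n → Derivation k L L,
    (∀ l i x, DD l (φ i x) = 0 ∨ ∃ l', DD l (φ i x) = φ i (D i l' x)) ∧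
    (Matrix.of fun i j => DD i (Y j)).det = ∏ i, φ i (Matrix.of fun l c => D i l (y i c)).det

/-- The compositum of fields of finite type. -/
theorem ess_of_sup {r : ℕ} {L : Type} [Field L] [Algebra k L] {K : Fin r → Type}
    [∀ i, Field (K i)] [∀ i, Algebra k (K i)] (φ : ∀ i, K i →ₐ[k] L)
    (hK : ∀ i, Algebra.EssFiniteType k (K i)) (hsup : (⨆ i, (φ i).fieldRange) = ⊤) :
    Algebra.EssFiniteType k L := by
  have h1 : Algebra.EssFiniteType k ↥(⨆ i, (φ i).fieldRange) :=
    essFiniteType_iff.2 (fg_iSup fun j => essFiniteType_iff.1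
      ((Algebra.EssFiniteType.iff_of_algEquiv (AlgEquiv.ofInjectiveField (φ j))).1 (hK j)))
  rw [hsup] at h1
  exact (Algebra.EssFiniteType.iff_of_algEquiv (IntermediateField.topEquiv (F := k) (E := L))).1 h1

/-- The set of products of sections. -/
def PrS {r : ℕ} {a : Fin r → ℕ} {L : Type} [Field L] [Algebra k L] {K : Fin r → Type}
    [∀ i, Field (K i)] [∀ i, Algebra k (K i)] (φ : ∀ i, K i →ₐ[k] L)
    (Bd : ∀ i, Place k (K i) → Prop) (S : ∀ i, Finset (K i)) (m : ℕ)
    (y : ∀ i, Fin (a i) → K i) : Set L :=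
  {z | ∃ q : ∀ i, K i, (∀ i, q i ∈ VV k (Bd i) (S i) m 1 (y i)) ∧ z = ∏ i, φ i (q i)}

/-- **The Kuenneth formula.** -/
theorem kun (r : ℕ) : ∀ (L : Type) [Field L] [Algebra k L] (K : Fin r → Type)
    [∀ i, Field (K i)] [∀ i, Algebra k (K i)] (φ : ∀ i, K i →ₐ[k] L) (a : Fin r → ℕ) (n : ℕ),
    n = ∑ i, a i → (∀ i, Algebra.EssFiniteType k (K i)) →
    (∀ i, Algebra.trdeg k (K i) = a i) → Algebra.trdeg k L = n →
    (⨆ i, (φ i).fieldRange) = ⊤ → ∀ (y : ∀ i, Fin (a i) → K i),
    (∀ i, IsTranscendenceBasis k (y i)) →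
    ∃ Y : Fin n → L, IsTranscendenceBasis k Y ∧ Frm φ Y y ∧
    ∀ (Bd : Place k L → Prop) (Bdi : ∀ i, Place k (K i) → Prop),
      (∀ w : Place k L, (∀ i x, w.ord (φ i x) = 0) → ¬ Bd w) →
      (∀ i (u : Place k (K i)) (w : Place k L), (∀ x, w.ord (φ i x) = u.ord x) →
        (∀ i', i' ≠ i → ∀ x, w.ord (φ i' x) = 0) → (Bd w ↔ Bdi i u)) →
      ∀ S : Finset L, ∃ (b0 : L) (S' : ∀ i, Finset (K i)), b0 ≠ 0 ∧ ∀ (m : ℕ) (g : L),
        g ∈ VV k Bd S m 1 Y → b0 * g ∈ Submodule.span k (PrS φ Bdi S' m y) := by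
  classical
  induction r with
  | zero =>
    intro L _ _ K _ _ φ a n hn hKe hK hL hsup y hy
    rw [Finset.univ_eq_empty, Finset.sum_empty] at hn
    subst hn
    obtain ⟨Y, hY⟩ := Pool.Agent.W636.PG.exists_basis k L 0 hL
    refine ⟨Y, hY, fun D => ⟨fun l => l.elim0, fun l => l.elim0, ?_⟩, ?_⟩
    · rw [Matrix.det_fin_zero, Finset.univ_eq_empty, Finset.prod_empty]
    · intro Bd Bdi _ _ S
      refine ⟨1, fun i => i.elim0, one_ne_zero, fun m g _ => ?_⟩
      have hbot : (⊥ : IntermediateField k L) = ⊤ := by rw [← hsup, iSup_of_empty]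
      have h1 : g ∈ (⊤ : IntermediateField k L) := trivial
      rw [← hbot] at h1
      obtain ⟨c, hc⟩ := IntermediateField.mem_bot.1 h1
      have h2 : (1 : L) * g = c • (1 : L) := by
        rw [one_mul, Algebra.smul_def, mul_one, hc]
      rw [h2]
      refine Submodule.smul_mem _ _ (Submodule.subset_span ⟨fun i => i.elim0, fun i => i.elim0, ?_⟩)
      rw [Finset.univ_eq_empty, Finset.prod_empty]
  | succ r ih =>
    intro L _ _ K _ _ φ a n hn hKe hK hL hsup y hy
    have hn' : n = ∑ i : Fin r, a i.succ + a 0 := by rw [hn, Fin.sum_univ_succ, add_comm]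
    clear hn
    obtain ⟨n', hn1⟩ : ∃ n', n' = ∑ i : Fin r, a i.succ := ⟨_, rfl⟩
    rw [← hn1] at hn'
    subst hn'
    obtain ⟨N, hN⟩ : ∃ N : IntermediateField k L, N = ⨆ i : Fin r, (φ i.succ).fieldRange :=
      ⟨_, rfl⟩
    have hL0 : Algebra.trdeg k L = (∑ i, a i : ℕ) := by
      rw [hL, Fin.sum_univ_succ, hn1, add_comm]
    obtain ⟨hNt, h0t, hsupN⟩ := trdeg_split φ hK hL0 hsup N hN
    rw [← hn1] at hNt
    have hmem : ∀ (i : Fin r) x, φ i.succ x ∈ N := fun i x => by
      rw [hN]
      exact (le_iSup (fun i : Fin r => (φ i.succ).fieldRange) i) ⟨x, rfl⟩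
    have h : Dj N (φ 0).fieldRange := dj_ofT hsupN hL hNt h0t
    let ψ : ∀ i : Fin r, K i.succ →ₐ[k] N := fun i => codR (φ i.succ) N (hmem i)
    have hψ : ∀ (i : Fin r) x, ((ψ i x : N) : L) = φ i.succ x := fun i x => rfl
    have hsup0 : (⨆ i, (ψ i).fieldRange) = ⊤ := iSup_codR (fun i : Fin r => φ i.succ) N hN hmem
    let e0 : K 0 ≃ₐ[k] (φ 0).fieldRange := AlgEquiv.ofInjectiveField (φ 0)
    have he0 : ∀ x, ((e0 x : (φ 0).fieldRange) : L) = φ 0 x := fun x => rfl
    have hess : Algebra.EssFiniteType k L := ess_of_sup φ hKe hsup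
    obtain ⟨YN, hYN, hfrm, hih⟩ := ih N (fun i => K i.succ) ψ (fun i => a i.succ) n' hn1
      (fun i => hKe _) (fun i => hK _) hNt hsup0 (fun i => y i.succ) (fun i => hy _)
    let x0 : Fin (a 0) → (φ 0).fieldRange := fun l => e0 (y 0 l)
    have hx0 : IsTranscendenceBasis k x0 := e0.isTranscendenceBasis (hy 0)
    have htop : Algebra.IsAlgebraic ↥(N ⊔ (φ 0).fieldRange) L := by
      rw [h.sup]
      exact ⟨fun z => isAlgebraic_algebraMap (⟨z, trivial⟩ : (⊤ : IntermediateField k L))⟩
    have hyx : IsTranscendenceBasis k (app YN x0) :=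
      Pool.Agent.K1H17.IS.basis_append N (φ 0).fieldRange htop hL YN hYN x0 hx0
    refine ⟨app YN x0, hyx, ?_, ?_⟩
    · intro D
      obtain ⟨DN, hDN1, hDN2⟩ := hfrm fun i => D i.succ
      obtain ⟨DD, g1, g2, g3, g4, g5⟩ := frame2 hYN hx0 hyx DN (fun l => pushD e0 (D 0 l))
      refine ⟨DD, ?_, ?_⟩
      · intro l i
        refine Fin.addCases (fun l' => ?_) (fun l' => ?_) l
        · refine Fin.cases (fun x => ?_) (fun j x => ?_) i
          · left
            rw [← he0]
            exact g2 l' _
          · rw [← hψ, g1]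
            rcases hDN1 l' j x with h1 | ⟨l'', h1⟩
            · left; rw [h1]; rfl
            · right; exact ⟨l'', by rw [h1]; rfl⟩
        · refine Fin.cases (fun x => ?_) (fun j x => ?_) i
          · right
            refine ⟨l', ?_⟩
            rw [← he0, g4, pushD_e]
            rfl
          · left
            rw [← hψ]
            exact g3 l' _
      · rw [g5, hDN2, Fin.prod_univ_succ, mul_comm]
        congr 1
        · have h2 : (Matrix.of fun i j => pushD e0 (D 0 i) (x0 j)) =
              (e0 : K 0 →+* (φ 0).fieldRange).mapMatrix (Matrix.of fun l c => D 0 l (y 0 c)) := by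
            ext l c
            rw [Matrix.of_apply]
            change ((pushD e0 (D 0 l) (e0 (y 0 c)) : (φ 0).fieldRange) : L) = _
            rw [pushD_e]
            rfl
          rw [h2, ← RingHom.map_det]
          rfl
        · have h4 : ((∏ i, ψ i (Matrix.of fun l c => D i.succ l (y i.succ c)).det : N) : L) =
              ∏ i, ((ψ i (Matrix.of fun l c => D i.succ l (y i.succ c)).det : N) : L) :=
            map_prod (algebraMap N L) _ _
          rw [h4]
          rfl
    · intro Bd Bdi H1 H2 S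
      have hUM := fun u => Pool.Agent.K1H17.IS.UU_M h u
      have hUF := fun u => Pool.Agent.K1H17.IS.UU_F h u
      have hUM' := fun u => Pool.Agent.K1H17.IS.UU_M h.symm u
      have hUF' := fun u => Pool.Agent.K1H17.IS.UU_F h.symm u
      have hex : ∀ x : L, x ∈ (φ 0).fieldRange → ∃ x', φ 0 x' = x := fun x hx => hx
      obtain ⟨-, b0, S1, S2, hb0, hmain⟩ := exists_dataB h hL hNt h0t hess hYN hx0 Bd
        (fun u => Bd (Pool.Agent.K1H17.IS.UU h u)) (fun u => Bd (Pool.Agent.K1H17.IS.UU h.symm u))
        (fun w hw1 hw2 => H1 w fun i => by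
          refine Fin.cases (fun x => ?_) (fun j x => ?_) i
          · rw [← he0]; exact hw2 _
          · rw [← hψ]; exact hw1 _) (fun u => Iff.rfl) (fun u => Iff.rfl) S
      obtain ⟨b1, S1', hb1, hmain1⟩ := hih (fun u => Bd (Pool.Agent.K1H17.IS.UU h u))
        (fun i => Bdi i.succ) (fun w hw => H1 _ fun i => by
          refine Fin.cases (fun x => ?_) (fun j x => ?_) i
          · rw [← he0]; exact hUF w _
          · rw [← hψ, hUM]; exact hw j x) (fun i u w hw1 hw2 => H2 i.succ u _ (fun x => by
            rw [← hψ, hUM]; exact hw1 x) fun i' hi' => by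
              revert hi'
              refine Fin.cases (fun _ x => ?_) (fun j hj x => ?_) i'
              · rw [← he0]; exact hUF w _
              · rw [← hψ, hUM]; exact hw2 j (fun hji => hj (by rw [hji])) x) S1
      have hBd2 : ∀ u, Bdi 0 u ↔ Bd (Pool.Agent.K1H17.IS.UU h.symm (pushP e0 u)) := by
        intro u
        refine (H2 0 u _ (fun x => ?_) fun i' hi' => ?_).symm
        · rw [← he0, hUM', pushP_apply]
        · revert hi'
          refine Fin.cases (fun h0 => absurd rfl h0) (fun j _ x => ?_) i'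
          rw [← hψ]
          exact hUF' _ _
      refine ⟨(b1 : L) * b0, fun i => Fin.cases (motive := fun i => Finset (K i))
        (S2.image e0.symm) S1' i, mul_ne_zero (fun h0 => hb1 (Subtype.ext h0)) hb0, ?_⟩
      intro m g hg
      have hg1 := hmain m g hg
      rw [mul_assoc]
      set T := Submodule.span k (PrS φ Bdi (fun i => Fin.cases (motive := fun i => Finset (K i))
        (S2.image e0.symm) S1' i) m y) with hT
      generalize b0 * g = t0 at hg1 ⊢
      induction hg1 using Submodule.span_induction with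
      | zero => rw [mul_zero]; exact zero_mem _
      | add x y _ _ hx hy => rw [mul_add]; exact add_mem hx hy
      | smul c x _ hx => rw [mul_smul_comm]; exact T.smul_mem _ hx
      | mem z hz =>
        obtain ⟨p, q, hp, hq, rfl⟩ := hz
        have hp1 := hmain1 m p hp
        have hq1 := VV_pull e0 (Bd := Bdi 0) hBd2 hq
        rw [← mul_assoc]
        have h6 : (b1 : L) * (p : L) = ((b1 * p : N) : L) := rfl
        rw [h6]
        generalize b1 * p = t at hp1
        induction hp1 using Submodule.span_induction with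
        | zero =>
          have h7 : ((0 : N) : L) = 0 := rfl
          rw [h7, zero_mul]; exact zero_mem _
        | add x y _ _ hx hy =>
          have h7 : ((x + y : N) : L) = (x : L) + (y : L) := rfl
          rw [h7, add_mul]; exact add_mem hx hy
        | smul c x _ hx =>
          have h7 : ((c • x : N) : L) = c • (x : L) := rfl
          rw [h7, smul_mul_assoc]; exact T.smul_mem _ hx
        | mem t ht =>
          obtain ⟨s, hs, rfl⟩ := ht
          refine Submodule.subset_span ⟨fun i => Fin.cases (motive := fun i => K i) (e0.symm q) s i,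
            fun i => ?_, ?_⟩
          · refine Fin.cases ?_ (fun j => ?_) i
            · exact hq1
            · exact hs j
          · rw [Fin.prod_univ_succ, mul_comm]
            congr 1
            · change (q : L) = φ 0 (e0.symm q)
              rw [← he0, AlgEquiv.apply_symm_apply]
            · exact map_prod (algebraMap N L) _ _

end

end Pool.Agent.K1H17.TP
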