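import Pool.Agent.K1H17.IS.Kr

/-! Products of pluricanonical forms: the lower bound for the Kodaira dimension of a cover of a
product. -/

set_option autoImplicit false
set_option linter.overlappingInstances false
set_option linter.unusedSectionVars false
set_option linter.unusedVariables false

open FF IntermediateField Pool.Agent.W619.PQ Pool.Agent.W619.PL Pool.Agent.W619.TW
  Pool.Agent.W603.LV Pool.Agent.W619.Y Pool.Agent.W672.PG Pool.Agent.W824.PG Pool.Agent.Y174
  Pool.Agent.K1H17.IS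

namespace Pool.Agent.K1H17.TP

section

variable {k : Type} {L : Type} [Field k] [CharZero k] [Field L] [Algebra k L]

theorem kod_lb {r μ : ℕ} {a A : Fin r → ℕ} (hμ : 1 ≤ μ) (M : Fin r → IntermediateField k L)
    (halg : Algebra.IsAlgebraic ↥(⨆ i, M i) L) (hn : Algebra.trdeg k L = (∑ i, a i : ℕ))
    (hM : ∀ i, Algebra.trdeg k (M i) = a i) (hessL : Algebra.EssFiniteType k L)
    (y : ∀ i, Fin (a i) → M i) (hy : ∀ i, IsTranscendenceBasis k (y i))
    (E : ∀ i, Fin (a i) → Derivation k (M i) (M i))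
    (F : ∀ i, Fin (A i + 1) → (Fin (a i) → Derivation k (M i) (M i)) → M i)
    (hF0 : ∀ i l, F i l (E i) ≠ 0)
    (hFi : ∀ i, AlgebraicIndependent k (fun l : Fin (A i) => F i l.succ (E i) / F i 0 (E i)))
    (hw : ∀ w : Place k L, IsDivisorial w (∑ i, a i) → (∀ i (f : M i), w.ord (f : L) = 0) ∨
        ∃ γ : Fin r → ℝ, (μ : ℝ) ≤ ∑ i, γ i ∧
        ∀ i l, LG w μ (fun p => (y i p : L)) ((F i l (E i) : M i) : L) (γ i)) :
    KodTr k L (∑ i, a i) (∑ i, A i) := by
  classical
  obtain ⟨σ⟩ : Nonempty ((Σ i, Fin (a i)) ≃ Fin (∑ i, a i)) := ⟨finSigmaFinEquiv⟩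
  obtain ⟨τ⟩ : Nonempty (Fin (∑ i, A i) ≃ (Σ i, Fin (A i))) := ⟨finSigmaFinEquiv.symm⟩
  have hbasis := basis_sigma (ι := fun i => Fin (a i)) M halg hn (fun i => Fintype.card_fin _) y hy
  set Y : (Σ i, Fin (a i)) → L := fun p => (y p.1 p.2 : L) with hY
  have hbasis' : IsTranscendenceBasis k (Y ∘ σ.symm) :=
    (isTranscendenceBasis_equiv (R := k) (f := Y) σ.symm).2 hbasis
  obtain ⟨D0, hD0⟩ := Pool.Agent.W636.PG.exists_duals k L (∑ i, a i) (Y ∘ σ.symm) hbasis'
  have hdet1 : (Matrix.of fun i j => D0 (σ i) (Y j)).det = 1 := by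
    have h1 : (Matrix.of fun i j => D0 (σ i) (Y j)) = 1 := by
      ext i j
      have h2 := hD0 (σ i) (σ j)
      rw [Function.comp_apply, σ.symm_apply_apply] at h2
      rw [Matrix.of_apply, Matrix.one_apply, h2]
      simp only [σ.injective.eq_iff]
    rw [h1, Matrix.det_one]
  let c : Fin (∑ i, A i + 1) → L := fun l => ∏ i, ((F i (prS A τ l i) (E i) : M i) : L)
  have hf0 : ∀ i l, ((F i l (E i) : M i) : L) ≠ 0 := fun i l h => hF0 i l (Subtype.ext h)
  have hc0 : ∀ l, c l ≠ 0 := fun l => Finset.prod_ne_zero_iff.2 fun i _ => hf0 i _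
  have hratio : ∀ l : Fin (∑ i, A i), c l.succ / c 0 =
      ((F (τ l).1 (τ l).2.succ (E (τ l).1) / F (τ l).1 0 (E (τ l).1) : M (τ l).1) : L) := by
    intro l
    change (∏ i, ((F i (prS A τ l.succ i) (E i) : M i) : L)) /
      (∏ i, ((F i (prS A τ 0 i) (E i) : M i) : L)) = _
    rw [← Finset.prod_div_distrib, Finset.prod_eq_single (τ l).1]
    · rw [prS_succ, Function.update_self, prS_zero]
      rfl
    · intro i _ hi
      rw [prS_succ, Function.update_of_ne hi, prS_zero, div_self (hf0 i 0)]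
    · intro h
      exact absurd (Finset.mem_univ _) h
  let s : Fin (∑ i, A i + 1) → (Fin (∑ i, a i) → Derivation k L L) → L := fun l D =>
    (Matrix.of fun i j => D (σ i) (Y j)).det ^ μ * c l
  have hs : ∀ l, IsPluriForm k L (∑ i, a i) μ (s l) := fun l => pluri_sigma σ Y μ (c l)
  have hsD : ∀ l, s l D0 = c l := by
    intro l
    change (Matrix.of fun i j => D0 (σ i) (Y j)).det ^ μ * c l = c l
    rw [hdet1, one_pow, one_mul]
  refine ⟨μ, hμ, s, fun l => ⟨hs l, fun w hwd _ D hD => ?_, fun w _ h => h.elim⟩, D0, ?_, ?_⟩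
  · have h3 : GeR w 0 (s l D) := by
      rcases hw w hwd with htr | ⟨γ, hγ, h1⟩
      · have g1 : ∀ i, YGood (a i) μ w (fun p => (y i p : L))
            ((F i (prS A τ l i) (E i) : M i) : L) := by
          intro i
          refine ⟨1, fun p => (y i p : L), fun p => Or.inr (htr i _).ge, ?_, ?_⟩
          · intro D p
            simp [Matrix.one_apply]
          · rw [Matrix.det_one, one_pow, mul_one]
            exact Or.inr (htr i _).ge
        have := Ge.toR (yg_sigma g1 (fun i => D (σ i)) (fun j => hD (σ j)))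
        simpa using this
      · have h2 : LogGe (∑ i, a i) w (s l) μ := fun D hD hl =>
          (lg_sigma (fun i => h1 i (prS A τ l i)) (fun i => D (σ i)) (fun j => hD (σ j))
            (fun j => hl (σ j))).mono hγ
        have h3 := reg_of_log hn hessL hwd (s l) (hs l) h2 D hD
        rwa [sub_self] at h3
    rcases h3 with h3 | h3
    · exact Or.inl h3
    · right
      refine ⟨1, Finset.mem_singleton_self _, one_ne_zero, ?_⟩
      rw [w.ord_one, mul_zero]
      exact_mod_cast h3
  · intro l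
    rw [hsD]
    exact hc0 l
  · have e1 : (fun l : Fin (∑ i, A i) => s l.succ D0 / s 0 D0) =
        fun l : Fin (∑ i, A i) => ((F (τ l).1 (τ l).2.succ (E (τ l).1) /
          F (τ l).1 0 (E (τ l).1) : M (τ l).1) : L) := by
      funext l
      rw [hsD, hsD, hratio]
    rw [e1]
    exact (indep_sigma M halg hn hM (fun i (l : Fin (A i)) => F i l.succ (E i) / F i 0 (E i))
      hFi).comp τ τ.injective

end

end Pool.Agent.K1H17.TP
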