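import Pool.Agent.K1H17.TP.Pl

/-! The weighted product of two divisorial places is divisorial. -/

set_option autoImplicit false
set_option linter.overlappingInstances false
set_option linter.unusedSectionVars false
set_option linter.unusedVariables false

open FF IntermediateField Pool.Agent.W619.PQ Pool.Agent.W619.PL Pool.Agent.W619.TW
  Pool.Agent.W603.LV Pool.Agent.K1H17.IS Pool.Agent.W381.PG

namespace Pool.Agent.K1H17.TP

section

variable {k F : Type*} [Field k] [Field F] [Algebra k F] {v : Place k F}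

/-- The monomials `x ^ m * t ^ (- α j)` are adapted. -/
theorem adp_mon {e : ℕ} (x : Fin e → F)
    (hx : ∀ p : MvPolynomial (Fin e) k, p ≠ 0 →
      MvPolynomial.aeval x p ≠ 0 ∧ v.ord (MvPolynomial.aeval x p) = 0)
    {t : F} (ht0 : t ≠ 0) (ht : v.ord t = 1) {α : ℤ} (hα : 0 < α)
    (S : Finset (Option (Fin e) →₀ ℕ)) :
    Adp v (fun m : S => t ^ (-(α * (m.1 none : ℤ))) * ∏ i, x i ^ m.1 (some i)) := by
  classical
  have hxi : ∀ i, x i ≠ 0 := by
    intro i
    have := (hx (MvPolynomial.X i) (MvPolynomial.X_ne_zero i)).1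
    rwa [MvPolynomial.aeval_X] at this
  have hmon : ∀ m : Option (Fin e) →₀ ℕ, (∏ i, x i ^ m (some i)) ≠ 0 := fun m =>
    Finset.prod_ne_zero_iff.2 fun i _ => pow_ne_zero _ (hxi i)
  refine ⟨fun m => mul_ne_zero (zpow_ne_zero _ ht0) (hmon _), fun c n hn m0 hm0 => ?_⟩
  -- the monomial of greatest degree in `t⁻¹`
  obtain ⟨m1, hm1, hmax⟩ := Finset.exists_max_image (Finset.univ.filter fun m : S => c m ≠ 0)
    (fun m : S => m.1 none) ⟨m0, Finset.mem_filter.2 ⟨Finset.mem_univ _, hm0⟩⟩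
  have hc1 : c m1 ≠ 0 := (Finset.mem_filter.1 hm1).2
  have hmax' : ∀ m : S, c m ≠ 0 → m.1 none ≤ m1.1 none := fun m hm =>
    hmax m (Finset.mem_filter.2 ⟨Finset.mem_univ _, hm⟩)
  obtain ⟨J, hJ⟩ : ∃ J, J = m1.1 none := ⟨_, rfl⟩
  rw [← hJ] at hmax'
  -- the exponents of the variables
  let E : (Option (Fin e) →₀ ℕ) → (Fin e →₀ ℕ) := fun m =>
    Finsupp.equivFunOnFinite.symm (fun i => m (some i))
  have hE : ∀ m i, E m i = m (some i) := fun m i => by
    rw [Finsupp.coe_equivFunOnFinite_symm]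
  let P : MvPolynomial (Fin e) k := ∑ m : S, if m.1 none = J then
    MvPolynomial.monomial (E m.1) (c m) else 0
  have hPc : MvPolynomial.coeff (E m1.1) P = c m1 := by
    show MvPolynomial.coeff (E m1.1) (∑ m : S, if m.1 none = J then
      MvPolynomial.monomial (E m.1) (c m) else 0) = c m1
    rw [MvPolynomial.coeff_sum, Finset.sum_eq_single m1]
    · rw [if_pos hJ.symm, MvPolynomial.coeff_monomial, if_pos rfl]
    · intro m _ hm
      split_ifs with h1
      · rw [MvPolynomial.coeff_monomial, if_neg]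
        intro h2
        apply hm
        apply Subtype.ext
        ext o
        cases o with
        | none => rw [h1, hJ]
        | some i =>
          have := DFunLike.congr_fun h2 i
          rwa [hE, hE] at this
      · rw [MvPolynomial.coeff_zero]
    · intro h; exact absurd (Finset.mem_univ _) h
  have hP0 : P ≠ 0 := by
    intro h0
    rw [h0, MvPolynomial.coeff_zero] at hPc
    exact hc1 hPc.symm
  have hPx := hx P hP0
  have hPe : MvPolynomial.aeval x P =
      ∑ m : S, if m.1 none = J then c m • ∏ i, x i ^ m.1 (some i) else 0 := by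
    show MvPolynomial.aeval x (∑ m : S, if m.1 none = J then
      MvPolynomial.monomial (E m.1) (c m) else 0) = _
    rw [map_sum]
    refine Finset.sum_congr rfl fun m _ => ?_
    split_ifs with h1
    · rw [MvPolynomial.aeval_monomial, Algebra.smul_def, Finsupp.prod_fintype _ _ (fun i => pow_zero _)]
      rfl
    · rw [map_zero]
  -- the sum is the leading part plus terms of greater order
  have hsplit : ∑ m : S, c m • (t ^ (-(α * (m.1 none : ℤ))) * ∏ i, x i ^ m.1 (some i)) =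
      t ^ (-(α * (J : ℤ))) * MvPolynomial.aeval x P +
        ∑ m : S, if m.1 none = J then 0 else
          c m • (t ^ (-(α * (m.1 none : ℤ))) * ∏ i, x i ^ m.1 (some i)) := by
    rw [hPe, Finset.mul_sum, ← Finset.sum_add_distrib]
    refine Finset.sum_congr rfl fun m _ => ?_
    split_ifs with h1
    · rw [add_zero, h1, mul_smul_comm]
    · rw [mul_zero, zero_add]
  have hmo : ∀ m : Option (Fin e) →₀ ℕ, v.ord (∏ i, x i ^ m (some i)) = 0 := by
    intro m
    have h1 := (hx (MvPolynomial.monomial (E m) 1) (by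
      rw [Ne, MvPolynomial.monomial_eq_zero]; exact one_ne_zero)).2
    rw [MvPolynomial.aeval_monomial, map_one, one_mul,
      Finsupp.prod_fintype _ _ (fun i => pow_zero _)] at h1
    have h2 : ∏ i, x i ^ m (some i) = ∏ i, x i ^ E m i :=
      Finset.prod_congr rfl fun i _ => by rw [hE]
    rw [h2, h1]
  have hrest : Ge v (-(α * (J : ℤ)) + 1) (∑ m : S, if m.1 none = J then 0 else
          c m • (t ^ (-(α * (m.1 none : ℤ))) * ∏ i, x i ^ m.1 (some i))) := by
    refine Ge.sum _ _ fun m _ => ?_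
    split_ifs with h1
    · exact Ge.zero
    · by_cases hcm : c m = 0
      · rw [hcm, zero_smul]; exact Ge.zero
      refine ge_smul _ (Or.inr ?_)
      rw [v.ord_mul (zpow_ne_zero _ ht0) (hmon _), v.ord_zpow, ht, hmo, add_zero, mul_one]
      have h2 := hmax' m hcm
      have h3 : (m.1 none : ℤ) + 1 ≤ J := by
        have : m.1 none < J := lt_of_le_of_ne h2 h1
        exact_mod_cast this
      have h4 := mul_le_mul_of_nonneg_left h3 hα.le
      linarith
  rw [hsplit] at hn
  have hlead : v.ord (t ^ (-(α * (J : ℤ))) * MvPolynomial.aeval x P) = -(α * (J : ℤ)) := by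
    rw [v.ord_mul (zpow_ne_zero _ ht0) hPx.1, v.ord_zpow, ht, hPx.2, add_zero, mul_one]
  have hlead0 : t ^ (-(α * (J : ℤ))) * MvPolynomial.aeval x P ≠ 0 :=
    mul_ne_zero (zpow_ne_zero _ ht0) hPx.1
  have hnJ : n ≤ -(α * (J : ℤ)) := by
    by_contra hcon
    push Not at hcon
    have h1 := (hn.mono (by omega : -(α * (J : ℤ)) + 1 ≤ n)).sub hrest
    rw [add_sub_cancel_right] at h1
    have h2 := h1.resolve_left hlead0
    omega
  right
  rw [v.ord_mul (zpow_ne_zero _ ht0) (hmon _), v.ord_zpow, ht, hmo, add_zero, mul_one]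
  have h2 := hmax' m0 hm0
  have h3 : (m0.1 none : ℤ) ≤ J := by exact_mod_cast h2
  have h4 := mul_le_mul_of_nonneg_left h3 hα.le
  linarith

end

section

variable {k L : Type*} [Field k] [Field L] [Algebra k L] [CharZero k] [IsAlgClosed k]
  {M F : IntermediateField k L} {u : Place k M} {v : Place k F} {α β n m : ℤ}

theorem ne_zero_of_isDiv {K : Type*} [Field K] [Algebra k K] {w : Place k K} {a : ℕ}
    (hK : Algebra.trdeg k K = a) : a ≠ 0 := by
  rintro rfl
  obtain ⟨s, hs0, hs⟩ := w.surj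
  have h1 : Transcendental k s := w.transcendental_of_ord_ne (by omega)
  have h2 : Algebra.IsAlgebraic k K := by
    rw [← _root_.trdeg_eq_zero_iff, hK, Nat.cast_zero]
  exact h1 (h2.isAlgebraic s)

theorem WW_div (h : Dj M F) (hw : Wt α β) (u : Place k M) (v : Place k F) {a b : ℕ}
    (hM : Algebra.trdeg k M = a) (hF : Algebra.trdeg k F = b) (hu : IsDivisorial u a)
    (hv : IsDivisorial v b) : IsDivisorial (WW h hw u v) (a + b) := by
  classical
  have ha0 := ne_zero_of_isDiv (w := u) hM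
  have hb0 := ne_zero_of_isDiv (w := v) hF
  obtain ⟨e, rfl⟩ : ∃ e, a = e + 1 := ⟨a - 1, by omega⟩
  obtain ⟨e', rfl⟩ : ∃ e', b = e' + 1 := ⟨b - 1, by omega⟩
  obtain ⟨y, hy⟩ := hu
  obtain ⟨x, hx⟩ := hv
  obtain ⟨y0, hy'⟩ : ∃ y0 : Fin e → M, ∀ p : MvPolynomial (Fin e) k, p ≠ 0 →
      MvPolynomial.aeval (R := k) y0 p ≠ 0 ∧ u.ord (MvPolynomial.aeval (R := k) y0 p) = 0 :=
    ⟨y, hy⟩
  obtain ⟨x0, hx'⟩ : ∃ x0 : Fin e' → F, ∀ p : MvPolynomial (Fin e') k, p ≠ 0 →
      MvPolynomial.aeval (R := k) x0 p ≠ 0 ∧ v.ord (MvPolynomial.aeval (R := k) x0 p) = 0 :=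
    ⟨x, hx⟩
  obtain ⟨s, hs0, hs⟩ := u.surj
  obtain ⟨t, ht0, ht⟩ := v.surj
  obtain ⟨W, hW⟩ : ∃ W, W = WW h hw u v := ⟨_, rfl⟩
  rw [← hW]
  have hWM : ∀ a : M, W.ord (a : L) = α * u.ord a := by rw [hW]; exact WW_M h hw u v
  have hWF : ∀ a : F, W.ord (a : L) = β * v.ord a := by rw [hW]; exact WW_F h hw u v
  have hsL : (s : L) ≠ 0 := fun h => hs0 (Subtype.ext h)
  have htL : (t : L) ≠ 0 := fun h => ht0 (Subtype.ext h)
  obtain ⟨X, hX⟩ : ∃ X : Option (Fin e') → L,
    X = fun o => o.elim ((s : L) ^ β * (t : L) ^ (-α)) (fun i => (x0 i : L)) := ⟨_, rfl⟩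
  refine isDiv_of_fintype (ι := Option (Fin e') ⊕ Fin e) (by
    rw [Fintype.card_sum, Fintype.card_option, Fintype.card_fin, Fintype.card_fin]; omega)
    (Sum.elim X (fun i => (y0 i : L))) fun p hp => ?_
  obtain ⟨q, hq⟩ : ∃ q, q = MvPolynomial.sumAlgEquiv k (Option (Fin e')) (Fin e) p := ⟨_, rfl⟩
  have hq0 : q ≠ 0 := by
    intro h0
    apply hp
    have h1 := congrArg (MvPolynomial.sumAlgEquiv k (Option (Fin e')) (Fin e)).symm h0
    rwa [hq, AlgEquiv.symm_apply_apply, map_zero] at h1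
  let φ : MvPolynomial (Fin e) k →+* L :=
    ((MvPolynomial.aeval (R := k) (fun i => (y0 i : L)) : MvPolynomial (Fin e) k →ₐ[k] L) :
      MvPolynomial (Fin e) k →+* L)
  have hφ : ∀ r : MvPolynomial (Fin e) k, φ r = ((MvPolynomial.aeval (R := k) y0 r : M) : L) :=
    fun r => MvPolynomial.aeval_algebraMap_apply L y0 r
  have e0 : ∀ p : MvPolynomial (Option (Fin e') ⊕ Fin e) k,
      MvPolynomial.aeval (R := k) (Sum.elim X (fun i => (y0 i : L))) p =
      MvPolynomial.eval₂ φ X (MvPolynomial.sumAlgEquiv k (Option (Fin e')) (Fin e) p) := by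
    intro p
    induction p using MvPolynomial.induction_on with
    | C c =>
      rw [MvPolynomial.aeval_C, MvPolynomial.sumAlgEquiv_C_inl, MvPolynomial.eval₂_C]
      change _ = MvPolynomial.aeval (R := k) (fun i => (y0 i : L)) (MvPolynomial.C c)
      rw [MvPolynomial.aeval_C]
    | add p q hp hq => rw [map_add, map_add, MvPolynomial.eval₂_add, hp, hq]
    | mul_X p i hp =>
      rw [map_mul, map_mul, MvPolynomial.eval₂_mul, hp, MvPolynomial.aeval_X]
      congr 1
      rcases i with i | i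
      · rw [MvPolynomial.sumAlgEquiv_X_inl, MvPolynomial.eval₂_X, Sum.elim_inl]
      · rw [MvPolynomial.sumAlgEquiv_X_inr, MvPolynomial.eval₂_C, Sum.elim_inr]
        change _ = MvPolynomial.aeval (R := k) (fun i => (y0 i : L)) (MvPolynomial.X i)
        rw [MvPolynomial.aeval_X]
  obtain ⟨A, hA⟩ : ∃ A : q.support → M, ∀ m, A m =
    MvPolynomial.aeval (R := k) y0 (q.coeff m.1) * s ^ (β * (m.1 none : ℤ)) := ⟨_, fun m => rfl⟩
  obtain ⟨B, hB⟩ : ∃ B : q.support → F, B = fun m : q.support =>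
    t ^ (-(α * (m.1 none : ℤ))) * ∏ i, x0 i ^ m.1 (some i) := ⟨_, rfl⟩
  have hAdp : Adp v B := by
    rw [hB]
    exact adp_mon x0 hx' ht0 ht hw.pa q.support
  have e1 : MvPolynomial.aeval (R := k) (Sum.elim X (fun i => (y0 i : L))) p =
      ∑ m : q.support, (A m : L) * (B m : L) := by
    rw [e0, ← hq, MvPolynomial.eval₂_eq', ← Finset.sum_coe_sort q.support]
    refine Finset.sum_congr rfl fun m _ => ?_
    rw [hφ, hA, hB, hX]
    push_cast
    rw [Fintype.prod_option]
    change _ * (((s : L) ^ β * (t : L) ^ (-α)) ^ (m.1 none) * ∏ i, (x0 i : L) ^ m.1 (some i)) = _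
    rw [mul_pow, ← zpow_natCast ((s : L) ^ β), ← zpow_natCast ((t : L) ^ (-α)), ← zpow_mul,
      ← zpow_mul]
    have h1 : -α * (m.1 none : ℤ) = -(α * (m.1 none : ℤ)) := by ring
    have h2 : ((s ^ (β * (m.1 none : ℤ)) : M) : L) = (s : L) ^ (β * (m.1 none : ℤ)) :=
      map_zpow₀ (algebraMap M L) s _
    have h3 : ((t ^ (-(α * (m.1 none : ℤ))) : F) : L) = (t : L) ^ (-(α * (m.1 none : ℤ))) :=
      map_zpow₀ (algebraMap F L) t _
    rw [h1, h2, h3]
    ring
  have hordA : ∀ m : q.support, A m ≠ 0 ∧ u.ord (A m) = β * (m.1 none : ℤ) := by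
    intro m
    have h1 := hy' _ (MvPolynomial.mem_support_iff.1 m.2)
    rw [hA]
    refine ⟨mul_ne_zero h1.1 (zpow_ne_zero _ hs0), ?_⟩
    rw [u.ord_mul h1.1 (zpow_ne_zero _ hs0), h1.2, u.ord_zpow, hs, zero_add, mul_one]
  have hordB : ∀ m : q.support, v.ord (B m) = -(α * (m.1 none : ℤ)) := by
    intro m
    have h2 := hx' (MvPolynomial.monomial
      (Finsupp.equivFunOnFinite.symm (fun i => m.1 (some i))) 1) (by
      rw [Ne, MvPolynomial.monomial_eq_zero]; exact one_ne_zero)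
    rw [MvPolynomial.aeval_monomial, map_one, one_mul,
      Finsupp.prod_fintype _ _ (fun i => pow_zero _)] at h2
    have h3 : ∏ i, x0 i ^ m.1 (some i) = ∏ i, x0 i ^
        (Finsupp.equivFunOnFinite.symm (fun i => m.1 (some i)) : Fin e' →₀ ℕ) i :=
      Finset.prod_congr rfl fun i _ => by rw [Finsupp.coe_equivFunOnFinite_symm]
    rw [hB]
    change v.ord (t ^ (-(α * (m.1 none : ℤ))) * ∏ i, x0 i ^ m.1 (some i)) = _
    rw [h3, v.ord_mul (zpow_ne_zero _ ht0) h2.1, h2.2, v.ord_zpow, ht, add_zero, mul_one]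
  have hge : Ge W 0 (MvPolynomial.aeval (R := k) (Sum.elim X (fun i => (y0 i : L))) p) := by
    rw [e1]
    refine Ge.sum _ _ fun m _ => Or.inr ?_
    have h1 : (A m : L) ≠ 0 := fun h => (hordA m).1 (Subtype.ext h)
    have h2 : (B m : L) ≠ 0 := fun h => (hAdp.1 m) (Subtype.ext h)
    rw [W.ord_mul h1 h2, hWM, hWF, (hordA m).2, hordB]
    apply le_of_eq
    ring
  have hnge : ¬ Ge W 1 (MvPolynomial.aeval (R := k) (Sum.elim X (fun i => (y0 i : L))) p) := by
    intro hc
    obtain ⟨m, hm⟩ := MvPolynomial.support_nonempty.2 hq0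
    rw [e1, hW] at hc
    have h1 := WW_fam h hw u v hAdp A hc ⟨m, hm⟩
    have h2 := h1.resolve_left (hordA ⟨m, hm⟩).1
    rw [(hordA ⟨m, hm⟩).2, hordB] at h2
    have h3 : α * (β * (m none : ℤ)) + β * (-(α * (m none : ℤ))) = 0 := by ring
    change 1 ≤ α * (β * (m none : ℤ)) + β * (-(α * (m none : ℤ))) at h2
    omega
  refine ⟨fun h0 => hnge (Or.inl h0), ?_⟩
  rcases hge with h1 | h1
  · exact absurd (Or.inl h1) hnge
  · by_contra h2
    refine hnge (Or.inr ?_)
    have h3 : W.ord (MvPolynomial.aeval (R := k) (Sum.elim X (fun i => (y0 i : L))) p) ≠ 0 := h2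
    omega

end

end Pool.Agent.K1H17.TP
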