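import Pool.Agent.K1H17.TP.Hp

/-! The weighted product of two places: the place. -/

set_option autoImplicit false
set_option linter.overlappingInstances false
set_option linter.unusedSectionVars false
set_option linter.unusedVariables false

open FF IntermediateField Pool.Agent.W619.PQ Pool.Agent.W619.PL Pool.Agent.W619.TW
  Pool.Agent.W603.LV Pool.Agent.K1H17.IS Pool.Agent.W381.PG

namespace Pool.Agent.K1H17.TP

section

variable {k L : Type*} [Field k] [Field L] [Algebra k L] [CharZero k] [IsAlgClosed k]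
  {M F : IntermediateField k L} {u : Place k M} {v : Place k F} {α β n m : ℤ} {z w : L}

/-- `z` is a fraction of order `n`. -/
def Ox (u : Place k M) (v : Place k F) (α β : ℤ) (z : L) (n : ℤ) : Prop :=
  ∃ (a b : L) (p q : ℤ), Nx u v α β a p ∧ Nx u v α β b q ∧ z = a / b ∧ n = p - q

/-- The weights are positive. -/
structure Wt (α β : ℤ) : Prop where
  pa : 0 < α
  pb : 0 < β
  cop : IsCoprime α β

theorem Ox.unique (h : Dj M F) (hw : Wt α β) (hz : Ox u v α β z n) (hz' : Ox u v α β z m) :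
    n = m := by
  obtain ⟨a, b, p, q, ha, hb, rfl, rfl⟩ := hz
  obtain ⟨a', b', p', q', ha', hb', e, rfl⟩ := hz'
  have h1 : a * b' = a' * b := by
    have := hb.ne
    have := hb'.ne
    rw [div_eq_div_iff (by assumption) (by assumption)] at e
    exact e
  have h2 := (ha.mul h hw.pa hw.pb hb').unique (h1 ▸ ha'.mul h hw.pa hw.pb hb)
  omega

theorem Ox.exists (h : Dj M F) (hw : Wt α β) (u : Place k M) (v : Place k F) (h0 : z ≠ 0) :
    ∃ n, Ox u v α β z n := by
  obtain ⟨a, ha, b, hb, hb0, rfl⟩ := h.frac z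
  have ha0 : a ≠ 0 := by
    rintro rfl
    exact h0 (zero_div _)
  obtain ⟨p, hp⟩ := Nx.exists h hw.pa hw.pb u v ha ha0
  obtain ⟨q, hq⟩ := Nx.exists h hw.pa hw.pb u v hb hb0
  exact ⟨p - q, a, b, p, q, hp, hq, rfl, rfl⟩

theorem Nx.of_M (h : Dj M F) (hw : Wt α β) {a : M} (ha : a ≠ 0) :
    Nx u v α β (a : L) (α * u.ord a) := by
  have h1 := Nx.of_mul (u := u) (v := v) h hw.pa hw.pb ha (one_ne_zero (α := F))
  rw [v.ord_one, mul_zero, add_zero, OneMemClass.coe_one, mul_one] at h1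
  exact h1

theorem Nx.of_F (h : Dj M F) (hw : Wt α β) {b : F} (hb : b ≠ 0) :
    Nx u v α β (b : L) (β * v.ord b) := by
  have h1 := Nx.of_mul (u := u) (v := v) h hw.pa hw.pb (one_ne_zero (α := M)) hb
  rw [u.ord_one, mul_zero, zero_add, OneMemClass.coe_one, one_mul] at h1
  exact h1

theorem Nx.one (h : Dj M F) (hw : Wt α β) : Nx u v α β (1 : L) 0 := by
  have h1 := Nx.of_M (u := u) (v := v) h hw (one_ne_zero (α := M))
  rw [u.ord_one, mul_zero] at h1
  exact h1

theorem Nx.or (h : Dj M F) (hw : Wt α β) (hz : Nx u v α β z n) : Ox u v α β z n :=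
  ⟨z, 1, n, 0, hz, Nx.one h hw, (div_one z).symm, (sub_zero n).symm⟩

theorem Ox.mul (h : Dj M F) (hw : Wt α β) (hz : Ox u v α β z n) (hw' : Ox u v α β w m) :
    Ox u v α β (z * w) (n + m) := by
  obtain ⟨a, b, p, q, ha, hb, rfl, rfl⟩ := hz
  obtain ⟨a', b', p', q', ha', hb', rfl, rfl⟩ := hw'
  exact ⟨a * a', b * b', p + p', q + q', ha.mul h hw.pa hw.pb ha', hb.mul h hw.pa hw.pb hb',
    div_mul_div_comm _ _ _ _, by ring⟩

theorem Ox.add (h : Dj M F) (hw : Wt α β) (hz : Ox u v α β z n) (hw' : Ox u v α β w m)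
    (h0 : z + w ≠ 0) : ∃ r, Ox u v α β (z + w) r ∧ min n m ≤ r := by
  obtain ⟨a, b, p, q, ha, hb, rfl, rfl⟩ := hz
  obtain ⟨a', b', p', q', ha', hb', rfl, rfl⟩ := hw'
  have e : a / b + a' / b' = (a * b' + b * a') / (b * b') := div_add_div _ _ hb.ne hb'.ne
  have hne : a * b' + b * a' ≠ 0 := by
    intro hc
    rw [e, hc, zero_div] at h0
    exact h0 rfl
  have h1 := ha.mul h hw.pa hw.pb hb'
  have h2 := hb.mul h hw.pa hw.pb ha'
  obtain ⟨s, hs⟩ := Nx.exists h hw.pa hw.pb u v (add_mem h1.mem h2.mem) hne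
  have h3 : min (p + q') (q + p') ≤ s :=
    hs.le (add_mem (HH_mono (min_le_left _ _) h1.1) (HH_mono (min_le_right _ _) h2.1))
  refine ⟨s - (q + q'), ⟨_, _, s, q + q', hs, hb.mul h hw.pa hw.pb hb', e, rfl⟩, ?_⟩
  rcases min_choice (p + q') (q + p') with h4 | h4
  · refine (min_le_left _ _).trans ?_
    omega
  · refine (min_le_right _ _).trans ?_
    omega

open Classical in
/-- The order. -/
noncomputable def ox (h : Dj M F) (hw : Wt α β) (u : Place k M) (v : Place k F) (z : L) : ℤ :=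
  if h0 : z = 0 then 0 else (Ox.exists h hw u v h0).choose

theorem ox_eq (h : Dj M F) (hw : Wt α β) (hz : Ox u v α β z n) : ox h hw u v z = n := by
  have h0 : z ≠ 0 := by
    obtain ⟨a, b, p, q, ha, hb, rfl, rfl⟩ := hz
    exact div_ne_zero ha.ne hb.ne
  unfold ox
  rw [dif_neg h0]
  exact (Ox.exists h hw u v h0).choose_spec.unique h hw hz

/-- The weighted product of the places `u` and `v`. -/
noncomputable def WW (h : Dj M F) (hw : Wt α β) (u : Place k M) (v : Place k F) : Place k L where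
  ord := ox h hw u v
  ord_zero := by
    unfold ox
    rw [dif_pos rfl]
  ord_mul := fun {f g} hf hg => by
    obtain ⟨n, hn⟩ := Ox.exists h hw u v hf
    obtain ⟨m, hm⟩ := Ox.exists h hw u v hg
    rw [ox_eq h hw hn, ox_eq h hw hm, ox_eq h hw (hn.mul h hw hm)]
  ord_add := fun {f g} hf hg hfg => by
    obtain ⟨n, hn⟩ := Ox.exists h hw u v hf
    obtain ⟨m, hm⟩ := Ox.exists h hw u v hg
    obtain ⟨r, hr, hr2⟩ := hn.add h hw hm hfg
    rw [ox_eq h hw hn, ox_eq h hw hm, ox_eq h hw hr]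
    exact hr2
  ord_const := fun {c} hc => by
    have h1 : algebraMap k M c ≠ 0 := by simpa using hc
    have h2 := Nx.of_M (u := u) (v := v) h hw h1
    rw [u.ord_const hc, mul_zero] at h2
    exact ox_eq h hw (h2.or h hw)
  surj := by
    obtain ⟨s, hs0, hs⟩ := u.surj
    obtain ⟨t, ht0, ht⟩ := v.surj
    obtain ⟨x, y, hxy⟩ := hw.cop
    have h2 := Nx.of_mul (u := u) (v := v) h hw.pa hw.pb (zpow_ne_zero x hs0)
      (zpow_ne_zero y ht0)
    rw [u.ord_zpow, v.ord_zpow, hs, ht] at h2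
    have h3 : α * (x * 1) + β * (y * 1) = 1 := by linarith
    rw [h3] at h2
    exact ⟨_, h2.ne, ox_eq h hw (h2.or h hw)⟩

theorem WW_Nx (h : Dj M F) (hw : Wt α β) (hz : Nx u v α β z n) : (WW h hw u v).ord z = n :=
  ox_eq h hw (hz.or h hw)

theorem WW_M (h : Dj M F) (hw : Wt α β) (u : Place k M) (v : Place k F) (a : M) :
    (WW h hw u v).ord (a : L) = α * u.ord a := by
  by_cases h0 : a = 0
  · rw [h0, u.ord_zero, mul_zero]
    exact (WW h hw u v).ord_zero
  · exact WW_Nx h hw (Nx.of_M h hw h0)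

theorem WW_F (h : Dj M F) (hw : Wt α β) (u : Place k M) (v : Place k F) (b : F) :
    (WW h hw u v).ord (b : L) = β * v.ord b := by
  by_cases h0 : b = 0
  · rw [h0, v.ord_zero, mul_zero]
    exact (WW h hw u v).ord_zero
  · exact WW_Nx h hw (Nx.of_F h hw h0)

theorem WW_HH (h : Dj M F) (hw : Wt α β) (u : Place k M) (v : Place k F) (hz : z ∈ RR M F)
    (hn : Ge (WW h hw u v) n z) : z ∈ HH u v α β n := by
  by_cases h0 : z = 0
  · rw [h0]; exact zero_mem _
  · obtain ⟨m, hm⟩ := Nx.exists h hw.pa hw.pb u v hz h0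
    have h1 := hn.resolve_left h0
    rw [WW_Nx h hw hm] at h1
    exact HH_mono h1 hm.1

theorem HH_WW (h : Dj M F) (hw : Wt α β) (u : Place k M) (v : Place k F)
    (hz : z ∈ HH u v α β n) : Ge (WW h hw u v) n z := by
  by_cases h0 : z = 0
  · exact Or.inl h0
  · obtain ⟨m, hm⟩ := Nx.exists h hw.pa hw.pb u v (HH_RR hz) h0
    right
    rw [WW_Nx h hw hm]
    exact hm.le hz

theorem WW_fam (h : Dj M F) (hw : Wt α β) (u : Place k M) (v : Place k F) {ι : Type} [Fintype ι]
    {b : ι → F} (hb : Adp v b) (a : ι → M)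
    (hz : Ge (WW h hw u v) n (∑ i, (a i : L) * (b i : L))) (i : ι) :
    Tm u v α β n (a i) (b i) := by
  refine HH_fam h hw.pa.le hw.pb.le hb a (WW_HH h hw u v ?_ hz) i
  exact Subalgebra.sum_mem _ fun i _ => mul_mem (RR.left (a i).2) (RR.right (b i).2)

/-- logarithmic derivations -/
def LogD {K : Type*} [Field K] [Algebra k K] (P : Place k K) (D : Derivation k K K) : Prop :=
  ∀ f, P.Reg (D f / f)

theorem HH_der (D : Derivation k L L)
    (hM : ∀ μ : M, ∃ μ' : M, D (μ : L) = (μ : L) * (μ' : L) ∧ u.Reg μ')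
    (hF : ∀ b : F, ∃ b' : F, D (b : L) = (b : L) * (b' : L) ∧ v.Reg b') (hα : 0 ≤ α) (hβ : 0 ≤ β)
    (hz : z ∈ HH u v α β n) : D z ∈ HH u v α β n := by
  unfold HH at hz
  induction hz using Submodule.span_induction with
  | zero => rw [map_zero]; exact zero_mem _
  | add x y _ _ hx hy => rw [map_add]; exact add_mem hx hy
  | smul c x _ hx => rw [D.map_smul]; exact Submodule.smul_mem _ _ hx
  | mem x hx =>
    obtain ⟨a, b, hb, ht, rfl⟩ := hx
    obtain ⟨a', ha', har⟩ := hM a
    obtain ⟨b', hb', hbr⟩ := hF b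
    rw [D.leibniz, ha', hb', smul_eq_mul, smul_eq_mul]
    refine add_mem ?_ ?_
    · by_cases h0 : b' = 0
      · rw [h0]
        have : (a : L) * ((b : L) * ((0 : F) : L)) = 0 := by simp
        rw [this]
        exact zero_mem _
      have h1 : (a : L) * ((b : L) * (b' : L)) = (a : L) * ((b * b' : F) : L) := by push_cast; ring
      rw [h1]
      refine HH_mem (mul_ne_zero hb h0) (ht.imp id fun h2 => ?_)
      rw [v.ord_mul hb h0]
      have h3 := mul_nonneg hβ (hbr.resolve_left h0)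
      linarith
    · have h1 : (b : L) * ((a : L) * (a' : L)) = ((a * a' : M) : L) * (b : L) := by push_cast; ring
      rw [h1]
      refine HH_mem hb ?_
      by_cases ha0 : a = 0
      · left; rw [ha0, zero_mul]
      by_cases h0 : a' = 0
      · left; rw [h0, mul_zero]
      right
      have h2 := ht.resolve_left ha0
      rw [u.ord_mul ha0 h0]
      have h3 := mul_nonneg hα (har.resolve_left h0)
      linarith

theorem WW_log (h : Dj M F) (hw : Wt α β) (u : Place k M) (v : Place k F) (D : Derivation k L L)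
    (hM : ∀ μ : M, ∃ μ' : M, D (μ : L) = (μ : L) * (μ' : L) ∧ u.Reg μ')
    (hF : ∀ b : F, ∃ b' : F, D (b : L) = (b : L) * (b' : L) ∧ v.Reg b') :
    LogD (WW h hw u v) D := by
  have key : ∀ a n, Nx u v α β a n → (WW h hw u v).Reg (D a / a) := by
    intro a n ha
    have h1 := HH_WW h hw u v (HH_der D hM hF hw.pa.le hw.pb.le ha.1)
    rcases h1 with h1 | h1
    · rw [h1, zero_div]; exact Or.inl rfl
    · by_cases h0 : D a = 0
      · rw [h0, zero_div]; exact Or.inl rfl
      right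
      rw [div_eq_mul_inv, (WW h hw u v).ord_mul h0 (inv_ne_zero ha.ne), (WW h hw u v).ord_inv,
        WW_Nx h hw ha]
      omega
  intro f
  by_cases h0 : f = 0
  · rw [h0, div_zero]; exact Or.inl rfl
  obtain ⟨n, a, b, p, q, ha, hb, rfl, rfl⟩ := Ox.exists h hw u v h0
  have ha0 := ha.ne
  have hb0 := hb.ne
  have h1 : D (a / b) / (a / b) = D a / a - D b / b := by
    rw [D.leibniz_div, smul_eq_mul, smul_eq_mul, smul_eq_mul]
    field_simp
  rw [h1]
  have h2 : Ge (WW h hw u v) 0 (D a / a) := key a p ha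
  have h3 : Ge (WW h hw u v) 0 (D b / b) := key b q hb
  exact h2.sub h3

end

end Pool.Agent.K1H17.TP
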