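import Pool.Agent.K1H17.TP.Fn
import Pool.Agent.R885.G10

/-! Pairs `(B, D)` such that `K_B + D` is proportional to `D`. -/

set_option autoImplicit false
set_option linter.overlappingInstances false
set_option linter.unusedSectionVars false
set_option linter.unusedVariables false

open FF IntermediateField Pool.Agent.W619.PQ Pool.Agent.W619.PL Pool.Agent.W619.TW
  Pool.Agent.W603.LV Pool.Agent.W619.Y Pool.Agent.W672.PG Pool.Agent.W824.PG Pool.Agent.Y174
  Pool.Agent.K1H17.IS Pool.Agent.W460.PG.ONE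

namespace Pool.Agent.K1H17.TP

section

variable {k : Type} {K : Type} [Field k] [CharZero k] [Field K] [Algebra k K]

/-- A derivative of `y` has poles of order at most twice the order of the pole of `y`. -/
theorem der_ge {v : Place k K} {D : Derivation k K K} (hD : Pres v D) {y : K} (hy : y ≠ 0) :
    Ge v 0 (D y / (if v.ord y < 0 then y ^ 2 else 1)) := by
  by_cases h : v.ord y < 0
  · rw [if_pos h]
    have hz : v.Reg y⁻¹ := Or.inr (by rw [v.ord_inv]; omega)
    have h1 := hD _ hz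
    rw [D.leibniz_inv] at h1
    have h2 : D y / y ^ 2 = - (-y⁻¹ ^ 2 • D y) := by
      rw [smul_eq_mul]
      field_simp
    rw [h2]
    exact Ge.neg h1
  · rw [if_neg h, div_one]
    exact hD _ (Or.inr (by omega))

/-- The denominators of the form `dy 1 ∧ ... ∧ dy n`. -/
theorem theta_log {n : ℕ} (hn : Algebra.trdeg k K = n) (hess : Algebra.EssFiniteType k K)
    {y : Fin n → K} (hy : ∀ j, y j ≠ 0) {v : Place k K} (hv : IsDivisorial v n) :
    LogGe n v (fun D => (Matrix.of fun i j => D i (y j)).det)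
      (1 + v.ord (∏ j, if v.ord (y j) < 0 then y j ^ 2 else 1)) := by
  have hpf : IsPluriForm k K n 1
      (fun D => (1 : K) * (Matrix.of fun i j => D i (y j)).det ^ 1) := pluri_det 1 y
  have hpf' : IsPluriForm k K n 1 (fun D => (Matrix.of fun i j => D i (y j)).det) := by
    simpa using hpf
  have h1 := logGe_of_reg (c := v.ord (∏ j, if v.ord (y j) < 0 then y j ^ 2 else 1)) hn hess hv _
    hpf' fun D hD => by
      have h2 : (Matrix.of fun i j => D i (y j)).det =
          (∏ j, if v.ord (y j) < 0 then y j ^ 2 else 1) *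
            (Matrix.of fun i j => D i (y j) / (if v.ord (y j) < 0 then y j ^ 2 else 1)).det := by
        rw [← Matrix.det_mul_row]
        congr 1
        ext i j
        rw [Matrix.of_apply, Matrix.of_apply, Matrix.of_apply]
        have h3 : (if v.ord (y j) < 0 then y j ^ 2 else 1) ≠ 0 := by
          split_ifs
          · exact pow_ne_zero _ (hy j)
          · exact one_ne_zero
        field_simp
      rw [h2]
      have h3 : Ge v 0 (Matrix.of fun i j =>
          D i (y j) / (if v.ord (y j) < 0 then y j ^ 2 else 1)).det :=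
        ge_det v _ fun i j => der_ge (hD i) (hy j)
      have h4 : Ge v (v.ord (∏ j, if v.ord (y j) < 0 then y j ^ 2 else 1))
          (∏ j, if v.ord (y j) < 0 then y j ^ 2 else 1) := Or.inr le_rfl
      have h5 := Ge.toR (h4.mul h3)
      rw [add_zero] at h5
      exact h5
  rw [Nat.cast_one] at h1
  exact h1

end

section

variable {k : Type} {K : Type} [Field k] [CharZero k] [Field K] [Algebra k K]
  {n : ℕ} {D : DivData K} {T : Type} {p : T → Place k K} {α : ℚ} {PD : Set (Place k K)}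

/-- The function `ω θ ^ r / ω0 ^ t`. -/
theorem IsProp.cmp (h : IsProp k K n D p α PD) (hn : Algebra.trdeg k K = n)
    (hess : Algebra.EssFiniteType k K) {y : Fin n → K} (hy : IsTranscendenceBasis k y)
    {E : Fin n → Derivation k K K} (hE : ∀ i j, E i (y j) = if i = j then 1 else 0)
    {m0 : ℕ} {ω0 : (Fin n → Derivation k K K) → K} (hω0 : ω0 ≠ 0)
    (hpf : IsPluriForm k K n m0 ω0)
    (hle : ∀ q ∈ PD, ∀ γ : ℝ, LogGe n q ω0 γ → γ ≤ m0 * lam α (D.ev q.ord))
    {m r t : ℕ} (hmr : m + r = m0 * t) {ω : (Fin n → Derivation k K K) → K}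
    (hω : IsPluriForm k K n m ω) {q : Place k K} (hq : q ∈ PD) {γ : ℝ} (hγ : LogGe n q ω γ) :
    GeR q (γ + r * (1 + q.ord (∏ j, if q.ord (y j) < 0 then y j ^ 2 else 1)) -
      t * (m0 * lam α (D.ev q.ord))) ((ω0 E ^ t)⁻¹ * ω E) := by
  obtain ⟨Dl, hD1, hD2, hD3, hD4⟩ := exists_lf hn hess (h.divp q hq)
  have hy0 : ∀ j, y j ≠ 0 := fun j h0 => hy.1.transcendental j (by rw [h0]; exact isAlgebraic_zero)
  have hdet := hD3 y hy
  have hωE0 : ω0 E ≠ 0 := by
    intro h0
    apply hω0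
    funext D'
    rw [Pool.Agent.W636.PG.form_eq k K n m0 y hy E hE ω0 hpf D', h0, mul_zero]
    rfl
  have h1 := Pool.Agent.W636.PG.form_eq k K n m0 y hy E hE ω0 hpf Dl
  have h2 := Pool.Agent.W636.PG.form_eq k K n m y hy E hE ω hω Dl
  have h3 : ω0 Dl ≠ 0 := by rw [h1]; exact mul_ne_zero (pow_ne_zero _ hdet) hωE0
  have h4 : (q.ord (ω0 Dl) : ℝ) ≤ m0 * lam α (D.ev q.ord) :=
    hle q hq _ (hD4 m0 ω0 _ hpf (Or.inr le_rfl))
  have h5 := theta_log hn hess hy0 (h.divp q hq) Dl hD1 hD2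
  have h6 := (hγ Dl hD1 hD2).mul (h5.pow r)
  have h7 : (ω0 E ^ t)⁻¹ * ω E = (ω0 Dl ^ t)⁻¹ * (ω Dl *
      (Matrix.of fun i j => Dl i (y j)).det ^ r) := by
    rw [h1, h2, mul_pow, ← pow_mul, ← hmr, pow_add]
    field_simp
  rw [h7]
  have h8 : GeR q (-(t * (m0 * lam α (D.ev q.ord)))) ((ω0 Dl ^ t)⁻¹) := by
    right
    rw [q.ord_inv, q.ord_pow]
    push_cast
    have := mul_le_mul_of_nonneg_left h4 (Nat.cast_nonneg (α := ℝ) t)
    linarith
  refine (h8.mul h6).mono ?_
  linarith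

/-- The functions with bounded poles. -/
theorem IsProp.space [Finite T] (h : IsProp k K n D p α PD) {y : Fin n → K} (hy0 : ∀ j, y j ≠ 0)
    (S : Finset K) (r : ℕ) (c : T → ℤ) : ∃ T' : Finset K, ∀ g : K,
    (∀ q ∈ PD, (∀ t, q ≠ p t) → g = 0 ∨ ∃ s ∈ S, s ≠ 0 ∧
      q.ord s + r * q.ord (∏ j, if q.ord (y j) < 0 then y j ^ 2 else 1) ≤ q.ord g) →
    (∀ t, Ge (p t) (c t) g) → g ∈ Submodule.span k (T' : Set K) := by
  classical
  have := Fintype.ofFinite T
  choose π hπ0 hπ using fun t => (p t).surj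
  let S' : Finset K := Finset.univ.image (fun t => π t ^ c t) ∪
    ((S ×ˢ (Finset.univ : Finset (Finset (Fin n)))).image fun x => x.1 * (∏ j ∈ x.2, y j ^ 2) ^ r)
  obtain ⟨T', hT⟩ := h.fin S'
  refine ⟨T', fun g hg hc => hT g fun q hq => ?_⟩
  by_cases hqp : ∃ t, q = p t
  · obtain ⟨t, rfl⟩ := hqp
    rcases hc t with h0 | h1
    · exact Or.inl h0
    · refine Or.inr ⟨π t ^ c t, Finset.mem_union_left _ (Finset.mem_image_of_mem _
        (Finset.mem_univ t)), zpow_ne_zero _ (hπ0 t), ?_⟩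
      rw [(p t).ord_zpow, hπ]
      push_cast
      linarith
  · rcases hg q hq (fun t ht => hqp ⟨t, ht⟩) with h0 | ⟨s, hs, hs0, h1⟩
    · exact Or.inl h0
    · have h2 : ∏ j, (if q.ord (y j) < 0 then y j ^ 2 else 1) =
          ∏ j ∈ Finset.univ.filter (fun j => q.ord (y j) < 0), y j ^ 2 := by
        rw [Finset.prod_filter]
      have h3 : ∏ j ∈ Finset.univ.filter (fun j => q.ord (y j) < 0), y j ^ 2 ≠ 0 :=
        Finset.prod_ne_zero_iff.2 fun j _ => pow_ne_zero _ (hy0 j)
      refine Or.inr ⟨s * (∏ j ∈ Finset.univ.filter (fun j => q.ord (y j) < 0), y j ^ 2) ^ r,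
        ?_, mul_ne_zero hs0 (pow_ne_zero _ h3), ?_⟩
      · exact Finset.mem_union_right _ (Finset.mem_image.2
          ⟨(s, _), Finset.mem_product.2 ⟨hs, Finset.mem_univ _⟩, rfl⟩)
      · rw [q.ord_mul hs0 (pow_ne_zero _ h3), q.ord_pow, ← h2]
        push_cast
        linarith

/-- The functions which belong to the sections. -/
theorem IsProp.fun_mem [Finite T] (h : IsProp k K n D p α PD) (hn : Algebra.trdeg k K = n)
    (hess : Algebra.EssFiniteType k K) {y : Fin n → K} (hy : IsTranscendenceBasis k y)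
    {E : Fin n → Derivation k K K} (hE : ∀ i j, E i (y j) = if i = j then 1 else 0)
    {m0 : ℕ} {ω0 : (Fin n → Derivation k K K) → K} (hω0 : ω0 ≠ 0)
    (hpf : IsPluriForm k K n m0 ω0)
    (hle : ∀ q ∈ PD, ∀ γ : ℝ, LogGe n q ω0 γ → γ ≤ m0 * lam α (D.ev q.ord))
    (S : Finset K) (r : ℕ) (c : ℝ) : ∃ T' : Finset K, ∀ (m t : ℕ)
      (ω : (Fin n → Derivation k K K) → K), m + r = m0 * t →
      PairSec k K n (fun q => 1 - lam 0 (D.ev q.ord)) S m 1 ω →
      (∀ t, LogGe n (p t) ω (m * α - c)) →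
      (ω0 E ^ t)⁻¹ * ω E ∈ Submodule.span k (T' : Set K) := by
  classical
  have hy0 : ∀ j, y j ≠ 0 := fun j h0 => hy.1.transcendental j (by rw [h0]; exact isAlgebraic_zero)
  obtain ⟨κ, hκ⟩ : ∃ κ : T → ℝ, κ = fun t => 1 + ((p t).ord
    (∏ j, if (p t).ord (y j) < 0 then y j ^ 2 else 1) : ℝ) := ⟨_, rfl⟩
  obtain ⟨T', hT⟩ := h.space hy0 S r fun t => ⌈-c + r * (κ t - α)⌉
  refine ⟨T', fun m t ω hmr hω hp => hT _ (fun q hq hqp => ?_) fun t' => ?_⟩
  · have hev := h.other q hq hqp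
    rcases pair_log hn hess hω (h.divp q hq) with h1 | ⟨s, hs, hs0, -, h1⟩
    · by_cases hg : (ω0 E ^ t)⁻¹ * ω E = 0
      · exact Or.inl hg
      · exfalso
        have h2 := (h.cmp hn hess hy hE hω0 hpf hle hmr hω.1 hq
          (h1 (q.ord ((ω0 E ^ t)⁻¹ * ω E) + 1 - r * (1 +
            q.ord (∏ j, if q.ord (y j) < 0 then y j ^ 2 else 1)) +
              t * (m0 * lam α (D.ev q.ord))))).resolve_left hg
        linarith
    · rcases h.cmp hn hess hy hE hω0 hpf hle hmr hω.1 hq h1 with h2 | h2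
      · exact Or.inl h2
      · refine Or.inr ⟨s, hs, hs0, ?_⟩
        rw [hev, lam, if_pos rfl, lam, if_pos rfl] at h2
        have h3 : (m : ℝ) + r = m0 * t := by exact_mod_cast hmr
        have h4 : (q.ord s : ℝ) + r * q.ord (∏ j, if q.ord (y j) < 0 then y j ^ 2 else 1) ≤
            q.ord ((ω0 E ^ t)⁻¹ * ω E) := by
          refine le_trans (le_of_eq ?_) h2
          linear_combination (-1 : ℝ) * h3
        exact_mod_cast h4
  · rcases h.cmp hn hess hy hE hω0 hpf hle hmr hω.1 (h.mem t') (hp t') with h2 | h2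
    · exact Or.inl h2
    · right
      rw [h.one, lam, if_neg one_ne_zero, Int.cast_one, mul_one] at h2
      have h3 : (m : ℝ) + r = m0 * t := by exact_mod_cast hmr
      refine Int.ceil_le.2 (le_trans (le_of_eq ?_) h2)
      rw [hκ]
      linear_combination (-(α : ℝ)) * h3

/-- The order at `p t`. -/
theorem IsProp.ord_p (h : IsProp k K n D p α PD) (hn : Algebra.trdeg k K = n)
    (hess : Algebra.EssFiniteType k K) {y : Fin n → K} (hy : IsTranscendenceBasis k y)
    {E : Fin n → Derivation k K K} (hE : ∀ i j, E i (y j) = if i = j then 1 else 0)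
    {m0 : ℕ} {ω0 : (Fin n → Derivation k K K) → K} (hω0 : ω0 ≠ 0)
    (hpf : IsPluriForm k K n m0 ω0)
    (hle : ∀ q ∈ PD, ∀ γ : ℝ, LogGe n q ω0 γ → γ ≤ m0 * lam α (D.ev q.ord)) :
    ∀ t0 : T, ∃ κ : ℝ, ∀ (c : ℝ) (m r t : ℕ) (ω : (Fin n → Derivation k K K) → K),
      m + r = m0 * t → IsPluriForm k K n m ω → LogGe n (p t0) ω (m * α + c) →
      GeR (p t0) (c + r * (κ - α)) ((ω0 E ^ t)⁻¹ * ω E) := by
  intro t0
  refine ⟨1 + (p t0).ord (∏ j, if (p t0).ord (y j) < 0 then y j ^ 2 else 1),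
    fun c m r t ω hmr hω hp => ?_⟩
  refine (h.cmp hn hess hy hE hω0 hpf hle hmr hω (h.mem t0) hp).mono (le_of_eq ?_)
  rw [h.one, lam, if_neg one_ne_zero, Int.cast_one, mul_one]
  have h3 : (m : ℝ) + r = m0 * t := by exact_mod_cast hmr
  linear_combination (-(α : ℝ)) * h3

theorem exists_rt {m0 : ℕ} (h : 1 ≤ m0) (m : ℕ) : ∃ r t : ℕ, r < m0 + 1 ∧ m + r = m0 * t := by
  refine ⟨m0 - m % m0, m / m0 + 1, ?_, ?_⟩
  · have := Nat.mod_lt m (by omega : 0 < m0)
    omega
  · have h1 := Nat.div_add_mod m m0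
    have h2 := Nat.mod_lt m (by omega : 0 < m0)
    rw [mul_add, mul_one]
    omega

/-- **The numerical conditions hold.** -/
theorem IsProp.thr [Finite T] [Nonempty T] (h : IsProp k K n D p α PD)
    (hn : Algebra.trdeg k K = n)
    (hess : Algebra.EssFiniteType k K) : Thr k K n D p α 0 n := by
  classical
  obtain ⟨y, hy⟩ := Pool.Agent.W636.PG.exists_basis k K n hn
  obtain ⟨E, hE⟩ := Pool.Agent.W636.PG.exists_duals k K n y hy
  obtain ⟨m0, ω0, hm0, hω0, hpf, -, hle⟩ := h.form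
  have hωE0 : ω0 E ≠ 0 := by
    intro h0
    apply hω0
    funext D'
    rw [Pool.Agent.W636.PG.form_eq k K n m0 y hy E hE ω0 hpf D', h0, mul_zero]
    rfl
  refine ⟨fun t => h.divp (p t) (h.mem t), ?_, ?_, ?_⟩
  · refine Pool.Agent.R885.pair_top hess hn (G := insert D.τ D.S) (fun P hP => ?_) (fun P => ?_)
    · by_contra hcon
      push Not at hcon
      have h1 : D.ev P.ord = 0 := by
        rw [DivData.ev, hcon _ (Finset.mem_insert_self _ _)]
        obtain ⟨b, hb, hb'⟩ := Finset.exists_mem_eq_inf' D.ne P.ord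
        rw [hb', hcon _ (Finset.mem_insert_of_mem hb), mul_zero, sub_zero]
      simp only [h1, lam, if_true, sub_self] at hP
      exact lt_irrefl _ hP
    · simp only [lam]
      split_ifs
      · norm_num
      · simp
  · intro S c
    choose T' hT using fun r => h.fun_mem hn hess hy hE hω0 hpf hle S r c
    refine ⟨∑ r ∈ Finset.range (m0 + 1), (T' r).card, fun m N hm hI => ?_⟩
    obtain ⟨r, t, hr, hmr⟩ := exists_rt hm0 m
    obtain ⟨ω, hω, hsec⟩ := hI
    have h1 := indep_coef hy hE (inv_ne_zero (pow_ne_zero t hωE0)) hω fun l => (hsec l).1.1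
    have h2 : N ≤ (T' r).card := by
      have h3 := card_of_span (ι := T' r) (f := fun x => (x : K)) h1 fun l => by
        have h4 : Set.range (fun x : T' r => (x : K)) = (T' r : Set K) := by
          ext z
          simp
        rw [h4]
        exact hT r m t (ω l) hmr (hsec l).1 (hsec l).2
      rwa [Fintype.card_coe] at h3
    rw [pow_zero, mul_one]
    exact h2.trans (Finset.single_le_sum (f := fun r => (T' r).card) (fun _ _ => Nat.zero_le _)
      (Finset.mem_range.2 hr))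
  · intro S
    choose T' hT using fun r => h.fun_mem hn hess hy hE hω0 hpf hle S r 0
    obtain ⟨t0⟩ := ‹Nonempty T›
    obtain ⟨κ, hκ⟩ := h.ord_p hn hess hy hE hω0 hpf hle t0
    have hfin : ∀ r, FiniteDimensional k (Submodule.span k (T' r : Set K)) := fun r =>
      FiniteDimensional.span_of_finite k (T' r).finite_toSet
    choose N hN using fun r => bdd_ord (v := p t0) (Submodule.span k (T' r : Set K))
    refine ⟨∑ r ∈ Finset.range (m0 + 1), (|(N r : ℝ)| + |r * (κ - α)|), fun m ω hm hω hp => ?_⟩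
    obtain ⟨r, t, hr, hmr⟩ := exists_rt hm0 m
    have hnn : ∀ r ∈ Finset.range (m0 + 1), (0 : ℝ) ≤ |(N r : ℝ)| + |r * (κ - α)| :=
      fun r _ => by positivity
    have h1 := Finset.single_le_sum hnn (Finset.mem_range.2 hr)
    have h2 : ∀ t, LogGe n (p t) ω (m * α - 0) := fun t => (hp t).mono (by
      have := Finset.sum_nonneg hnn
      linarith)
    have h3 := hT r m t ω hmr hω h2
    have h4 := hκ _ m r t ω hmr hω.1 (hp t0)
    have h5 : (ω0 E ^ t)⁻¹ * ω E = 0 := by
      by_contra h0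
      have h6 := hN r _ h3 h0
      have h7 := h4.resolve_left h0
      have h8 : ((p t0).ord ((ω0 E ^ t)⁻¹ * ω E) : ℝ) < N r := by exact_mod_cast h6
      have h9 := neg_abs_le ((r : ℝ) * (κ - α))
      have h10 := le_abs_self (N r : ℝ)
      linarith
    have h6 : ω E = 0 := (mul_eq_zero.1 h5).resolve_left (inv_ne_zero (pow_ne_zero t hωE0))
    funext D'
    rw [Pool.Agent.W636.PG.form_eq k K n m y hy E hE ω hω.1 D', h6, mul_zero]
    rfl

/-- **The Kodaira dimensions.** -/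
theorem IsProp.kod0 (h : IsProp k K n D p α PD) (hn : Algebra.trdeg k K = n)
    (hess : Algebra.EssFiniteType k K) :
    PairKod k K n (fun q => 1 - lam α (D.ev q.ord)) 0 := by
  classical
  obtain ⟨y, hy⟩ := Pool.Agent.W636.PG.exists_basis k K n hn
  obtain ⟨E, hE⟩ := Pool.Agent.W636.PG.exists_duals k K n y hy
  obtain ⟨m0, ω0, hm0, hω0, hpf, hge, -⟩ := h.form
  have hωE0 : ω0 E ≠ 0 := by
    intro h0
    apply hω0
    funext D'
    rw [Pool.Agent.W636.PG.form_eq k K n m0 y hy E hE ω0 hpf D', h0, mul_zero]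
    rfl
  refine ⟨m0, hm0, fun _ => ω0, fun _ => ⟨hpf, fun v hv D' hD' => ?_⟩, E, fun _ => hωE0,
    algebraicIndependent_empty_type⟩
  rcases reg_of_log hn hess hv ω0 hpf (hge v hv) D' hD' with h1 | h1
  · exact Or.inl h1
  · refine Or.inr ⟨1, Finset.mem_singleton_self _, one_ne_zero, ?_⟩
    rw [Nat.cast_zero, zero_mul]
    linarith

theorem IsProp.kod (h : IsProp k K n D p α PD) (hn : Algebra.trdeg k K = n)
    (hess : Algebra.EssFiniteType k K) {x : ℚ} (hx : x < α) :
    PairKod k K n (fun q => 1 - lam x (D.ev q.ord)) n := by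
  classical
  obtain ⟨y, hy⟩ := Pool.Agent.W636.PG.exists_basis k K n hn
  obtain ⟨E, hE⟩ := Pool.Agent.W636.PG.exists_duals k K n y hy
  obtain ⟨m0, ω0, hm0, hω0, hpf, hge, -⟩ := h.form
  obtain ⟨e0, g, hg0, hg1, hg2⟩ := h.big
  have hωE0 : ω0 E ≠ 0 := by
    intro h0
    apply hω0
    funext D'
    rw [Pool.Agent.W636.PG.form_eq k K n m0 y hy E hE ω0 hpf D', h0, mul_zero]
    rfl
  obtain ⟨B, hB⟩ := exists_nat_gt ((e0 : ℝ) / (α - x))
  have hxα : (0 : ℝ) < α - x := by
    have : (x : ℝ) < α := by exact_mod_cast hx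
    linarith
  have hB' : (e0 : ℝ) ≤ (B + 1 : ℕ) * m0 * (α - x) := by
    rw [div_lt_iff₀ hxα] at hB
    have h1 : (1 : ℝ) ≤ m0 := by exact_mod_cast hm0
    have h2 : (B : ℝ) ≤ (B + 1 : ℕ) * m0 := by
      push_cast
      nlinarith [Nat.cast_nonneg (α := ℝ) B]
    have h3 := mul_le_mul_of_nonneg_right h2 hxα.le
    linarith
  have hpf' : ∀ l, IsPluriForm k K n (m0 * (B + 1)) (fun D' => g l * ω0 D' ^ (B + 1)) := by
    intro l A D'
    change g l * ω0 (fun i => ∑ j, A i j • D' j) ^ (B + 1) = A.det ^ (m0 * (B + 1)) *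
      (g l * ω0 D' ^ (B + 1))
    rw [hpf A D', mul_pow, ← pow_mul]
    ring
  refine ⟨m0 * (B + 1), Nat.mul_pos hm0 (Nat.succ_pos _), fun l D' => g l * ω0 D' ^ (B + 1),
    fun l => ⟨hpf' l, fun v hv D' hD' => ?_⟩, E,
    fun l => mul_ne_zero (hg0 l) (pow_ne_zero _ hωE0), ?_⟩
  · have h1 : LogGe n v (fun D' => g l * ω0 D' ^ (B + 1))
        (v.ord (g l) + (B + 1 : ℕ) * (m0 * lam α (D.ev v.ord))) := by
      intro D'' h2 h3
      have h4 : GeR v (v.ord (g l)) (g l) := Or.inr le_rfl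
      exact h4.mul ((hge v hv D'' h2 h3).pow (B + 1))
    have h2 : ((m0 * (B + 1) : ℕ) : ℝ) * lam x (D.ev v.ord) ≤
        v.ord (g l) + (B + 1 : ℕ) * (m0 * lam α (D.ev v.ord)) := by
      have h3 : (-(e0 : ℝ)) * D.ev v.ord ≤ v.ord (g l) := by exact_mod_cast hg1 l v hv
      rw [lam, lam]
      split_ifs with h0
      · rw [h0, Int.cast_zero, mul_zero] at h3
        push_cast
        linarith
      · have h4 : (0 : ℝ) ≤ D.ev v.ord := by exact_mod_cast h.nonneg v hv
        have h5 := mul_le_mul_of_nonneg_right hB' h4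
        push_cast at h5 ⊢
        nlinarith
    rcases reg_of_log hn hess hv _ (hpf' l) (h1.mono h2) D' hD' with h3 | h3
    · exact Or.inl h3
    · refine Or.inr ⟨1, Finset.mem_singleton_self _, one_ne_zero, ?_⟩
      rw [Nat.cast_zero, zero_mul]
      linarith
  · have h1 : (fun l : Fin n => (g l.succ * ω0 E ^ (B + 1)) / (g 0 * ω0 E ^ (B + 1))) =
        fun l : Fin n => g l.succ / g 0 := by
      funext l
      rw [mul_div_mul_right _ _ (pow_ne_zero _ hωE0)]
    change AlgebraicIndependent k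
      (fun l : Fin n => (g l.succ * ω0 E ^ (B + 1)) / (g 0 * ω0 E ^ (B + 1)))
    rw [h1]
    exact hg2

end

end Pool.Agent.K1H17.TP
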