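import Pool.Agent.K1H17.TP.Pn
import Pool.Agent.K1H17.TP.Pp

/-! Hypersurfaces in projective spaces: the conditions hold. -/

set_option autoImplicit false
set_option linter.overlappingInstances false
set_option linter.unusedSectionVars false
set_option linter.unusedVariables false

open FF IntermediateField Pool.Agent.W619.PQ Pool.Agent.W619.PL Pool.Agent.W619.TW
  Pool.Agent.W603.LV Pool.Agent.W619.Y Pool.Agent.W672.PG Pool.Agent.W824.PG Pool.Agent.Y174
  Pool.Agent.K1H17.IS Pool.Agent.W460.PG.ONE Pool.Agent.TH122.AB MvPolynomial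

namespace Pool.Agent.K1H17.TP

section

variable {k : Type} [Field k] [CharZero k] {K : Type} [Field K] [Algebra k K] {n : ℕ}

theorem gens_adjoin {X : Fin n → K} (h : Gens (k := k) X) :
    IntermediateField.adjoin k (Set.range X) = ⊤ := by
  rw [eq_top_iff]
  intro z _
  obtain ⟨P, Q, hQ, rfl⟩ := h.gen z
  have h1 : ∀ P : MvPolynomial (Fin n) k, aeval X P ∈ IntermediateField.adjoin k (Set.range X) := by
    intro P
    have h2 : aeval X P ∈ Algebra.adjoin k (Set.range X) := by
      rw [Algebra.adjoin_range_eq_range_aeval]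
      exact ⟨P, rfl⟩
    exact IntermediateField.algebra_adjoin_le_adjoin k _ h2
  exact div_mem (h1 P) (h1 Q)

theorem gens_basis {X : Fin n → K} (h : Gens (k := k) X) : IsTranscendenceBasis k X := by
  refine Pool.Agent.R885.basis_of_ind h.ind ?_
  constructor
  intro z
  have hz : z ∈ IntermediateField.adjoin k (Set.range X) := by
    rw [gens_adjoin h]; trivial
  exact isAlgebraic_algebraMap (R := IntermediateField.adjoin k (Set.range X)) (A := K) ⟨z, hz⟩

theorem gens_trdeg {X : Fin n → K} (h : Gens (k := k) X) : Algebra.trdeg k K = n := by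
  rw [← (gens_basis h).cardinalMk_eq_trdeg]
  simp

theorem gens_ess {X : Fin n → K} (h : Gens (k := k) X) : Algebra.EssFiniteType k K := by
  classical
  have h1 : (⊤ : IntermediateField k K).FG := by
    refine ⟨Finset.univ.image X, ?_⟩
    rw [Finset.coe_image, Finset.coe_univ, Set.image_univ]
    exact gens_adjoin h
  exact (Algebra.EssFiniteType.iff_of_algEquiv IntermediateField.topEquiv).1
    (essFiniteType_iff.2 h1)

/-- The coordinate vector fields at the places of polynomials. -/
theorem adic_frame {X : Fin n → K} (h : Gens (k := k) X) {g : MvPolynomial (Fin n) k}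
    (hg : Irreducible g) {q : Place k K} (hq : IsAdic X g q) {E : Fin n → Derivation k K K}
    (hE : ∀ i j, E i (X j) = if i = j then 1 else 0) (i : Fin n) : Pres q (E i) := by
  intro f hf
  have hov : FF.Over q q 1 := ⟨one_pos, fun f => by
    rw [Nat.cast_one, one_mul]; rfl⟩
  exact pres_adic (K0 := K) (K := K) h hg hq.2 hov (fun j => hE i j) hf

end

section

variable {k : Type} [Field k] [CharZero k] {K : Type} [Field K] [Algebra k K] {n : ℕ}

/-- The degree place. -/
theorem deg_frame {X : Fin (n + 1) → K} (h : Gens (k := k) X) {q : Place k K}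
    (hq : ∀ P : MvPolynomial (Fin (n + 1)) k, P ≠ 0 → q.ord (aeval X P) = -(P.totalDegree : ℤ)) :
    IsDivisorial q (n + 1) ∧ ∃ D : Fin (n + 1) → Derivation k K K, (∀ i, Pres q (D i)) ∧
      (Matrix.of fun i j => D i (X j)).det = - X 0 ^ (n + 2) := by
  classical
  obtain ⟨E, hE⟩ := Pool.Agent.W636.PG.exists_duals k K (n + 1) X (gens_basis h)
  have hX0 : X 0 ≠ 0 := by
    have := h.ne (X_ne_zero (R := k) (0 : Fin (n + 1)))
    rwa [aeval_X] at this
  obtain ⟨Z', hZ'0, hZ's⟩ : ∃ Z' : Fin (n + 1) → K, Z' 0 = (X 0)⁻¹ ∧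
      ∀ j : Fin n, Z' j.succ = X j.succ / X 0 :=
    ⟨Fin.cons (X 0)⁻¹ fun j => X j.succ / X 0, rfl, fun j => rfl⟩
  have hG := h.flip hZ'0 hZ's
  have hirr : Irreducible (MvPolynomial.X 0 : MvPolynomial (Fin (n + 1)) k) :=
    (MvPolynomial.X_prime (R := k) (i := (0 : Fin (n + 1)))).irreducible
  obtain ⟨v, hv1, hv2⟩ := exists_adic hG hirr
  have hvq : v = q := by
    refine ext_poly h fun P hP => ?_
    rw [hq P hP]
    refine ord_deg h hZ'0 hZ's ?_ hv2 hP
    rwa [aeval_X] at hv1
  subst hvq
  refine ⟨div_adic (K := K) hG hirr hv2 (w := v) (e := 1) ⟨one_pos, fun f => by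
    rw [Nat.cast_one, one_mul]; rfl⟩, fun i => ∑ b, mA X i b • E b, fun i => ?_, ?_⟩
  · exact adic_frame hG hirr ⟨hv1, hv2⟩ (E := fun i => ∑ b, mA X i b • E b)
      (fun i j => dual_mA hX0 hZ'0 hZ's hE i j) i
  · rw [flip_matrix hX0 hZ'0 hZ's]
    have h1 : (Matrix.of fun i j => (∑ b, mA X i b • E b) (Z' j)) = 1 := by
      ext i j
      rw [Matrix.of_apply, Matrix.one_apply]
      exact dual_mA hX0 hZ'0 hZ's hE i j
    rw [h1, one_mul, det_mA]

/-- The components of the hypersurface `f = 0`. -/
def Comp (k : Type) {K : Type} [Field k] [CharZero k] [Field K] [Algebra k K] {n : ℕ}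
    (X : Fin n → K) (f : MvPolynomial (Fin n) k) : Type :=
  {q : Place k K // ∃ g : MvPolynomial (Fin n) k, Irreducible g ∧ g ∣ f ∧ IsAdic X g q}

theorem comp_finite {X : Fin n → K} (h : Gens (k := k) X) {f : MvPolynomial (Fin n) k}
    (hf : f ≠ 0) : Finite (Comp k X f) := by
  classical
  let F := (UniqueFactorizationMonoid.factors f).toFinset
  have hF : ∀ g ∈ F, Irreducible g := fun g hg =>
    UniqueFactorizationMonoid.irreducible_of_factor g (Multiset.mem_toFinset.1 hg)
  choose v hv1 hv2 using fun g : F => exists_adic h (hF g g.2)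
  have h1 : Set.Finite {q : Place k K | ∃ g : MvPolynomial (Fin n) k, Irreducible g ∧ g ∣ f ∧
      IsAdic X g q} := by
    refine (Set.finite_range v).subset ?_
    rintro q ⟨g, hg, hgf, hq⟩
    obtain ⟨g', hg', hgg'⟩ := UniqueFactorizationMonoid.exists_mem_factors_of_dvd hf hg hgf
    have hg'F : g' ∈ F := Multiset.mem_toFinset.2 hg'
    refine ⟨⟨g', hg'F⟩, ?_⟩
    exact IsAdic.unique h (hF g' hg'F) ⟨hv1 ⟨g', hg'F⟩, hv2 ⟨g', hg'F⟩⟩
      (hq.of_dvd h hg (hF g' hg'F) hgg'.dvd)
  exact h1.to_subtype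

theorem comp_nonempty {X : Fin n → K} (h : Gens (k := k) X) {f : MvPolynomial (Fin n) k}
    (hf : f ≠ 0) (hd : 1 ≤ f.totalDegree) : Nonempty (Comp k X f) := by
  have hu : ¬ IsUnit f := by
    intro hu
    obtain ⟨c, -, hc⟩ := MvPolynomial.isUnit_iff_eq_C_of_isReduced.1 hu
    rw [hc, totalDegree_C] at hd
    omega
  obtain ⟨g, hg, hgf⟩ := WfDvdMonoid.exists_irreducible_factor hu hf
  obtain ⟨q, hq1, hq2⟩ := exists_adic h hg
  exact ⟨⟨q, g, hg, hgf, hq1, hq2⟩⟩

/-- **Log canonical hypersurfaces in projective spaces.** -/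
theorem pn_prop {X : Fin (n + 1) → K} (h : Gens (k := k) X) {f : MvPolynomial (Fin (n + 1)) k}
    (hf : Squarefree f) (hd : 1 ≤ f.totalDegree) (hf0 : aeval X f ≠ 0)
    (hlc : LC k (n + 1) X (hyp X f hf0)) :
    IsProp k K (n + 1) (hyp X f hf0) (fun t : Comp k X f => t.1)
      (1 - ((n + 1 : ℕ) + 1) / f.totalDegree) (PDn X) := by
  classical
  have hfne : f ≠ 0 := by
    rintro rfl
    rw [map_zero] at hf0
    exact hf0 rfl
  have hd' : (1 : ℝ) ≤ f.totalDegree := by exact_mod_cast hd
  have htr := gens_trdeg h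
  have hess := gens_ess h
  obtain ⟨E, hE⟩ := Pool.Agent.W636.PG.exists_duals k K (n + 1) X (gens_basis h)
  have hdetE : (Matrix.of fun i j => E i (X j)).det = 1 := by
    have h1 : (Matrix.of fun i j => E i (X j)) = 1 := by
      ext i j
      rw [Matrix.of_apply, Matrix.one_apply]
      exact hE i j
    rw [h1, Matrix.det_one]
  -- the values of D
  have hevdeg : ∀ q : Place k K, (∀ P : MvPolynomial (Fin (n + 1)) k, P ≠ 0 →
      q.ord (aeval X P) = -(P.totalDegree : ℤ)) → (hyp X f hf0).ev q.ord = 0 := by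
    intro q hq
    have h1 : ∀ i, q.ord (X i) = -1 := by
      intro i
      have h2 := hq _ (X_ne_zero (R := k) i)
      rw [aeval_X, totalDegree_X] at h2
      exact h2
    have h2 : mu X q = -1 := by
      apply le_antisymm
      · rw [← h1 0]; exact mu_le X q 0
      · refine Finset.le_inf' _ _ fun z hz => ?_
        rcases lin_cases hz with h' | ⟨i, h'⟩
        · rw [h', q.ord_one]; norm_num
        · rw [h', h1 i]
    rw [ev_hyp, h2, hq f hfne]
    ring
  have hother : ∀ q ∈ PDn (k := k) X, (∀ t : Comp k X f, q ≠ t.1) →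
      (hyp X f hf0).ev q.ord = 0 := by
    rintro q (⟨g, hg, hq⟩ | hq) hqp
    · rw [ev_hyp, hq.mu_eq h, mul_zero, sub_zero, (hq.2 f hfne).2]
      intro hgf
      exact hqp ⟨q, g, hg, hgf, hq⟩ rfl
    · exact hevdeg q hq
  have hone : ∀ t : Comp k X f, (hyp X f hf0).ev t.1.ord = 1 := by
    rintro ⟨q, g, hg, ⟨g', hgg'⟩, hq⟩
    have hg'0 : g' ≠ 0 := by
      rintro rfl
      apply hfne
      rw [hgg', mul_zero]
    have h1 : ¬ g ∣ g' := by
      intro h2
      obtain ⟨g'', rfl⟩ := h2
      exact hg.not_isUnit (hf g ⟨g'', by rw [hgg', mul_assoc]⟩)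
    change (hyp X f hf0).ev q.ord = 1
    rw [ev_hyp, hq.mu_eq h, mul_zero, sub_zero]
    have h2 : q.ord (aeval X f) = q.ord (aeval X g * aeval X g') := by rw [hgg', map_mul]
    rw [h2, q.ord_mul (h.ne hg.ne_zero) (h.ne hg'0), hq.1, (hq.2 g' hg'0).2.2 h1, add_zero]
  have hα : ((1 - ((n + 1 : ℕ) + 1) / f.totalDegree : ℚ) : ℝ) * f.totalDegree =
      f.totalDegree - ((n + 1 : ℕ) + 1) := by
    push_cast
    field_simp
  have hpf : IsPluriForm k K (n + 1) f.totalDegree (fun D' => (aeval X f ^ (n + 2))⁻¹ *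
      (Matrix.of fun i j => D' i (X j)).det ^ f.totalDegree) := pluri_det _ X
  refine ⟨?_, fin_pn h (Nat.succ_pos n), fun t => Or.inl (by
    obtain ⟨g, hg, -, hq⟩ := t.2
    exact ⟨g, hg, hq⟩), hone, hother, fun q _ => ev_nonneg X f hf0 q, ?_, ?_⟩
  · rintro q (⟨g, hg, hq⟩ | hq)
    · exact div_adic (K := K) h hg hq.2 (w := q) (e := 1) ⟨one_pos, fun f => by
        rw [Nat.cast_one, one_mul]; rfl⟩
    · exact (deg_frame h hq).1
  · refine ⟨f.totalDegree, fun D' => (aeval X f ^ (n + 2))⁻¹ *
      (Matrix.of fun i j => D' i (X j)).det ^ f.totalDegree, hd, ?_, hpf, ?_, ?_⟩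
    · intro h0
      have h1 := congrFun h0 E
      simp only [hdetE, one_pow, mul_one, Pi.zero_apply] at h1
      exact inv_ne_zero (pow_ne_zero _ hf0) h1
    · intro q hq
      have key : ∀ γ : ℝ, LogGe (n + 1) q (fun D' => (Matrix.of fun i j => D' i (X j)).det) γ →
          f.totalDegree * lam (1 - ((n + 1 : ℕ) + 1) / f.totalDegree) ((hyp X f hf0).ev q.ord) ≤
            f.totalDegree * γ - (n + 2 : ℕ) * q.ord (aeval X f) →
          LogGe (n + 1) q (fun D' => (aeval X f ^ (n + 2))⁻¹ *
            (Matrix.of fun i j => D' i (X j)).det ^ f.totalDegree)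
            (f.totalDegree * lam (1 - ((n + 1 : ℕ) + 1) / f.totalDegree)
              ((hyp X f hf0).ev q.ord)) := by
        intro γ hγ hle D' h1 h2
        have h3 : GeR q (-((n + 2 : ℕ) * q.ord (aeval X f))) (aeval X f ^ (n + 2))⁻¹ := by
          right
          rw [q.ord_inv, q.ord_pow]
          push_cast
          linarith
        refine (h3.mul ((hγ D' h1 h2).pow f.totalDegree)).mono ?_
        linarith
      have hord : (q.ord (aeval X f) : ℝ) = (hyp X f hf0).ev q.ord + f.totalDegree * mu X q := by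
        rw [ev_hyp]
        push_cast
        ring
      by_cases h0 : (hyp X f hf0).ev q.ord = 0
      · refine key _ (smooth_pn htr hess X hq) (le_of_eq ?_)
        rw [hord, lam, if_pos h0, h0]
        push_cast
        ring
      · refine key _ (hlc q hq) (le_of_eq ?_)
        rw [hord, lam, if_neg h0, ← mul_assoc, mul_comm (f.totalDegree : ℝ), hα]
        push_cast
        ring
    · rintro q hq γ hγ
      rcases hq with ⟨g, hg, hq⟩ | hq
      · have h1 := reg_of_log htr hess (div_adic (K := K) h hg hq.2 (w := q) (e := 1)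
          ⟨one_pos, fun f => by rw [Nat.cast_one, one_mul]; rfl⟩) _ hpf hγ E
          fun j => adic_frame h hg hq hE j
        simp only [hdetE, one_pow, mul_one] at h1
        have h2 := h1.resolve_left (inv_ne_zero (pow_ne_zero _ hf0))
        rw [q.ord_inv, q.ord_pow] at h2
        have hord : (q.ord (aeval X f) : ℝ) = (hyp X f hf0).ev q.ord := by
          rw [ev_hyp, hq.mu_eq h]
          push_cast
          ring
        by_cases hqp : ∃ t : Comp k X f, q = t.1
        · obtain ⟨t, ht⟩ := hqp
          have hone' : (hyp X f hf0).ev q.ord = 1 := by rw [ht]; exact hone t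
          rw [hone', Int.cast_one] at hord
          rw [hone', lam, if_neg one_ne_zero, Int.cast_one, mul_one, mul_comm, hα]
          push_cast at h2 ⊢
          rw [hord] at h2
          linarith
        · have hqp' : ∀ t : Comp k X f, q ≠ t.1 := fun t ht => hqp ⟨t, ht⟩
          rw [hother q (Or.inl ⟨g, hg, hq⟩) hqp', lam, if_pos rfl, mul_one]
          rw [hother q (Or.inl ⟨g, hg, hq⟩) hqp', Int.cast_zero] at hord
          push_cast at h2
          rw [hord, mul_zero, neg_zero] at h2
          linarith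
      · obtain ⟨hqdiv, D', hD1, hD2⟩ := deg_frame h hq
        have h1 := reg_of_log htr hess hqdiv _ hpf hγ D' hD1
        have hX0 : X 0 ≠ 0 := by
          have := h.ne (X_ne_zero (R := k) (0 : Fin (n + 1)))
          rwa [aeval_X] at this
        rw [hevdeg q hq, lam, if_pos rfl, mul_one]
        simp only [hD2] at h1
        have h3 : -X 0 ^ (n + 2) ≠ 0 := neg_ne_zero.2 (pow_ne_zero _ hX0)
        have h2 := h1.resolve_left (mul_ne_zero (inv_ne_zero (pow_ne_zero _ hf0))
          (pow_ne_zero _ h3))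
        have h4 : q.ord (X 0) = -1 := by
          have h5 := hq _ (X_ne_zero (R := k) (0 : Fin (n + 1)))
          rw [aeval_X, totalDegree_X] at h5
          exact h5
        rw [q.ord_mul (inv_ne_zero (pow_ne_zero _ hf0)) (pow_ne_zero _ h3), q.ord_inv, q.ord_pow,
          q.ord_pow, q.ord_neg, q.ord_pow, h4, hq f hfne] at h2
        push_cast at h2
        linarith
  · refine ⟨1, Fin.cons (aeval X f)⁻¹ fun l => X l / aeval X f, ?_, ?_, ?_⟩
    · intro l
      refine Fin.cases ?_ (fun j => ?_) l
      · rw [Fin.cons_zero]; exact inv_ne_zero hf0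
      · rw [Fin.cons_succ]
        refine div_ne_zero ?_ hf0
        have := h.ne (X_ne_zero (R := k) j)
        rwa [aeval_X] at this
    · intro l q _
      have h1 := mu_nonpos X q
      have h2 : (f.totalDegree : ℤ) * mu X q ≤ mu X q := by
        have h3 : (1 : ℤ) ≤ f.totalDegree := by exact_mod_cast hd
        nlinarith
      rw [ev_hyp]
      refine Fin.cases ?_ (fun j => ?_) l
      · rw [Fin.cons_zero, q.ord_inv]
        push_cast
        linarith
      · rw [Fin.cons_succ, q.ord_div (by
          have := h.ne (X_ne_zero (R := k) j)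
          rwa [aeval_X] at this) hf0]
        have := mu_le X q j
        push_cast
        linarith
    · have h1 : (fun l : Fin (n + 1) => (Fin.cons (aeval X f)⁻¹ (fun l => X l / aeval X f) :
          Fin (n + 2) → K) l.succ / (Fin.cons (aeval X f)⁻¹ (fun l => X l / aeval X f) :
          Fin (n + 2) → K) 0) = X := by
        funext l
        rw [Fin.cons_succ, Fin.cons_zero]
        field_simp
      rw [h1]
      exact h.ind

end

end Pool.Agent.K1H17.TP
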