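import Pool.Agent.K1H17.TP.Ps
import Pool.Agent.TH122.AB.Inf

/-! Hypersurfaces in projective spaces. -/

set_option autoImplicit false
set_option linter.overlappingInstances false
set_option linter.unusedSectionVars false
set_option linter.unusedVariables false

open FF IntermediateField Pool.Agent.W619.PQ Pool.Agent.W619.PL Pool.Agent.W619.TW
  Pool.Agent.W603.LV Pool.Agent.W619.Y Pool.Agent.W672.PG Pool.Agent.W824.PG Pool.Agent.Y174
  Pool.Agent.K1H17.IS Pool.Agent.W460.PG.ONE Pool.Agent.TH122.AB MvPolynomial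

namespace Pool.Agent.K1H17.TP

section

variable {k : Type} {K : Type} [Field k] [Field K] [Algebra k K] {n : ℕ}

theorem mem_lin (X : Fin n → K) (i : Fin n) : X i ∈ lin X := by
  classical exact Finset.mem_insert_of_mem (Finset.mem_image_of_mem _ (Finset.mem_univ i))

theorem lin_cases {X : Fin n → K} {z : K} (hz : z ∈ lin X) : z = 1 ∨ ∃ i, z = X i := by
  classical
  rcases Finset.mem_insert.1 hz with h | h
  · exact Or.inl h
  · obtain ⟨i, -, hi⟩ := Finset.mem_image.1 h
    exact Or.inr ⟨i, hi.symm⟩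

theorem mu_nonpos (X : Fin n → K) (q : Place k K) : mu X q ≤ 0 := by
  have := Finset.inf'_le q.ord (one_mem_lin X)
  rwa [q.ord_one] at this

theorem mu_le (X : Fin n → K) (q : Place k K) (i : Fin n) : mu X q ≤ q.ord (X i) :=
  Finset.inf'_le q.ord (mem_lin X i)

theorem mu_cases (X : Fin n → K) (q : Place k K) : mu X q = 0 ∨ ∃ i, mu X q = q.ord (X i) := by
  obtain ⟨b, hb, hb'⟩ := Finset.exists_mem_eq_inf' (lin_ne X) q.ord
  rcases lin_cases hb with h | ⟨i, h⟩
  · left
    rw [mu, hb', h, q.ord_one]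
  · right
    exact ⟨i, by rw [mu, hb', h]⟩

theorem mu_zero {X : Fin n → K} {q : Place k K} (h : ∀ i, 0 ≤ q.ord (X i)) : mu X q = 0 := by
  apply le_antisymm (mu_nonpos X q)
  refine Finset.le_inf' _ _ fun z hz => ?_
  rcases lin_cases hz with h' | ⟨i, h'⟩
  · rw [h', q.ord_one]
  · rw [h']; exact h i

/-- The places are determined by the orders of the polynomials. -/
theorem ext_poly {X : Fin n → K} (h : Gens (k := k) X) {v w : Place k K}
    (hvw : ∀ P : MvPolynomial (Fin n) k, P ≠ 0 → v.ord (aeval X P) = w.ord (aeval X P)) :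
    v = w := by
  apply Place.ext
  funext z
  by_cases hz : z = 0
  · rw [hz, v.ord_zero, w.ord_zero]
  · obtain ⟨P, Q, hQ, rfl⟩ := h.gen z
    have hP : P ≠ 0 := by
      rintro rfl
      apply hz
      rw [map_zero, zero_div]
    rw [v.ord_div (h.ne hP) (h.ne hQ), w.ord_div (h.ne hP) (h.ne hQ), hvw P hP, hvw Q hQ]

/-- `q` is the place of the irreducible polynomial `g`. -/
def IsAdic (X : Fin n → K) (g : MvPolynomial (Fin n) k) (q : Place k K) : Prop :=
  q.ord (aeval X g) = 1 ∧ ∀ P : MvPolynomial (Fin n) k, P ≠ 0 →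
    0 ≤ q.ord (aeval X P) ∧ (q.ord (aeval X P) = 0 ↔ ¬ g ∣ P)

theorem IsAdic.unique {X : Fin n → K} (h : Gens (k := k) X) {g : MvPolynomial (Fin n) k}
    (hg : Irreducible g) {v w : Place k K} (hv : IsAdic X g v) (hw : IsAdic X g w) : v = w := by
  classical
  refine ext_poly h fun P hP => ?_
  obtain ⟨c, hc, hc'⟩ := (FiniteMultiplicity.of_prime_left hg.prime hP).exists_eq_pow_mul_and_not_dvd
  have hc0 : c ≠ 0 := by
    rintro rfl
    exact hc' (dvd_zero _)
  have key : ∀ u : Place k K, IsAdic X g u → u.ord (aeval X P) = multiplicity g P := by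
    intro u hu
    conv_lhs => rw [hc]
    rw [map_mul, map_pow, u.ord_mul (pow_ne_zero _ (h.ne hg.ne_zero)) (h.ne hc0), u.ord_pow, hu.1,
      (hu.2 c hc0).2.2 hc']
    ring
  rw [key v hv, key w hw]

theorem IsAdic.of_dvd {X : Fin n → K} (h : Gens (k := k) X) {g f : MvPolynomial (Fin n) k}
    (hg : Irreducible g) (hf : Irreducible f) (hgf : g ∣ f) {v : Place k K} (hv : IsAdic X g v) :
    IsAdic X f v := by
  have hfg : f ∣ g := (hg.associated_of_dvd hf hgf).symm.dvd
  refine ⟨?_, fun P hP => ⟨(hv.2 P hP).1, ?_⟩⟩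
  · obtain ⟨u, hu⟩ := hg.associated_of_dvd hf hgf
    have hu0 : (u : MvPolynomial (Fin n) k) ≠ 0 := u.isUnit.ne_zero
    rw [← hu, map_mul, v.ord_mul (h.ne hg.ne_zero) (h.ne hu0), hv.1]
    have h1 : ¬ g ∣ (u : MvPolynomial (Fin n) k) := fun h2 =>
      hg.not_isUnit (isUnit_of_dvd_unit h2 u.isUnit)
    rw [(hv.2 _ hu0).2.2 h1, add_zero]
  · rw [(hv.2 P hP).2]
    exact not_congr ⟨fun h1 => hfg.trans h1, fun h1 => hgf.trans h1⟩

theorem IsAdic.mu_eq {X : Fin n → K} (h : Gens (k := k) X) {g : MvPolynomial (Fin n) k}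
    {q : Place k K} (hq : IsAdic X g q) : mu X q = 0 := by
  refine mu_zero fun i => ?_
  have h1 := (hq.2 _ (X_ne_zero (R := k) i)).1
  rwa [aeval_X] at h1

/-- Orders of polynomials. -/
theorem ge_poly (X : Fin n → K) (q : Place k K) {P : MvPolynomial (Fin n) k} {N : ℕ}
    (hN : P.totalDegree ≤ N) : Ge q (N * mu X q) (aeval X P) := by
  classical
  rw [aeval_def, eval₂_eq']
  refine Ge.sum _ _ fun m hm => ?_
  by_cases h0 : algebraMap k K (coeff m P) * ∏ i, X i ^ m i = 0
  · exact Or.inl h0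
  · right
    have h1 : algebraMap k K (coeff m P) ≠ 0 := left_ne_zero_of_mul h0
    have h2 : ∀ i ∈ Finset.univ, X i ^ m i ≠ 0 := Finset.prod_ne_zero_iff.1 (right_ne_zero_of_mul h0)
    have h3 : coeff m P ≠ 0 := fun h => h1 (by rw [h, map_zero])
    rw [q.ord_mul h1 (right_ne_zero_of_mul h0), q.ord_const h3, zero_add, Pool.Agent.W619.PQ.ord_prod _ q _ h2]
    have h4 : ∑ i, m i ≤ N := by
      have h5 := le_totalDegree (mem_support_iff.2 h3)
      rw [Finsupp.sum_fintype _ _ fun _ => rfl] at h5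
      exact h5.trans hN
    have h5 : ∑ i, (m i : ℤ) * mu X q ≤ ∑ i, q.ord (X i ^ m i) := by
      refine Finset.sum_le_sum fun i _ => ?_
      rw [q.ord_pow]
      exact mul_le_mul_of_nonneg_left (mu_le X q i) (Int.natCast_nonneg _)
    rw [← Finset.sum_mul] at h5
    refine le_trans ?_ h5
    have h6 : (∑ i, (m i : ℤ)) ≤ N := by exact_mod_cast h4
    exact mul_le_mul_of_nonpos_right h6 (mu_nonpos X q)

theorem ev_hyp (X : Fin n → K) (f : MvPolynomial (Fin n) k) (hf : aeval X f ≠ 0)
    (q : Place k K) :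
    (hyp X f hf).ev q.ord = q.ord (aeval X f) - f.totalDegree * mu X q := rfl

theorem ev_nonneg (X : Fin n → K) (f : MvPolynomial (Fin n) k) (hf : aeval X f ≠ 0)
    (q : Place k K) : 0 ≤ (hyp X f hf).ev q.ord := by
  rw [ev_hyp]
  have h1 := (ge_poly X q (P := f) le_rfl).resolve_left hf
  linarith

/-- The finite sets of functions have bounded poles. -/
theorem exists_clear' {X : Fin n → K} (h : Gens (k := k) X) (S : Finset K) :
    ∃ (b : MvPolynomial (Fin n) k) (N : ℕ), b ≠ 0 ∧ ∀ s ∈ S, ∃ R : MvPolynomial (Fin n) k,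
      R.totalDegree ≤ N ∧ s * aeval X b = aeval X R := by
  classical
  induction S using Finset.induction_on with
  | empty => exact ⟨1, 0, one_ne_zero, by simp⟩
  | insert s S hs ih =>
    obtain ⟨b, N, hb, hS⟩ := ih
    obtain ⟨P, Q, hQ, hz⟩ := h.gen s
    refine ⟨b * Q, N + Q.totalDegree + (P * b).totalDegree, mul_ne_zero hb hQ, fun t ht => ?_⟩
    rcases Finset.mem_insert.1 ht with rfl | ht
    · refine ⟨P * b, Nat.le_add_left _ _, ?_⟩
      have := h.ne hQ
      rw [hz, map_mul, map_mul]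
      field_simp
    · obtain ⟨R, hR, hR'⟩ := hS t ht
      refine ⟨R * Q, ?_, ?_⟩
      · have := totalDegree_mul R Q
        omega
      · rw [map_mul, map_mul, ← hR']
        ring

/-- The prime divisors on the projective space. -/
def PDn (X : Fin n → K) : Set (Place k K) :=
  {q | (∃ g : MvPolynomial (Fin n) k, Irreducible g ∧ IsAdic X g q) ∨
    ∀ P : MvPolynomial (Fin n) k, P ≠ 0 → q.ord (aeval X P) = -(P.totalDegree : ℤ)}

theorem fin_pn {X : Fin n → K} (h : Gens (k := k) X) (hn : 0 < n) (S : Finset K) :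
    ∃ T : Finset K, ∀ g, (∀ q ∈ PDn (k := k) X, Dom q S 1 g) →
      g ∈ Submodule.span k (T : Set K) := by
  classical
  obtain ⟨b, N, hb, hS⟩ := exists_clear' h S
  have hbX := h.ne hb
  refine ⟨(Finset.univ : Finset (Fin n → Fin (N + 1))).image
    fun e => (∏ i, X i ^ (e i : ℕ)) / aeval X b, fun g hg => ?_⟩
  by_cases hg0 : g = 0
  · rw [hg0]; exact Submodule.zero_mem _
  obtain ⟨P, hP⟩ := poly_of_reg h (z := g * aeval X b) (by
    intro p hp v hv1 hv2
    rcases hg v (Or.inl ⟨p, hp, hv1, hv2⟩) with h0 | ⟨s, hs, hs0, hle⟩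
    · rw [h0, zero_mul]; exact v.reg_zero
    · obtain ⟨R, hR, hR'⟩ := hS s hs
      have hR0 : R ≠ 0 := by
        rintro rfl
        rw [map_zero] at hR'
        exact mul_ne_zero hs0 hbX hR'
      right
      have h1 := (hv2 R hR0).1
      rw [← hR', v.ord_mul hs0 hbX] at h1
      rw [v.ord_mul hg0 hbX]
      rw [Nat.cast_one, one_mul] at hle
      linarith)
  have hP0 : P ≠ 0 := by
    rintro rfl
    rw [map_zero] at hP
    exact mul_ne_zero hg0 hbX hP
  have hdeg : P.totalDegree ≤ N := by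
    obtain ⟨v, hv⟩ := exists_degree h hn
    rcases hg v (Or.inr hv) with h0 | ⟨s, hs, hs0, hle⟩
    · exact absurd h0 hg0
    · obtain ⟨R, hR, hR'⟩ := hS s hs
      have hR0 : R ≠ 0 := by
        rintro rfl
        rw [map_zero] at hR'
        exact mul_ne_zero hs0 hbX hR'
      have h1 := hv R hR0
      have h2 := hv P hP0
      rw [← hR', v.ord_mul hs0 hbX] at h1
      rw [← hP, v.ord_mul hg0 hbX] at h2
      rw [Nat.cast_one, one_mul] at hle
      omega
  have hgP : g = aeval X P / aeval X b := by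
    rw [← hP]
    field_simp
  have hP2 : aeval X P = ∑ m ∈ P.support, algebraMap k K (coeff m P) * ∏ i, X i ^ m i := by
    rw [aeval_def, eval₂_eq']
  rw [hgP, hP2, Finset.sum_div]
  refine Submodule.sum_mem _ fun m hm => ?_
  rw [mul_div_assoc, ← Algebra.smul_def]
  refine Submodule.smul_mem _ _ (Submodule.subset_span ?_)
  rw [Finset.coe_image]
  have hmi : ∀ i, m i < N + 1 := by
    intro i
    have h5 := le_totalDegree hm
    rw [Finsupp.sum_fintype _ _ fun _ => rfl] at h5
    have h6 := Finset.single_le_sum (f := fun i => m i) (fun _ _ => Nat.zero_le _)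
      (Finset.mem_univ i)
    omega
  exact ⟨fun i => ⟨m i, hmi i⟩, Finset.mem_coe.2 (Finset.mem_univ _), rfl⟩

end

section

variable {k : Type} [Field k] [CharZero k] {K : Type} [Field K] [Algebra k K] {n : ℕ}

/-- The change of the chart. -/
theorem flip_matrix {Z Z' : Fin (n + 1) → K} (hZ0 : Z 0 ≠ 0) (h0 : Z' 0 = (Z 0)⁻¹)
    (h1 : ∀ j : Fin n, Z' j.succ = Z j.succ / Z 0) (D : Fin (n + 1) → Derivation k K K) :
    (Matrix.of fun i j => D i (Z j)) = (Matrix.of fun i j => D i (Z' j)) * mA Z := by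
  classical
  ext i j
  rw [Matrix.mul_apply, Fin.sum_univ_succ]
  simp only [Matrix.of_apply, mA, if_true]
  have hD0 : D i (Z' 0) = -(D i (Z 0) / Z 0 ^ 2) := by
    rw [h0, (D i).leibniz_inv, smul_eq_mul]
    field_simp
  have hDs : ∀ l : Fin n, D i (Z' l.succ) =
      D i (Z l.succ) / Z 0 - Z l.succ * D i (Z 0) / Z 0 ^ 2 := by
    intro l
    rw [h1, div_eq_mul_inv, (D i).leibniz, (D i).leibniz_inv, smul_eq_mul, smul_eq_mul,
      smul_eq_mul]
    field_simp
    ring
  refine Fin.cases ?_ (fun l => ?_) j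
  · rw [Finset.sum_eq_zero, add_zero, hD0]
    · field_simp
    · intro l _
      rw [if_neg (Fin.succ_ne_zero l), if_neg (Fin.succ_ne_zero l), mul_zero]
  · rw [Finset.sum_eq_single l, hD0, hDs, if_neg (Fin.succ_ne_zero l), if_pos rfl]
    · field_simp
      ring
    · intro l' _ hl
      rw [if_neg (Fin.succ_ne_zero l'), if_neg (fun h => hl (Fin.succ_injective _ h)), mul_zero]
    · intro h
      exact absurd (Finset.mem_univ _) h

/-- **The projective space is smooth.** -/
theorem smooth_pn (hn : Algebra.trdeg k K = (n + 1 : ℕ)) (hess : Algebra.EssFiniteType k K)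
    (X : Fin (n + 1) → K) {q : Place k K} (hq : IsDivisorial q (n + 1)) :
    LogGe (n + 1) q (fun D => (Matrix.of fun i j => D i (X j)).det)
      (1 + ((n + 2 : ℕ) : ℝ) * mu X q) := by
  classical
  have hpf : IsPluriForm k K (n + 1) 1 (fun D => (Matrix.of fun i j => D i (X j)).det) := by
    simpa using pluri_det (m := 1) (1 : K) X
  have h1 := logGe_of_reg (c := ((n + 2 : ℕ) : ℝ) * mu X q) hn hess hq _ hpf fun D hD => by
    by_cases hmu : mu X q = 0
    · rw [hmu, Int.cast_zero, mul_zero]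
      have h2 : Ge q 0 (Matrix.of fun i j => D i (X j)).det := ge_det q _ fun i j =>
        hD i _ (by
          have := mu_le X q j
          rw [hmu] at this
          exact Or.inr this)
      have h3 := Ge.toR h2
      rwa [Int.cast_zero] at h3
    · obtain ⟨i0, hi0⟩ := (mu_cases X q).resolve_left hmu
      have hneg : q.ord (X i0) < 0 := by
        rw [← hi0]
        exact lt_of_le_of_ne (mu_nonpos X q) hmu
      have hX0 : X i0 ≠ 0 := by
        intro h0
        rw [h0, q.ord_zero] at hneg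
        exact lt_irrefl _ hneg
      obtain ⟨Z, hZ⟩ : ∃ Z : Fin (n + 1) → K, Z = fun j => X (Equiv.swap 0 i0 j) := ⟨_, rfl⟩
      have hZ0 : Z 0 = X i0 := by rw [hZ]; simp
      have hZne : Z 0 ≠ 0 := by rw [hZ0]; exact hX0
      obtain ⟨Z', hZ'0, hZ's⟩ : ∃ Z' : Fin (n + 1) → K, Z' 0 = (Z 0)⁻¹ ∧
          ∀ j : Fin n, Z' j.succ = Z j.succ / Z 0 :=
        ⟨Fin.cons (Z 0)⁻¹ fun j => Z j.succ / Z 0, rfl, fun j => rfl⟩
      have hreg : ∀ j, q.Reg (Z' j) := by
        intro j
        refine Fin.cases ?_ (fun l => ?_) j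
        · rw [hZ'0]
          right
          rw [q.ord_inv, hZ0]
          omega
        · rw [hZ's]
          by_cases hl : Z l.succ = 0
          · rw [hl, zero_div]; exact q.reg_zero
          · right
            rw [q.ord_div hl hZne, hZ0, ← hi0, hZ]
            have := mu_le X q (Equiv.swap 0 i0 l.succ)
            linarith
      have h2 : (Matrix.of fun i j => D i (X j)).det =
          (Equiv.Perm.sign (Equiv.swap 0 i0) : ℤ) * (Matrix.of fun i j => D i (Z j)).det := by
        have h3 : (Matrix.of fun i j => D i (Z j)) =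
            (Matrix.of fun i j => D i (X j)).submatrix id (Equiv.swap 0 i0) := by
          ext i j
          rw [hZ]
          rfl
        rw [h3, Matrix.det_permute']
        rw [← mul_assoc, ← Int.cast_mul]
        have h4 : ((Equiv.Perm.sign (Equiv.swap 0 i0) : ℤ)) * (Equiv.Perm.sign (Equiv.swap 0 i0) : ℤ)
            = 1 := by
          rw [← Units.val_mul, Int.units_mul_self, Units.val_one]
        rw [h4, Int.cast_one, one_mul]
      rw [h2, flip_matrix hZne hZ'0 hZ's D, Matrix.det_mul, det_mA]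
      have h5 : Ge q 0 (Matrix.of fun i j => D i (Z' j)).det := ge_det q _ fun i j => hD i _ (hreg j)
      have h6 : Ge q ((n + 2 : ℕ) * mu X q) (-Z 0 ^ (n + 2)) := by
        refine Ge.neg (Or.inr ?_)
        rw [q.ord_pow, hZ0, hi0]
      have h7 := Ge.toR ((Ge.intCast (P := q) (Equiv.Perm.sign (Equiv.swap 0 i0) : ℤ)).mul
        (h5.mul h6))
      refine h7.mono (le_of_eq ?_)
      push_cast
      ring
  rw [Nat.cast_one] at h1
  exact h1

end

end Pool.Agent.K1H17.TP
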