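import Pool.Agent.K1H17.TP.Dl
import Pool.Agent.K1H17.TP.Kf

/-! Logarithmic frames, and the two notions of sections. -/

set_option autoImplicit false
set_option linter.overlappingInstances false
set_option linter.unusedSectionVars false
set_option linter.unusedVariables false

open FF IntermediateField Pool.Agent.W619.PQ Pool.Agent.W619.PL Pool.Agent.W619.TW
  Pool.Agent.W603.LV Pool.Agent.W619.Y Pool.Agent.W672.PG Pool.Agent.W824.PG Pool.Agent.Y174
  Pool.Agent.K1H17.IS

namespace Pool.Agent.K1H17.TP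

section

variable {k : Type} {K : Type} [Field k] [CharZero k] [Field K] [Algebra k K]

/-- A logarithmic frame. -/
theorem exists_lf {n : ℕ} (hn : Algebra.trdeg k K = n) (hess : Algebra.EssFiniteType k K)
    {u : Place k K} (hu : IsDivisorial u n) :
    ∃ Dl : Fin n → Derivation k K K, (∀ i, Pres u (Dl i)) ∧ (∀ i z, u.Reg (Dl i z / z)) ∧
      (∀ y : Fin n → K, IsTranscendenceBasis k y → (Matrix.of fun i j => Dl i (y j)).det ≠ 0) ∧
      ∀ (m : ℕ) (ω : (Fin n → Derivation k K K) → K) (γ : ℝ), IsPluriForm k K n m ω →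
        GeR u γ (ω Dl) → LogGe n u ω γ := by
  obtain ⟨y, F, i0, hy, hF, ht, ht0, hyr, hpres, hP, hlog⟩ := exists_logframe hn hess hu
  refine ⟨fun i => (if i = i0 then y i0 else 1) • F i, hP, hlog, ?_, ?_⟩
  · intro y' hy'
    obtain ⟨E, hE⟩ := Pool.Agent.W636.PG.exists_duals k K n y' hy'
    have hpf : IsPluriForm k K n 1
        (fun D => (1 : K) * (Matrix.of fun i j => D i (y' j)).det ^ 1) := pluri_det 1 y'
    have h1 := form_logframe y hy F hF i0 _ hpf
    have h2 := Pool.Agent.W636.PG.form_eq k K n 1 y hy F hF _ hpf E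
    have h3 : (Matrix.of fun i j => E i (y' j)).det = 1 := by
      have h4 : (Matrix.of fun i j => E i (y' j)) = 1 := by
        ext i j
        rw [Matrix.of_apply, Matrix.one_apply]
        exact hE i j
      rw [h4, Matrix.det_one]
    simp only [one_mul, pow_one] at h1 h2
    rw [h3] at h2
    have h5 : (Matrix.of fun i j => F i (y' j)).det ≠ 0 := by
      intro h0
      rw [h0, mul_zero] at h2
      exact one_ne_zero h2
    rw [h1]
    exact mul_ne_zero ht0 h5
  · intro m ω γ hω hγ D hD hl
    rw [form_logframe y hy F hF i0 ω hω] at hγ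
    rw [Pool.Agent.W636.PG.form_eq k K n m y hy F hF ω hω D]
    let Z : Matrix (Fin n) (Fin n) K := Matrix.of fun i j =>
      (if j = i0 then (y i0)⁻¹ else 1) * D i (y j)
    have hZ : Ge u 0 Z.det := by
      refine ge_det u _ fun i j => ?_
      change Ge u 0 ((if j = i0 then (y i0)⁻¹ else 1) * D i (y j))
      by_cases hj : j = i0
      · rw [if_pos hj, hj, mul_comm, ← div_eq_mul_inv]
        exact hl i (y i0)
      · rw [if_neg hj, one_mul]
        exact hD i _ (hyr j)
    have hdet : (Matrix.of fun i j => D i (y j)).det = y i0 * Z.det := by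
      rw [← Matrix.det_transpose, ← Matrix.det_transpose Z]
      have h1 : (Matrix.of fun i j => D i (y j)).transpose = Matrix.of fun i j =>
          (if i = i0 then y i0 else 1) * Z.transpose i j := by
        ext i j
        rw [Matrix.transpose_apply, Matrix.of_apply, Matrix.of_apply, Matrix.transpose_apply]
        show D j (y i) = (if i = i0 then y i0 else 1) *
          ((if i = i0 then (y i0)⁻¹ else 1) * D j (y i))
        by_cases hi : i = i0
        · rw [if_pos hi, if_pos hi, ← mul_assoc, mul_inv_cancel₀ ht0, one_mul]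
        · rw [if_neg hi, if_neg hi, one_mul, one_mul]
      rw [h1, det_scale]
    rw [hdet, mul_pow]
    have h2 := (Ge.toR (hZ.pow m)).mul hγ
    have h3 : y i0 ^ m * Z.det ^ m * ω F = Z.det ^ m * (y i0 ^ m * ω F) := by ring
    rw [h3]
    refine h2.mono ?_
    push_cast
    linarith

theorem pres_of_log {u : Place k K} {D : Derivation k K K} (hD : ∀ z, u.Reg (D z / z)) :
    Pres u D := by
  intro f hf
  by_cases h0 : f = 0
  · rw [h0, map_zero]; exact Or.inl rfl
  · have h1 : Ge u 0 (D f / f) := hD f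
    have h2 : Ge u 0 f := hf
    have h3 := h1.mul h2
    rwa [div_mul_cancel₀ _ h0, add_zero] at h3

/-- The nonzero element of smallest order. -/
theorem exists_low_elt (v : Place k K) (S : Finset K) :
    (∀ s ∈ S, s = 0) ∨ ∃ t ∈ S, t ≠ 0 ∧ ∀ s ∈ S, s ≠ 0 → v.ord t ≤ v.ord s := by
  classical
  by_cases h : (S.filter (· ≠ 0)).Nonempty
  · right
    obtain ⟨t, ht, hmin⟩ := Finset.exists_min_image _ (fun t => v.ord t) h
    rw [Finset.mem_filter] at ht
    exact ⟨t, ht.1, ht.2, fun s hs hs0 => hmin s (Finset.mem_filter.2 ⟨hs, hs0⟩)⟩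
  · left
    intro s hs
    by_contra h0
    exact h ⟨s, Finset.mem_filter.2 ⟨hs, h0⟩⟩

/-- Logarithmic orders of sections of pairs. -/
theorem pair_log {n m : ℕ} (hn : Algebra.trdeg k K = n) (hess : Algebra.EssFiniteType k K)
    {δ : Place k K → ℝ} {S : Finset K} {ω : (Fin n → Derivation k K K) → K}
    (hω : PairSec k K n δ S m 1 ω) {v : Place k K} (hv : IsDivisorial v n) :
    (∀ γ, LogGe n v ω γ) ∨ ∃ t ∈ S, t ≠ 0 ∧ (∀ s ∈ S, s ≠ 0 → v.ord t ≤ v.ord s) ∧
      LogGe n v ω (m * (1 - δ v) + v.ord t) := by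
  rcases exists_low_elt v S with h | ⟨t, ht, ht0, hmin⟩
  · left
    intro γ D hD _
    rcases hω.2 v hv D hD with h1 | ⟨s, hs, hs0, -⟩
    · exact Or.inl h1
    · exact absurd (h s hs) hs0
  · right
    refine ⟨t, ht, ht0, hmin, ?_⟩
    have h1 := logGe_of_reg (c := v.ord t - m * δ v) hn hess hv ω hω.1 fun D hD => by
      rcases hω.2 v hv D hD with h1 | ⟨s, hs, hs0, h1⟩
      · exact Or.inl h1
      · right
        have h2 : (v.ord t : ℝ) ≤ v.ord s := by exact_mod_cast hmin s hs hs0
        rw [Nat.cast_one, one_mul] at h1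
        linarith
    refine h1.mono (le_of_eq ?_)
    ring

/-- Sections of pairs are sections of the reduced boundary. -/
theorem sec_of_pair {n m : ℕ} (hn : Algebra.trdeg k K = n) (hess : Algebra.EssFiniteType k K)
    {δ : Place k K → ℝ} {Bd : Place k K → Prop} (h1 : ∀ v, δ v ≤ 1) (h0 : ∀ v, ¬ Bd v → δ v ≤ 0)
    {S : Finset K} {ω : (Fin n → Derivation k K K) → K} (hω : PairSec k K n δ S m 1 ω) :
    IsSec k K n Bd S m 1 ω := by
  refine ⟨hω.1, fun v hv hb D hD => ?_, fun v hv hb D hD => ?_⟩
  · rcases hω.2 v hv D hD with h | ⟨s, hs, hs0, h⟩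
    · exact Or.inl h
    · right
      refine ⟨s, hs, hs0, ?_⟩
      have h2 : (m : ℝ) * δ v ≤ 0 := mul_nonpos_of_nonneg_of_nonpos (Nat.cast_nonneg m) (h0 v hb)
      rw [Nat.cast_one, one_mul] at h
      have h3 : (v.ord s : ℝ) ≤ v.ord (ω D) := by linarith
      rw [Nat.cast_one, one_mul]
      exact_mod_cast h3
  · have hP : ∀ l, Pres v (D l) := fun l => pres_of_log (hD l)
    rcases pair_log hn hess hω hv with h | ⟨t, ht, ht0, -, h⟩
    · left
      by_contra hne
      have h2 := (h (v.ord (ω D) + 1) D hP hD).resolve_left hne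
      linarith
    · rcases h D hP hD with h2 | h2
      · exact Or.inl h2
      · right
        refine ⟨t, ht, ht0, ?_⟩
        have h3 : (0 : ℝ) ≤ m * (1 - δ v) := mul_nonneg (Nat.cast_nonneg m) (by linarith [h1 v])
        have h4 : (v.ord t : ℝ) ≤ v.ord (ω D) := by linarith
        rw [Nat.cast_one, one_mul]
        exact_mod_cast h4

/-- Sections of the reduced boundary are sections of the pair with the coefficients `1`. -/
theorem pair_of_sec {n m : ℕ} (hn : Algebra.trdeg k K = n) (hess : Algebra.EssFiniteType k K)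
    {δ : Place k K → ℝ} {Bd : Place k K → Prop} (h1 : ∀ v, Bd v → δ v = 1)
    (h0 : ∀ v, ¬ Bd v → δ v = 0)
    {S : Finset K} {ω : (Fin n → Derivation k K K) → K} (hω : IsSec k K n Bd S m 1 ω) :
    PairSec k K n δ S m 1 ω := by
  refine ⟨hω.1, fun v hv D hD => ?_⟩
  by_cases hb : Bd v
  · rw [h1 v hb]
    rcases exists_low_elt v S with h | ⟨t, ht, ht0, hmin⟩
    · have hlog : ∀ γ, LogGe n v ω γ := by
        intro γ D' hD' hl
        rcases hω.2.2 v hv hb D' hl with h3 | ⟨s, hs, hs0, -⟩
        · exact Or.inl h3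
        · exact absurd (h s hs) hs0
      left
      by_contra hne
      have h2 := (reg_of_log hn hess hv ω hω.1 (hlog (m + v.ord (ω D) + 1)) D hD).resolve_left hne
      linarith
    · have hlog : LogGe n v ω (v.ord t) := by
        intro D' hD' hl
        rcases hω.2.2 v hv hb D' hl with h3 | ⟨s, hs, hs0, h3⟩
        · exact Or.inl h3
        · right
          have h4 := hmin s hs hs0
          rw [Nat.cast_one, one_mul] at h3
          exact_mod_cast h4.trans h3
      rcases reg_of_log hn hess hv ω hω.1 hlog D hD with h3 | h3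
      · exact Or.inl h3
      · right
        refine ⟨t, ht, ht0, ?_⟩
        rw [Nat.cast_one, one_mul, mul_one]
        exact h3
  · rw [h0 v hb]
    rcases hω.2.1 v hv hb D hD with h | ⟨s, hs, hs0, h⟩
    · exact Or.inl h
    · right
      refine ⟨s, hs, hs0, ?_⟩
      rw [Nat.cast_one, one_mul] at h ⊢
      rw [mul_zero, sub_zero]
      exact_mod_cast h

end

end Pool.Agent.K1H17.TP
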