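import Pool.Agent.K1H17.TP.Ct
import Pool.Agent.K1H17.TP.Cv

/-! The upper bound for the number of sections on a product with a boundary. -/

set_option autoImplicit false
set_option linter.overlappingInstances false
set_option linter.unusedSectionVars false
set_option linter.unusedVariables false

open FF IntermediateField Pool.Agent.W619.PQ Pool.Agent.W619.PL Pool.Agent.W619.TW
  Pool.Agent.W603.LV Pool.Agent.W619.Y Pool.Agent.W672.PG Pool.Agent.W824.PG Pool.Agent.Y174
  Pool.Agent.K1H17.IS Pool.Agent.W460.PG.ONE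

namespace Pool.Agent.K1H17.TP

section

variable {k : Type} [Field k] [CharZero k] [IsAlgClosed k] {r n s : ℕ} {a h e : Fin r → ℕ}
  {L : Type} [Field L] [Algebra k L] {K : Fin r → Type} [∀ i, Field (K i)]
  [∀ i, Algebra k (K i)] {φ : ∀ i, K i →ₐ[k] L}

/-- The upper bound. -/
theorem ub (hn : n = ∑ i, a i) (hKe : ∀ i, Algebra.EssFiniteType k (K i))
    (hK : ∀ i, Algebra.trdeg k (K i) = a i) (hL : Algebra.trdeg k L = n)
    (hsup : (⨆ i, (φ i).fieldRange) = ⊤) {D : ∀ i, DivData (K i)} {T : Fin r → Type}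
    [∀ i, Finite (T i)] [∀ i, Nonempty (T i)] {p : ∀ i, T i → Place k (K i)}
    {α : Fin r → ℚ} (H : ∀ i, Thr k (K i) (a i) (D i) (p i) (α i) (h i) (e i))
    {A : Fin s → Fin r → ℤ} {m : Fin s → ℕ} {δ : Place k L → ℝ} (hδ1 : ∀ w, δ w ≤ 1)
    (hδ0 : ∀ w : Place k L, (∀ i, (D i).ev (fun x => w.ord (φ i x)) = 0) → δ w ≤ 0)
    (hδm : ∀ (τ : ∀ i, T i) (g : ℕ) (lam : Fin r → ℕ) (w : Place k L), 0 < g →
      Adm A m (fun i => g * lam i) →
      IsMono φ n (fun i => p i (τ i)) lam w → δ w ≤ 1 - 1 / (g : ℝ)) :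
    ((∃ v, Adm A m v ∧ wt α v < 1) → NegB k L n δ) ∧
    (∀ κ : Fin r → ℕ, (∀ i, Crit A m α i → h i ≤ κ i) → (∀ i, ¬ Crit A m α i → e i ≤ κ i) →
      PairNum k L n δ (∑ i, κ i)) := by
  classical
  have hess : Algebra.EssFiniteType k L := ess_of_sup φ hKe hsup
  choose y hy using fun i => Pool.Agent.W636.PG.exists_basis k (K i) (a i) (hK i)
  obtain ⟨Y, hY, hfrm, hkun⟩ := kun r L K φ a n hn hKe hK hL hsup y hy
  obtain ⟨E, hE⟩ := Pool.Agent.W636.PG.exists_duals k L n Y hY
  choose Dl hDl1 hDl2 hΔ hDl3 using fun i t => exists_lf (hK i) (hKe i) ((H i).div t)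
  -- the value of a form
  have hform : ∀ (m : ℕ) (ω : (Fin n → Derivation k L L) → L), IsPluriForm k L n m ω →
      ω = fun D => ω E * (Matrix.of fun i j => D i (Y j)).det ^ m := by
    intro m ω hω
    funext D
    rw [Pool.Agent.W636.PG.form_eq k L n m Y hY E hE ω hω D, mul_comm]
  -- monomial places
  have hmono : ∀ v : Fin r → ℕ, Adm A m v → ∃ (g : ℕ) (lam : Fin r → ℕ)
      (w : (∀ i, T i) → Place k L), 0 < g ∧ (∀ i, v i = g * lam i) ∧
      (∀ τ, IsMono φ n (fun i => p i (τ i)) lam (w τ)) ∧ ∀ τ, δ (w τ) ≤ 1 - 1 / (g : ℝ) := by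
    intro v hv
    obtain ⟨g, hg⟩ : ∃ g : ℕ, g = Finset.univ.gcd v := ⟨_, rfl⟩
    have hgd : ∀ i, g ∣ v i := fun i => by
      rw [hg]; exact Finset.gcd_dvd (Finset.mem_univ i)
    choose lam hlam using hgd
    have hg0 : 0 < g := by
      rcases Nat.eq_zero_or_pos g with h0 | h0
      · exfalso
        apply hv.1
        funext i
        rw [hlam i, h0, zero_mul]
        rfl
      · exact h0
    have hlam1 : ∀ d : ℕ, (∀ i, d ∣ lam i) → d = 1 := by
      intro d hd
      have h1 : g * d ∣ g := by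
        conv_rhs => rw [hg]
        refine Finset.dvd_gcd fun i _ => ?_
        rw [hlam i]
        exact mul_dvd_mul_left g (hd i)
      have h2 : g * d ∣ g * 1 := by rwa [mul_one]
      exact Nat.dvd_one.1 (Nat.dvd_of_mul_dvd_mul_left hg0 h2)
    choose w hw using fun τ : (∀ i, T i) => mono r L K φ a hK (by rw [hL, hn]) hsup
      (fun i => p i (τ i)) (fun i => (H i).div (τ i)) lam hlam1
    rw [← hn] at hw
    refine ⟨g, lam, w, hg0, hlam, hw, fun τ => hδm τ g lam (w τ) hg0 ?_ (hw τ)⟩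
    have h3 : (fun i => g * lam i) = v := funext fun i => (hlam i).symm
    rw [h3]
    exact hv
  -- the boundary
  obtain ⟨Bd, hBd⟩ : ∃ Bd : Place k L → Prop,
      Bd = fun w => ∃ i, (D i).ev (fun x => w.ord (φ i x)) ≠ 0 := ⟨_, rfl⟩
  obtain ⟨Bdi, hBdi⟩ : ∃ Bdi : ∀ i, Place k (K i) → Prop,
      Bdi = fun i q => (D i).ev q.ord ≠ 0 := ⟨_, rfl⟩
  have hev0 : ∀ i (w : Place k L), (∀ x, w.ord (φ i x) = 0) →
      (D i).ev (fun x => w.ord (φ i x)) = 0 := by
    intro i w hw
    have := (D i).ev_scale (o := fun x => w.ord (φ i x)) (o' := fun _ => 0) le_rfl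
      (fun x => by rw [mul_zero]; exact hw x)
    rwa [zero_mul] at this
  have H1 : ∀ w : Place k L, (∀ i x, w.ord (φ i x) = 0) → ¬ Bd w := by
    intro w hw hb
    rw [hBd] at hb
    obtain ⟨i, hi⟩ := hb
    exact hi (hev0 i w (hw i))
  have H2 : ∀ i (u : Place k (K i)) (w : Place k L), (∀ x, w.ord (φ i x) = u.ord x) →
      (∀ i', i' ≠ i → ∀ x, w.ord (φ i' x) = 0) → (Bd w ↔ Bdi i u) := by
    intro i u w h1 h2
    have h3 : (fun x => w.ord (φ i x)) = u.ord := funext h1
    rw [hBd, hBdi]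
    constructor
    · rintro ⟨i', hi'⟩
      by_cases hii : i' = i
      · subst hii
        rw [h3] at hi'
        exact hi'
      · exact absurd (hev0 i' w (h2 i' hii)) hi'
    · intro h4
      refine ⟨i, ?_⟩
      rw [h3]
      exact h4
  have hsecL : ∀ (S : Finset L) (m : ℕ) (ω : (Fin n → Derivation k L L) → L),
      PairSec k L n δ S m 1 ω → IsSec k L n Bd S m 1 ω := by
    intro S m ω hω
    refine sec_of_pair hL hess hδ1 (fun w hw => hδ0 w fun i => ?_) hω
    rw [hBd] at hw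
    by_contra h0
    exact hw ⟨i, h0⟩
  have hsecK : ∀ i (S : Finset (K i)) (m : ℕ) (ω : (Fin (a i) → Derivation k (K i) (K i)) → K i),
      IsSec k (K i) (a i) (Bdi i) S m 1 ω →
        PairSec k (K i) (a i) (fun q => 1 - lam 0 ((D i).ev q.ord)) S m 1 ω := by
    intro i S m ω hω
    refine pair_of_sec (hK i) (hKe i) (Bd := Bdi i) (fun v hv => ?_) (fun v hv => ?_) hω
    · rw [hBdi] at hv
      rw [lam, if_neg hv]
      push_cast
      ring
    · rw [hBdi] at hv
      rw [lam, if_pos (not_not.1 hv), sub_self]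
  -- the setup for a given set `S`
  have hmain : ∀ S : Finset L, ∃ (b0 : L) (S' : ∀ i, Finset (K i)) (cc : Fin r → ℝ)
      (CC : (Fin r → ℕ) → ℝ), b0 ≠ 0 ∧ ∀ M : ℕ, 1 ≤ M →
      ∃ (ι : Fin r → Type) (_ : ∀ i, Fintype (ι i)) (b : ∀ i, ι i → K i) (o : ∀ i, ι i → ℤ),
        (∀ i, LinearIndependent k (b i)) ∧
        (∀ i l, b i l ∈ VV k (Bdi i) (S' i) M 1 (y i)) ∧
        (∀ i l t, LogGe (a i) (p i t)
          (fun D => b i l * (Matrix.of fun i' j => D i' (y i j)).det ^ M) (o i l)) ∧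
        (∀ i l, (o i l : ℝ) < M * α i + cc i) ∧
        ∀ ω : (Fin n → Derivation k L L) → L, PairSec k L n δ S M 1 ω →
          ∃ c : (∀ i, ι i) → k, b0 * ω E = ∑ J, c J • ∏ i, φ i (b i (J i)) ∧ ∀ J, c J ≠ 0 →
            ∀ v, Adm A m v → (M : ℝ) - CC v ≤ ∑ i, (v i : ℝ) * o i (J i) := by
    intro S
    obtain ⟨b0, S', hb0, hspan⟩ := hkun Bd Bdi H1 H2 S
    choose cc hcc using fun i => (H i).neg (S' i)
    have hCC : ∀ v : Fin r → ℕ, ∃ C : ℝ, Adm A m v → ∀ (M : ℕ) (G : L),
        PairSec k L n δ S M 1 (fun D => G * (Matrix.of fun i j => D i (Y j)).det ^ M) →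
        ∀ (ι : Fin r → Type) [∀ i, Fintype (ι i)] (b : ∀ i, ι i → K i) (o : ∀ i, ι i → ℤ),
        (∀ i, AdpT (p i) (fun t => M * (p i t).ord (Matrix.of fun l c => Dl i t l (y i c)).det)
          (b i) (o i)) →
        ∀ c : (∀ i, ι i) → k, b0 * G = ∑ J, c J • ∏ i, φ i (b i (J i)) → ∀ J, c J ≠ 0 →
          (M : ℝ) - C ≤ ∑ i, (v i : ℝ) * o i (J i) := by
      intro v
      by_cases hv : Adm A m v
      · obtain ⟨g, la, w, hg, hgl, hw, hδw⟩ := hmono v hv
        obtain ⟨C, hC⟩ := est hL hess hfrm Dl hDl2 (fun i t => hΔ i t (y i) (hy i)) hw hg hδw S hb0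
        refine ⟨C, fun _ M G hsec ι _ b o hb c hc J hJ => ?_⟩
        refine (hC M G hsec ι b o hb c hc J hJ).trans (le_of_eq ?_)
        refine Finset.sum_congr rfl fun i _ => ?_
        rw [hgl i]
      · exact ⟨0, fun h => absurd h hv⟩
    choose CC hCC using hCC
    refine ⟨b0, S', cc, CC, hb0, fun M hM => ?_⟩
    have hfin : ∀ i, Module.Finite k (VV k (Bdi i) (S' i) M 1 (y i)) := by
      intro i
      obtain ⟨C, hC⟩ := (H i).num (S' i)
      refine (finrank_VV (Bdi i) (S' i) M 1 (y i) (hy i) (C * M ^ e i) fun N hN => ?_).1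
      obtain ⟨ω, hω, hsec⟩ := hN
      exact hC M N hM ⟨ω, hω, fun l => hsecK i _ _ _ (hsec l)⟩
    choose ι hι b o hadp hbV hbspan using fun i => exists_adpT_basis (p i)
      (fun t => M * (p i t).ord (Matrix.of fun l c => Dl i t l (y i c)).det)
      (VV k (Bdi i) (S' i) M 1 (y i))
    have hΔ0 := fun i t => hΔ i t (y i) (hy i)
    have hlog : ∀ i l t, LogGe (a i) (p i t)
        (fun D => b i l * (Matrix.of fun i' j => D i' (y i j)).det ^ M) (o i l) := by
      intro i l t
      refine hDl3 i t M _ _ (pluri_det _ _) ?_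
      right
      have h1 := (hadp i).le l t
      have h2 : (p i t).ord (b i l * (Matrix.of fun l c => Dl i t l (y i c)).det ^ M) =
          (p i t).ord (b i l) + M * (p i t).ord (Matrix.of fun l c => Dl i t l (y i c)).det := by
        rw [(p i t).ord_mul ((hadp i).ne l) (pow_ne_zero _ (hΔ0 i t)), (p i t).ord_pow]
      rw [← h2] at h1
      exact_mod_cast h1
    refine ⟨ι, hι, b, o, fun i => (hadp i).lin, hbV, hlog, fun i l => ?_, fun ω hω => ?_⟩
    · by_contra hcon
      push Not at hcon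
      have h1 := hcc i M _ hM (hsecK i _ _ _ (hbV i l)) fun t => (hlog i l t).mono hcon
      obtain ⟨t⟩ := ‹∀ i, Nonempty (T i)› i
      have h2 := congrFun h1 (Dl i t)
      exact mul_ne_zero ((hadp i).ne l) (pow_ne_zero _ (hΔ0 i t)) h2
    · have h1 := hform M ω hω.1
      have h2 : ω E ∈ VV k Bd S M 1 Y := by
        change IsSec k L n Bd S M 1 _
        rw [← h1]
        exact hsecL S M ω hω
      obtain ⟨c, hc⟩ := expand_prod b hbspan (hspan M _ h2)
      refine ⟨c, hc, fun J hJ v hv => ?_⟩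
      exact hCC v hv M (ω E) (by rw [← h1]; exact hω) ι b o hadp c hc J hJ
  refine ⟨?_, ?_⟩
  · -- a vector of weight `< 1`
    rintro ⟨v, hv, hwt⟩ S
    obtain ⟨b0, S', cc, CC, hb0, hS⟩ := hmain S
    have hwt' : (0 : ℝ) < 1 - (wt α v : ℝ) := by
      have : (wt α v : ℝ) < 1 := by exact_mod_cast hwt
      linarith
    obtain ⟨M0, hM0⟩ := exists_nat_gt ((CC v + ∑ i, (v i : ℝ) * cc i) / (1 - (wt α v : ℝ)))
    refine ⟨M0 + 1, fun M hM ω hω => ?_⟩
    obtain ⟨ι, hι, b, o, hlin, hbV, hlog, hup, hex⟩ := hS M (by omega)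
    obtain ⟨c, hc, hJ⟩ := hex ω hω
    have hc0 : ∀ J, c J = 0 := by
      intro J
      by_contra hJ0
      have h1 := hJ J hJ0 v hv
      have h2 : ∑ i, (v i : ℝ) * o i (J i) ≤ ∑ i, (v i : ℝ) * (M * α i + cc i) :=
        Finset.sum_le_sum fun i _ => mul_le_mul_of_nonneg_left (hup i (J i)).le
          (Nat.cast_nonneg _)
      have h3 : ∑ i, (v i : ℝ) * (M * α i + cc i) = M * (wt α v : ℝ) + ∑ i, (v i : ℝ) * cc i := by
        rw [wt]
        push_cast
        rw [Finset.mul_sum, ← Finset.sum_add_distrib]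
        exact Finset.sum_congr rfl fun i _ => by ring
      have h4 : (M : ℝ) * (1 - wt α v) ≤ CC v + ∑ i, (v i : ℝ) * cc i := by linarith
      rw [← le_div_iff₀ hwt'] at h4
      have h5 : (M0 : ℝ) < M := by exact_mod_cast (by omega : M0 < M)
      linarith
    have h1 : ω E = 0 := by
      have h2 : b0 * ω E = 0 := by
        rw [hc]
        exact Finset.sum_eq_zero fun J _ => by rw [hc0 J, zero_smul]
      exact (mul_eq_zero.1 h2).resolve_left hb0
    rw [hform M ω hω.1, h1]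
    funext D
    rw [zero_mul]
    rfl
  · -- all weights are at least `1`
    intro κ hκ1 hκ2 S
    obtain ⟨b0, S', cc, CC, hb0, hS⟩ := hmain S
    -- the constants
    have hdd : ∀ i, ∃ d : ℝ, Crit A m α i → ∀ (M : ℕ) (t : Fin r → ℤ),
        (∀ i', (t i' : ℝ) < M * α i' + cc i') →
        (∀ v, Adm A m v → (M : ℝ) - CC v ≤ ∑ i', (v i' : ℝ) * t i') →
        (M : ℝ) * α i - d ≤ t i := by
      intro i
      by_cases hi : Crit A m α i
      · obtain ⟨v, hv, hv1, hvi⟩ := hi
        have hvi' : (1 : ℝ) ≤ v i := by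
          have : 1 ≤ v i := Nat.one_le_iff_ne_zero.2 hvi
          exact_mod_cast this
        refine ⟨|CC v + ∑ i' ∈ Finset.univ.erase i, (v i' : ℝ) * cc i'|,
          fun _ M t ht hv' => ?_⟩
        have h1 := hv' v hv
        rw [← Finset.add_sum_erase _ _ (Finset.mem_univ i)] at h1
        have h2 : ∑ i' ∈ Finset.univ.erase i, (v i' : ℝ) * t i' ≤
            ∑ i' ∈ Finset.univ.erase i, (v i' : ℝ) * (M * α i' + cc i') :=
          Finset.sum_le_sum fun i' _ => mul_le_mul_of_nonneg_left (ht i').le (Nat.cast_nonneg _)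
        have h3 : ∑ i' ∈ Finset.univ.erase i, (v i' : ℝ) * (M * α i' + cc i') =
            M * ∑ i' ∈ Finset.univ.erase i, (α i' : ℝ) * v i' +
            ∑ i' ∈ Finset.univ.erase i, (v i' : ℝ) * cc i' := by
          rw [Finset.mul_sum, ← Finset.sum_add_distrib]
          exact Finset.sum_congr rfl fun i' _ => by ring
        have h4 : (α i : ℝ) * v i + ∑ i' ∈ Finset.univ.erase i, (α i' : ℝ) * v i' = 1 := by
          rw [Finset.add_sum_erase Finset.univ (fun i' => (α i' : ℝ) * v i') (Finset.mem_univ i)]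
          have h5 : ((wt α v : ℚ) : ℝ) = 1 := by rw [hv1]; norm_num
          rw [wt] at h5
          push_cast at h5
          exact h5
        set X := CC v + ∑ i' ∈ Finset.univ.erase i, (v i' : ℝ) * cc i' with hX
        set Z := ∑ i' ∈ Finset.univ.erase i, (α i' : ℝ) * v i' with hZ
        have h5 : (v i : ℝ) * (M * α i) - X ≤ v i * t i := by
          have h6 : Z = 1 - α i * v i := by linarith
          rw [h3, h6] at h2
          nlinarith
        have h6 : X ≤ |X| := le_abs_self _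
        have h7 : |X| ≤ v i * |X| := by nlinarith [abs_nonneg X]
        have h8 : (v i : ℝ) * (M * α i - |X|) ≤ v i * t i := by nlinarith
        exact le_of_mul_le_mul_left h8 (by linarith)
      · exact ⟨0, fun h => absurd h hi⟩
    choose dd hdd using hdd
    have hCi : ∀ i, ∃ C : ℕ, ∀ M : ℕ, 1 ≤ M → ∀ (ι : Type) [Fintype ι] (b : ι → K i) (o : ι → ℤ),
        LinearIndependent k b → (∀ l, b l ∈ VV k (Bdi i) (S' i) M 1 (y i)) →
        (∀ l t, LogGe (a i) (p i t)
          (fun D => b l * (Matrix.of fun i' j => D i' (y i j)).det ^ M) (o l)) →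
        (Finset.univ.filter fun l => Crit A m α i → (M : ℝ) * α i - dd i ≤ o l).card ≤
          C * M ^ κ i := by
      intro i
      by_cases hi : Crit A m α i
      · obtain ⟨C, hC⟩ := (H i).num_at (S' i) (dd i)
        refine ⟨C, fun M hM ι _ b o hb hbV hlog => ?_⟩
        refine (card_good (hy i) hb hbV (fun ω => ∀ t, LogGe (a i) (p i t) ω (M * α i - dd i))
          (Finset.univ.filter fun l => Crit A m α i → (M : ℝ) * α i - dd i ≤ o l)
          (fun l hl t => (hlog l t).mono ((Finset.mem_filter.1 hl).2 hi)) (C := C * M ^ h i)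
          fun N hN => ?_).trans ?_
        · obtain ⟨ω, hω, hsec⟩ := hN
          exact hC M N hM ⟨ω, hω, fun l => ⟨hsecK i _ _ _ (hsec l).1, (hsec l).2⟩⟩
        · exact Nat.mul_le_mul_left _ (Nat.pow_le_pow_right hM (hκ1 i hi))
      · obtain ⟨C, hC⟩ := (H i).num (S' i)
        refine ⟨C, fun M hM ι _ b o hb hbV hlog => ?_⟩
        refine (card_good (hy i) hb hbV (fun ω => True) _
          (fun l hl => trivial) (C := C * M ^ e i) fun N hN => ?_).trans ?_
        · obtain ⟨ω, hω, hsec⟩ := hN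
          exact hC M N hM ⟨ω, hω, fun l => hsecK i _ _ _ (hsec l).1⟩
        · exact Nat.mul_le_mul_left _ (Nat.pow_le_pow_right hM (hκ2 i hi))
    choose C hC using hCi
    refine ⟨∏ i, C i, fun M N hM hN => ?_⟩
    obtain ⟨ι, hι, b, o, hlin, hbV, hlog, hup, hex⟩ := hS M hM
    obtain ⟨ω, hω, hsec⟩ := hN
    let T : ∀ i, Finset (ι i) := fun i =>
      Finset.univ.filter fun l => Crit A m α i → (M : ℝ) * α i - dd i ≤ o i l
    have hind := indep_coef hY hE hb0 hω fun l => (hsec l).1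
    have hspan : ∀ l, b0 * ω l E ∈ Submodule.span k
        (Set.range fun J : (∀ i, T i) => ∏ i, φ i (b i (J i))) := by
      intro l
      obtain ⟨c, hc, hJ⟩ := hex (ω l) (hsec l)
      rw [hc]
      refine Submodule.sum_mem _ fun J _ => ?_
      by_cases hJ0 : c J = 0
      · rw [hJ0, zero_smul]
        exact zero_mem _
      · refine Submodule.smul_mem _ _ (Submodule.subset_span ?_)
        refine ⟨fun i => ⟨J i, ?_⟩, rfl⟩
        refine Finset.mem_filter.2 ⟨Finset.mem_univ _, fun hi => ?_⟩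
        exact hdd i hi M (fun i' => o i' (J i')) (fun i' => hup i' (J i')) (hJ J hJ0)
    have h1 := card_of_span hind hspan
    rw [Fintype.card_pi] at h1
    refine h1.trans ?_
    rw [← Finset.prod_pow_eq_pow_sum, ← Finset.prod_mul_distrib]
    refine Finset.prod_le_prod' fun i _ => ?_
    rw [Fintype.card_coe]
    exact hC i M hM (ι i) (b i) (o i) (hlin i) (hbV i) (hlog i)

end

end Pool.Agent.K1H17.TP
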