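import Pool.Agent.K1H17.TP.Pd

/-! Logarithmic vector fields and the Gauss extension; adapted families of products. -/

set_option autoImplicit false
set_option linter.overlappingInstances false
set_option linter.unusedSectionVars false
set_option linter.unusedVariables false

open FF IntermediateField Pool.Agent.W619.PQ Pool.Agent.W619.PL Pool.Agent.W619.TW
  Pool.Agent.W603.LV Pool.Agent.K1H17.IS Pool.Agent.W381.PG

namespace Pool.Agent.K1H17.TP

section

variable {k L : Type*} [Field k] [Field L] [Algebra k L] [CharZero k] [IsAlgClosed k]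
  {M F : IntermediateField k L} {u : Place k M} {n m : ℤ} {z w : L}

theorem GG_log (D : Derivation k L L)
    (hM : ∀ μ : M, ∃ μ' : M, D (μ : L) = (μ : L) * (μ' : L) ∧ u.Reg μ')
    (hF : ∀ β : F, ∃ β' : F, D (β : L) = (β' : L)) (hz : z ∈ GG F u n) : D z ∈ GG F u n := by
  refine GG_ind (p := fun z => D z ∈ GG F u n) ?_ ?_ ?_ hz
  · rw [map_zero]; exact zero_mem _
  · intro x y hx hy
    rw [map_add]; exact add_mem hx hy
  · intro β μ hμ
    obtain ⟨μ', h1, h2⟩ := hM μ
    obtain ⟨β', h3⟩ := hF β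
    rw [D.leibniz, h1, h3, smul_eq_mul, smul_eq_mul]
    refine add_mem ?_ ?_
    · rw [mul_comm]
      refine GG_mul_F β ?_
      have h4 : Ge u (n + 0) (μ * μ') := hμ.mul h2
      rw [add_zero] at h4
      have h5 : (μ : L) * (μ' : L) = ((μ * μ' : M) : L) := rfl
      rw [h5]
      exact GG_M h4
    · exact GG_mul_F β' (GG_M hμ)

theorem UU_log (h : Dj M F) (u : Place k M) (D : Derivation k L L)
    (hM : ∀ μ : M, ∃ μ' : M, D (μ : L) = (μ : L) * (μ' : L) ∧ u.Reg μ')
    (hF : ∀ β : F, ∃ β' : F, D (β : L) = (β' : L)) :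
    LogD (Pool.Agent.K1H17.IS.UU h u) D := by
  have key : ∀ a n, Pool.Agent.K1H17.IS.Nr F u a n →
      (Pool.Agent.K1H17.IS.UU h u).Reg (D a / a) := by
    intro a n ha
    have h1 := Pool.Agent.K1H17.IS.GG_UU h u (GG_log D hM hF ha.1)
    have h3 : (Pool.Agent.K1H17.IS.UU h u).ord a = n :=
      Pool.Agent.K1H17.IS.od_eq h (ha.or h)
    rcases h1 with h1 | h1
    · rw [h1, zero_div]; exact Or.inl rfl
    · by_cases h0 : D a = 0
      · rw [h0, zero_div]; exact Or.inl rfl
      right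
      rw [div_eq_mul_inv, (Pool.Agent.K1H17.IS.UU h u).ord_mul h0 (inv_ne_zero ha.ne),
        (Pool.Agent.K1H17.IS.UU h u).ord_inv, h3]
      omega
  intro f
  by_cases h0 : f = 0
  · rw [h0, div_zero]; exact Or.inl rfl
  obtain ⟨n, a, b, p, q, ha, hb, rfl, rfl⟩ := Pool.Agent.K1H17.IS.Or'.exists h u h0
  have ha0 := ha.ne
  have hb0 := hb.ne
  have h1 : D (a / b) / (a / b) = D a / a - D b / b := by
    rw [D.leibniz_div, smul_eq_mul, smul_eq_mul, smul_eq_mul]
    field_simp
  rw [h1]
  have h2 : Ge (Pool.Agent.K1H17.IS.UU h u) 0 (D a / a) := key a p ha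
  have h3 : Ge (Pool.Agent.K1H17.IS.UU h u) 0 (D b / b) := key b q hb
  exact h2.sub h3

/-- The trivial extension on the first factor. -/
theorem fam_A (h : Dj M F) (v : Place k F) {ι : Type} [Fintype ι] {b : ι → F} (hb : Adp v b)
    (a : ι → M) (hz : Ge (Pool.Agent.K1H17.IS.UU h.symm v) n (∑ i, (a i : L) * (b i : L)))
    (i : ι) : a i = 0 ∨ Ge v n (b i) := by
  classical
  by_cases hai : a i = 0
  · exact Or.inl hai
  right
  let V := Submodule.span k (Set.range a)
  have hfin : FiniteDimensional k V := FiniteDimensional.span_of_finite k (Set.finite_range a)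
  let e := Module.finBasis k V
  have haV : ∀ i, a i ∈ V := fun i => Submodule.subset_span ⟨i, rfl⟩
  let γ : ι → Fin (Module.finrank k V) → k := fun i l => e.repr ⟨a i, haV i⟩ l
  have hγ : ∀ i, (a i : L) = ∑ l, γ i l • (((e l : V) : M) : L) := by
    intro i
    have h3 := congrArg (fun z : V => ((z : M) : L)) (e.sum_repr ⟨a i, haV i⟩)
    change (((∑ l, e.repr ⟨a i, haV i⟩ l • e l : V) : M) : L) = ((a i : M) : L) at h3
    rw [← h3, AddSubmonoidClass.coe_finsetSum, AddSubmonoidClass.coe_finsetSum]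
    rfl
  have h1 : ∑ i, (a i : L) * (b i : L) =
      ∑ l, (((e l : V) : M) : L) * ((∑ i, γ i l • b i : F) : L) := by
    have h4 : ∀ l, ((∑ i, γ i l • b i : F) : L) = ∑ i, γ i l • (b i : L) := by
      intro l
      rw [AddSubmonoidClass.coe_finsetSum]
      rfl
    simp only [h4, hγ, Finset.mul_sum, Finset.sum_mul]
    rw [Finset.sum_comm]
    refine Finset.sum_congr rfl fun l _ => Finset.sum_congr rfl fun i _ => ?_
    rw [mul_smul_comm, smul_mul_assoc]
  rw [h1] at hz
  have hind : LinearIndependent k (fun l => ((e l : V) : M)) :=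
    e.linearIndependent.map' V.subtype (Submodule.ker_subtype V)
  have h2 := Pool.Agent.K1H17.IS.UU_fam h.symm v _ (fun l => ((e l : V) : M))
    (fun l => ∑ i, γ i l • b i) n hind hz
  obtain ⟨l, hl⟩ : ∃ l, γ i l ≠ 0 := by
    by_contra hcon
    push Not at hcon
    apply hai
    apply Subtype.ext
    rw [hγ i]
    exact Finset.sum_eq_zero fun l _ => by rw [hcon l, zero_smul]
  exact hb.2 (fun i => γ i l) n (h2 l) i hl

/-- The trivial extension on the second factor. -/
theorem fam_B (h : Dj M F) (u : Place k M) {v : Place k F} {ι : Type} [Fintype ι] {b : ι → F}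
    (hb : Adp v b) (a : ι → M)
    (hz : Ge (Pool.Agent.K1H17.IS.UU h u) n (∑ i, (a i : L) * (b i : L))) (i : ι) :
    Ge u n (a i) := by
  refine UU_famS h u Finset.univ b a n hb.lin ?_ i (Finset.mem_univ i)
  have h1 : ∑ i, (b i : L) * (a i : L) = ∑ i, (a i : L) * (b i : L) :=
    Finset.sum_congr rfl fun i _ => mul_comm _ _
  rw [h1]
  exact hz

/-- Products of adapted families. -/
theorem adp_prod (W : Place k L) {v : Place k F}
    (hW : ∀ (ι : Type) [Fintype ι] (b : ι → F), Adp v b → ∀ (a : ι → M) (n : ℤ),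
      Ge W n (∑ i, (a i : L) * (b i : L)) → ∀ i, Ge W n ((a i : L) * (b i : L)))
    {ι κ : Type} [Fintype ι] [Fintype κ] {b : ι → F} {B : κ → M} (hb : Adp v b)
    (hB : Adp W (fun j => (B j : L))) : Adp W (fun p : ι × κ => (b p.1 : L) * (B p.2 : L)) := by
  have hbL : ∀ i, (b i : L) ≠ 0 := fun i h => hb.1 i (Subtype.ext h)
  have hBL : ∀ i, (B i : L) ≠ 0 := fun i => hB.1 i
  refine ⟨fun p => mul_ne_zero (hbL _) (hBL _), fun c n hn p hp => ?_⟩
  have h1 : ∑ p : ι × κ, c p • ((b p.1 : L) * (B p.2 : L)) =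
      ∑ i, ((∑ j, c (i, j) • B j : M) : L) * (b i : L) := by
    rw [Fintype.sum_prod_type]
    refine Finset.sum_congr rfl fun i _ => ?_
    rw [AddSubmonoidClass.coe_finsetSum, Finset.sum_mul]
    refine Finset.sum_congr rfl fun j _ => ?_
    have h2 : ((c (i, j) • B j : M) : L) = c (i, j) • (B j : L) := rfl
    rw [h2, smul_mul_assoc, mul_comm]
  rw [h1] at hn
  have h2 := hW ι b hb _ n hn p.1
  have h3 := hB.ord (c := fun j => c (p.1, j)) (i := p.2) hp
  have h7 : ((∑ j, c (p.1, j) • B j : M) : L) = ∑ j, c (p.1, j) • (B j : L) := by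
    rw [AddSubmonoidClass.coe_finsetSum]
    rfl
  rw [← h7] at h3
  have h5 := h2.resolve_left (mul_ne_zero h3.1 (hbL _))
  right
  rw [W.ord_mul h3.1 (hbL _)] at h5
  rw [W.ord_mul (hbL _) (hBL _)]
  linarith [h3.2]

theorem adp_up (W : Place k L) {w' : Place k M} {α : ℤ} (hα : 0 ≤ α)
    (hWM : ∀ a : M, W.ord (a : L) = α * w'.ord a) {κ : Type} [Fintype κ] {B : κ → M}
    (hB : Adp w' B) : Adp W (fun j => (B j : L)) := by
  refine ⟨fun j h => hB.1 j (Subtype.ext h), fun c n hn i hi => ?_⟩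
  have h7 : ((∑ j, c j • B j : M) : L) = ∑ j, c j • (B j : L) := by
    rw [AddSubmonoidClass.coe_finsetSum]
    rfl
  have h3 := hB.ord (c := c) hi
  rw [← h7] at hn
  have h5 := hn.resolve_left fun h => h3.1 (Subtype.ext h)
  right
  rw [hWM] at h5 ⊢
  have h6 := mul_le_mul_of_nonneg_left h3.2 hα
  linarith

end

section

variable {k F : Type*} [Field k] [Field F] [Algebra k F] {v : Place k F}

theorem Adp.unique {ι : Type*} [Fintype ι] [Unique ι] {b : ι → F} (hb : b default ≠ 0) :
    Adp v b := by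
  refine ⟨fun i => by rwa [Unique.eq_default i], fun c n hn i hi => ?_⟩
  rw [Unique.eq_default i] at hi ⊢
  rw [Fintype.sum_unique] at hn
  have h2 := ge_smul (v := v) (c default)⁻¹ hn
  rwa [smul_smul, inv_mul_cancel₀ hi, one_smul] at h2

end

end Pool.Agent.K1H17.TP
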