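import Pool.Agent.K1H17.TP.Kb
import Pool.Agent.K1H17.TP.Em

/-! Transport of sections along isomorphisms. -/

set_option autoImplicit false
set_option linter.overlappingInstances false
set_option linter.unusedSectionVars false
set_option linter.unusedVariables false

open FF IntermediateField Pool.Agent.W619.PQ Pool.Agent.W619.PL Pool.Agent.W619.TW
  Pool.Agent.W603.LV Pool.Agent.W619.Y Pool.Agent.K1H17.IS
  Pool.Agent.W460.PG.ONE

namespace Pool.Agent.K1H17.TP

section

variable {k K K' : Type} [Field k] [Field K] [Field K'] [Algebra k K] [Algebra k K']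

/-- Transport of a vector field. -/
def pushD (e : K ≃ₐ[k] K') (D : Derivation k K K) : Derivation k K' K' where
  toFun := fun x => e (D (e.symm x))
  map_add' := fun x y => by simp
  map_smul' := fun c x => by simp
  map_one_eq_zero' := by
    show e (D (e.symm 1)) = 0
    rw [map_one, D.map_one_eq_zero, map_zero]
  leibniz' := fun x y => by
    show e (D (e.symm (x * y))) = x • e (D (e.symm y)) + y • e (D (e.symm x))
    rw [map_mul, D.leibniz, map_add, smul_eq_mul, smul_eq_mul, map_mul, map_mul,
      AlgEquiv.apply_symm_apply, AlgEquiv.apply_symm_apply, smul_eq_mul, smul_eq_mul]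

theorem pushD_apply (e : K ≃ₐ[k] K') (D : Derivation k K K) (x : K') :
    pushD e D x = e (D (e.symm x)) := rfl

theorem pushD_e (e : K ≃ₐ[k] K') (D : Derivation k K K) (x : K) :
    pushD e D (e x) = e (D x) := by rw [pushD_apply, AlgEquiv.symm_apply_apply]

theorem pushP_reg (e : K ≃ₐ[k] K') (p : Place k K) (x : K') :
    (pushP e p).Reg x ↔ p.Reg (e.symm x) := by
  constructor
  · rintro (h | h)
    · left; rw [h, map_zero]
    · right; exact h
  · rintro (h | h)
    · left; simpa using h
    · right; exact h

theorem pluri_det {n m : ℕ} (q : K) (y : Fin n → K) :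
    IsPluriForm k K n m (fun D => q * (Matrix.of fun a b => D a (y b)).det ^ m) := by
  intro A D
  have h2 : (Matrix.of fun a b => (∑ c, A a c • D c) (y b)) =
      A * Matrix.of fun a b => D a (y b) := by
    ext a b
    rw [Matrix.of_apply, Matrix.mul_apply]
    simp only [Matrix.of_apply]
    exact Pool.Agent.W460.PG.ONE.der_sum (L := K) _ _ _ _
  show q * (Matrix.of fun a b => (∑ c, A a c • D c) (y b)).det ^ m = _
  rw [h2, Matrix.det_mul]
  ring

theorem VV_pull (e : K ≃ₐ[k] K') {n : ℕ} {Bd : Place k K → Prop} {Bd' : Place k K' → Prop}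
    (hBd : ∀ u, Bd u ↔ Bd' (pushP e u)) {S' : Finset K'} {m j : ℕ} {y : Fin n → K}
    [DecidableEq K] {q : K'} (hq : q ∈ VV k Bd' S' m j (fun l => e (y l))) :
    e.symm q ∈ VV k Bd (S'.image e.symm) m j y := by
  have h1 : IsSec k K' n Bd' S' m j
    (fun D => q * (Matrix.of fun a b => D a (e (y b))).det ^ m) := hq
  have hval : ∀ D : Fin n → Derivation k K K,
      q * (Matrix.of fun a b => pushD e (D a) (e (y b))).det ^ m =
        e (e.symm q * (Matrix.of fun a b => D a (y b)).det ^ m) := by
    intro D
    have h2 : (Matrix.of fun a b => pushD e (D a) (e (y b))) =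
        (e : K →+* K').mapMatrix (Matrix.of fun a b => D a (y b)) := by
      ext a b
      rw [Matrix.of_apply, pushD_e]
      rfl
    rw [h2, ← RingHom.map_det, map_mul, map_pow, AlgEquiv.apply_symm_apply]
    rfl
  have hdom : ∀ (v : Place k K) (f : K), Dom (pushP e v) S' j (e f) →
      Dom v (S'.image e.symm) j f := by
    intro v f hf
    rcases hf with hf | ⟨s, hs, hs0, hf⟩
    · left; simpa using hf
    · right
      refine ⟨e.symm s, Finset.mem_image_of_mem _ hs, by simpa using hs0, ?_⟩
      rw [pushP_apply] at hf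
      exact hf
  refine ⟨pluri_det _ _, ?_, ?_⟩
  · intro v hv hb D hD
    refine hdom v _ ?_
    rw [← hval]
    refine h1.2.1 (pushP e v) (pushP_div e hv) (fun h => hb ((hBd v).2 h))
      (fun l => pushD e (D l)) fun l f hf => ?_
    rw [pushP_reg] at hf ⊢
    rw [pushD_apply, AlgEquiv.symm_apply_apply]
    exact hD l _ hf
  · intro v hv hb D hD
    refine hdom v _ ?_
    rw [← hval]
    refine h1.2.2 (pushP e v) (pushP_div e hv) ((hBd v).1 hb)
      (fun l => pushD e (D l)) fun l f => ?_
    rw [pushP_reg, map_div₀, pushD_apply, AlgEquiv.symm_apply_apply]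
    exact hD l _

end

end Pool.Agent.K1H17.TP
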